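import Pool.Agent.P.MP_c64be1_ag.Asy.BCAux

/-! The swap lemma. -/

namespace Pool.Agent.P.MP_c64be1_ag.Asy

open MvPolynomial Module

section abstract

variable {A Kd : Type} [CommRing A] [Algebra ℂ A] {S : Sys A Kd} {V H : Submodule ℂ A} {k : ℕ}
  (G : Good S V H k) [FiniteDimensional ℂ ↥(V ^ k)]

include G

lemma Good.del_mono (x y : Kd) (s : Multiset Kd) : del S x s ≤ del S x (y ::ₘ s) := by
  classical
  obtain ⟨m, κ, rfl⟩ := exists_family s
  let κ' : Fin m ⊕ Bool → Kd := Sum.elim κ fun b => if b then x else y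
  obtain ⟨c, hc⟩ := G.exists_gen κ'
  let J : Finset (Fin m ⊕ Bool) := Finset.univ.map Function.Embedding.inl
  have hJ : J.val.map κ' = Finset.univ.val.map κ := by
    simp only [J, Finset.map_val, Multiset.map_map]
    rfl
  have hn : (Sum.inr false : Fin m ⊕ Bool) ∉ J := by simp [J]
  have h1 := G.finrank_inf κ' hc (J := J) (a := Sum.inr true) (by simp [J])
  have h2 := G.finrank_inf κ' hc (J := insert (Sum.inr false) J) (a := Sum.inr true) (by simp [J])
  rw [Finset.insert_val_of_notMem hn, Multiset.map_cons] at h2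
  rw [hJ] at h1 h2
  have : FiniteDimensional ℂ (S.Obj (κ' (Sum.inr true)) (c (Sum.inr true))) :=
    Submodule.finiteDimensional_of_le (G.le _ _ (c _).2)
  have h3 := Submodule.finrank_mono (inf_le_inf_left (S.Obj (κ' (Sum.inr true)) (c (Sum.inr true)))
    (MM_mono κ' (Finset.subset_insert (Sum.inr false) J) c))
  rw [h1, h2] at h3
  exact h3

lemma Good.exists_stable (x : Kd) (s : Multiset Kd) :
    ∃ e : Multiset Kd, (∀ y ∈ e, y ∈ s) ∧ e.card + del S x s ≤ del S x (s + e) ∧
      ∀ y ∈ s, del S x (y ::ₘ (s + e)) ≤ del S x (s + e) := by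
  by_contra hn
  push Not at hn
  have key : ∀ n : ℕ, ∃ e : Multiset Kd, (∀ y ∈ e, y ∈ s) ∧ e.card = n ∧
      e.card + del S x s ≤ del S x (s + e) := by
    intro n
    induction n with
    | zero => exact ⟨0, by simp, rfl, by simp⟩
    | succ n ih =>
      obtain ⟨e, he, hc, hd⟩ := ih
      obtain ⟨y, hy, hlt⟩ := hn e he hd
      refine ⟨y ::ₘ e, fun z hz => ?_, by simp [hc], ?_⟩
      · rcases Multiset.mem_cons.mp hz with rfl | h
        · exact hy
        · exact he z h
      · rw [Multiset.add_cons, Multiset.card_cons]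
        omega
  obtain ⟨e, -, hc, hd⟩ := key (rk S {x} + 1)
  have := G.del_le x (s + e)
  omega

/-- The kinds of one test object and two copies of a family. -/
def twoK {m : ℕ} (x : Kd) (κ : Fin m → Kd) : Option (Fin m × Bool) → Kd
  | none => x
  | some p => κ p.1

/-- The choice of one of the two copies of each member. -/
def selJ {m : ℕ} (β : Fin m → Bool) : Finset (Option (Fin m × Bool)) :=
  Finset.univ.map ⟨fun i => some (i, β i), fun _ _ h => by simpa using congrArg (·.map Prod.fst) h⟩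

omit G [FiniteDimensional ℂ ↥(V ^ k)] in
lemma mem_selJ {m : ℕ} {β : Fin m → Bool} {o : Option (Fin m × Bool)} :
    o ∈ selJ β ↔ ∃ i, o = some (i, β i) := by
  simp [selJ, eq_comm]

omit G [FiniteDimensional ℂ ↥(V ^ k)] in
lemma selJ_val {m : ℕ} (x : Kd) (κ : Fin m → Kd) (β : Fin m → Bool) :
    (selJ β).val.map (twoK x κ) = Finset.univ.val.map κ := by
  simp only [selJ, Finset.map_val, Multiset.map_map]
  rfl

lemma Good.swap {m : ℕ} (x : Kd) (κ : Fin m → Kd)
    (hst : ∀ i, del S x (κ i ::ₘ Finset.univ.val.map κ) ≤ del S x (Finset.univ.val.map κ))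
    {c : (i : Option (Fin m × Bool)) → S.Q (twoK x κ i)} (hc : Gen S (twoK x κ) c) :
    S.Obj x (c none) ⊓ MM S (twoK x κ) (selJ fun _ => false) c =
      S.Obj x (c none) ⊓ MM S (twoK x κ) (selJ fun _ => true) c := by
  classical
  have hfd : FiniteDimensional ℂ (S.Obj x (c none)) :=
    Submodule.finiteDimensional_of_le (G.le _ _ (c none).2)
  have hdim : ∀ β : Fin m → Bool, finrank ℂ ↥(S.Obj x (c none) ⊓ MM S (twoK x κ) (selJ β) c)
      = del S x (Finset.univ.val.map κ) := by
    intro β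
    have := G.finrank_inf (twoK x κ) hc (J := selJ β) (a := none) (by simp [mem_selJ])
    rwa [selJ_val] at this
  have one : ∀ (β : Fin m → Bool) (i : Fin m), β i = false →
      S.Obj x (c none) ⊓ MM S (twoK x κ) (selJ β) c =
        S.Obj x (c none) ⊓ MM S (twoK x κ) (selJ (Function.update β i true)) c := by
    intro β i hi
    have hn : some (i, true) ∉ selJ β := by
      rw [mem_selJ]
      rintro ⟨l, hl⟩
      simp only [Option.some.injEq, Prod.mk.injEq] at hl
      rw [← hl.1, hi] at hl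
      exact absurd hl.2 (by simp)
    have h1 := G.finrank_inf (twoK x κ) hc (J := insert (some (i, true)) (selJ β)) (a := none)
      (by simp [mem_selJ])
    rw [Finset.insert_val_of_notMem hn, Multiset.map_cons, selJ_val] at h1
    have h2 : finrank ℂ ↥(S.Obj x (c none) ⊓ MM S (twoK x κ) (insert (some (i, true)) (selJ β)) c)
        ≤ del S x (Finset.univ.val.map κ) := h1.le.trans (hst i)
    have hs : selJ (Function.update β i true) ⊆ insert (some (i, true)) (selJ β) := by
      intro o ho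
      obtain ⟨l, rfl⟩ := mem_selJ.mp ho
      by_cases hl : l = i
      · subst hl
        simp
      · rw [Function.update_of_ne hl]
        exact Finset.mem_insert_of_mem (mem_selJ.mpr ⟨l, rfl⟩)
    have e1 := Submodule.eq_of_le_of_finrank_le (inf_le_inf_left (S.Obj x (c none))
      (MM_mono (twoK x κ) (Finset.subset_insert (some (i, true)) (selJ β)) c))
      (by rw [hdim]; exact h2)
    have e2 := Submodule.eq_of_le_of_finrank_le (inf_le_inf_left (S.Obj x (c none))
      (MM_mono (twoK x κ) hs c)) (by rw [hdim]; exact h2)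
    rw [e1, e2]
  have key : ∀ E : Finset (Fin m), S.Obj x (c none) ⊓ MM S (twoK x κ) (selJ fun _ => false) c =
      S.Obj x (c none) ⊓ MM S (twoK x κ) (selJ fun i => decide (i ∈ E)) c := by
    intro E
    induction E using Finset.induction_on with
    | empty => simp
    | insert a E ha ih =>
      rw [ih, one _ a (by simpa using ha)]
      congr 3
      funext i
      by_cases hi : i = a
      · subst hi
        simp
      · simp [hi]
  simpa using key Finset.univ

end abstract

variable {σ Kd : Type}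

theorem bc_stable_gen {sV : Finset σ} {H : Submodule ℂ (MvPolynomial σ ℂ)} (hH : H ≤ VX sV)
    {S : Sys (MvPolynomial σ ℂ) Kd} {k : ℕ} (G : Good S (VX sV) H k) (x : Kd) {m : ℕ}
    (κ : Fin m → Kd) (hpos : 0 < del S x (Finset.univ.val.map κ))
    (hst' : ∀ i, del S x (κ i ::ₘ Finset.univ.val.map κ) ≤ del S x (Finset.univ.val.map κ))
    {c : (i : Option (Fin m × Bool)) → S.Q (twoK x κ i)} (hc : Gen S (twoK x κ) c) :
    H ^ k ≤ MM S (twoK x κ) (selJ fun _ => true) c := by
  classical
  have hdim := G.finrank_inf (twoK x κ) hc (J := selJ fun _ => false) (a := none)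
    (by simp [mem_selJ])
  rw [selJ_val] at hdim
  obtain ⟨w, hw, hw0⟩ : ∃ w ∈ S.Obj x (c none) ⊓ MM S (twoK x κ) (selJ fun _ => false) c,
      w ≠ 0 := by
    refine Submodule.exists_mem_ne_zero_of_ne_bot fun h0 => ?_
    have h1 : finrank ℂ ↥(S.Obj x (c none) ⊓ MM S (twoK x κ) (selJ fun _ => false) c) = 0 := by
      rw [h0, finrank_bot]
    have h2 : del S x (Finset.univ.val.map κ) = 0 := hdim.symm.trans h1
    omega
  have hwV : w ∈ VX sV ^ k := G.le _ _ (c none).2 hw.1
  obtain ⟨a, ha⟩ : ∃ a : σ → ℂ, eval a w ≠ 0 := by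
    by_contra hn
    push Not at hn
    exact hw0 (MvPolynomial.funext fun a => by simp [hn a])
  refine polar H k _ fun p hp => pow_mem_of_sub1 a p hwV ha _ ?_
  let d : (i : Option (Fin m × Bool)) → S.Q (twoK x κ i) := fun o =>
    ⟨fun b => if (o.map Prod.snd) = some true then eval a ((c o).1 b) • p else 0,
      G.memH _ _ fun b => by
        split_ifs
        · exact H.smul_mem _ hp
        · exact H.zero_mem⟩
  have hfin := G.opn_gen (twoK x κ) c d hc
  have hinj : Function.Injective fun τ : ℂ => -(τ + eval a p)⁻¹ := by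
    intro τ τ' h
    simpa using h
  refine (((hfin.preimage hinj.injOn).union (Set.finite_singleton 0)).union
    (Set.finite_singleton (-eval a p))).subset fun τ hτ => ?_
  by_contra hn
  simp only [Set.mem_union, Set.mem_preimage, Set.mem_ofPred_eq, Set.mem_singleton_iff, not_or,
    not_not] at hn hτ
  obtain ⟨⟨hgen, hτ0⟩, hτ1⟩ := hn
  have hτ2 : τ + eval a p ≠ 0 := fun h => hτ1 (by linear_combination h)
  set t : ℂ := -(τ + eval a p)⁻¹ with ht
  apply hτ
  have hsw := G.swap x κ hst' hgen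
  have hnone : ((c + t • d) none : ℕ → MvPolynomial σ ℂ) = c none := by
    funext b
    simp [d]
  have hfalse : MM S (twoK x κ) (selJ fun _ => false) (c + t • d) =
      MM S (twoK x κ) (selJ fun _ => false) c := by
    refine iSup_congr fun o => iSup_congr fun ho => ?_
    obtain ⟨i, rfl⟩ := mem_selJ.mp ho
    congr 1
    funext b
    simp [d]
  rw [hnone, hfalse] at hsw
  have hw2 : w ∈ MM S (twoK x κ) (selJ fun _ => true) (c + t • d) := (hsw ▸ hw).2
  have hV : (VX sV).map (sub1 a p 1 τ⁻¹).toLinearMap ≤ VX sV := by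
    rintro _ ⟨v, hv, rfl⟩
    change sub1 a p 1 τ⁻¹ v ∈ _
    rw [sub1_apply a p _ _ hv]
    exact add_mem (Submodule.smul_mem _ _ hv) (Submodule.smul_mem _ _ (hH hp))
  have hHH : H.map (sub1 a p 1 τ⁻¹).toLinearMap ≤ H := by
    rintro _ ⟨v, hv, rfl⟩
    change sub1 a p 1 τ⁻¹ v ∈ _
    rw [sub1_apply a p _ _ (hH hv)]
    exact add_mem (Submodule.smul_mem _ _ hv) (Submodule.smul_mem _ _ hp)
  have hmap : (MM S (twoK x κ) (selJ fun _ => true) (c + t • d)).map
      (sub1 a p 1 τ⁻¹).toLinearMap ≤ MM S (twoK x κ) (selJ fun _ => true) c := by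
    simp only [MM, Submodule.map_iSup]
    refine iSup_mono fun o => iSup_mono fun ho => (G.eqv _ _ _ hV hHH).trans (le_of_eq ?_)
    obtain ⟨i, rfl⟩ := mem_selJ.mp ho
    congr 1
    funext b
    have hv := G.memV _ _ (c (some (i, true))).2 b
    have h1 : ((c + t • d) (some (i, true)) : ℕ → MvPolynomial σ ℂ) b =
        (c (some (i, true))).1 b + t • eval a ((c (some (i, true))).1 b) • p := by
      simp [d]
    rw [h1, map_add, map_smul, map_smul, sub1_apply a p _ _ hv, sub1_apply a p _ _ (hH hp)]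
    have h2 : τ⁻¹ + t * (1 + τ⁻¹ * eval a p) = 0 := by
      rw [ht]
      field_simp
      ring
    have h3 : ∀ (v : MvPolynomial σ ℂ) (e : ℂ), (1 : ℂ) • v + (τ⁻¹ * e) • p +
        t • e • ((1 : ℂ) • p + (τ⁻¹ * eval a p) • p)
          = v + (e * (τ⁻¹ + t * (1 + τ⁻¹ * eval a p))) • p := by
      intro v e
      module
    rw [h3, h2, mul_zero, zero_smul, add_zero]
  exact hmap ⟨w, hw2, rfl⟩

theorem bc_stable {sV : Finset σ} {H : Submodule ℂ (MvPolynomial σ ℂ)} (hH : H ≤ VX sV)
    {S : Sys (MvPolynomial σ ℂ) Kd} {k : ℕ} (G : Good S (VX sV) H k) (x : Kd) (s : Multiset Kd)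
    (hpos : 0 < del S x s) (hst : ∀ y ∈ s, del S x (y ::ₘ s) ≤ del S x s) :
    ∃ U, Reach S s U ∧ H ^ k ≤ U := by
  obtain ⟨m, κ, rfl⟩ := exists_family s
  obtain ⟨c, hc⟩ := G.exists_gen (twoK x κ)
  exact ⟨MM S (twoK x κ) (selJ fun _ => true) c, selJ_val x κ _ ▸ reach_MM _ _ c,
    bc_stable_gen hH G x κ hpos
      (fun i => hst _ (Multiset.mem_map_of_mem _ (Finset.mem_univ i))) hc⟩

theorem bc_core {sV : Finset σ} {H : Submodule ℂ (MvPolynomial σ ℂ)} (hH : H ≤ VX sV)
    {S : Sys (MvPolynomial σ ℂ) Kd} {k : ℕ} (G : Good S (VX sV) H k) (x : Kd) (s : Multiset Kd)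
    {g D : ℕ} (hg : ∃ c ∈ S.Q x, g ≤ finrank ℂ (S.Obj x c))
    (hD : ∀ c ∈ S.Q x, finrank ℂ (S.Obj x c) ≤ D) (h : rk S (x ::ₘ s) < rk S s + g) :
    ∃ e : Multiset Kd, (∀ y ∈ e, y ∈ s) ∧ e.card ≤ D ∧ ∃ U, Reach S (s + e) U ∧ H ^ k ≤ U := by
  obtain ⟨c, hc, hgc⟩ := hg
  have h1 := G.le_rk (reach_singleton S hc)
  have h2 : 0 < del S x s := by
    unfold del
    omega
  obtain ⟨e, he, hcard, hst⟩ := G.exists_stable x s
  have h3 := G.del_le x (s + e)
  have h4 := G.rk_singleton_le hD
  refine ⟨e, he, by omega, bc_stable hH G x (s + e) (by omega) fun y hy => hst y ?_⟩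
  rcases Multiset.mem_add.mp hy with h5 | h5
  · exact h5
  · exact he y h5

theorem bc_rank (sV : Finset σ) (H : Submodule ℂ (MvPolynomial σ ℂ)) (hH : H ≤ VX sV)
    (S : Sys (MvPolynomial σ ℂ) Kd) (k : ℕ) (G : Good S (VX sV) H k) (sz : Kd → ℕ) (D : ℕ)
    (s : Multiset Kd) (hsz : ∀ κ ∈ s, ∃ c ∈ S.Q κ, sz κ ≤ finrank ℂ (S.Obj κ c))
    (hD : ∀ κ ∈ s, ∀ c ∈ S.Q κ, finrank ℂ (S.Obj κ c) ≤ D) :
    ∃ U, Reach S s U ∧
      ((s.map sz).sum ≤ finrank ℂ U ∨ finrank ℂ ↥(H ^ k) ≤ finrank ℂ U + D * D) := by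
  have key : (s.map sz).sum ≤ rk S s ∨ finrank ℂ ↥(H ^ k) ≤ rk S s + D * D := by
    induction s using Multiset.induction_on with
    | empty => left; simp
    | cons x s ih =>
      have hmono := G.rk_mono s {x}
      rw [add_comm, Multiset.singleton_add] at hmono
      have hD' : ∀ κ ∈ s, ∀ c ∈ S.Q κ, finrank ℂ (S.Obj κ c) ≤ D :=
        fun κ hκ => hD κ (Multiset.mem_cons_of_mem hκ)
      rcases ih (fun κ hκ => hsz κ (Multiset.mem_cons_of_mem hκ)) hD' with h | h
      · by_cases h1 : rk S (x ::ₘ s) < rk S s + sz x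
        · right
          obtain ⟨e, he, hcard, U, hU, hfill⟩ := bc_core hH G x s
            (hsz x (Multiset.mem_cons_self _ _)) (hD x (Multiset.mem_cons_self _ _)) h1
          have : FiniteDimensional ℂ U := Submodule.finiteDimensional_of_le (G.reach_le hU)
          have h2 := Submodule.finrank_mono hfill
          have h3 := G.le_rk hU
          have h4 := G.rk_add_le s e
          have h5 := G.rk_le_mul (e := e) fun y hy => hD' y (he y hy)
          have h6 := Nat.mul_le_mul_right D hcard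
          omega
        · left
          rw [Multiset.map_cons, Multiset.sum_cons]
          omega
      · right
        omega
  obtain ⟨U, hU, h⟩ := G.exists_rk s
  exact ⟨U, hU, h ▸ key⟩

theorem bc_fill (sV : Finset σ) (H : Submodule ℂ (MvPolynomial σ ℂ)) (hH : H ≤ VX sV)
    (S : Sys (MvPolynomial σ ℂ) Kd) (k : ℕ) (G : Good S (VX sV) H k) (κ : Kd) (a g D : ℕ)
    (hg : ∃ c ∈ S.Q κ, g ≤ finrank ℂ (S.Obj κ c))
    (hD : ∀ c ∈ S.Q κ, finrank ℂ (S.Obj κ c) ≤ D) (h : NN sV.card k < a * g) :
    ∃ U, Reach S (Multiset.replicate (a + D) κ) U ∧ H ^ k ≤ U := by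
  have key : ∀ b : ℕ, b * g ≤ rk S (Multiset.replicate b κ) ∨
      ∃ U, Reach S (Multiset.replicate (b + D) κ) U ∧ H ^ k ≤ U := by
    have ext : ∀ b b' : ℕ, b ≤ b' → (∃ U, Reach S (Multiset.replicate b κ) U ∧ H ^ k ≤ U) →
        ∃ U, Reach S (Multiset.replicate b' κ) U ∧ H ^ k ≤ U := by
      rintro b b' hb ⟨U, hU, hf⟩
      obtain ⟨U', hU'⟩ := exists_reach S (Multiset.replicate (b' - b) κ)
      have := reach_add S hU hU'
      rw [← Multiset.replicate_add, Nat.add_sub_cancel' hb] at this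
      exact ⟨_, this, hf.trans le_sup_left⟩
    intro b
    induction b with
    | zero => left; simp
    | succ b ih =>
      rcases ih with h1 | h1
      · by_cases h2 : rk S (κ ::ₘ Multiset.replicate b κ) < rk S (Multiset.replicate b κ) + g
        · right
          obtain ⟨e, he, hcard, hU⟩ := bc_core hH G κ _ hg hD h2
          have h3 : e = Multiset.replicate e.card κ :=
            Multiset.eq_replicate_card.mpr fun y hy => Multiset.eq_of_mem_replicate (he y hy)
          rw [h3, ← Multiset.replicate_add] at hU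
          exact ext _ _ (by omega) hU
        · left
          rw [Multiset.replicate_succ, add_mul, one_mul]
          omega
      · right
        exact ext _ _ (by omega) h1
  rcases key a with h1 | h1
  · have h2 := G.rk_le (Multiset.replicate a κ)
    rw [finrank_VX_pow] at h2
    omega
  · exact h1

end Pool.Agent.P.MP_c64be1_ag.Asy
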