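import Pool.Agent.P.MP_c64be1_ag.Asy.Obj

/-! Dimensions of the objects. -/

namespace Pool.Agent.P.MP_c64be1_ag.Asy

open MvPolynomial Module

variable {σ : Type}

instance fd_VX (s : Finset σ) : FiniteDimensional ℂ (VX s) :=
  FiniteDimensional.span_of_finite ℂ (s.finite_toSet.image _)

instance fd_VX_pow (s : Finset σ) (k : ℕ) : FiniteDimensional ℂ ↥(VX s ^ k) :=
  Module.Finite.iff_fg.mpr ((Module.Finite.iff_fg.mp (fd_VX s)).pow k)

lemma mem_VX_pow_iff {s : Finset σ} {k : ℕ} {p : MvPolynomial σ ℂ} :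
    p ∈ VX s ^ k ↔ ∀ m, coeff m p ≠ 0 → m.degree = k ∧ m.support ⊆ s := by
  refine ⟨fun h m hm => ⟨?_, fun v hv => mem_of_coeff_ne_zero h hm (Finsupp.mem_support_iff.mp hv)⟩,
    fun h => ?_⟩
  · by_contra h1
    exact hm ((isHomogeneous_of_mem_pow (spanX_le _) h).coeff_eq_zero h1)
  · rw [p.as_sum]
    refine Submodule.sum_mem _ fun m hm => ?_
    obtain ⟨h1, h2⟩ := h m (mem_support_iff.mp hm)
    rw [← h1]
    exact monomial_mem_spanX_pow _ m fun v hv => h2 (Finsupp.mem_support_iff.mpr hv)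

lemma card_le_finrank_of_coeff {ι : Type} [Fintype ι] (U : Submodule ℂ (MvPolynomial σ ℂ))
    [FiniteDimensional ℂ U] (f : ι → MvPolynomial σ ℂ) (m : ι → σ →₀ ℕ) (hf : ∀ i, f i ∈ U)
    (h1 : ∀ i, coeff (m i) (f i) ≠ 0) (h0 : ∀ i l, i ≠ l → coeff (m l) (f i) = 0) :
    Fintype.card ι ≤ finrank ℂ U := by
  refine LinearIndependent.fintype_card_le_finrank (b := fun i => (⟨f i, hf i⟩ : U)) ?_
  refine Fintype.linearIndependent_iff.mpr fun g hg l => ?_
  have h2 := congrArg (fun u : U => coeff (m l) (u : MvPolynomial σ ℂ)) hg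
  simp only [Submodule.coe_sum, Submodule.coe_smul, coeff_sum, coeff_smul, Submodule.coe_zero,
    coeff_zero, smul_eq_mul] at h2
  rw [Finset.sum_eq_single l (fun i _ hi => by rw [h0 i l hi, mul_zero]) (by simp)] at h2
  exact (mul_eq_zero.mp h2).resolve_right (h1 l)

lemma card_le_finrank_of_monomial (U : Submodule ℂ (MvPolynomial σ ℂ)) [FiniteDimensional ℂ U]
    (M : Finset (σ →₀ ℕ)) (h : ∀ m ∈ M, monomial m (1 : ℂ) ∈ U) : M.card ≤ finrank ℂ U := by
  classical
  rw [← Fintype.card_coe]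
  exact card_le_finrank_of_coeff U (fun m : M => monomial m.1 1) (fun m => m.1)
    (fun m => h m.1 m.2) (fun m => by simp) fun i l hil => by
      rw [coeff_monomial, if_neg fun e => hil (Subtype.ext e)]

lemma mem_antidiag [DecidableEq σ] {s : Finset σ} {k : ℕ} {m : σ →₀ ℕ} :
    m ∈ s.finsuppAntidiag k ↔ m.degree = k ∧ m.support ⊆ s := Finset.mem_finsuppAntidiag'

lemma monomial_mem_VX_pow [DecidableEq σ] {s : Finset σ} {k : ℕ} {m : σ →₀ ℕ}
    (hm : m ∈ s.finsuppAntidiag k) : monomial m (1 : ℂ) ∈ VX s ^ k := by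
  refine mem_VX_pow_iff.mpr fun m' h => ?_
  rw [coeff_monomial] at h
  split_ifs at h with e
  · exact e ▸ mem_antidiag.mp hm
  · exact absurd rfl h

lemma finrank_VX_pow (s : Finset σ) (k : ℕ) : finrank ℂ ↥(VX s ^ k) = NN s.card k := by
  classical
  rw [NN, ← Finset.card_finsuppAntidiag_nat_eq_choose]
  refine le_antisymm ?_ (card_le_finrank_of_monomial _ _ fun m hm => monomial_mem_VX_pow hm)
  have h : VX s ^ k ≤ Submodule.span ℂ
      (((s.finsuppAntidiag k).image fun m => monomial m (1 : ℂ) : Finset _) : Set _) := by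
    intro p hp
    rw [p.as_sum]
    refine Submodule.sum_mem _ fun m hm => ?_
    have : monomial m (coeff m p) = coeff m p • monomial m (1 : ℂ) := by
      rw [smul_monomial, smul_eq_mul, mul_one]
    rw [this]
    exact Submodule.smul_mem _ _ (Submodule.subset_span (Finset.mem_coe.mpr (Finset.mem_image_of_mem
      _ (mem_antidiag.mpr (mem_VX_pow_iff.mp hp m (mem_support_iff.mp hm))))))
  exact (Submodule.finrank_mono h).trans ((finrank_span_finset_le_card _).trans
    Finset.card_image_le)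

lemma finrank_VX (s : Finset σ) : finrank ℂ (VX s) = s.card := by
  have := finrank_VX_pow s 1
  rwa [pow_one, NN, Nat.add_sub_cancel, Nat.choose_one_right] at this

section general

variable {A : Type} [CommRing A] [Algebra ℂ A]

lemma sp_pow_eq_map (c : ℕ → A) (j k : ℕ) : sp c j ^ k =
    (VX (Finset.univ : Finset (Fin j)) ^ k).map (aeval fun i : Fin j => c i).toLinearMap := by
  rw [Submodule.map_pow, VX, spanX, Submodule.map_span, sp, ← Submodule.span_range_eq_iSup,
    Finset.coe_univ, Set.image_univ, ← Set.range_comp]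
  congr 3
  funext i
  simp

instance fd_sp_pow (c : ℕ → A) (j k : ℕ) : FiniteDimensional ℂ ↥(sp c j ^ k) := by
  rw [sp_pow_eq_map]
  infer_instance

lemma sp_pow_upper (c : ℕ → A) (j k : ℕ) : finrank ℂ ↥(sp c j ^ k) ≤ NN j k := by
  rw [sp_pow_eq_map]
  refine (Submodule.finrank_map_le _ _).trans ?_
  rw [finrank_VX_pow, Finset.card_univ, Fintype.card_fin]

lemma finrank_span_one_le (a : A) : finrank ℂ (ℂ ∙ a) ≤ 1 := by
  simpa using finrank_span_le_card (R := ℂ) ({a} : Set A)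

lemma finrank_iSup_fin_le {g : ℕ} (U : Fin g → Submodule ℂ A) [∀ i, FiniteDimensional ℂ (U i)]
    {d : ℕ} (h : ∀ i, finrank ℂ (U i) ≤ d) : finrank ℂ ↥(⨆ i, U i) ≤ g * d := by
  refine (finrank_iSup_le_sum U).trans ((Finset.sum_le_card_nsmul _ _ d fun i _ => h i).trans ?_)
  simp

lemma finrank_span_two_le (a b : A) : finrank ℂ ↥((ℂ ∙ a) ⊔ ℂ ∙ b) ≤ 2 :=
  (Submodule.finrank_add_le_finrank_add_finrank _ _).trans
    (add_le_add (finrank_span_one_le a) (finrank_span_one_le b))

lemma jj_upper (k g : ℕ) (c : ℕ → A) : finrank ℂ (jj k g c) ≤ 2 * g ^ 2 := by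
  have h := finrank_iSup_fin_le (fun i : Fin g => ⨆ l : Fin g,
    ((ℂ ∙ c i ^ k) ⊔ ℂ ∙ (c i ^ (k - 2) * c l * (c i - c l)))) (d := g * 2) fun i =>
      finrank_iSup_fin_le _ fun l => finrank_span_two_le _ _
  exact h.trans (le_of_eq (by ring))

lemma span_pow_mul_eq (a : A) (k : ℕ) (V : Submodule ℂ A) :
    (ℂ ∙ a) ^ k * V = V.map (LinearMap.mulLeft ℂ (a ^ k)) := by
  refine le_antisymm ?_ ?_
  · rw [span_pow_eq, span_mul_le_iff]
    exact fun v hv => ⟨v, hv, rfl⟩
  · rintro _ ⟨v, hv, rfl⟩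
    exact pow_mul_mem k hv

instance fd_span_pow_mul (a : A) (k : ℕ) (V : Submodule ℂ A) [FiniteDimensional ℂ V] :
    FiniteDimensional ℂ ↥((ℂ ∙ a) ^ k * V) := by
  rw [span_pow_mul_eq]
  infer_instance

lemma finrank_span_pow_mul_le (a : A) (k : ℕ) (V : Submodule ℂ A) [FiniteDimensional ℂ V] :
    finrank ℂ ↥((ℂ ∙ a) ^ k * V) ≤ finrank ℂ V := by
  rw [span_pow_mul_eq]
  exact Submodule.finrank_map_le _ _

end general

lemma exists_pts (s : Finset σ) {j : ℕ} (hj : j ≤ s.card) :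
    ∃ t ⊆ s, t.card = j ∧ ∃ c ∈ allIn (VX s), sp c j = VX t ∧ ∃ e : Fin j → σ,
      Function.Injective e ∧ (∀ i, e i ∈ t) ∧ (∀ a ∈ t, ∃ i, e i = a) ∧
        ∀ i : Fin j, c i = X (e i) := by
  obtain ⟨t, hts, ht⟩ := Finset.exists_subset_card_eq hj
  let e := (Finset.equivFinOfCardEq ht).symm
  have hsurj : ∀ a ∈ t, ∃ i, (e i : σ) = a := fun a ha => ⟨e.symm ⟨a, ha⟩, by simp⟩
  refine ⟨t, hts, ht, fun i => if h : i < j then X (e ⟨i, h⟩) else 0, mem_allIn.mpr fun i => ?_,
    le_antisymm (sp_le_iff.mpr fun i hi => ?_) (Submodule.span_le.mpr ?_), fun i => e i,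
    Subtype.val_injective.comp e.injective, fun i => (e i).2, hsurj, fun i => dif_pos i.2⟩
  · split_ifs with h
    · exact X_mem_spanX (hts (e _).2)
    · exact zero_mem _
  · rw [dif_pos hi]
    exact X_mem_spanX (e _).2
  · rintro _ ⟨a, ha, rfl⟩
    obtain ⟨i, rfl⟩ := hsurj a ha
    have := mem_sp (fun i => if h : i < j then (X (e ⟨i, h⟩) : MvPolynomial σ ℂ) else 0) i.2
    rwa [dif_pos i.2] at this

lemma sp_pow_lower (s : Finset σ) (k : ℕ) {j : ℕ} (hj : j ≤ s.card) :
    ∃ c ∈ allIn (VX s), NN j k ≤ finrank ℂ ↥(sp c j ^ k) := by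
  obtain ⟨t, -, ht, c, hc, h, -⟩ := exists_pts s hj
  exact ⟨c, hc, by rw [h, finrank_VX_pow, ht]⟩

lemma X_pow_mul_X (a l : σ) (k : ℕ) : (X a ^ k * X l : MvPolynomial σ ℂ) =
    monomial (Finsupp.single a k + Finsupp.single l 1) 1 := by
  rw [X_pow_eq_monomial, X, monomial_mul, mul_one]

lemma card_le_finrank_two [DecidableEq σ] (U : Submodule ℂ (MvPolynomial σ ℂ))
    [FiniteDimensional ℂ U] {t u s : Finset σ} (hu : u ⊆ t) {k : ℕ} (hk : 2 ≤ k)
    (h1 : VX t ^ k ≤ U) (h2 : ∀ a ∈ u, ∀ l ∈ s, (X a ^ (k - 1) * X l : MvPolynomial σ ℂ) ∈ U) :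
    u.card * (s \ t).card + NN t.card k ≤ finrank ℂ U := by
  have hinj : Set.InjOn (fun x : σ × σ => Finsupp.single x.1 (k - 1) + Finsupp.single x.2 1)
      (u ×ˢ (s \ t) : Finset (σ × σ)) := by
    rintro ⟨a, l⟩ hx ⟨a', l'⟩ hx' e
    simp only [Finset.coe_product, Set.mem_prod, Finset.mem_coe, Finset.mem_sdiff] at hx hx'
    have n1 : l ≠ a' := fun h => hx.2.2 (h ▸ hu hx'.1)
    have n2 : l' ≠ a := fun h => hx'.2.2 (h ▸ hu hx.1)
    have e1 := DFunLike.congr_fun e a
    have e2 := DFunLike.congr_fun e l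
    simp only [Finsupp.add_apply, Finsupp.single_apply] at e1 e2
    refine Prod.ext ?_ ?_
    · by_contra h
      rw [if_pos trivial, if_neg (Ne.symm h), if_neg n2] at e1
      omega
    · by_contra h
      rw [if_pos trivial, if_neg n1.symm, if_neg (Ne.symm h)] at e2
      omega
  rw [NN, ← Finset.card_finsuppAntidiag_nat_eq_choose, ← Finset.card_product,
    ← Finset.card_image_of_injOn hinj, ← Finset.card_union_of_disjoint]
  · refine card_le_finrank_of_monomial U _ fun m hm => ?_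
    rcases Finset.mem_union.mp hm with hm | hm
    · obtain ⟨⟨a, l⟩, hx, rfl⟩ := Finset.mem_image.mp hm
      rw [← X_pow_mul_X]
      exact h2 a (Finset.mem_product.mp hx).1 l (Finset.mem_sdiff.mp (Finset.mem_product.mp hx).2).1
    · exact h1 (monomial_mem_VX_pow hm)
  · refine Finset.disjoint_left.mpr fun m hm hm' => ?_
    obtain ⟨⟨a, l⟩, hx, rfl⟩ := Finset.mem_image.mp hm
    refine (Finset.mem_sdiff.mp (Finset.mem_product.mp hx).2).2 ((mem_antidiag.mp hm').2 ?_)
    simp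

lemma blk_lower (s : Finset σ) {k j : ℕ} (hk : 2 ≤ k) (hj : j ≤ s.card) :
    ∃ c ∈ allIn (VX s), j * (s.card - j) + NN j k ≤ finrank ℂ (blk (VX s) k j c) := by
  classical
  obtain ⟨t, hts, ht, c, hc, h, e, -, -, he, hce⟩ := exists_pts s hj
  refine ⟨c, hc, ?_⟩
  have : FiniteDimensional ℂ (blk (VX s) k j c) := by
    unfold blk
    infer_instance
  have := card_le_finrank_two (blk (VX s) k j c) (s := s) (subset_refl t) hk
    (h ▸ sp_pow_le_blk _ k j c) fun a ha l hl => by
      obtain ⟨i, rfl⟩ := he a ha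
      rw [← hce]
      exact pow_mul_mem_blk k c i.2 (X_mem_spanX hl)
  rwa [Finset.card_sdiff_of_subset hts, ht] at this

lemma blk_upper (s : Finset σ) (k j : ℕ) (c : ℕ → MvPolynomial σ ℂ) :
    finrank ℂ (blk (VX s) k j c) ≤ j * s.card + NN j k := by
  rw [add_comm]
  refine (Submodule.finrank_add_le_finrank_add_finrank _ _).trans
    (add_le_add (sp_pow_upper c j k) ((finrank_iSup_le_sum _).trans
      ((Finset.sum_le_card_nsmul _ _ s.card fun i _ =>
        (finrank_span_pow_mul_le _ _ _).trans (finrank_VX s).le).trans ?_)))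
  simp

lemma res_lower {s s' : Finset σ} (h : s ⊆ s') {k j : ℕ} (hk : 2 ≤ k) (hj : j + 1 ≤ s.card) :
    ∃ c ∈ allIn (VX s), s'.card - (j + 1) + NN (j + 1) k ≤ finrank ℂ (res (VX s') k j c) := by
  classical
  obtain ⟨t, hts, ht, c, hc, h1, e, -, he, -, hce⟩ := exists_pts s hj
  refine ⟨c, hc, ?_⟩
  have : FiniteDimensional ℂ (res (VX s') k j c) := by
    unfold res
    infer_instance
  have := card_le_finrank_two (res (VX s') k j c) (s := s')
    (Finset.singleton_subset_iff.mpr (he (Fin.last j))) hk (h1 ▸ le_sup_left) fun a ha l hl => by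
      rw [Finset.mem_singleton.mp ha, ← hce]
      exact Submodule.mem_sup_right (pow_mul_mem _ (X_mem_spanX hl))
  rwa [Finset.card_sdiff_of_subset (hts.trans h), ht, Finset.card_singleton, one_mul] at this

lemma res_upper (s : Finset σ) (k j : ℕ) (c : ℕ → MvPolynomial σ ℂ) :
    finrank ℂ (res (VX s) k j c) ≤ s.card + NN (j + 1) k := by
  rw [add_comm]
  exact (Submodule.finrank_add_le_finrank_add_finrank _ _).trans
    (add_le_add (sp_pow_upper c _ k) ((finrank_span_pow_mul_le _ _ _).trans (finrank_VX s).le))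

lemma card_pairs (g : ℕ) : Fintype.card {x : Fin g × Fin g // x.1 ≤ x.2} = (g + 1).choose 2 := by
  rw [Fintype.card_congr Sym2.sortEquiv.symm, Sym2.card, Fintype.card_fin]

lemma jj_lower (s : Finset σ) {k g : ℕ} (hk : 3 ≤ k) (hg : g ≤ s.card) :
    ∃ c ∈ allIn (VX s), (g + 1).choose 2 ≤ finrank ℂ (jj k g c) := by
  classical
  obtain ⟨t, -, -, c, hc, -, e, he, -, -, hce⟩ := exists_pts s hg
  refine ⟨c, hc, ?_⟩
  have : FiniteDimensional ℂ (jj k g c) := by
    unfold jj
    infer_instance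
  obtain ⟨k, rfl⟩ : ∃ m, k = m + 3 := ⟨k - 3, by omega⟩
  have hm : ∀ i l i' l' : Fin g, Finsupp.single (e i) (k + 2) + Finsupp.single (e l) 1 =
      Finsupp.single (e i') (k + 2) + Finsupp.single (e l') 1 → i = i' ∧ l = l' := by
    intro i l i' l' h
    have h1 : i = i' := by
      by_contra h1
      have := DFunLike.congr_fun h (e i)
      simp only [Finsupp.add_apply, Finsupp.single_apply, he.eq_iff, if_neg (Ne.symm h1)] at this
      split_ifs at this <;> omega
    subst h1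
    exact ⟨rfl, he (Finsupp.single_left_injective one_ne_zero (add_left_cancel h))⟩
  have hm2 : ∀ i l i' l' : Fin g, i < l → i' ≤ l' →
      Finsupp.single (e i) (k + 1) + Finsupp.single (e l) 2 ≠
      Finsupp.single (e i') (k + 2) + Finsupp.single (e l') 1 := by
    intro i l i' l' h1 h2 h
    have e1 := DFunLike.congr_fun h (e i)
    have e2 := DFunLike.congr_fun h (e l)
    simp only [Finsupp.add_apply, Finsupp.single_apply, he.eq_iff, if_neg h1.ne,
      if_neg h1.ne'] at e1 e2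
    split_ifs at e1 e2 <;> omega
  let f : {x : Fin g × Fin g // x.1 ≤ x.2} → MvPolynomial σ ℂ := fun x =>
    monomial (Finsupp.single (e x.1.1) (k + 2) + Finsupp.single (e x.1.2) 1) 1 -
      if x.1.1 = x.1.2 then 0 else
        monomial (Finsupp.single (e x.1.1) (k + 1) + Finsupp.single (e x.1.2) 2) 1
  have hf : ∀ x y : {x : Fin g × Fin g // x.1 ≤ x.2},
      coeff (Finsupp.single (e y.1.1) (k + 2) + Finsupp.single (e y.1.2) 1) (f x) =
        if x = y then 1 else 0 := by
    intro x y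
    have h1 : coeff (Finsupp.single (e y.1.1) (k + 2) + Finsupp.single (e y.1.2) 1)
        (if x.1.1 = x.1.2 then (0 : MvPolynomial σ ℂ) else
          monomial (Finsupp.single (e x.1.1) (k + 1) + Finsupp.single (e x.1.2) 2) 1) = 0 := by
      split_ifs with h
      · rfl
      · rw [coeff_monomial, if_neg (hm2 _ _ _ _ (lt_of_le_of_ne x.2 h) y.2)]
    rw [coeff_sub, h1, sub_zero, coeff_monomial]
    refine if_congr ⟨fun h => Subtype.ext (Prod.ext (hm _ _ _ _ h).1 (hm _ _ _ _ h).2),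
      fun h => by rw [h]⟩ rfl rfl
  rw [← card_pairs]
  refine card_le_finrank_of_coeff _ f _ (fun x => ?_) (fun x => by rw [hf x x]; simp)
    fun x y h => by rw [hf x y, if_neg h]
  refine Submodule.mem_iSup_of_mem x.1.1 (Submodule.mem_iSup_of_mem x.1.2 ?_)
  rw [hce, hce]
  by_cases h : x.1.1 = x.1.2
  · refine Submodule.mem_sup_left ?_
    simp only [f, if_pos h]
    rw [sub_zero, ← X_pow_mul_X, ← h, ← pow_succ]
    exact Submodule.mem_span_singleton_self _
  · refine Submodule.mem_sup_right ?_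
    simp only [f, if_neg h]
    have : (monomial (Finsupp.single (e x.1.1) (k + 1) + Finsupp.single (e x.1.2) 2) 1 :
        MvPolynomial σ ℂ) = X (e x.1.1) ^ (k + 1) * X (e x.1.2) ^ 2 := by
      rw [X_pow_eq_monomial, X_pow_eq_monomial, monomial_mul, mul_one]
    rw [← X_pow_mul_X, this]
    refine Submodule.mem_span_singleton.mpr ⟨1, ?_⟩
    rw [one_smul, show k + 3 - 2 = k + 1 from rfl]
    ring

end Pool.Agent.P.MP_c64be1_ag.Asy
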