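import Pool.Agent.P.MP_c64be1_ag.Asy.Reach
import Pool.Agent.P.MP_c64be1_ag.Asy.Dim

/-! Generic ranks, generic configurations and rank one substitutions. -/

namespace Pool.Agent.P.MP_c64be1_ag.Asy

open MvPolynomial Module

section abstract

variable {A Kd : Type} [CommRing A] [Algebra ℂ A]

/-- The generic rank of a multiset of kinds. -/
noncomputable def rk (S : Sys A Kd) (s : Multiset Kd) : ℕ :=
  sSup {ρ | ∃ U, Reach S s U ∧ ρ = finrank ℂ U}

/-- The span of the objects indexed by `J`. -/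
def MM (S : Sys A Kd) {I : Type} (κ : I → Kd) (J : Finset I) (c : (i : I) → S.Q (κ i)) :
    Submodule ℂ A := ⨆ i ∈ J, S.Obj (κ i) (c i)

/-- All subfamilies have the generic rank. -/
def Gen (S : Sys A Kd) {I : Type} (κ : I → Kd) (c : (i : I) → S.Q (κ i)) : Prop :=
  ∀ J : Finset I, rk S (J.val.map κ) ≤ finrank ℂ (MM S κ J c)

/-- The generic dimension of the intersection of one object with the span of others. -/
noncomputable def del (S : Sys A Kd) (x : Kd) (s : Multiset Kd) : ℕ :=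
  rk S {x} + rk S s - rk S (x ::ₘ s)

variable {S : Sys A Kd} {V H : Submodule ℂ A} {k : ℕ} (G : Good S V H k)
  [FiniteDimensional ℂ ↥(V ^ k)]

include G

omit [FiniteDimensional ℂ ↥(V ^ k)] in
lemma Good.reach_le {s : Multiset Kd} {U : Submodule ℂ A} (h : Reach S s U) : U ≤ V ^ k :=
  Asy.reach_le S h fun κ _ c hc => G.le κ c hc

lemma Good.bdd (s : Multiset Kd) : BddAbove {ρ | ∃ U, Reach S s U ∧ ρ = finrank ℂ U} :=
  ⟨finrank ℂ ↥(V ^ k), by
    rintro _ ⟨U, hU, rfl⟩
    exact Submodule.finrank_mono (G.reach_le hU)⟩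

lemma Good.le_rk {s : Multiset Kd} {U : Submodule ℂ A} (h : Reach S s U) :
    finrank ℂ U ≤ rk S s := le_csSup (G.bdd s) ⟨U, h, rfl⟩

lemma Good.exists_rk (s : Multiset Kd) : ∃ U, Reach S s U ∧ rk S s = finrank ℂ U := by
  obtain ⟨U, hU⟩ := exists_reach S s
  exact Nat.sSup_mem (s := {ρ | ∃ U, Reach S s U ∧ ρ = finrank ℂ U}) ⟨_, U, hU, rfl⟩ (G.bdd s)

lemma Good.rk_le (s : Multiset Kd) : rk S s ≤ finrank ℂ ↥(V ^ k) := by
  obtain ⟨U, hU, h⟩ := G.exists_rk s
  rw [h]
  exact Submodule.finrank_mono (G.reach_le hU)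

lemma Good.rk_mono (s e : Multiset Kd) : rk S s ≤ rk S (s + e) := by
  obtain ⟨U, hU, h⟩ := G.exists_rk s
  obtain ⟨U', hU'⟩ := exists_reach S e
  have h1 := reach_add S hU hU'
  have : FiniteDimensional ℂ ↥(U ⊔ U') := Submodule.finiteDimensional_of_le (G.reach_le h1)
  rw [h]
  exact (Submodule.finrank_mono le_sup_left).trans (G.le_rk h1)

lemma Good.rk_add_le (s e : Multiset Kd) : rk S (s + e) ≤ rk S s + rk S e := by
  obtain ⟨W, hW, h⟩ := G.exists_rk (s + e)
  obtain ⟨U, U', hU, hU', rfl⟩ := reach_of_add S hW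
  have : FiniteDimensional ℂ U := Submodule.finiteDimensional_of_le (G.reach_le hU)
  have : FiniteDimensional ℂ U' := Submodule.finiteDimensional_of_le (G.reach_le hU')
  have h1 := Submodule.finrank_add_le_finrank_add_finrank U U'
  have h2 := G.le_rk hU
  have h3 := G.le_rk hU'
  omega

lemma Good.rk_singleton_le {x : Kd} {D : ℕ} (hD : ∀ c ∈ S.Q x, finrank ℂ (S.Obj x c) ≤ D) :
    rk S {x} ≤ D := by
  obtain ⟨U, hU, h⟩ := G.exists_rk {x}
  obtain ⟨c, hc, rfl⟩ := (reach_family S (fun _ : Unit => x) (by simp) U).mp hU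
  rw [h, iSup_unique]
  exact hD _ (hc _)

lemma Good.rk_le_mul {e : Multiset Kd} {D : ℕ}
    (hD : ∀ x ∈ e, ∀ c ∈ S.Q x, finrank ℂ (S.Obj x c) ≤ D) : rk S e ≤ e.card * D := by
  induction e using Multiset.induction_on with
  | empty =>
    obtain ⟨U, hU, h⟩ := G.exists_rk 0
    have : U ≤ ⊥ := Asy.reach_le S hU (by simp)
    rw [h, le_bot_iff.mp this]
    simp
  | cons x e ih =>
    have h1 := G.rk_add_le {x} e
    have h2 := G.rk_singleton_le (hD x (Multiset.mem_cons_self _ _))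
    have h3 := ih fun y hy => hD y (Multiset.mem_cons_of_mem hy)
    rw [Multiset.singleton_add] at h1
    rw [Multiset.card_cons, add_mul, one_mul]
    omega

variable {I : Type} (κ : I → Kd)

omit [FiniteDimensional ℂ ↥(V ^ k)] in
lemma Good.ext_MM (J : Finset I) : Ext (MM S κ J) :=
  Ext.iSup fun i => Ext.iSup fun _ => (G.ext (κ i)).comp_linear
    ((S.Q (κ i)).subtype ∘ₗ (LinearMap.proj i : ((i : I) → S.Q (κ i)) →ₗ[ℂ] S.Q (κ i)))

omit G [FiniteDimensional ℂ ↥(V ^ k)] in
lemma reach_MM (J : Finset I) (c : (i : I) → S.Q (κ i)) : Reach S (J.val.map κ) (MM S κ J c) :=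
  reach_of_finset S κ J (fun i => c i) fun i _ => (c i).2

omit [FiniteDimensional ℂ ↥(V ^ k)] in
lemma Good.MM_le (J : Finset I) (c : (i : I) → S.Q (κ i)) : MM S κ J c ≤ V ^ k :=
  G.reach_le (reach_MM κ J c)

lemma Good.opn_gen [Finite I] : Opn (Gen S κ) :=
  Opn.forall fun J => (G.ext_MM κ J).opn_finrank _ (G.MM_le κ J) _

lemma Good.exists_gen [Finite I] : ∃ c, Gen S κ c := by
  refine Opn.exists_forall (fun J => (G.ext_MM κ J).opn_finrank _ (G.MM_le κ J) _) fun J => ?_
  obtain ⟨U, hU, h⟩ := G.exists_rk (J.val.map κ)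
  obtain ⟨c, hc, rfl⟩ := finset_of_reach S κ J hU
  exact ⟨fun i => ⟨c i, hc i⟩, h.le⟩

lemma Good.finrank_MM {c : (i : I) → S.Q (κ i)} (hc : Gen S κ c) (J : Finset I) :
    finrank ℂ (MM S κ J c) = rk S (J.val.map κ) :=
  le_antisymm (G.le_rk (reach_MM κ J c)) (hc J)

omit G [FiniteDimensional ℂ ↥(V ^ k)] in
lemma MM_mono {J J' : Finset I} (h : J ⊆ J') (c : (i : I) → S.Q (κ i)) :
    MM S κ J c ≤ MM S κ J' c :=
  iSup_mono fun _ => iSup_mono' fun hi => ⟨h hi, le_rfl⟩

lemma Good.finrank_inf {c : (i : I) → S.Q (κ i)} (hc : Gen S κ c) {J : Finset I} {a : I}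
    (ha : a ∉ J) :
    finrank ℂ ↥(S.Obj (κ a) (c a) ⊓ MM S κ J c) = del S (κ a) (J.val.map κ) := by
  classical
  have h1 : MM S κ {a} c = S.Obj (κ a) (c a) := by simp [MM]
  have h2 : MM S κ (insert a J) c = S.Obj (κ a) (c a) ⊔ MM S κ J c := by
    rw [MM, Finset.iSup_insert]
    rfl
  have h3 := G.finrank_MM κ hc {a}
  have h4 := G.finrank_MM κ hc (insert a J)
  have h5 := G.finrank_MM κ hc J
  have : FiniteDimensional ℂ (S.Obj (κ a) (c a)) :=
    Submodule.finiteDimensional_of_le (G.le _ _ (c a).2)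
  have : FiniteDimensional ℂ (MM S κ J c) := Submodule.finiteDimensional_of_le (G.MM_le κ J c)
  have h6 := Submodule.finrank_sup_add_finrank_inf_eq (S.Obj (κ a) (c a)) (MM S κ J c)
  rw [h1] at h3
  rw [h2, Finset.insert_val_of_notMem ha, Multiset.map_cons] at h4
  simp only [Finset.singleton_val, Multiset.map_singleton] at h3
  unfold del
  omega

lemma Good.del_le (x : Kd) (s : Multiset Kd) : del S x s ≤ rk S {x} := by
  have := G.rk_mono s {x}
  rw [add_comm, Multiset.singleton_add] at this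
  unfold del
  omega

end abstract

section subst

variable {σ : Type}

lemma crv_aeval {A : Type} [CommRing A] [Algebra ℂ A] (f : ℂ → σ → A)
    (hf : ∀ i, (fun t => f t i) ∈ Crv A) (w : MvPolynomial σ ℂ) :
    (fun t => aeval (f t) w) ∈ Crv A := by
  induction w using MvPolynomial.induction_on with
  | C a => simpa using crv_const (algebraMap ℂ A a)
  | add p q hp hq => simpa using crv_add hp hq
  | mul_X p i hp => simpa using crv_mul hp (hf i)

/-- The substitution `v ↦ τ v + u a(v) p`. -/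
noncomputable def sub1 (a : σ → ℂ) (p : MvPolynomial σ ℂ) (τ u : ℂ) :
    MvPolynomial σ ℂ →ₐ[ℂ] MvPolynomial σ ℂ :=
  aeval fun i => τ • X i + (u * a i) • p

lemma sub1_apply (a : σ → ℂ) (p : MvPolynomial σ ℂ) (τ u : ℂ) {s : Finset σ}
    {v : MvPolynomial σ ℂ} (hv : v ∈ VX s) : sub1 a p τ u v = τ • v + (u * eval a v) • p := by
  induction hv using Submodule.span_induction with
  | mem w hw =>
    obtain ⟨i, -, rfl⟩ := hw
    simp [sub1]
  | zero => simp
  | add x y _ _ hx hy =>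
    rw [map_add, hx, hy, map_add]
    module
  | smul t x _ hx =>
    rw [map_smul, hx, smul_eval]
    module

lemma sub1_zero (a : σ → ℂ) (p : MvPolynomial σ ℂ) {s : Finset σ} {k : ℕ}
    {w : MvPolynomial σ ℂ} (hw : w ∈ VX s ^ k) : sub1 a p 0 1 w = eval a w • p ^ k := by
  induction hw using Submodule.pow_induction_on_left' with
  | algebraMap r => simp [Algebra.smul_def]
  | add x y i _ _ hx hy => rw [map_add, hx, hy, map_add, add_smul]
  | mem_mul m hm i x _ hx =>
    rw [map_mul, hx, sub1_apply a p 0 1 hm, map_mul, zero_smul, zero_add, one_mul,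
      smul_mul_smul_comm, pow_succ']

/-- If almost all rank one substitutions of a form lie in `M`, so does the power of the point. -/
lemma pow_mem_of_sub1 (a : σ → ℂ) (p : MvPolynomial σ ℂ) {s : Finset σ} {k : ℕ}
    {w : MvPolynomial σ ℂ} (hw : w ∈ VX s ^ k) (ha : eval a w ≠ 0)
    (M : Submodule ℂ (MvPolynomial σ ℂ)) (h : {τ : ℂ | sub1 a p 1 τ⁻¹ w ∉ M}.Finite) :
    p ^ k ∈ M := by
  have hF : (fun τ : ℂ => sub1 a p τ 1 w) ∈ Crv (MvPolynomial σ ℂ) :=
    crv_aeval (fun τ i => τ • X i + (1 * a i) • p)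
      (fun i => crv_add (crv_tsmul (crv_const _)) (crv_const _)) w
  have h1 := mem_of_crv_of_finite hF M ((h.union (Set.finite_singleton 0)).subset fun τ hτ => by
    by_contra hn
    simp only [Set.mem_union, Set.mem_ofPred_eq, Set.mem_singleton_iff, not_or, not_not] at hn hτ
    apply hτ
    rw [map_pow_scale (sub1 a p 1 τ⁻¹) (sub1 a p τ 1) (VX s) τ (fun v hv => by
      rw [sub1_apply a p _ _ hv, sub1_apply a p _ _ hv, smul_add, smul_smul, smul_smul, mul_one,
        ← mul_assoc, mul_inv_cancel₀ hn.2]) k hw]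
    exact M.smul_mem _ hn.1) 0
  rw [sub1_zero a p hw] at h1
  exact (M.smul_mem_iff ha).mp h1

end subst

end Pool.Agent.P.MP_c64be1_ag.Asy
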