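import Pool.Agent.P.MP_c64be1_ag.Asy.BC

/-! The swap lemma relative to objects that span everything modulo the hyperplane. -/

namespace Pool.Agent.P.MP_c64be1_ag.Asy

open MvPolynomial Module

variable {σ Kd : Type}

theorem bc_stable_rel {sV : Finset σ} {H : Submodule ℂ (MvPolynomial σ ℂ)} (hH : H ≤ VX sV)
    {S : Sys (MvPolynomial σ ℂ) Kd} {k : ℕ} (G : Good S (VX sV) H k) (x : Kd) (s : Multiset Kd)
    (hpos : 0 < del S x s) (hst : ∀ y ∈ s, del S x (y ::ₘ s) ≤ del S x s)
    (hq : ∃ U, Reach S s U ∧ VX sV ^ k ≤ U ⊔ H ^ k) : NN sV.card k ≤ rk S s := by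
  obtain ⟨m, κ, rfl⟩ := exists_family s
  have hHk : H ^ k ≤ VX sV ^ k := pow_le_pow_left' hH k
  have o2 := ((G.ext_MM (twoK x κ) (selJ fun _ => true)).sup (Ext.const (H ^ k))).opn_fill
    (VX sV ^ k) fun c => sup_le (G.MM_le _ _ c) hHk
  obtain ⟨c, hc, hc2⟩ := (G.opn_gen (twoK x κ)).exists_and o2 (G.exists_gen _) (by
    obtain ⟨U, hU, hfill⟩ := hq
    rw [← selJ_val x κ fun _ => true] at hU
    obtain ⟨c, hc, rfl⟩ := finset_of_reach S _ _ hU
    exact ⟨fun i => ⟨c i, hc i⟩, hfill⟩)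
  have h1 := bc_stable_gen hH G x κ hpos
    (fun i => hst _ (Multiset.mem_map_of_mem _ (Finset.mem_univ i))) hc
  have h2 : VX sV ^ k ≤ MM S (twoK x κ) (selJ fun _ => true) c := hc2.trans (sup_le le_rfl h1)
  have h3 := G.finrank_MM _ hc (selJ fun _ => true)
  rw [selJ_val, le_antisymm (G.MM_le _ _ c) h2, finrank_VX_pow] at h3
  exact h3.le

theorem bc_rank_rel (sV : Finset σ) (H : Submodule ℂ (MvPolynomial σ ℂ)) (hH : H ≤ VX sV)
    (S : Sys (MvPolynomial σ ℂ) Kd) (k : ℕ) (G : Good S (VX sV) H k) (sz : Kd → ℕ) (D ρ : ℕ)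
    (s1 s : Multiset Kd) (hsz : ∀ κ ∈ s, ∃ c ∈ S.Q κ, sz κ ≤ finrank ℂ (S.Obj κ c))
    (hD : ∀ κ, ∀ c ∈ S.Q κ, finrank ℂ (S.Obj κ c) ≤ D)
    (hq : ∃ U, Reach S s1 U ∧ VX sV ^ k ≤ U ⊔ H ^ k)
    (h1 : ∃ U, Reach S s1 U ∧ (ρ ≤ finrank ℂ U ∨ NN sV.card k ≤ finrank ℂ U + D * D)) :
    ∃ U, Reach S (s1 + s) U ∧
      (ρ + (s.map sz).sum ≤ finrank ℂ U ∨ NN sV.card k ≤ finrank ℂ U + D * D) := by
  have key : ρ + (s.map sz).sum ≤ rk S (s1 + s) ∨ NN sV.card k ≤ rk S (s1 + s) + D * D := by
    induction s using Multiset.induction_on with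
    | empty =>
      obtain ⟨U, hU, h⟩ := h1
      have := G.le_rk hU
      simp only [Multiset.map_zero, Multiset.sum_zero, add_zero]
      omega
    | cons x s ih =>
      have hmono := G.rk_mono (s1 + s) {x}
      rw [add_comm (s1 + s), Multiset.singleton_add] at hmono
      rw [Multiset.add_cons]
      rcases ih (fun κ hκ => hsz κ (Multiset.mem_cons_of_mem hκ)) with h | h
      · by_cases h2 : rk S (x ::ₘ (s1 + s)) < rk S (s1 + s) + sz x
        · right
          obtain ⟨c, hc, hgc⟩ := hsz x (Multiset.mem_cons_self _ _)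
          have h3 := G.le_rk (reach_singleton S hc)
          have h4 : 0 < del S x (s1 + s) := by
            unfold del
            omega
          obtain ⟨e, he, hcard, hst⟩ := G.exists_stable x (s1 + s)
          have h5 := G.del_le x (s1 + s + e)
          have h6 := G.rk_singleton_le (hD x)
          have h7 := bc_stable_rel hH G x (s1 + s + e) (by omega) (fun y hy => hst y (by
            rcases Multiset.mem_add.mp hy with h5 | h5
            · exact h5
            · exact he y h5)) (by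
              obtain ⟨U, hU, hfill⟩ := hq
              obtain ⟨U', hU'⟩ := exists_reach S (s + e)
              exact ⟨_, add_assoc s1 s e ▸ reach_add S hU hU',
                hfill.trans (sup_le_sup_right le_sup_left _)⟩)
          have h8 := G.rk_add_le (s1 + s) e
          have h9 := G.rk_le_mul (e := e) fun y _ => hD y
          have h10 := Nat.mul_le_mul_right D (show e.card ≤ D by omega)
          omega
        · left
          rw [Multiset.map_cons, Multiset.sum_cons]
          omega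
      · right
        omega
  obtain ⟨U, hU, h⟩ := G.exists_rk (s1 + s)
  exact ⟨U, hU, h ▸ key⟩

end Pool.Agent.P.MP_c64be1_ag.Asy
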