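import Pool.Agent.P.MP_c64be1_ag.Asy.Dim

/-! Differentiation with respect to a distinguished variable. -/

namespace Pool.Agent.P.MP_c64be1_ag.Asy

open MvPolynomial Module

variable {σ : Type} {s : Finset σ} {x : σ}

lemma VX_insert [DecidableEq σ] (s : Finset σ) (x : σ) :
    VX (insert x s) = VX s ⊔ ℂ ∙ (X x : MvPolynomial σ ℂ) := by
  rw [VX, VX, spanX, spanX, Finset.coe_insert, Set.image_insert_eq, Submodule.span_insert,
    sup_comm]

lemma VX_mono {s s' : Finset σ} (h : s ⊆ s') : VX s ≤ VX s' :=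
  Submodule.span_mono (Set.image_mono (by exact_mod_cast h))

lemma X_mem_VX {s : Finset σ} {i : σ} (h : i ∈ s) : (X i : MvPolynomial σ ℂ) ∈ VX s :=
  X_mem_spanX (by exact_mod_cast h)

lemma pderiv_VX (x : σ) {v : MvPolynomial σ ℂ} (hv : v ∈ VX s) :
    pderiv x v = C (coeff (Finsupp.single x 1) v) := by
  classical
  induction hv using Submodule.span_induction with
  | mem w hw =>
    obtain ⟨i, -, rfl⟩ := hw
    by_cases h : i = x
    · subst h
      simp
    · rw [pderiv_X_of_ne h, coeff_X, if_neg (by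
        rw [Finsupp.single_left_inj one_ne_zero]; exact h), C_0]
  | zero => simp
  | add a b _ _ ha hb => simp [ha, hb]
  | smul t a _ ha => simp [ha, smul_eq_C_mul]

lemma pderiv_eq_zero_of_mem (hx : x ∉ s) {v : MvPolynomial σ ℂ} (hv : v ∈ VX s) :
    pderiv x v = 0 := by
  induction hv using Submodule.span_induction with
  | mem w hw =>
    obtain ⟨i, hi, rfl⟩ := hw
    exact pderiv_X_of_ne (fun h => hx (h ▸ hi))
  | zero => simp
  | add a b _ _ ha hb => simp [ha, hb]
  | smul t a _ ha => simp [ha]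

lemma pderiv_eq_zero_of_mem_pow (hx : x ∉ s) {k : ℕ} {w : MvPolynomial σ ℂ}
    (hw : w ∈ VX s ^ k) : pderiv x w = 0 := by
  induction hw using Submodule.pow_induction_on_left' with
  | algebraMap r => simp
  | add a b i _ _ ha hb => simp [ha, hb]
  | mem_mul m hm i a _ ha => simp [ha, pderiv_eq_zero_of_mem hx hm]

lemma pderiv_mem_pow (x : σ) {k : ℕ} {w : MvPolynomial σ ℂ} (hw : w ∈ VX s ^ (k + 1)) :
    pderiv x w ∈ VX s ^ k := by
  induction k generalizing w with
  | zero =>
    rw [zero_add, pow_one] at hw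
    rw [pderiv_VX x hw, pow_zero]
    exact Submodule.mem_one.mpr ⟨_, rfl⟩
  | succ k ih =>
    rw [pow_succ] at hw
    induction hw using Submodule.mul_induction_on' with
    | add a _ b _ ha hb => rw [map_add]; exact add_mem ha hb
    | mem_mul_mem a ha v hv =>
      rw [Derivation.leibniz, smul_eq_mul, smul_eq_mul, pderiv_VX x hv, mul_comm a,
        ← smul_eq_C_mul, mul_comm v]
      refine add_mem (Submodule.smul_mem _ _ ha) ?_
      rw [pow_succ]
      exact Submodule.mul_mem_mul (ih ha) hv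

lemma mem_pow_of_pderiv_eq_zero [DecidableEq σ] {k : ℕ} {w : MvPolynomial σ ℂ} (hw : w ∈ VX (insert x s) ^ k)
    (h : pderiv x w = 0) : w ∈ VX s ^ k := by
  refine mem_VX_pow_iff.mpr fun m hm => ?_
  obtain ⟨h1, h2⟩ := mem_VX_pow_iff.mp hw m hm
  refine ⟨h1, fun i hi => ?_⟩
  rcases Finset.mem_insert.mp (h2 hi) with rfl | h3
  · exfalso
    have h4 := coeff_pderiv (i := i) w (m - Finsupp.single i 1)
    have h5 : m - Finsupp.single i 1 + Finsupp.single i 1 = m :=
      tsub_add_cancel_of_le (Finsupp.single_le_iff.mpr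
        (Nat.one_le_iff_ne_zero.mpr (Finsupp.mem_support_iff.mp hi)))
    rw [h, coeff_zero, h5] at h4
    exact (mul_ne_zero hm (Nat.cast_add_one_ne_zero _)) h4.symm
  · exact h3

/-- A point off the hyperplane generates `V` together with the hyperplane. -/
lemma VX_insert_le_of_coeff [DecidableEq σ] {p : MvPolynomial σ ℂ} (hp : p ∈ VX (insert x s)) (hx : x ∉ s)
    (hne : coeff (Finsupp.single x 1) p ≠ 0) : VX (insert x s) ≤ VX s ⊔ ℂ ∙ p := by
  rw [VX_insert] at hp ⊢
  obtain ⟨y, hy, _, hz, rfl⟩ := Submodule.mem_sup.mp hp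
  obtain ⟨a, rfl⟩ := Submodule.mem_span_singleton.mp hz
  have h0 : coeff (Finsupp.single x 1) y = 0 := by
    have := pderiv_VX x hy
    rw [pderiv_eq_zero_of_mem hx hy] at this
    exact C_eq_zero.mp this.symm
  have ha : a ≠ 0 := by
    rintro rfl
    simp [h0] at hne
  refine sup_le le_sup_left ((Submodule.span_singleton_le_iff_mem _ _).mpr ?_)
  have : (X x : MvPolynomial σ ℂ) = a⁻¹ • ((y + a • X x) - y) := by
    rw [add_sub_cancel_left, smul_smul, inv_mul_cancel₀ ha, one_smul]
  have h2 : a⁻¹ • ((y + a • X x) - y) ∈ VX s ⊔ ℂ ∙ (y + a • (X x : MvPolynomial σ ℂ)) :=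
    Submodule.smul_mem _ _ (sub_mem (Submodule.mem_sup_right
      (Submodule.mem_span_singleton_self _)) (Submodule.mem_sup_left hy))
  rwa [← this] at h2

/-- The derivative of a double point is a double point of the previous degree. -/
lemma double_le_map_pderiv [DecidableEq σ] {p : MvPolynomial σ ℂ} (hp : p ∈ VX (insert x s)) (hx : x ∉ s)
    (hne : coeff (Finsupp.single x 1) p ≠ 0) (m : ℕ) :
    (ℂ ∙ p) ^ m * VX (insert x s) ≤
      ((ℂ ∙ p) ^ (m + 1) * VX (insert x s)).map (pderiv x).toLinearMap := by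
  refine (mul_le_mul_right (VX_insert_le_of_coeff hp hx hne) _).trans ?_
  rw [Submodule.mul_sup, span_pow_eq p m]
  have hm : ∀ l : ℕ, ((l + 1 : ℕ) : ℂ) * coeff (Finsupp.single x 1) p ≠ 0 := fun l =>
    mul_ne_zero (Nat.cast_ne_zero.mpr (Nat.succ_ne_zero l)) hne
  refine sup_le (span_mul_le_iff.mpr fun v hv => ?_) (span_mul_le_iff.mpr fun v hv => ?_)
  · refine (Submodule.smul_mem_iff _ (hm m)).mp
      ⟨p ^ (m + 1) * v, pow_mul_mem _ (VX_mono (Finset.subset_insert x s) hv), ?_⟩
    change pderiv x (p ^ (m + 1) * v) = _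
    rw [Derivation.leibniz, pderiv_eq_zero_of_mem hx hv, Derivation.leibniz_pow, pderiv_VX x hp]
    simp only [smul_eq_C_mul, smul_eq_mul, nsmul_eq_mul, map_mul, map_natCast,
      Nat.add_sub_cancel]
    ring
  · obtain ⟨t, rfl⟩ := Submodule.mem_span_singleton.mp hv
    rw [mul_smul_comm]
    refine Submodule.smul_mem _ t ((Submodule.smul_mem_iff _ (hm (m + 1))).mp
      ⟨p ^ (m + 1) * p, pow_mul_mem _ hp, ?_⟩)
    change pderiv x (p ^ (m + 1) * p) = _
    rw [← pow_succ, Derivation.leibniz_pow, pderiv_VX x hp]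
    simp only [smul_eq_C_mul, smul_eq_mul, nsmul_eq_mul, map_mul, map_natCast,
      Nat.add_sub_cancel]
    ring

end Pool.Agent.P.MP_c64be1_ag.Asy
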