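import Pool.Agent.P.MP_c64be1_ag.Asy.BC
import Pool.Agent.P.MP_c64be1_ag.Asy.Deriv

/-! One component of the residual problem of the codimension two step for cubics. -/

namespace Pool.Agent.P.MP_c64be1_ag.Asy

open MvPolynomial Module

private lemma c3_VX_sq_le {σ : Type} {s : Finset σ} {M : Submodule ℂ (MvPolynomial σ ℂ)}
    (h : ∀ a ∈ s, ∀ b ∈ s, (X a * X b : MvPolynomial σ ℂ) ∈ M) : VX s ^ 2 ≤ M := by
  rw [pow_two, VX, spanX, Submodule.span_mul_span]
  refine Submodule.span_le.mpr ?_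
  rintro _ ⟨_, ⟨a, ha, rfl⟩, _, ⟨b, hb, rfl⟩, rfl⟩
  exact h a (by exact_mod_cast ha) b (by exact_mod_cast hb)

private lemma c3_two_choose (a : ℕ) : 2 * a.choose 2 + a = a * a := by
  induction a with
  | zero => simp
  | succ a ih =>
    rw [Nat.choose_succ_succ' a 1, Nat.choose_one_right]
    nlinarith

private lemma c3_ident (ma d : ℕ) :
    (ma + d + 1).choose 2 + ma.choose 2 = ma * (ma + d) + (d + 1).choose 2 := by
  have h1 := c3_two_choose (ma + d + 1)
  have h2 := c3_two_choose ma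
  have h3 := c3_two_choose (d + 1)
  nlinarith

private lemma c3_NN (j : ℕ) : NN j 2 = (j + 1).choose 2 := rfl

private lemma c3_disj {σ : Type} {s t : Finset σ} (h : Disjoint s t) :
    VX s ^ 2 ⊓ VX t ^ 2 = ⊥ := by
  refine (Submodule.eq_bot_iff _).mpr fun p hp => ?_
  ext m
  by_contra hm
  obtain ⟨h1, h2⟩ := mem_VX_pow_iff.mp hp.1 m hm
  obtain ⟨-, h3⟩ := mem_VX_pow_iff.mp hp.2 m hm
  have h4 : m.support = ∅ := by
    by_contra h5
    obtain ⟨i, hi⟩ := Finset.nonempty_iff_ne_empty.mpr h5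
    exact Finset.disjoint_left.mp h (h2 hi) (h3 hi)
  rw [Finsupp.support_eq_empty.mp h4] at h1
  simp at h1

private lemma c3_card_lt (m : ℕ) :
    Fintype.card {p : Fin m × Fin m // p.1 < p.2} = m.choose 2 := by
  rw [Fintype.card_subtype, ← Finset.univ_product_univ, Finset.card_product_filter_lt]
  simp

/-- Generic subspaces of dimension `j`: their squares span the expected dimension. -/
private lemma c3_lam {σ : Type} (w : Finset σ) (j : ℕ) (It : Type) [Fintype It]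
    (hj : j ≤ w.card)
    (h : Fintype.card It * (j + 1).choose 2 + ((j + 1).choose 2) ^ 2 ≤ (w.card + 1).choose 2) :
    ∃ l : It → ℕ → MvPolynomial σ ℂ, (∀ i a, l i a ∈ VX w) ∧
      Fintype.card It * (j + 1).choose 2 ≤ finrank ℂ ↥(⨆ i, sp (l i) j ^ 2) := by
  let S : Sys (MvPolynomial σ ℂ) Unit := ⟨fun _ => allIn (VX w), fun _ c => sp c j ^ 2⟩
  have G : Good S (VX w) (VX w) 2 :=
    { ext := fun _ => (ext_sp j).pow 2
      le := fun _ c hc => pow_le_pow_left' (sp_le_iff.mpr fun i _ => mem_allIn.mp hc i) 2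
      memV := fun _ c hc => mem_allIn.mp hc
      memH := fun _ c hc => mem_allIn.mpr hc
      eqv := fun _ c φ _ _ => by
        change (sp c j ^ 2).map φ.toLinearMap ≤ sp (fun a => φ (c a)) j ^ 2
        rw [Submodule.map_pow, map_sp] }
  obtain ⟨U, hU, hr⟩ := bc_rank w (VX w) le_rfl S 2 G (fun _ => NN j 2) (NN j 2)
    (Finset.univ.val.map fun _ : It => ()) (fun _ _ => sp_pow_lower w 2 hj)
    (fun _ _ c _ => sp_pow_upper c j 2)
  obtain ⟨c, hc, rfl⟩ := (reach_family S (fun _ : It => ()) rfl U).mp hU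
  refine ⟨c, fun i => mem_allIn.mp (hc i), ?_⟩
  change _ ≤ finrank ℂ ↥(⨆ i, S.Obj () (c i))
  rcases hr with hr | hr
  · simpa [c3_NN] using hr
  · rw [finrank_VX_pow, c3_NN, c3_NN] at hr
    nlinarith

theorem comp3 {σ : Type} (s : Finset σ) (j : ℕ) (Ia G It If : Type) [Fintype Ia] [Fintype G]
    [Fintype It] [Fintype If] (sz : G → ℕ)
    (h : CompCond s.card j (Fintype.card Ia) (Finset.univ.val.map sz) (Fintype.card It)
      (Fintype.card If)) :
    ∃ (y : Ia → MvPolynomial σ ℂ) (z : G → ℕ → MvPolynomial σ ℂ)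
      (l : It → ℕ → MvPolynomial σ ℂ) (q : If → MvPolynomial σ ℂ),
      (∀ i, y i ∈ VX s) ∧ (∀ g a, z g a ∈ VX s) ∧ (∀ i a, l i a ∈ VX s) ∧ (∀ i, q i ∈ VX s) ∧
      VX s ^ 2 ≤ (((⨆ i, (ℂ ∙ y i) * VX s) ⊔
        ⨆ (g : G) (a : Fin (sz g)) (g' : G) (a' : Fin (sz g')) (_ : g ≠ g' ∨ (a : ℕ) = a'),
          ℂ ∙ (z g a * z g' a')) ⊔ ⨆ i, sp (l i) j ^ 2) ⊔ ⨆ i, (ℂ ∙ q i) ^ 2 := by
  classical
  obtain ⟨h1, h2, h3⟩ := h
  have hsum : (Finset.univ.val.map sz).sum = ∑ g, sz g := rfl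
  have hsum2 : ((Finset.univ.val.map sz).map fun a => a.choose 2).sum = ∑ g, (sz g).choose 2 := by
    rw [Multiset.map_map]
    rfl
  rw [hsum] at h1 h2 h3
  rw [hsum2] at h3
  have hB : Fintype.card (Σ g, Fin (sz g)) = ∑ g, sz g := by simp
  obtain ⟨e0⟩ : Nonempty ((Ia ⊕ Σ g, Fin (sz g)) ↪ ↥s) := by
    refine Function.Embedding.nonempty_of_card_le ?_
    rw [Fintype.card_sum, hB, Fintype.card_coe]
    omega
  let e : (Ia ⊕ Σ g, Fin (sz g)) ↪ σ := e0.trans (Function.Embedding.subtype _)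
  have he : ∀ x, e x ∈ s := fun x => (e0 x).2
  let sa : Finset σ := Finset.univ.map (Function.Embedding.inl.trans e)
  let sb : Finset σ := Finset.univ.map (Function.Embedding.inr.trans e)
  have hsa : ∀ a, a ∈ sa ↔ ∃ i, e (Sum.inl i) = a := fun a => by simp [sa]
  have hsb : ∀ a, a ∈ sb ↔ ∃ i, e (Sum.inr i) = a := fun a => by
    simp only [sb, Finset.mem_map, Finset.mem_univ, true_and]
    rfl
  have hsas : sa ⊆ s := fun a ha => by
    obtain ⟨i, rfl⟩ := (hsa a).mp ha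
    exact he _
  have hsbs : sb ⊆ s \ sa := fun a ha => by
    obtain ⟨i, rfl⟩ := (hsb a).mp ha
    refine Finset.mem_sdiff.mpr ⟨he _, fun h0 => ?_⟩
    obtain ⟨i', hi'⟩ := (hsa _).mp h0
    exact Sum.inl_ne_inr (e.injective hi')
  have hca : sa.card = Fintype.card Ia := by simp [sa]
  have hcb : sb.card = ∑ g, sz g := by
    rw [← hB]
    simp only [sb, Finset.card_map, Finset.card_univ]
  have hc2 : (s \ sa).card = s.card - Fintype.card Ia := by
    rw [Finset.card_sdiff_of_subset hsas, hca]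
  have hcw : ((s \ sa) \ sb).card = s.card - Fintype.card Ia - ∑ g, sz g := by
    rw [Finset.card_sdiff_of_subset hsbs, hc2, hcb]
  obtain ⟨l, hl, hU⟩ := c3_lam ((s \ sa) \ sb) j It (by omega) (by rw [hcw]; exact h2)
  let z : G → ℕ → MvPolynomial σ ℂ := fun g a =>
    if ha : a < sz g then X (e (Sum.inr ⟨g, ⟨a, ha⟩⟩)) else 0
  have hz : ∀ g (a : Fin (sz g)), z g a = X (e (Sum.inr ⟨g, a⟩)) := fun g a => by
    simp only [z, dif_pos a.2]
  have hzb : ∀ g a, z g a ∈ VX sb := fun g a => by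
    by_cases ha : a < sz g
    · simp only [z, dif_pos ha]
      exact X_mem_VX ((hsb _).mpr ⟨_, rfl⟩)
    · simp only [z, dif_neg ha]
      exact zero_mem _
  set E : Submodule ℂ (MvPolynomial σ ℂ) :=
    ⨆ (g : G) (a : Fin (sz g)) (g' : G) (a' : Fin (sz g')) (_ : g ≠ g' ∨ (a : ℕ) = a'),
      ℂ ∙ (z g a * z g' a') with hEdef
  set U : Submodule ℂ (MvPolynomial σ ℂ) := ⨆ i, sp (l i) j ^ 2 with hUdef
  have hEle : E ≤ VX sb ^ 2 := by
    refine iSup_le fun g => iSup_le fun a => iSup_le fun g' => iSup_le fun a' =>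
      iSup_le fun _ => (Submodule.span_singleton_le_iff_mem _ _).mpr ?_
    rw [pow_two]
    exact Submodule.mul_mem_mul (hzb _ _) (hzb _ _)
  have hUle : U ≤ VX ((s \ sa) \ sb) ^ 2 :=
    iSup_le fun i => pow_le_pow_left' (sp_le_iff.mpr fun a _ => hl i a) 2
  have hEmem : ∀ (g : G) (a : Fin (sz g)) (g' : G) (a' : Fin (sz g')),
      (g ≠ g' ∨ (a : ℕ) = a') → z g a * z g' a' ∈ E := fun g a g' a' h0 =>
    Submodule.mem_iSup_of_mem g (Submodule.mem_iSup_of_mem a (Submodule.mem_iSup_of_mem g'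
      (Submodule.mem_iSup_of_mem a' (Submodule.mem_iSup_of_mem h0
        (Submodule.mem_span_singleton_self _)))))
  let F : (Σ g, {p : Fin (sz g) × Fin (sz g) // p.1 < p.2}) → Submodule ℂ (MvPolynomial σ ℂ) :=
    fun x => ℂ ∙ (z x.1 x.2.1.1 * z x.1 x.2.1.2)
  have hFmem : ∀ (g : G) (a a' : Fin (sz g)), a < a' → z g a * z g a' ∈ ⨆ x, F x :=
    fun g a a' h0 => Submodule.mem_iSup_of_mem ⟨g, ⟨(a, a'), h0⟩⟩
      (Submodule.mem_span_singleton_self _)
  have hFr : finrank ℂ ↥(⨆ x, F x) ≤ ∑ g, (sz g).choose 2 := by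
    refine (finrank_iSup_le_sum F).trans ?_
    refine (Finset.sum_le_sum (g := fun _ => 1) fun x _ => ?_).trans ?_
    · exact (finrank_span_le_card _).trans (by simp)
    · simp [c3_card_lt]
  have hcov : VX sb ^ 2 ≤ E ⊔ ⨆ x, F x := by
    refine c3_VX_sq_le fun a ha b hb => ?_
    obtain ⟨⟨g, a⟩, rfl⟩ := (hsb a).mp ha
    obtain ⟨⟨g', a'⟩, rfl⟩ := (hsb b).mp hb
    rw [← hz, ← hz]
    by_cases hg : g = g'
    · subst hg
      rcases lt_trichotomy a a' with h0 | h0 | h0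
      · exact Submodule.mem_sup_right (hFmem g a a' h0)
      · exact Submodule.mem_sup_left (hEmem g a g a' (Or.inr (by rw [h0])))
      · rw [mul_comm]
        exact Submodule.mem_sup_right (hFmem g a' a h0)
    · exact Submodule.mem_sup_left (hEmem g a g' a' (Or.inl hg))
  have : FiniteDimensional ℂ E := Submodule.finiteDimensional_of_le hEle
  have : FiniteDimensional ℂ U := Submodule.finiteDimensional_of_le hUle
  have hEr : (∑ g, sz g + 1).choose 2 ≤ finrank ℂ E + ∑ g, (sz g).choose 2 := by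
    have h4 := Submodule.finrank_mono hcov
    have h5 := Submodule.finrank_add_le_finrank_add_finrank E (⨆ x, F x)
    rw [finrank_VX_pow, hcb, c3_NN] at h4
    omega
  have hEU : finrank ℂ ↥(E ⊔ U) = finrank ℂ E + finrank ℂ U := by
    have h4 := Submodule.finrank_sup_add_finrank_inf_eq E U
    have h5 : E ⊓ U = ⊥ :=
      le_bot_iff.mp ((inf_le_inf hEle hUle).trans (c3_disj Finset.disjoint_sdiff).le)
    rw [h5, finrank_bot, add_zero] at h4
    exact h4
  have hle : E ⊔ U ≤ VX (s \ sa) ^ 2 :=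
    sup_le (hEle.trans (pow_le_pow_left' (VX_mono hsbs) 2))
      (hUle.trans (pow_le_pow_left' (VX_mono Finset.sdiff_subset) 2))
  have heq : (E ⊔ U) ⊔ VX (s \ sa) ^ 2 = VX (s \ sa) ^ 2 := sup_eq_right.mpr hle
  have : FiniteDimensional ℂ ↥((E ⊔ U) ⊔ VX (s \ sa) ^ 2) := by
    rw [heq]
    infer_instance
  obtain ⟨q, hq, hfill⟩ := pure_filler (VX (s \ sa)) (E ⊔ U) 2 If (by
    rw [heq, finrank_VX_pow, c3_NN, hc2, hEU]
    obtain ⟨d, hd⟩ : ∃ d, s.card = Fintype.card Ia + d := ⟨s.card - Fintype.card Ia, by omega⟩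
    have h4 := c3_ident (Fintype.card Ia) d
    rw [hd] at h3 ⊢
    rw [Nat.add_sub_cancel_left]
    omega)
  have hss : VX (s \ sa) ≤ VX s := VX_mono Finset.sdiff_subset
  refine ⟨fun i => X (e (Sum.inl i)), z, l, q, fun i => X_mem_VX (he _),
    fun g a => hss (VX_mono hsbs (hzb g a)), fun i a => hss (VX_mono Finset.sdiff_subset (hl i a)),
    fun i => hss (hq i), ?_⟩
  refine c3_VX_sq_le fun a ha b hb => ?_
  have hY : ∀ a ∈ sa, ∀ b ∈ s, (X a * X b : MvPolynomial σ ℂ) ∈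
      ⨆ i, (ℂ ∙ (X (e (Sum.inl i)) : MvPolynomial σ ℂ)) * VX s := fun a ha b hb => by
    obtain ⟨i, rfl⟩ := (hsa a).mp ha
    exact Submodule.mem_iSup_of_mem i
      (Submodule.mul_mem_mul (Submodule.mem_span_singleton_self _) (X_mem_VX hb))
  by_cases h4 : a ∈ sa
  · exact Submodule.mem_sup_left (Submodule.mem_sup_left (Submodule.mem_sup_left (hY a h4 b hb)))
  by_cases h5 : b ∈ sa
  · rw [mul_comm]
    exact Submodule.mem_sup_left (Submodule.mem_sup_left (Submodule.mem_sup_left (hY b h5 a ha)))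
  have h6 : (X a * X b : MvPolynomial σ ℂ) ∈ VX (s \ sa) ^ 2 := by
    rw [pow_two]
    exact Submodule.mul_mem_mul (X_mem_VX (Finset.mem_sdiff.mpr ⟨ha, h4⟩))
      (X_mem_VX (Finset.mem_sdiff.mpr ⟨hb, h5⟩))
  refine (sup_le_sup_right (sup_le_sup_right le_sup_right U) _) (hfill h6)

end Pool.Agent.P.MP_c64be1_ag.Asy
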