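import Pool.Agent.P.MP_c64be1_ag.Asy.Defs

/-! Polynomial curves, open properties and limits. -/

namespace Pool.Agent.P.MP_c64be1_ag.Asy

open Module

variable {A : Type} [CommRing A] [Algebra ℂ A]

lemma crv_const (a : A) : (fun _ : ℂ => a) ∈ Crv A :=
  ⟨Polynomial.C a, fun t => by simp⟩

lemma crv_id : (fun t : ℂ => algebraMap ℂ A t) ∈ Crv A :=
  ⟨Polynomial.X, fun t => by simp⟩

lemma crv_add {F G : ℂ → A} (hF : F ∈ Crv A) (hG : G ∈ Crv A) : (fun t => F t + G t) ∈ Crv A :=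
  add_mem hF hG

lemma crv_sub {F G : ℂ → A} (hF : F ∈ Crv A) (hG : G ∈ Crv A) : (fun t => F t - G t) ∈ Crv A :=
  sub_mem hF hG

lemma crv_mul {F G : ℂ → A} (hF : F ∈ Crv A) (hG : G ∈ Crv A) : (fun t => F t * G t) ∈ Crv A :=
  mul_mem hF hG

lemma crv_pow {F : ℂ → A} (hF : F ∈ Crv A) (n : ℕ) : (fun t => F t ^ n) ∈ Crv A :=
  pow_mem hF n

lemma crv_smul {F : ℂ → A} (hF : F ∈ Crv A) (a : ℂ) : (fun t => a • F t) ∈ Crv A :=
  Subalgebra.smul_mem _ hF a

lemma crv_tsmul {F : ℂ → A} (hF : F ∈ Crv A) : (fun t => t • F t) ∈ Crv A := by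
  have := crv_mul crv_id hF
  simpa [Algebra.smul_def] using this

lemma crv_tpow_smul {F : ℂ → A} (hF : F ∈ Crv A) (n : ℕ) : (fun t => t ^ n • F t) ∈ Crv A := by
  have := crv_mul (crv_pow crv_id n) hF
  simpa [Algebra.smul_def] using this

lemma crv_line (a b : A) : (fun t : ℂ => a + t • b) ∈ Crv A :=
  crv_add (crv_const a) (crv_tsmul (crv_const b))

lemma crv_sum {ι : Type} (s : Finset ι) {F : ι → ℂ → A} (hF : ∀ i ∈ s, F i ∈ Crv A) :
    (fun t => ∑ i ∈ s, F i t) ∈ Crv A := by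
  have := Subalgebra.sum_mem (Crv A) hF
  convert this using 1
  funext t
  simp

lemma crv_functional {F : ℂ → A} (hF : F ∈ Crv A) (φ : A →ₗ[ℂ] ℂ) :
    ∃ p : Polynomial ℂ, ∀ t, φ (F t) = p.eval t := by
  obtain ⟨f, hf⟩ := hF
  refine ⟨∑ i ∈ Finset.range (f.natDegree + 1), Polynomial.monomial i (φ (f.coeff i)), fun t => ?_⟩
  rw [hf, Polynomial.eval_eq_sum_range, map_sum, Polynomial.eval_finsetSum]
  refine Finset.sum_congr rfl fun i _ => ?_
  rw [Polynomial.eval_monomial, ← map_pow, mul_comm, ← Algebra.smul_def, map_smul, smul_eq_mul,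
    mul_comm]

/-- A curve that lies in a subspace infinitely often lies in it always. -/
lemma mem_of_crv {F : ℂ → A} (hF : F ∈ Crv A) (M : Submodule ℂ A) (h : {t | F t ∈ M}.Infinite)
    (t : ℂ) : F t ∈ M := by
  by_contra hn
  obtain ⟨φ, hφ, hM⟩ := Submodule.exists_dual_map_eq_bot_of_notMem hn inferInstance
  obtain ⟨p, hp⟩ := crv_functional hF φ
  have h0 : p = 0 := by
    refine Polynomial.eq_zero_of_infinite_isRoot p (h.mono fun u hu => ?_)
    have : φ (F u) ∈ M.map φ := Submodule.mem_map_of_mem hu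
    rw [hM, Submodule.mem_bot, hp] at this
    exact this
  exact hφ (by rw [hp, h0, Polynomial.eval_zero])

lemma mem_of_crv_of_finite {F : ℂ → A} (hF : F ∈ Crv A) (M : Submodule ℂ A)
    (h : {t | F t ∉ M}.Finite) (t : ℂ) : F t ∈ M := by
  refine mem_of_crv hF M ?_ t
  have := h.infinite_compl
  refine this.mono fun u hu => ?_
  simpa using hu

lemma mem_of_crv_ne_zero {F : ℂ → A} (hF : F ∈ Crv A) (M : Submodule ℂ A)
    (h : ∀ t, t ≠ 0 → F t ∈ M) : F 0 ∈ M := by
  refine mem_of_crv_of_finite hF M ((Set.finite_singleton (0 : ℂ)).subset fun u hu => ?_) 0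
  by_contra h0
  exact hu (h u h0)

/-- Independence persists along curves. -/
lemma indep_crv {ι : Type} [Fintype ι] (F : ι → ℂ → A) (hF : ∀ i, F i ∈ Crv A)
    (h0 : LinearIndependent ℂ fun i => F i 0) :
    {t | ¬ LinearIndependent ℂ fun i => F i t}.Finite := by
  classical
  have hφ : ∀ j : ι, ∃ φ : A →ₗ[ℂ] ℂ, ∀ i, φ (F i 0) = if i = j then 1 else 0 := by
    intro j
    obtain ⟨g, hg⟩ := LinearMap.exists_extend
      ((Finsupp.lapply j).comp (h0.repr : _ →ₗ[ℂ] (ι →₀ ℂ)))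
    refine ⟨g, fun i => ?_⟩
    have h1 := LinearMap.congr_fun hg ⟨F i 0, Submodule.subset_span ⟨i, rfl⟩⟩
    simp only [LinearMap.coe_comp, Submodule.coe_subtype, Function.comp_apply,
      Finsupp.lapply_apply] at h1
    rw [h1, h0.repr_eq_single i _ rfl, Finsupp.single_apply]
  choose φ hφ using hφ
  choose p hp using fun i j => crv_functional (hF i) (φ j)
  let M : Matrix ι ι (Polynomial ℂ) := fun i j => p i j
  have hdet : ∀ t, M.det.eval t = (Matrix.of fun i j => φ j (F i t)).det := by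
    intro t
    have := RingHom.map_det (Polynomial.evalRingHom t) M
    simp only [Polynomial.coe_evalRingHom] at this
    rw [this]
    congr 1
    ext i j
    simp [M, hp]
  have hne : M.det ≠ 0 := by
    intro h
    have h1 := hdet 0
    rw [h, Polynomial.eval_zero] at h1
    have h2 : (Matrix.of fun i j => φ j (F i 0)) = 1 := by
      ext i j
      simp [hφ, Matrix.one_apply]
    rw [h2, Matrix.det_one] at h1
    exact zero_ne_one h1
  refine (Polynomial.finite_setOfPred_isRoot hne).subset fun t ht => ?_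
  by_contra hr
  apply ht
  have hd : (Matrix.of fun i j => φ j (F i t)).det ≠ 0 := by
    rw [← hdet]
    exact hr
  have hrows := Matrix.linearIndependent_rows_of_det_ne_zero hd
  refine LinearIndependent.of_comp (LinearMap.pi φ) ?_
  exact hrows

variable {P : Type} [AddCommGroup P] [Module ℂ P]

lemma Ext.const (U : Submodule ℂ A) : Ext (fun _ : P => U) :=
  fun _ _ w hw => ⟨fun _ => w, crv_const w, rfl, fun _ => hw⟩

lemma Ext.iSup {ι : Sort _} {U : ι → P → Submodule ℂ A} (h : ∀ i, Ext (U i)) :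
    Ext (fun c => ⨆ i, U i c) := by
  intro c d w hw
  induction hw using Submodule.iSup_induction' with
  | mem i x hx =>
    obtain ⟨F, hF, h0, ht⟩ := h i c d x hx
    exact ⟨F, hF, h0, fun t => Submodule.mem_iSup_of_mem i (ht t)⟩
  | zero => exact ⟨0, zero_mem _, rfl, fun t => zero_mem _⟩
  | add x y _ _ hx hy =>
    obtain ⟨F, hF, rfl, ht⟩ := hx
    obtain ⟨G, hG, rfl, hu⟩ := hy
    exact ⟨F + G, add_mem hF hG, rfl, fun t => add_mem (ht t) (hu t)⟩

lemma Ext.sup {U U' : P → Submodule ℂ A} (h : Ext U) (h' : Ext U') :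
    Ext (fun c => U c ⊔ U' c) := by
  intro c d w hw
  obtain ⟨x, hx, y, hy, rfl⟩ := Submodule.mem_sup.mp hw
  obtain ⟨F, hF, rfl, ht⟩ := h c d x hx
  obtain ⟨G, hG, rfl, hu⟩ := h' c d y hy
  exact ⟨F + G, add_mem hF hG, rfl, fun t => Submodule.add_mem_sup (ht t) (hu t)⟩

lemma Ext.mul {U U' : P → Submodule ℂ A} (h : Ext U) (h' : Ext U') :
    Ext (fun c => U c * U' c) := by
  intro c d w hw
  induction hw using Submodule.mul_induction_on' with
  | mem_mul_mem x hx y hy =>
    obtain ⟨F, hF, rfl, ht⟩ := h c d x hx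
    obtain ⟨G, hG, rfl, hu⟩ := h' c d y hy
    exact ⟨F * G, mul_mem hF hG, rfl, fun t => Submodule.mul_mem_mul (ht t) (hu t)⟩
  | add x _ y _ hx hy =>
    obtain ⟨F, hF, rfl, ht⟩ := hx
    obtain ⟨G, hG, rfl, hu⟩ := hy
    exact ⟨F + G, add_mem hF hG, rfl, fun t => add_mem (ht t) (hu t)⟩

lemma Ext.pow {U : P → Submodule ℂ A} (h : Ext U) (n : ℕ) : Ext (fun c => U c ^ n) := by
  induction n with
  | zero => simpa using Ext.const (P := P) (1 : Submodule ℂ A)
  | succ n ih => simpa [pow_succ] using ih.mul h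

lemma Ext.span {f : P → A} (hf : PolyMap f) : Ext (fun c => ℂ ∙ f c) := by
  intro c d w hw
  obtain ⟨a, rfl⟩ := Submodule.mem_span_singleton.mp hw
  refine ⟨fun t => a • f (c + t • d), crv_smul (hf c d) a, by simp, fun t => ?_⟩
  exact Submodule.smul_mem _ a (Submodule.mem_span_singleton_self _)

/-- Composition with a map sending lines to lines. -/
lemma Ext.comp {P' : Type} [AddCommGroup P'] [Module ℂ P'] {U : P → Submodule ℂ A} (h : Ext U)
    (L : P' → P) (hL : ∀ c d : P', ∃ e : P, ∀ t : ℂ, L (c + t • d) = L c + t • e) :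
    Ext (fun c => U (L c)) := by
  intro c d w hw
  obtain ⟨e, he⟩ := hL c d
  obtain ⟨F, hF, h0, ht⟩ := h (L c) e w hw
  exact ⟨F, hF, h0, fun t => by simp only [he]; exact ht t⟩

lemma Ext.comp_linear {P' : Type} [AddCommGroup P'] [Module ℂ P'] {U : P → Submodule ℂ A}
    (h : Ext U) (L : P' →ₗ[ℂ] P) : Ext (fun c => U (L c)) :=
  h.comp L fun _ d => ⟨L d, fun t => by simp⟩

lemma PolyMap.const (a : A) : PolyMap (fun _ : P => a) := fun _ _ => crv_const a

lemma PolyMap.linear (L : P →ₗ[ℂ] A) : PolyMap (fun c => L c) := fun c d => by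
  simpa using crv_line (L c) (L d)

lemma PolyMap.of_line {f : P → A} (h : ∀ c d : P, ∃ e : A, ∀ t : ℂ, f (c + t • d) = f c + t • e) :
    PolyMap f := fun c d => by
  obtain ⟨e, he⟩ := h c d
  simpa [he] using crv_line (f c) e

lemma PolyMap.add {f g : P → A} (hf : PolyMap f) (hg : PolyMap g) : PolyMap (fun c => f c + g c) :=
  fun c d => crv_add (hf c d) (hg c d)

lemma PolyMap.sub {f g : P → A} (hf : PolyMap f) (hg : PolyMap g) : PolyMap (fun c => f c - g c) :=
  fun c d => crv_sub (hf c d) (hg c d)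

lemma PolyMap.mul {f g : P → A} (hf : PolyMap f) (hg : PolyMap g) : PolyMap (fun c => f c * g c) :=
  fun c d => crv_mul (hf c d) (hg c d)

lemma PolyMap.pow {f : P → A} (hf : PolyMap f) (n : ℕ) : PolyMap (fun c => f c ^ n) :=
  fun c d => crv_pow (hf c d) n

lemma Opn.and {Q Q' : P → Prop} (h : Opn Q) (h' : Opn Q') : Opn (fun c => Q c ∧ Q' c) := by
  intro c d hc
  refine ((h c d hc.1).union (h' c d hc.2)).subset fun t ht => ?_
  simp only [Set.mem_ofPred_eq, Set.mem_union] at ht ⊢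
  tauto

lemma Opn.forall {ι : Type} [Finite ι] {Q : ι → P → Prop} (h : ∀ i, Opn (Q i)) :
    Opn (fun c => ∀ i, Q i c) := by
  intro c d hc
  refine (Set.finite_iUnion fun i => h i c d (hc i)).subset fun t ht => ?_
  simpa using ht

lemma Opn.exists_and {Q Q' : P → Prop} (h : Opn Q) (h' : Opn Q') (e : ∃ c, Q c) (e' : ∃ c, Q' c) :
    ∃ c, Q c ∧ Q' c := by
  obtain ⟨c, hc⟩ := e
  obtain ⟨c', hc'⟩ := e'
  have h1 := h c (c' - c) hc
  have h2 := h' c' (c - c') hc'
  have h3 : ((fun t : ℂ => 1 - t) ⁻¹' {t : ℂ | ¬ Q' (c' + t • (c - c'))}).Finite :=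
    h2.preimage (fun a _ b _ hab => by simpa using hab)
  obtain ⟨t, ht⟩ := (h1.union h3).infinite_compl.nonempty
  simp only [Set.mem_compl_iff, Set.mem_union, Set.mem_ofPred_eq, Set.mem_preimage, not_or,
    not_not] at ht
  refine ⟨_, ht.1, ?_⟩
  have : c + t • (c' - c) = c' + (1 - t) • (c - c') := by module
  rw [this]
  exact ht.2

lemma Opn.exists_forall {ι : Type} [Finite ι] {Q : ι → P → Prop} (h : ∀ i, Opn (Q i))
    (e : ∀ i, ∃ c, Q i c) : ∃ c, ∀ i, Q i c := by
  classical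
  have := Fintype.ofFinite ι
  have key : ∀ s : Finset ι, Opn (fun c => ∀ i ∈ s, Q i c) ∧ ∃ c, ∀ i ∈ s, Q i c := by
    intro s
    induction s using Finset.induction_on with
    | empty => exact ⟨fun c d _ => by simp, 0, by simp⟩
    | insert a s _ ih =>
      have hfun : (fun c => ∀ i ∈ insert a s, Q i c) = fun c => Q a c ∧ ∀ i ∈ s, Q i c := by
        funext c
        simp
      refine ⟨hfun ▸ (h a).and ih.1, ?_⟩
      obtain ⟨c, hc⟩ := (h a).exists_and ih.1 (e a) ih.2
      exact ⟨c, by simpa using hc⟩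
  obtain ⟨c, hc⟩ := (key Finset.univ).2
  exact ⟨c, fun i => hc i (Finset.mem_univ i)⟩

lemma Opn.exists_ne_zero {Q : P → Prop} (h : Opn Q) {c : P} (hc : Q c) (d : P) :
    ∃ t : ℂ, t ≠ 0 ∧ Q (c + t • d) := by
  obtain ⟨t, ht⟩ := ((h c d hc).union (Set.finite_singleton (0 : ℂ))).infinite_compl.nonempty
  simp only [Set.mem_compl_iff, Set.mem_union, Set.mem_ofPred_eq, Set.mem_singleton_iff, not_or,
    not_not] at ht
  exact ⟨t, ht.2, ht.1⟩

/-- A nonzero value of a linear functional is an open property. -/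
lemma opn_ne_zero (φ : P →ₗ[ℂ] ℂ) : Opn (fun c => φ c ≠ 0) := by
  intro c d hc
  refine (Set.finite_singleton (-(φ c) / φ d)).subset fun t ht => ?_
  simp only [map_add, map_smul, smul_eq_mul, ne_eq, not_not, Set.mem_ofPred_eq] at ht
  have hd : φ d ≠ 0 := by
    intro h0
    rw [h0, mul_zero, add_zero] at ht
    exact hc ht
  rw [Set.mem_singleton_iff, eq_div_iff hd]
  linear_combination ht

private lemma finite_of_curves {U : Submodule ℂ A} [FiniteDimensional ℂ U] {M : ℂ → Submodule ℂ A}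
    (Z : Set ℂ) (hfd : ∀ t, FiniteDimensional ℂ (M t))
    (h : ∀ w ∈ U, ∃ F ∈ Crv A, F 0 = w ∧ ∀ t, t ∉ Z → F t ∈ M t) :
    {t | t ∉ Z ∧ ¬ finrank ℂ U ≤ finrank ℂ (M t)}.Finite := by
  let b := Module.finBasis ℂ U
  choose F hF h0 ht using fun i => h (b i) (b i).2
  have hind : LinearIndependent ℂ fun i => F i 0 := by
    simp only [h0]
    exact b.linearIndependent.map' U.subtype (Submodule.ker_subtype U)
  refine (indep_crv F hF hind).subset fun t htt => ?_
  intro hi
  apply htt.2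
  have := hfd t
  have h2 : LinearIndependent ℂ fun i => (⟨F i t, ht i t htt.1⟩ : M t) :=
    LinearIndependent.of_comp (M t).subtype hi
  simpa using h2.fintype_card_le_finrank

/-- Lower bounds for the dimension are open. -/
lemma Ext.opn_finrank {U : P → Submodule ℂ A} (h : Ext U) (T : Submodule ℂ A)
    [FiniteDimensional ℂ T] (hT : ∀ c, U c ≤ T) (ρ : ℕ) :
    Opn (fun c => ρ ≤ finrank ℂ (U c)) := by
  intro c d hc
  have hfd : ∀ c, FiniteDimensional ℂ (U c) := fun c => Submodule.finiteDimensional_of_le (hT c)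
  have := hfd c
  have h1 := finite_of_curves (U := U c) (M := fun t => U (c + t • d)) ∅ (fun t => hfd _)
    (fun w hw => by
      obtain ⟨F, hF, h0, ht⟩ := h c d w hw
      exact ⟨F, hF, h0, fun t _ => ht t⟩)
  refine h1.subset fun t ht => ⟨by simp, fun h2 => ht (hc.trans h2)⟩

/-- Filling the ambient space is open. -/
lemma Ext.opn_fill {U : P → Submodule ℂ A} (h : Ext U) (T : Submodule ℂ A)
    [FiniteDimensional ℂ T] (hT : ∀ c, U c ≤ T) : Opn (fun c => T ≤ U c) := by
  have : (fun c => T ≤ U c) = fun c => finrank ℂ T ≤ finrank ℂ (U c) := by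
    funext c
    refine propext ⟨fun h1 => ?_, fun h1 => ?_⟩
    · rw [le_antisymm h1 (hT c)]
    · exact (Submodule.eq_of_le_of_finrank_le (hT c) h1).ge
  rw [this]
  exact h.opn_finrank T hT _

lemma mem_lim {M : ℂ → Submodule ℂ A} {F : ℂ → A} (hF : F ∈ Crv A) (h : ∀ t, t ≠ 0 → F t ∈ M t) :
    F 0 ∈ Lim M := ⟨F, hF, rfl, h⟩

lemma le_lim {M : ℂ → Submodule ℂ A} {U : Submodule ℂ A} (h : ∀ t, t ≠ 0 → U ≤ M t) :
    U ≤ Lim M := fun w hw => ⟨fun _ => w, crv_const w, rfl, fun t ht => h t ht hw⟩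

/-- If the limit fills the ambient space then so does a member of the family. -/
lemma exists_fill_of_lim {M : ℂ → Submodule ℂ A} (T : Submodule ℂ A) [FiniteDimensional ℂ T]
    (hT : ∀ t, M t ≤ T) (h : T ≤ Lim M) : ∃ t, t ≠ 0 ∧ T ≤ M t := by
  have h1 := finite_of_curves (U := T) (M := M) {0}
    (fun t => Submodule.finiteDimensional_of_le (hT t)) (fun w hw => by
      obtain ⟨F, hF, h0, ht⟩ := h hw
      exact ⟨F, hF, h0, fun t ht' => ht t ht'⟩)
  obtain ⟨t, ht⟩ := (h1.union (Set.finite_singleton (0 : ℂ))).infinite_compl.nonempty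
  simp only [Set.mem_compl_iff, Set.mem_union, Set.mem_ofPred_eq, Set.mem_singleton_iff, not_or,
    not_and, not_not] at ht
  exact ⟨t, ht.2, (Submodule.eq_of_le_of_finrank_le (hT t) (ht.1 ht.2)).ge⟩

end Pool.Agent.P.MP_c64be1_ag.Asy
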