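import Pool.Agent.P.MP_c64be1_ag.Basic

/-! Working definitions for the asymptotic generic rank theorem. -/

namespace Pool.Agent.P.MP_c64be1_ag.Asy

open MvPolynomial Module

section curves

variable {A : Type} [CommRing A] [Algebra ℂ A]

/-- Polynomial curves in `A`. -/
def Crv (A : Type) [CommRing A] [Algebra ℂ A] : Subalgebra ℂ (ℂ → A) where
  carrier := {F | ∃ f : Polynomial A, ∀ t, F t = f.eval (algebraMap ℂ A t)}
  mul_mem' := by
    rintro F G ⟨f, hf⟩ ⟨g, hg⟩
    exact ⟨f * g, fun t => by simp [hf, hg]⟩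
  add_mem' := by
    rintro F G ⟨f, hf⟩ ⟨g, hg⟩
    exact ⟨f + g, fun t => by simp [hf, hg]⟩
  algebraMap_mem' := fun a => ⟨Polynomial.C (algebraMap ℂ A a), fun t => by simp⟩

variable {P : Type} [AddCommGroup P] [Module ℂ P]

/-- Every element of `U c` moves along a polynomial curve when `c` moves along a line. -/
def Ext (U : P → Submodule ℂ A) : Prop :=
  ∀ c d : P, ∀ w ∈ U c, ∃ F ∈ Crv A, F 0 = w ∧ ∀ t : ℂ, F t ∈ U (c + t • d)

/-- A map that is polynomial along lines. -/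
def PolyMap (f : P → A) : Prop := ∀ c d : P, (fun t : ℂ => f (c + t • d)) ∈ Crv A

/-- A property that persists at all but finitely many points of a line through a point
having it. -/
def Opn (Q : P → Prop) : Prop := ∀ c d : P, Q c → {t : ℂ | ¬ Q (c + t • d)}.Finite

/-- Limits at `0` of polynomial curves inside a family of subspaces. -/
def Lim (M : ℂ → Submodule ℂ A) : Submodule ℂ A where
  carrier := {w | ∃ F ∈ Crv A, F 0 = w ∧ ∀ t : ℂ, t ≠ 0 → F t ∈ M t}
  add_mem' := by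
    rintro _ _ ⟨F, hF, rfl, h⟩ ⟨G, hG, rfl, h'⟩
    exact ⟨F + G, add_mem hF hG, rfl, fun t ht => add_mem (h t ht) (h' t ht)⟩
  zero_mem' := ⟨0, zero_mem _, rfl, fun t _ => zero_mem _⟩
  smul_mem' := by
    rintro a _ ⟨F, hF, rfl, h⟩
    exact ⟨a • F, Subalgebra.smul_mem _ hF a, rfl, fun t ht => Submodule.smul_mem _ a (h t ht)⟩

end curves

section objects

variable {A : Type} [CommRing A] [Algebra ℂ A]

/-- The span of the first `j` points. -/
def sp (c : ℕ → A) (j : ℕ) : Submodule ℂ A := ⨆ i : Fin j, ℂ ∙ c i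

/-- The tangent space at a Fermat form in `j` points. -/
def blk (V : Submodule ℂ A) (k j : ℕ) (c : ℕ → A) : Submodule ℂ A :=
  sp c j ^ k ⊔ ⨆ i : Fin j, (ℂ ∙ c i) ^ (k - 1) * V

/-- The power of the span of `j + 1` points and one double point. -/
def res (V : Submodule ℂ A) (k j : ℕ) (c : ℕ → A) : Submodule ℂ A :=
  sp c (j + 1) ^ k ⊔ (ℂ ∙ c j) ^ (k - 1) * V

/-- Simple points together with the forms coming from their pairs. -/
def jj (k g : ℕ) (c : ℕ → A) : Submodule ℂ A :=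
  ⨆ i : Fin g, ⨆ l : Fin g, ((ℂ ∙ c i ^ k) ⊔ ℂ ∙ (c i ^ (k - 2) * c l * (c i - c l)))

/-- Sequences of points of `V`. -/
def allIn (V : Submodule ℂ A) : Submodule ℂ (ℕ → A) := Submodule.pi Set.univ fun _ => V

/-- Sequences of points of `V` lying in `H` outside the index `j`. -/
def oneOut (V H : Submodule ℂ A) (j : ℕ) : Submodule ℂ (ℕ → A) :=
  Submodule.pi Set.univ fun a => if a = j then V else H

/-- A system of kinds of objects. -/
structure Sys (A Kd : Type) [CommRing A] [Algebra ℂ A] where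
  Q : Kd → Submodule ℂ (ℕ → A)
  Obj : Kd → (ℕ → A) → Submodule ℂ A

/-- `U` is the span of objects whose kinds are listed by `s`. -/
def Reach {Kd : Type} (S : Sys A Kd) (s : Multiset Kd) (U : Submodule ℂ A) : Prop :=
  ∃ C : Multiset (Kd × (ℕ → A)), C.map Prod.fst = s ∧ (∀ x ∈ C, x.2 ∈ S.Q x.1) ∧
    U = (C.map fun x => S.Obj x.1 x.2).sum

/-- The hypotheses of the swap lemma. -/
structure Good {Kd : Type} (S : Sys A Kd) (V H : Submodule ℂ A) (k : ℕ) : Prop where
  ext : ∀ κ, Ext (S.Obj κ)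
  le : ∀ κ, ∀ c ∈ S.Q κ, S.Obj κ c ≤ V ^ k
  memV : ∀ κ, ∀ c ∈ S.Q κ, ∀ a, c a ∈ V
  memH : ∀ κ c, (∀ a, c a ∈ H) → c ∈ S.Q κ
  eqv : ∀ κ c (φ : A →ₐ[ℂ] A), V.map φ.toLinearMap ≤ V → H.map φ.toLinearMap ≤ H →
    (S.Obj κ c).map φ.toLinearMap ≤ S.Obj κ (fun a => φ (c a))

/-- The main system: blocks `Sum.inl j` and groups of simple points `Sum.inr g`. -/
def msys (V : Submodule ℂ A) (k : ℕ) : Sys A (ℕ ⊕ ℕ) where
  Q := fun _ => allIn V
  Obj := fun κ => match κ with
    | Sum.inl j => blk V k j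
    | Sum.inr g => jj k g

end objects

/-- The span of a finite set of variables. -/
noncomputable abbrev VX {σ : Type} (s : Finset σ) : Submodule ℂ (MvPolynomial σ ℂ) :=
  spanX (s : Set σ)

/-- Objects of the kinds `st` can span all forms of degree `k` in the variables `s`. -/
def Fill {σ : Type} (s : Finset σ) (k : ℕ) (st : Multiset (ℕ ⊕ ℕ)) : Prop :=
  ∃ U, Reach (msys (VX s) k) st U ∧ VX s ^ k ≤ U

/-- The number of monomials of degree `k` in `n` variables. -/
def NN (n k : ℕ) : ℕ := (n + k - 1).choose k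

/-- The expected dimension of an object. -/
def size (n k : ℕ) : ℕ ⊕ ℕ → ℕ
  | Sum.inl j => j * (n - j) + NN j k
  | Sum.inr g => (g + 1).choose 2

/-- The number of double points of an object. -/
def pts : ℕ ⊕ ℕ → ℕ
  | Sum.inl j => j
  | Sum.inr _ => 0

/-- The numerical hypotheses of the last step. -/
def FinCond (n k : ℕ) (st : Multiset (ℕ ⊕ ℕ)) : Prop :=
  ∃ D : ℕ, (∀ j, Sum.inl j ∈ st → j ≤ n ∧ j * n + NN j k ≤ D) ∧
    (∀ g, Sum.inr g ∈ st → g ≤ n ∧ 2 * g ^ 2 ≤ D) ∧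
    NN n k ≤ (st.map (size n k)).sum ∧ D * D ≤ st.count (Sum.inr 1)

/-- The numerical hypotheses of the residual problem in degree `k` for the hyperplane step;
`n` is the dimension of the hyperplane. -/
def ResCond (n k j mo b f : ℕ) : Prop :=
  j + 1 ≤ n ∧ (∃ μ, NN (n + 1) (k - 1) < μ * (n + 1) ∧ μ + (n + 2) ≤ mo) ∧
    NN (n + 1) k ≤ mo * (n - j + NN (j + 1) k) + b * (n - (j + 1) + NN (j + 1) k) + f ∧
    NN (n + 1) k + (n + 1 + NN (j + 1) k) ^ 2 ≤ NN n k + f

/-- The numerical hypotheses of one component of the codimension two step for cubics: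
`ma` moving points, groups of sizes `g`, `t` subspaces of dimension `j`, `f` free points. -/
def CompCond (n j ma : ℕ) (g : Multiset ℕ) (t f : ℕ) : Prop :=
  ma + g.sum + j ≤ n ∧
    t * (j + 1).choose 2 + ((j + 1).choose 2) ^ 2 ≤ (n - ma - g.sum + 1).choose 2 ∧
    (n + 1).choose 2 + ma.choose 2 + (g.map fun a => a.choose 2).sum ≤
      ma * n + (g.sum + 1).choose 2 + t * (j + 1).choose 2 + f

end Pool.Agent.P.MP_c64be1_ag.Asy
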