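import Pool.Agent.P.MP_c64be1_ag.Asy.Defs

/-! The numerical hypotheses of the sharper residual lemma. -/

namespace Pool.Agent.P.MP_c64be1_ag.Asy

/-- The numerical hypotheses of the residual problem in degree `k`, second form;
`n` is the dimension of the hyperplane. -/
def ResCond2 (n k j mo b f : ℕ) : Prop :=
  j + 1 ≤ n ∧ (∃ μ, NN (n + 1) (k - 1) < μ * (n - j + NN (j + 1) (k - 1)) ∧
      μ + (n + 1 + NN (j + 1) (k - 1)) ≤ mo) ∧
    NN (n + 1) k ≤ mo * (n - j + NN (j + 1) k) + b * (n - (j + 1) + NN (j + 1) k) + f ∧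
    (n + 1 + NN (j + 1) k) ^ 2 ≤ f

end Pool.Agent.P.MP_c64be1_ag.Asy
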