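import Pool.Agent.P.MP_c64be1_ag.Asy.Reach

/-! Multisets of kinds attached to sums of index types. -/

namespace Pool.Agent.P.MP_c64be1_ag.Asy

open Multiset

lemma univ_val_map_sum {α β γ : Type} [Fintype α] [Fintype β] (f : α → γ) (g : β → γ) :
    Finset.univ.val.map (Sum.elim f g) = Finset.univ.val.map f + Finset.univ.val.map g := by
  rw [← Finset.univ_disjSum_univ, Finset.val_disjSum, Multiset.disjSum, Multiset.map_add,
    Multiset.map_map, Multiset.map_map]
  rfl

lemma univ_val_map_const {α γ : Type} [Fintype α] (a : γ) :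
    Finset.univ.val.map (fun _ : α => a) = replicate (Fintype.card α) a := by
  rw [Multiset.map_const']
  rfl

lemma card_sigma_pts {ι : Type} [Fintype ι] (κ : ι → ℕ ⊕ ℕ) :
    Fintype.card (Σ i : ι, Fin (pts (κ i))) = ((Finset.univ.val.map κ).map pts).sum := by
  rw [Fintype.card_sigma, Multiset.map_map]
  simp only [Fintype.card_fin]
  rfl

lemma card_sigma_fin {ι : Type} [Fintype ι] (sz : ι → ℕ) :
    Fintype.card (Σ i : ι, Fin (sz i)) = (Finset.univ.val.map sz).sum := by
  rw [Fintype.card_sigma]
  simp only [Fintype.card_fin]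
  rfl

end Pool.Agent.P.MP_c64be1_ag.Asy
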