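import Pool.Agent.P.MP_c64be1_ag.Asy.BC

/-! The last step: enough free simple points absorb the loss of the swap lemma. -/

namespace Pool.Agent.P.MP_c64be1_ag.Asy

open MvPolynomial Module

theorem finish {σ : Type} (s : Finset σ) {k : ℕ} (hk : 3 ≤ k) (st : Multiset (ℕ ⊕ ℕ))
    (h : FinCond s.card k st) : Fill s k st := by
  classical
  obtain ⟨D, hl, hr, hsum, hD⟩ := h
  set m := st.count (Sum.inr 1) with hm
  set st' := st.filter (fun κ => ¬ κ = Sum.inr 1) with hst'
  have hsplit : st' + Multiset.replicate m (Sum.inr 1) = st := by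
    rw [hm, ← Multiset.filter_eq', add_comm]
    exact Multiset.filter_add_not _ st
  have hsub : ∀ κ ∈ st', κ ∈ st := fun κ hκ => Multiset.mem_of_mem_filter hκ
  obtain ⟨U, hU, hrank⟩ := bc_rank s (VX s) le_rfl (msys (VX s) k) k (good_msys _ (by omega))
    (size s.card k) D st'
    (fun κ hκ => by
      rcases κ with j | g
      · exact blk_lower s (by omega) (hl j (hsub _ hκ)).1
      · exact jj_lower s hk (hr g (hsub _ hκ)).1)
    (fun κ hκ c _ => by
      rcases κ with j | g
      · exact (blk_upper s k j c).trans (hl j (hsub _ hκ)).2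
      · exact (jj_upper k g c).trans (hr g (hsub _ hκ)).2)
  have hle : U ≤ VX s ^ k :=
    reach_le _ hU fun κ _ c hc => msys_le (by omega) le_rfl κ (mem_allIn.mp hc)
  have hsup : U ⊔ VX s ^ k = VX s ^ k := sup_eq_right.mpr hle
  have hnum : NN s.card k ≤ finrank ℂ U + m := by
    rcases hrank with h1 | h1
    · rw [← hsplit, Multiset.map_add, Multiset.sum_add, Multiset.map_replicate,
        Multiset.sum_replicate] at hsum
      have h2 : size s.card k (Sum.inr 1) = 1 := rfl
      rw [h2, smul_eq_mul, mul_one] at hsum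
      omega
    · rw [finrank_VX_pow] at h1
      omega
  have : FiniteDimensional ℂ ↥(U ⊔ VX s ^ k) := by
    rw [hsup]
    infer_instance
  obtain ⟨q, hq, hfill⟩ := pure_filler (VX s) U k (Fin m) (by
    rw [hsup, finrank_VX_pow, Fintype.card_fin]
    exact hnum)
  have hR : Reach (msys (VX s) k) (Multiset.replicate m (Sum.inr 1))
      (⨆ i : Fin m, (msys (VX s) k).Obj (Sum.inr 1) fun _ => q i) :=
    (reach_family (msys (VX s) k) (fun _ : Fin m => Sum.inr 1) (by simp) _).mpr
      ⟨fun i _ => q i, fun i => mem_allIn.mpr fun _ => hq i, rfl⟩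
  refine ⟨_, hsplit ▸ reach_add _ hU hR, hfill.trans (sup_le_sup_left (iSup_mono fun i => ?_) _)⟩
  exact span_pow_le_jj k (fun _ => q i) (i := 0) (g := 1) Nat.one_pos

end Pool.Agent.P.MP_c64be1_ag.Asy
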