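import Pool.Agent.P.MP_c64be1_ag.Asy.Reach
import Pool.Agent.P.MP_c64be1_ag.Asy.Dim

/-! From tangent spaces at Fermat forms to Zariski density. -/

namespace Pool.Agent.P.MP_c64be1_ag.Asy

open MvPolynomial Module

private lemma link_euler {σ : Type} [Fintype σ] [DecidableEq σ] (φ : MvPolynomial σ ℂ →ₗ[ℂ] ℂ)
    {p : MvPolynomial σ ℂ} (hp : p ∈ VX (Finset.univ : Finset σ)) :
    ∑ u, φ (X u) • pderiv u p = C (φ p) := by
  induction hp using Submodule.span_induction with
  | mem x hx =>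
    obtain ⟨v, -, rfl⟩ := hx
    simp [pderiv_X, Pi.single_apply, smul_eq_C_mul]
  | zero => simp
  | add x y _ _ hx hy => simp only [map_add, smul_add, Finset.sum_add_distrib, hx, hy]
  | smul a x _ hx =>
    simp only [Derivation.map_smul, smul_comm _ a, ← Finset.smul_sum, hx, map_smul]
    rw [smul_eq_C_mul, smul_eq_mul, map_mul]

private lemma link_tangent {σ : Type} [Fintype σ] [DecidableEq σ] {k r : ℕ} (hk : 1 ≤ k)
    {c : ℕ → MvPolynomial σ ℂ} (hc : ∀ a, c a ∈ VX (Finset.univ : Finset σ))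
    (hi : LinearIndependent ℂ fun a : Fin r => c a) {τ : MvPolynomial σ ℂ}
    (hτ : τ ∈ blk (VX (Finset.univ : Finset σ)) k r c) :
    ∃ w ∈ sp c r ^ k, ∃ a : σ → MvPolynomial σ ℂ, (∀ v, (a v).IsHomogeneous 1) ∧
      τ = w + ∑ v, a v * pderiv v (∑ b : Fin r, c b ^ k) := by
  let L : (σ → MvPolynomial σ ℂ) →ₗ[ℂ] MvPolynomial σ ℂ :=
    ∑ v, (LinearMap.mulRight ℂ (pderiv v (∑ b : Fin r, c b ^ k))).comp (LinearMap.proj v)
  have hL : ∀ a, L a = ∑ v, a v * pderiv v (∑ b : Fin r, c b ^ k) := fun a => by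
    simp only [L, LinearMap.sum_apply, LinearMap.comp_apply, LinearMap.proj_apply,
      LinearMap.mulRight_apply]
  have h : blk (VX (Finset.univ : Finset σ)) k r c ≤ sp c r ^ k ⊔
      (Submodule.pi Set.univ fun _ => homogeneousSubmodule σ ℂ 1).map L := by
    refine sup_le_sup_left (iSup_le fun i => ?_) _
    rw [span_pow_eq, span_mul_le_iff]
    intro v hv
    obtain ⟨φ, hφ⟩ := LinearMap.exists_extend
      ((Finsupp.lapply i).comp (hi.repr : _ →ₗ[ℂ] (Fin r →₀ ℂ)))
    have h0 : ∀ b : Fin r, φ (c b) = if b = i then 1 else 0 := fun b => by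
      have h1 := LinearMap.congr_fun hφ ⟨c b, Submodule.subset_span ⟨b, rfl⟩⟩
      simp only [LinearMap.coe_comp, Submodule.coe_subtype, Function.comp_apply,
        Finsupp.lapply_apply] at h1
      rw [h1, hi.repr_eq_single b _ rfl, Finsupp.single_apply]
    refine ⟨fun u => (φ (X u) / k) • v, fun u _ => Submodule.smul_mem _ _ (spanX_le _ hv), ?_⟩
    have hk0 : (k : ℂ) ≠ 0 := Nat.cast_ne_zero.2 (by omega)
    have h1 : ∀ u (b : Fin r), (φ (X u) / k) • v * pderiv u (c b ^ k) =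
        c b ^ (k - 1) * v * (φ (X u) • pderiv u (c b)) := fun u b => by
      rw [Derivation.leibniz_pow, ← Nat.cast_smul_eq_nsmul ℂ, smul_mul_smul_comm,
        div_mul_cancel₀ _ hk0, smul_eq_mul, mul_smul_comm, mul_left_comm, mul_assoc]
    simp only [hL, map_sum, Finset.mul_sum, h1]
    rw [Finset.sum_comm]
    simp only [← Finset.mul_sum, link_euler φ (hc _), h0]
    simp [apply_ite]
  obtain ⟨w, hw, _, ⟨a, ha, rfl⟩, rfl⟩ := Submodule.mem_sup.1 (h hτ)
  exact ⟨w, hw, a, fun v => ha v trivial, by rw [hL]⟩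

theorem secantFills_of_fill {n k r S : ℕ} (hk : 2 ≤ k) (hr : r ≤ n)
    (h : Fill (Finset.univ : Finset (Fin n)) k (Multiset.replicate S (Sum.inl r))) :
    SecantFills (Fin n) k r S := by
  obtain ⟨U, hU, hfill⟩ := h
  obtain ⟨c₀, hc₀, rfl⟩ := (reach_family _ (fun _ : Fin S => Sum.inl r) (by simp) U).1 hU
  set V := VX (Finset.univ : Finset (Fin n)) with hV
  let L : Fin S → (Fin S → ↥(allIn V)) →ₗ[ℂ] (ℕ → MvPolynomial (Fin n) ℂ) := fun i =>
    (allIn V).subtype.comp (LinearMap.proj i)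
  have hL : ∀ i c a, L i c a ∈ V := fun i c => mem_allIn.1 (c i).2
  have o1 : Opn fun c => V ^ k ≤ ⨆ i, blk V k r (L i c) :=
    (Ext.iSup fun i => (ext_blk V k r).comp_linear (L i)).opn_fill _ fun c =>
      iSup_le fun i => blk_le (by omega) (fun a _ => hL i c a) le_rfl
  have o2 : ∀ i, Opn fun c => r ≤ finrank ℂ (sp (L i c) r) := fun i =>
    ((ext_sp r).comp_linear (L i)).opn_finrank V (fun c => sp_le_iff.2 fun a _ => hL i c a) r
  obtain ⟨c₁, hc₁, h1⟩ := sp_pow_lower (Finset.univ : Finset (Fin n)) 1 (j := r) (by simpa)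
  rw [pow_one, NN, Nat.add_sub_cancel, Nat.choose_one_right] at h1
  obtain ⟨c, h2, h3⟩ := o1.exists_and (Opn.forall o2) ⟨fun i => ⟨c₀ i, hc₀ i⟩, hfill⟩
    ⟨fun _ => ⟨c₁, hc₁⟩, fun _ => h1⟩
  have hi : ∀ i, LinearIndependent ℂ fun a : Fin r => L i c a := fun i => by
    rw [linearIndependent_iff_card_le_finrank_span, Fintype.card_fin, Set.finrank,
      Submodule.span_range_eq_iSup]
    exact h3 i
  refine secantFills_of_tangent (Fintype.card_fin S) (by simpa) (fun i => sp (L i c) r)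
    (fun i => (sp_le_iff.2 fun a _ => hL i c a).trans (spanX_le _)) (fun i => ?_)
    (fun i => ∑ b : Fin r, L i c b ^ k)
    (fun i => sum_mem fun b _ => Submodule.pow_mem_pow _ (mem_sp _ b.2) k) fun τ hτ => ?_
  · have := sp_pow_upper (L i c) r 1
    rwa [pow_one, NN, Nat.add_sub_cancel, Nat.choose_one_right] at this
  · have h4 : τ ∈ V ^ k := by
      rw [hV, VX, spanX, Finset.coe_univ, Set.image_univ, ← homogeneousSubmodule_one_eq_span_X,
        homogeneousSubmodule_one_pow]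
      exact hτ
    obtain ⟨f, hf, rfl⟩ := (Submodule.mem_iSup_iff_exists_finsupp _ _).1 (h2 h4)
    choose w hw a ha he using fun i => link_tangent (by omega : 1 ≤ k) (hL i c) (hi i) (hf i)
    refine ⟨w, a, hw, ha, ?_⟩
    rw [Finsupp.sum_fintype _ _ fun _ => rfl]
    exact Finset.sum_congr rfl fun i _ => he i

end Pool.Agent.P.MP_c64be1_ag.Asy
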