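import Pool.Agent.P.MP_c64be1_ag.NotDense
import Pool.Agent.P.MP_c64be1_ag.Asy.Defs

/-! The dimension count: too few summands are not dense. -/

namespace Pool.Agent.P.MP_c64be1_ag.Asy

open MvPolynomial

namespace LowerAux

variable {σ : Type} [Fintype σ] [DecidableEq σ]

/-- The matrices of the standard chart of the Grassmannian. -/
def gch {R : Type} [CommRing R] (S : Finset σ) (φ : S × (Sᶜ : Finset σ) → R) : Matrix σ σ R :=
  fun v u => if hv : v ∈ S then
    (if hu : u ∈ S then (if v = u then 1 else 0)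
      else φ (⟨v, hv⟩, ⟨u, Finset.mem_compl.mpr hu⟩)) else 0

lemma gch_map {R R' : Type} [CommRing R] [CommRing R'] (f : R →+* R') (S : Finset σ)
    (φ : S × (Sᶜ : Finset σ) → R) : (gch S φ).map f = gch S (fun p => f (φ p)) := by
  ext v u
  simp only [gch, Matrix.map_apply]
  split_ifs <;> simp

omit [DecidableEq σ] in
lemma act_congr {S : Set σ} {M M' : Matrix σ σ ℂ} (h : ∀ v ∈ S, ∀ u, M v u = M' v u) {k : ℕ}
    {w : MvPolynomial σ ℂ} (hw : w ∈ spanX S ^ k) : act M w = act M' w := by
  refine Submodule.pow_induction_on_left (spanX S) (C := fun q => act M q = act M' q)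
    (fun r => by rw [AlgHom.commutes, AlgHom.commutes])
    (fun x y hx hy => by rw [map_add, map_add, hx, hy])
    (fun x hx y hy => ?_) hw
  rw [map_mul, map_mul, hy]
  refine congrArg (fun z => z * act M' y) ?_
  refine Submodule.span_induction (p := fun x _ => act M x = act M' x) ?_ (by simp)
    (fun a b _ _ ha hb => by rw [map_add, map_add, ha, hb])
    (fun c a _ ha => by rw [map_smul, map_smul, ha]) hx
  rintro _ ⟨v, hv, rfl⟩
  rw [act_X, act_X]
  exact Finset.sum_congr rfl fun u _ => by rw [h v hv u]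

/-- The diagonal block of a matrix. -/
def blkS {R : Type} (S : Finset σ) (M : Matrix σ σ R) : Matrix S S R :=
  M.submatrix Subtype.val Subtype.val

lemma exists_gch (S : Finset σ) (M : Matrix σ σ ℂ) (hM : (blkS S M).det ≠ 0) {k : ℕ}
    {w : MvPolynomial σ ℂ} (hw : w ∈ spanX (S : Set σ) ^ k) :
    ∃ (φ : S × (Sᶜ : Finset σ) → ℂ) (w' : MvPolynomial σ ℂ), w' ∈ spanX (S : Set σ) ^ k ∧
      act M w = act (gch S φ) w' := by
  let N : Matrix σ σ ℂ := fun v u => if u ∈ S then M v u else 0
  let φ : S × (Sᶜ : Finset σ) → ℂ := fun p => ∑ t : S, (blkS S M)⁻¹ p.1 t * M t p.2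
  refine ⟨φ, act N w, act_mem_spanX_pow N (fun v _ u hu => if_neg hu) hw, ?_⟩
  rw [act_act]
  refine act_congr (fun v hv u => ?_) hw
  have hv' : v ∈ S := hv
  have h1 : (N * gch S φ) v u = ∑ t : S, M v t * gch S φ t u := by
    rw [Matrix.mul_apply, Finset.sum_coe_sort S (fun t => M v t * gch S φ t u),
      ← Finset.sum_subset (Finset.subset_univ S)]
    · exact Finset.sum_congr rfl fun t ht => by simp only [N, if_pos ht]
    · intro t _ ht
      simp only [N, if_neg ht, zero_mul]
  rw [h1]
  by_cases hu : u ∈ S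
  · rw [Finset.sum_eq_single ⟨u, hu⟩]
    · simp [gch, hu]
    · intro t _ ht
      have : (t : σ) ≠ u := fun h => ht (Subtype.ext h)
      simp [gch, hu, this]
    · simp
  · have h2 : ∀ t : S, gch S φ t u = ∑ t' : S, (blkS S M)⁻¹ t t' * M t' u := by
      intro t
      simp only [gch, dif_pos t.2, dif_neg hu, φ]
    simp only [h2, Finset.mul_sum]
    rw [Finset.sum_comm]
    have h3 := Matrix.mul_nonsing_inv _ (Ne.isUnit hM)
    have h4 : ∀ t' : S, ∑ t : S, M v t * (blkS S M)⁻¹ t t' =
        if (⟨v, hv'⟩ : S) = t' then 1 else 0 := by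
      intro t'
      have h := congrFun (congrFun h3 ⟨v, hv'⟩) t'
      simpa only [Matrix.mul_apply, Matrix.one_apply, blkS, Matrix.submatrix_apply] using h
    simp only [← mul_assoc, ← Finset.sum_mul, h4]
    simp

lemma exists_gch_relation (S : Finset σ) {k s : ℕ}
    (h : s * (S.card * (Fintype.card σ - S.card) + NN S.card k) < NN (Fintype.card σ) k) :
    ∃ P : MvPolynomial (Finset.finsuppAntidiag (Finset.univ : Finset σ) k) ℂ,
      P ≠ 0 ∧ ∀ (φ : Fin s → S × (Sᶜ : Finset σ) → ℂ) (w : Fin s → MvPolynomial σ ℂ),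
        (∀ i, w i ∈ spanX (S : Set σ) ^ k) →
        eval (fun μ => coeff μ.1 (∑ i, act (gch S (φ i)) (w i))) P = 0 := by
  set D := Finset.finsuppAntidiag (Finset.univ : Finset σ) k with hD
  let T := Fin s × ((S × (Sᶜ : Finset σ)) ⊕ Finset.finsuppAntidiag S k)
  have hT : Fintype.card T < Fintype.card D := by
    simp only [T, hD, Fintype.card_prod, Fintype.card_sum, Fintype.card_fin, Fintype.card_coe,
      Finset.card_finsuppAntidiag_nat_eq_choose, Finset.card_compl, Finset.card_univ]
    exact h
  let w₀ : Fin s → MvPolynomial σ (MvPolynomial T ℂ) := fun i =>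
    ∑ m : Finset.finsuppAntidiag S k, monomial m.1 (X (i, Sum.inr m))
  let Γ₀ : Fin s → Matrix σ σ (MvPolynomial T ℂ) := fun i => gch S fun p => X (i, Sum.inl p)
  obtain ⟨P, hP0, hP⟩ := exists_relation hT (fun μ : D => coeff μ.1 (∑ i, act (Γ₀ i) (w₀ i)))
  refine ⟨P, hP0, fun φ w hw => ?_⟩
  let θ : T → ℂ := fun p => Sum.elim (φ p.1) (fun m => coeff m.1 (w p.1)) p.2
  have h1 : ∀ i, map (eval θ) (w₀ i) = w i := by
    intro i
    simp only [w₀, map_sum, map_monomial, eval_X, θ, Sum.elim_inr]
    rw [Finset.sum_coe_sort (Finset.finsuppAntidiag S k) (fun m => monomial m (coeff m (w i)))]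
    conv_rhs => rw [(w i).as_sum]
    symm
    refine Finset.sum_subset (fun m hm => ?_) (fun m _ hm => ?_)
    · have hm' := mem_support_iff.mp hm
      have hsub : m.support ⊆ S := fun v hv =>
        mem_of_coeff_ne_zero (hw i) hm' (Finsupp.mem_support_iff.mp hv)
      refine Finset.mem_finsuppAntidiag'.mpr ⟨?_, hsub⟩
      have hh := isHomogeneous_of_mem_pow (spanX_le _) (hw i)
      by_contra h0
      exact hm' (hh.coeff_eq_zero h0)
    · simp [notMem_support_iff.mp hm]
  have h2 : ∀ i, (Γ₀ i).map (eval θ) = gch S (φ i) := by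
    intro i
    simp only [Γ₀]
    rw [gch_map]
    simp [θ]
  have h3 := congrArg (eval θ) hP
  rw [map_zero, hom_aeval _ (fun x => by simp)] at h3
  rw [← h3]
  refine congrArg (fun f => eval f P) (funext fun μ => ?_)
  rw [← coeff_map, map_sum]
  refine congrArg (coeff μ.1) ?_
  exact Finset.sum_congr rfl fun i _ => by rw [map_act, h1, h2]

theorem not_secantFills_gen (S : Finset σ) {k s : ℕ}
    (h : s * (S.card * (Fintype.card σ - S.card) + NN S.card k) < NN (Fintype.card σ) k) :
    ¬ SecantFills σ k S.card s := by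
  intro hfill
  let D := Finset.finsuppAntidiag (Finset.univ : Finset σ) k
  obtain ⟨P, hP0, hP⟩ := exists_gch_relation S h
  have hgood : ∀ (M : Fin s → Matrix σ σ ℂ) (w : Fin s → MvPolynomial σ ℂ),
      (∀ i, w i ∈ spanX (S : Set σ) ^ k) → (∀ i, (blkS S (M i)).det ≠ 0) →
      eval (fun μ : D => coeff μ.1 (∑ i, act (M i) (w i))) P = 0 := by
    intro M w hw hB
    choose φ w' hw' he using fun i => exists_gch S (M i) (hB i) (hw i)
    simp only [he]
    exact hP φ w' hw'
  have hall : ∀ F ∈ sums σ k S.card s, eval (fun μ : D => coeff μ.1 F) P = 0 := by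
    rintro F ⟨G, hG, rfl⟩
    have hex : ∀ i : Fin s, ∃ (M : Matrix σ σ ℂ) (w : MvPolynomial σ ℂ),
        w ∈ spanX (S : Set σ) ^ k ∧ G i = act M w := by
      intro i
      apply exists_act_of_mem_subCone
      have h2 : ∀ inst : Fintype (S : Set σ), @Fintype.card (S : Set σ) inst = S.card := by
        intro inst
        have h3 : @Fintype.card (S : Set σ) (FinsetCoe.fintype S) = S.card := by simp
        rw [← h3]
        exact @Fintype.card_congr _ _ inst (FinsetCoe.fintype S) (Equiv.refl _)
      rw [h2]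
      exact hG i
    choose M w hw hMw using hex
    let Mp : Fin s → Matrix σ σ (Polynomial ℂ) := fun i =>
      (1 - Polynomial.X : Polynomial ℂ) • (M i).map Polynomial.C + (Polynomial.X : Polynomial ℂ) • 1
    let Me : ℂ → Fin s → Matrix σ σ ℂ := fun ε i => (Mp i).map (Polynomial.evalRingHom ε)
    have hM0 : Me 0 = M := by
      funext i
      ext v u
      simp [Me, Mp]
    have hM1 : Me 1 = fun _ => 1 := by
      funext i
      ext v u
      simp [Me, Mp, Matrix.one_apply, apply_ite]
    let Δ : Polynomial ℂ := ∏ i, (blkS S (Mp i)).det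
    have hΔ : ∀ ε, Δ.eval ε = ∏ i, (blkS S (Me ε i)).det := by
      intro ε
      change Polynomial.evalRingHom ε Δ = _
      simp only [Δ, map_prod, RingHom.map_det, RingHom.mapMatrix_apply, Me]
      rfl
    let Q : Polynomial ℂ := aeval (fun μ : D =>
      coeff μ.1 (∑ i, act (Mp i) (map Polynomial.C (w i)))) P
    have hQ : ∀ ε, Q.eval ε = eval (fun μ : D => coeff μ.1 (∑ i, act (Me ε i) (w i))) P := by
      intro ε
      change Polynomial.evalRingHom ε Q = _
      simp only [Q]
      rw [hom_aeval _ (fun x => by simp)]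
      refine congrArg (fun f => eval f P) (funext fun μ => ?_)
      rw [← coeff_map, map_sum]
      refine congrArg (coeff μ.1) ?_
      refine Finset.sum_congr rfl fun i _ => ?_
      rw [map_act, map_map]
      have : (Polynomial.evalRingHom ε).comp Polynomial.C = RingHom.id ℂ := by
        ext x
        simp
      rw [this, map_id]
    have hΔ0 : Δ ≠ 0 := by
      intro h
      have := hΔ 1
      rw [h, hM1] at this
      have h1 : blkS S (1 : Matrix σ σ ℂ) = 1 :=
        Matrix.submatrix_one _ Subtype.val_injective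
      simp [h1] at this
    have hprod : Δ * Q = 0 := by
      refine Polynomial.funext fun ε => ?_
      rw [Polynomial.eval_mul, Polynomial.eval_zero]
      by_cases h : Δ.eval ε = 0
      · rw [h, zero_mul]
      · rw [hΔ, Finset.prod_eq_zero_iff] at h
        rw [hQ, hgood _ w hw (fun i hi => h ⟨i, Finset.mem_univ _, hi⟩), mul_zero]
    have hQ0 : Q = 0 := (mul_eq_zero.mp hprod).resolve_left hΔ0
    have := hQ 0
    rw [hQ0, hM0, Polynomial.eval_zero] at this
    simp only [hMw]
    exact this.symm
  apply hP0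
  refine MvPolynomial.funext fun y => ?_
  have h1 := hfill (rename Subtype.val P) (fun F hF => by
    rw [eval_rename]
    exact hall F hF) (∑ μ : D, monomial μ.1 (y μ))
    (IsHomogeneous.sum _ _ _ fun μ _ => isHomogeneous_monomial _ (mem_antidiag_iff.mp μ.2))
  rw [eval_rename] at h1
  rw [map_zero, ← h1]
  refine congrArg (fun f => eval f P) (funext fun μ => ?_)
  simp only [Function.comp_apply, coeff_sum, coeff_monomial]
  rw [Finset.sum_eq_single μ]
  · simp
  · intro ν _ hν
    rw [if_neg]
    exact fun h => hν (Subtype.ext h)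
  · simp

end LowerAux

theorem not_secantFills_of_lt {n k r s : ℕ} (hr : r ≤ n)
    (h : s * (r * (n - r) + NN r k) < NN n k) : ¬ SecantFills (Fin n) k r s := by
  obtain ⟨S, -, hS⟩ := Finset.exists_subset_card_eq (s := (Finset.univ : Finset (Fin n)))
    (n := r) (by simpa using hr)
  subst hS
  exact LowerAux.not_secantFills_gen S (by simpa using h)

end Pool.Agent.P.MP_c64be1_ag.Asy
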