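import Pool.Agent.P.MP_c64be1_ag.Asy.Defs

/-! The numerical induction for cubics. -/

namespace Pool.Agent.P.MP_c64be1_ag.Asy

open Multiset

theorem num3_two (a : ℕ) : 2 * (a + 1).choose 2 = a * (a + 1) := by
  induction a with
  | zero => rfl
  | succ a ih => rw [Nat.choose_succ_succ' (a + 1) 1, Nat.choose_one_right]; nlinarith

theorem num3_succ_two (a : ℕ) : (a + 1).choose 2 = a.choose 2 + a := by
  rw [Nat.choose_succ_succ' a 1, Nat.choose_one_right, add_comm]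

theorem num3_succ_three (a : ℕ) : (a + 1).choose 3 = a.choose 3 + a.choose 2 := by
  rw [Nat.choose_succ_succ' a 2, add_comm]

theorem num3_NN_succ (a : ℕ) : NN (a + 1) 3 = NN a 3 + (a + 2).choose 2 :=
  num3_succ_three (a + 2)

theorem num3_six (a : ℕ) : 6 * NN a 3 = a * (a + 1) * (a + 2) := by
  induction a with
  | zero => rfl
  | succ a ih =>
    have := num3_two (a + 1)
    rw [num3_NN_succ]
    nlinarith

theorem num3_NN (a : ℕ) : NN a 3 = a.choose 3 + a * a := by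
  induction a with
  | zero => rfl
  | succ a ih =>
    rw [num3_NN_succ, ih, num3_succ_three, num3_succ_two (a + 1), num3_succ_two a]
    ring

theorem num3_choose_le (a k : ℕ) : a.choose k ≤ a ^ k := Nat.choose_le_pow a k

/-- The contribution of the groups of simple points. -/
def num3jt : ℕ ⊕ ℕ → ℕ
  | Sum.inl _ => 0
  | Sum.inr g => (g + 1).choose 2

/-- The cubic correction of the blocks. -/
def num3cb : ℕ ⊕ ℕ → ℕ
  | Sum.inl j => j.choose 3
  | Sum.inr _ => 0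

theorem num3_pts_inl (j : ℕ) : pts (Sum.inl j) = j := rfl

theorem num3_cb_inl (j : ℕ) : num3cb (Sum.inl j) = j.choose 3 := rfl

theorem num3_jt_inl (j : ℕ) : num3jt (Sum.inl j) = 0 := rfl

theorem num3_size (ν : ℕ) (st : Multiset (ℕ ⊕ ℕ)) (h : ∀ j, Sum.inl j ∈ st → j ≤ ν) :
    (st.map (size ν 3)).sum =
      ν * (st.map pts).sum + (st.map num3cb).sum + (st.map num3jt).sum := by
  rw [← sum_map_mul_left, ← sum_map_add, ← sum_map_add]
  refine congrArg sum (map_congr rfl ?_)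
  rintro (j | g) hx
  · obtain ⟨d, rfl⟩ := Nat.exists_eq_add_of_le (h j hx)
    simp only [size, pts, num3cb, num3jt, Nat.add_sub_cancel_left, num3_NN]
    ring
  · simp [size, pts, num3cb, num3jt]

theorem num3_cb_le (c : ℕ) (st : Multiset (ℕ ⊕ ℕ)) (h : ∀ j, Sum.inl j ∈ st → j ≤ c) :
    (st.map num3cb).sum ≤ c ^ 2 * (st.map pts).sum := by
  rw [← sum_map_mul_left]
  refine sum_map_le_sum_map _ _ ?_
  rintro (j | g) hx
  · have h1 := num3_choose_le j 3
    have h2 := Nat.pow_le_pow_left (h j hx) 2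
    change j.choose 3 ≤ c ^ 2 * j
    calc j.choose 3 ≤ j ^ 2 * j := h1
      _ ≤ c ^ 2 * j := Nat.mul_le_mul_right _ h2
  · exact Nat.zero_le _

theorem num3_pigeon (r B : ℕ) (st : Multiset (ℕ ⊕ ℕ)) (h : ∀ j, Sum.inl j ∈ st → j ≤ r)
    (hB : r * r * B < (st.map pts).sum) : ∃ j, j + 1 ≤ r ∧ B < st.count (Sum.inl (j + 1)) := by
  by_contra hc
  push Not at hc
  have h1 : ∀ t : Multiset (ℕ ⊕ ℕ), (∀ j, Sum.inl j ∈ t → j ≤ r) →
      (t.map pts).sum ≤ r * ∑ j ∈ Finset.range r, t.count (Sum.inl (j + 1)) := by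
    intro t
    induction t using Multiset.induction_on with
    | empty => simp
    | cons a t ih =>
      intro ht
      have h2 := ih fun j hj => ht j (mem_cons_of_mem hj)
      simp only [map_cons, sum_cons, count_cons, Finset.sum_add_distrib, mul_add]
      have h3 : pts a ≤ r * ∑ j ∈ Finset.range r, if Sum.inl (j + 1) = a then 1 else 0 := by
        rcases a with (_ | j) | g
        · exact Nat.zero_le _
        · have h4 := ht _ (mem_cons_self _ _)
          have h5 : 1 ≤ ∑ i ∈ Finset.range r,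
              if (Sum.inl (i + 1) : ℕ ⊕ ℕ) = Sum.inl (j + 1) then 1 else 0 := by
            refine le_trans ?_ (Finset.single_le_sum (fun _ _ => Nat.zero_le _)
              (Finset.mem_range.2 (show j < r from h4)))
            simp
          exact h4.trans (Nat.le_mul_of_pos_right _ h5)
        · exact Nat.zero_le _
      omega
  have h2 : ∑ j ∈ Finset.range r, st.count (Sum.inl (j + 1)) ≤ r * B := by
    have := Finset.sum_le_card_nsmul (Finset.range r) (fun j => st.count (Sum.inl (j + 1))) B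
      fun j hj => hc j (Finset.mem_range.1 hj)
    simpa using this
  have h3 := (h1 st h).trans (Nat.mul_le_mul_left r h2)
  rw [← mul_assoc] at h3
  omega

theorem num3_grp (m E u : ℕ) (h : E + 6 * u + 1000 ≤ 6 * m) :
    ∃ g : Multiset ℕ, g.sum = m ∧ (g.map fun a => a.choose 2).sum = E ∧ (∀ a ∈ g, a ≤ 13) ∧
      u ≤ g.count 1 := by
  refine ⟨replicate (E / 78) 13 + replicate (E % 78) 2 +
    replicate (m - 13 * (E / 78) - 2 * (E % 78)) 1, ?_, ?_, ?_, ?_⟩
  · simp only [sum_add, sum_replicate, smul_eq_mul]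
    omega
  · have h1 : Nat.choose 13 2 = 78 := rfl
    have h2 : Nat.choose 1 2 = 0 := rfl
    simp only [Multiset.map_add, map_replicate, sum_add, sum_replicate, smul_eq_mul, h1, h2,
      Nat.choose_self]
    omega
  · intro a ha
    simp only [mem_add, mem_replicate] at ha
    omega
  · simp only [count_add, count_replicate_self]
    omega

theorem num3_jt_map (g : Multiset ℕ) :
    ((g.map Sum.inr).map num3jt).sum = g.sum + (g.map fun a => a.choose 2).sum := by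
  induction g using Multiset.induction_on with
  | empty => simp
  | cons a g ih =>
    rw [map_cons, map_cons, sum_cons, ih]
    simp only [map_cons, sum_cons, num3jt, num3_succ_two]
    omega

theorem num3_pbounds {d ν P CB J σ X : ℕ} (hX : 6 * X = ν * (ν + 1) * (ν + 2))
    (h : ν * P + CB + J = X + σ) (hσ : σ ≤ 9 * d * ν) (hJ : J ≤ 162 * d * ν ^ 2)
    (hCB : CB ≤ d * P) (hν : 10 ^ 5 * d ≤ ν) (hd : 1 ≤ d) :
    16 * ν ^ 2 ≤ 100 * P ∧ 100 * P ≤ 17 * ν ^ 2 := by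
  have h0 : 0 < ν := by omega
  constructor
  · by_contra hc
    push Not at hc
    have h1 : (ν + d) * (100 * P) ≤ (ν + d) * (16 * ν ^ 2) := Nat.mul_le_mul_left _ hc.le
    have h2 : 10 ^ 5 * d * ν ^ 2 ≤ ν * ν ^ 2 := Nat.mul_le_mul_right _ hν
    have h3 : 0 < ν * ν ^ 2 := by positivity
    nlinarith
  · have h1 : ν * (6 * P) ≤ ν * ((ν + 1) * (ν + 2) + 54 * d) := by nlinarith
    have h2 := Nat.le_of_mul_le_mul_left h1 h0
    nlinarith

theorem num3_choose_m {d n P A b : ℕ} (hA : 2 * A = n * (n + 1)) (hb : b ≤ d)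
    (h1 : 16 * (n + 2) ^ 2 ≤ 100 * P) (h2 : 100 * P ≤ 17 * (n + 2) ^ 2)
    (hν : 10 ^ 5 * d ≤ n + 2) (hd : 1 ≤ d) :
    ∃ m E : ℕ, m * n + m * b + b + P = A + 2 + m + E ∧ E < n + b ∧ 32 * (n + 2) ≤ 100 * m ∧
      100 * m ≤ 35 * (n + 2) := by
  obtain ⟨n, rfl⟩ : ∃ n', n = n' + 1 := ⟨n - 1, by omega⟩
  obtain ⟨T, hT⟩ : ∃ T, A + 2 = T + b + P := ⟨A + 2 - b - P, by
    have : b + P ≤ A + 2 := by nlinarith
    omega⟩
  have he : 0 < n + b := by omega
  have h3 := Nat.div_add_mod T (n + b)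
  have h4 := Nat.mod_lt T he
  set q := T / (n + b)
  set s := T % (n + b)
  refine ⟨q + 1, n + b - s, ?_, by omega, ?_, ?_⟩
  · have : (q + 1) * (n + 1) + (q + 1) * b = (n + b) * q + (n + b) + q + 1 := by ring
    omega
  · by_contra hc
    push Not at hc
    have h5 : (n + b) * (100 * (q + 1)) ≤ (n + b) * (32 * (n + 1 + 2)) :=
      Nat.mul_le_mul_left _ hc.le
    have h6 : 10 ^ 5 * b * (n + 3) ≤ (n + 3) * (n + 3) := Nat.mul_le_mul_right _ (by omega)
    have h7 : 10 ^ 5 * (n + 3) ≤ (n + 3) * (n + 3) := Nat.mul_le_mul_right _ (by omega)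
    nlinarith
  · by_contra hc
    push Not at hc
    have h5 : n * (35 * (n + 1 + 2)) ≤ n * (100 * (q + 1)) := Nat.mul_le_mul_left _ hc.le
    have h7 : 10 ^ 5 * (n + 3) ≤ (n + 3) * (n + 3) := Nat.mul_le_mul_right _ (by omega)
    nlinarith [Nat.zero_le (b * q)]

theorem num3_second {d n m t a : ℕ} (ha : a ≤ d) (ht : t ≤ m + 2) (hm : 100 * m ≤ 35 * (n + 2))
    (hν : 10 ^ 5 * d ≤ n + 2) (hd : 1 ≤ d) : t * a + a ^ 2 ≤ (n - m - m + 1).choose 2 := by
  obtain ⟨x, hx⟩ : ∃ x, n = x + m + m := ⟨n - m - m, by omega⟩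
  have h1 : n - m - m = x := by omega
  have h2 := num3_two x
  rw [h1]
  have h3 : t + a ≤ 2 * x := by omega
  have h4 : 4 * a ≤ x := by omega
  have h5 := Nat.mul_le_mul h3 h4
  nlinarith

theorem num3_fin {r ν j : ℕ} (h1 : j ≤ r) (hν : 10 ^ 5 * (r + 1) ^ 2 ≤ ν + 2) :
    j * ν + NN j 3 ≤ 2 * (r + 1) * ν := by
  have hc1 : 1 ≤ (r + 1) ^ 2 := Nat.one_le_pow _ _ (Nat.succ_pos r)
  have h2 := num3_choose_le j 3
  have h3 : j ^ 2 ≤ (r + 1) ^ 2 := Nat.pow_le_pow_left (by omega) 2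
  have h4 : j * (2 * j ^ 2) ≤ r * ν := Nat.mul_le_mul h1 (by omega)
  have h5 : j * ν ≤ r * ν := Nat.mul_le_mul_right _ h1
  have h6 : j * j ≤ j ^ 3 := by
    rcases Nat.eq_zero_or_pos j with rfl | h
    · simp
    · rw [← pow_two]
      exact Nat.pow_le_pow_right h (by omega)
  rw [num3_NN]
  linarith [Nat.zero_le ν]

theorem num3_nine {r ν N π : ℕ} (hπ : N ^ 2 ≤ 16 * π + ν ^ 2)
    (hD : π < 2 * (r + 1) * ν * (2 * (r + 1) * ν)) : N ≤ 9 * (r + 1) * ν := by
  have h1 : ν ^ 2 ≤ (r + 1) ^ 2 * ν ^ 2 := Nat.le_mul_of_pos_left _ (by positivity)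
  refine (Nat.pow_le_pow_iff_left two_ne_zero).1 ?_
  linarith [Nat.zero_le ((r + 1) ^ 2 * ν ^ 2)]

theorem num3_large {r ν N : ℕ} (hN : 10 ^ 6 * (r + 1) ^ 3 ≤ N) (h : N ≤ 9 * (r + 1) * ν) :
    10 ^ 5 * (r + 1) ^ 2 ≤ ν := by
  have h1 : (r + 1) * (10 ^ 5 * (r + 1) ^ 2) ≤ (r + 1) * ν := by
    linarith [Nat.zero_le ((r + 1) * ν)]
  exact Nat.le_of_mul_le_mul_left h1 (Nat.succ_pos r)

theorem num3_J {r ν N J : ℕ} (hJ : J + 2 * ν ^ 2 ≤ 2 * N ^ 2) (h : N ≤ 9 * (r + 1) * ν) :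
    J ≤ 162 * (r + 1) ^ 2 * ν ^ 2 := by
  have h1 := Nat.pow_le_pow_left h 2
  linarith [Nat.zero_le (ν ^ 2)]

theorem num3_many {r ν P : ℕ} (hν : 10 ^ 5 * (r + 1) ^ 2 ≤ ν) (hP : 16 * ν ^ 2 ≤ 100 * P) :
    r * r * ν < P := by
  have h1 : 10 ^ 5 * (r + 1) ^ 2 * ν ≤ ν * ν := Nat.mul_le_mul_right _ hν
  have h2 : 0 < ν := lt_of_lt_of_le (by positivity) hν
  linarith [Nat.zero_le (r * ν), Nat.zero_le (r * r * ν)]

theorem num3_zero (f : ℕ ⊕ ℕ → ℕ) (hf : ∀ g, f (Sum.inr g) = 0) (g : Multiset ℕ) :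
    ((g.map Sum.inr).map f).sum = 0 := by
  induction g using Multiset.induction_on with
  | empty => simp
  | cons a g ih => simp only [map_cons, sum_cons, ih, hf]

theorem num3_ind (r : ℕ) (F : ℕ → Multiset (ℕ ⊕ ℕ) → Prop)
    (hfin : ∀ n st, FinCond n 3 st → F n st)
    (hstep : ∀ (n j : ℕ) (s0 : Multiset (ℕ ⊕ ℕ)) (g1 g2 : Multiset ℕ),
      CompCond n j g1.sum g2 (g1.sum + 2) ((s0.map pts).sum + 1 + (g2.sum + 1) * j) →
      CompCond n j g2.sum g1 (g2.sum + 1) ((s0.map pts).sum + 1 + (g1.sum + 2) * j) →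
      F n (s0 + replicate (3 + g1.sum + g2.sum) (Sum.inl j) + g1.map Sum.inr + g2.map Sum.inr) →
      F (n + 2) (s0 + replicate (3 + g1.sum + g2.sum) (Sum.inl (j + 1))))
    (N σ : ℕ) (hN : 10 ^ 6 * (r + 1) ^ 3 ≤ N) (hσ : σ ≤ (r + 1) * N) (ν : ℕ) :
    ∀ st : Multiset (ℕ ⊕ ℕ), (∀ j, Sum.inl j ∈ st → j ≤ r) → (∀ g, Sum.inr g ∈ st → g ≤ 13) →
      ν * (st.map pts).sum + (st.map num3cb).sum + (st.map num3jt).sum = NN ν 3 + σ →
      10 ^ 5 * (r + 1) ^ 2 ≤ ν + 2 → N ^ 2 ≤ 16 * st.count (Sum.inr 1) + ν ^ 2 →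
      (st.map num3jt).sum + 2 * ν ^ 2 ≤ 2 * N ^ 2 → F ν st := by
  induction ν using Nat.strong_induction_on with
  | _ ν ih =>
  intro st hl hg htot hν hπ hJ
  have hc1 : 1 ≤ (r + 1) ^ 2 := Nat.one_le_pow _ _ (Nat.succ_pos r)
  have hc2 : r + 1 ≤ (r + 1) ^ 2 := Nat.le_self_pow two_ne_zero _
  by_cases hD : 2 * (r + 1) * ν * (2 * (r + 1) * ν) ≤ st.count (Sum.inr 1)
  · refine hfin ν st ⟨2 * (r + 1) * ν, fun j hj => ⟨(hl j hj).trans (by omega), ?_⟩,
      fun g hg' => ⟨(hg g hg').trans (by omega), ?_⟩, ?_, hD⟩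
    · exact num3_fin (hl j hj) hν
    · have h1 := Nat.pow_le_pow_left (hg g hg') 2
      have h2 : 2 * ν ≤ 2 * (r + 1) * ν := Nat.mul_le_mul_right _ (by omega)
      omega
    · rw [num3_size ν st fun j hj => (hl j hj).trans (by omega), htot]
      exact Nat.le_add_right _ _
  push Not at hD
  have hN9 := num3_nine hπ hD
  have hν' := num3_large hN hN9
  obtain ⟨hP1, hP2⟩ := num3_pbounds (d := (r + 1) ^ 2) (num3_six ν) htot
    (hσ.trans ((Nat.mul_le_mul_left _ hN9).trans_eq (by ring))) (num3_J hJ hN9)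
    (num3_cb_le _ st fun j hj => (hl j hj).trans (Nat.le_succ r)) hν' hc1
  obtain ⟨j, hj, hcount⟩ := num3_pigeon r ν st hl (num3_many hν' hP1)
  obtain ⟨n, rfl⟩ : ∃ n, ν = n + 2 := ⟨ν - 2, by omega⟩
  have hb : ∀ i ≤ r + 1, i.choose 2 ≤ (r + 1) ^ 2 := fun i hi =>
    (num3_choose_le i 2).trans (Nat.pow_le_pow_left hi 2)
  have hb1 := hb j (by omega)
  have hb2 := hb (j + 1) (by omega)
  obtain ⟨m, E, hE, hE', hm1, hm2⟩ := num3_choose_m (num3_two n) hb1 hP1 hP2 hν' hc1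
  obtain ⟨g1, hs1, he1, hl1, hu1⟩ := num3_grp m E ((n + 9) / 8) (by omega)
  obtain ⟨g2, hs2, he2, hl2, hu2⟩ := num3_grp m (E + j.choose 2) ((n + 9) / 8) (by omega)
  obtain ⟨s0, rfl⟩ := le_iff_exists_add'.1
    (le_count_iff_replicate_le.1 (show 3 + m + m ≤ st.count (Sum.inl (j + 1)) by omega))
  have hinj : Function.Injective (Sum.inr : ℕ → ℕ ⊕ ℕ) := Sum.inr_injective
  have hz1 : ∀ g : Multiset ℕ, ((g.map Sum.inr).map pts).sum = 0 := num3_zero _ fun _ => rfl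
  have hz2 : ∀ g : Multiset ℕ, ((g.map Sum.inr).map num3cb).sum = 0 := num3_zero _ fun _ => rfl
  have h2m := num3_succ_two m
  have h2j := num3_succ_two j
  have h3j := num3_succ_three j
  simp only [Multiset.map_add, map_replicate, sum_add, sum_replicate, smul_eq_mul, num3_pts_inl,
    num3_cb_inl, num3_jt_inl, mul_zero, add_zero, count_add, count_replicate, reduceCtorEq, if_false]
    at htot hE hπ hJ
  have key := hstep n j s0 g1 g2
  clear hD hP1 hP2 hcount hN9 hν hb hstep hfin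
  rw [hs1, hs2] at key
  refine key ⟨by omega, ?_, ?_⟩ ⟨by omega, ?_, ?_⟩ (ih n (by omega) _ ?_ ?_ ?_ hν' ?_ ?_)
  · rw [hs2]
    exact num3_second hb2 le_rfl hm2 hν' hc1
  · rw [hs2, he2, h2m, h2j]
    linarith
  · rw [hs1]
    exact num3_second hb2 (by omega) hm2 hν' hc1
  · rw [hs1, he1, h2m, h2j]
    linarith
  · intro i hi
    simp only [mem_add, mem_replicate, mem_map, reduceCtorEq, and_false, exists_false, or_false,
      Sum.inl.injEq] at hi
    rcases hi with hi | hi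
    · exact hl i (mem_add.2 (Or.inl hi))
    · omega
  · intro g hg'
    simp only [mem_add, mem_replicate, mem_map, reduceCtorEq, and_false, or_false,
      Sum.inr.injEq, exists_eq_right] at hg'
    rcases hg' with (hi | hi) | hi
    exacts [hg g (mem_add.2 (Or.inl hi)), hl1 g hi, hl2 g hi]
  · simp only [Multiset.map_add, sum_add, hz1, hz2, num3_jt_map, hs1, hs2, he1, he2, map_replicate,
      sum_replicate, smul_eq_mul, num3_pts_inl, num3_cb_inl, num3_jt_inl, mul_zero, add_zero]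
    have h1 := num3_two n
    rw [num3_NN_succ, num3_NN_succ, num3_succ_two (n + 2), num3_succ_two (n + 1), h3j] at htot
    linarith
  · simp only [count_add, count_map_eq_count' _ _ hinj, count_replicate, reduceCtorEq, if_false]
    have h1 : (n + 2) ^ 2 = n ^ 2 + 4 * n + 4 := by ring
    omega
  · simp only [Multiset.map_add, sum_add, num3_jt_map, hs1, hs2, he1, he2, map_replicate,
      sum_replicate, smul_eq_mul, num3_jt_inl, mul_zero, add_zero]
    have h1 : (n + 2) ^ 2 = n ^ 2 + 4 * n + 4 := by ring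
    omega

theorem num3 (r : ℕ) (hr : 1 ≤ r) (F : ℕ → Multiset (ℕ ⊕ ℕ) → Prop)
    (hfin : ∀ n st, FinCond n 3 st → F n st)
    (hstep : ∀ (n j : ℕ) (s0 : Multiset (ℕ ⊕ ℕ)) (g1 g2 : Multiset ℕ),
      CompCond n j g1.sum g2 (g1.sum + 2) ((s0.map pts).sum + 1 + (g2.sum + 1) * j) →
      CompCond n j g2.sum g1 (g2.sum + 1) ((s0.map pts).sum + 1 + (g1.sum + 2) * j) →
      F n (s0 + replicate (3 + g1.sum + g2.sum) (Sum.inl j) + g1.map Sum.inr + g2.map Sum.inr) →
      F (n + 2) (s0 + replicate (3 + g1.sum + g2.sum) (Sum.inl (j + 1))))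
    (n S : ℕ) (hn : 10 ^ 6 * (r + 1) ^ 3 ≤ n)
    (hS : NN n 3 ≤ S * (r * (n - r) + NN r 3))
    (hS' : S * (r * (n - r) + NN r 3) < NN n 3 + (r * (n - r) + NN r 3)) :
    F n (replicate S (Sum.inl r)) := by
  have h1 : r + 1 ≤ (r + 1) ^ 3 := Nat.le_self_pow three_ne_zero _
  have h2 : (r + 1) ^ 2 ≤ (r + 1) ^ 3 := Nat.pow_le_pow_right (Nat.succ_pos r) (by omega)
  have h3 : r.choose 3 ≤ (r + 1) ^ 3 :=
    (num3_choose_le r 3).trans (Nat.pow_le_pow_left (Nat.le_succ r) 3)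
  have h4 : r * (n - r) + NN r 3 = r * n + r.choose 3 := by
    obtain ⟨d, hd⟩ := Nat.exists_eq_add_of_le (show r ≤ n by omega)
    rw [num3_NN, hd, Nat.add_sub_cancel_left]
    ring
  rw [h4] at hS hS'
  refine num3_ind r F hfin hstep n (S * (r * n + r.choose 3) - NN n 3) hn ?_ n _ ?_ ?_ ?_
    (by omega) (by omega) ?_
  · have : (r + 1) * n = r * n + n := by ring
    omega
  · intro j hj
    rw [mem_replicate, Sum.inl.injEq] at hj
    exact hj.2.le
  · intro g hg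
    simp [mem_replicate] at hg
  · simp only [map_replicate, sum_replicate, smul_eq_mul, pts, num3cb, num3jt, mul_zero, add_zero]
    rw [Nat.add_sub_cancel' hS]
    ring
  · simp [num3jt]

end Pool.Agent.P.MP_c64be1_ag.Asy
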