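import Pool.Agent.P.MP_c64be1_ag.Asy.Defs

/-! The numerical induction in degree at least four. -/

namespace Pool.Agent.P.MP_c64be1_ag.Asy

open Multiset

namespace N4

theorem nn_pascal (n k : ℕ) : NN (n + 1) (k + 1) = NN n (k + 1) + NN (n + 1) k := by
  unfold NN
  have h1 : n + 1 + (k + 1) - 1 = (n + k) + 1 := by omega
  have h2 : n + (k + 1) - 1 = n + k := by omega
  have h3 : n + 1 + k - 1 = n + k := by omega
  rw [h1, h2, h3, Nat.choose_succ_succ']
  omega

theorem nn_mul (n k : ℕ) : (k + 1) * NN (n + 1) (k + 1) = NN (n + 1) k * (n + k + 1) := by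
  unfold NN
  have h1 : n + 1 + (k + 1) - 1 = (n + k) + 1 := by omega
  have h3 : n + 1 + k - 1 = n + k := by omega
  rw [h1, h3]
  have := Nat.add_one_mul_choose_eq (n + k) k
  linarith

theorem nn_mono_left {a b : ℕ} (k : ℕ) (h : a ≤ b) : NN a k ≤ NN b k :=
  Nat.choose_le_choose _ (by omega)

theorem nn_zero (k : ℕ) : NN 0 (k + 1) = 0 := by
  unfold NN
  exact Nat.choose_eq_zero_of_lt (by omega)

theorem nn_pos (n k : ℕ) : 0 < NN (n + 1) k := by
  unfold NN
  exact Nat.choose_pos (by omega)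

theorem nn_mono_right (n : ℕ) {a b : ℕ} (h : a ≤ b) : NN (n + 1) a ≤ NN (n + 1) b := by
  induction b, h using Nat.le_induction with
  | base => exact le_rfl
  | succ b _ ih => rw [nn_pascal]; omega

theorem nn_three (n : ℕ) : (n + 1) ^ 3 ≤ 6 * NN (n + 1) 3 := by
  have h0 : NN (n + 1) 0 = 1 := by simp [NN]
  have h1 := nn_mul n 0
  have h2 := nn_mul n 1
  have h3 := nn_mul n 2
  rw [h0] at h1
  norm_num at h1 h2 h3
  rw [h1] at h2
  have : 6 * NN (n + 1) 3 = (n + 1) * (n + 1 + 1) * (n + 2 + 1) := by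
    calc 6 * NN (n + 1) 3 = 2 * (3 * NN (n + 1) 3) := by ring
      _ = (2 * NN (n + 1) 2) * (n + 2 + 1) := by rw [h3]; ring
      _ = _ := by rw [h2]
  rw [this]
  nlinarith [Nat.zero_le n, Nat.zero_le (n ^ 2)]

/-- The admissible states. -/
def Adm (r : ℕ) (st : Multiset (ℕ ⊕ ℕ)) : Prop :=
  ∀ x ∈ st, (∃ j, j ≤ r ∧ x = Sum.inl j) ∨ x = Sum.inr 1

theorem Adm.of_cons {r : ℕ} {a : ℕ ⊕ ℕ} {st : Multiset (ℕ ⊕ ℕ)} (h : Adm r (a ::ₘ st)) :
    Adm r st := fun x hx => h x (mem_cons_of_mem hx)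

theorem size_lower {r ν k : ℕ} (st : Multiset (ℕ ⊕ ℕ)) (h : Adm r st) :
    (st.map pts).sum * (ν - r) ≤ (st.map (size ν k)).sum := by
  induction st using Multiset.induction_on with
  | empty => simp
  | cons a st ih =>
    have ih' := ih h.of_cons
    rw [map_cons, map_cons, sum_cons, sum_cons, add_mul]
    refine add_le_add ?_ ih'
    rcases h a (mem_cons_self _ _) with ⟨j, hj, rfl⟩ | rfl
    · simp only [pts, size]
      exact le_trans (Nat.mul_le_mul_left _ (by omega)) (Nat.le_add_right _ _)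
    · simp [pts]

theorem size_upper {r ν k : ℕ} (st : Multiset (ℕ ⊕ ℕ)) (h : Adm r st) :
    (st.map (size ν (k + 1))).sum ≤
      (st.map pts).sum * (ν + NN r (k + 1)) + st.count (Sum.inr 1) := by
  induction st using Multiset.induction_on with
  | empty => simp
  | cons a st ih =>
    have ih' := ih h.of_cons
    rw [map_cons, map_cons, sum_cons, sum_cons, add_mul]
    rcases h a (mem_cons_self _ _) with ⟨j, hj, rfl⟩ | rfl
    · rw [count_cons_of_ne (by simp)]
      have : size ν (k + 1) (Sum.inl j) ≤ pts (Sum.inl j) * (ν + NN r (k + 1)) := by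
        simp only [pts, size]
        rcases Nat.eq_zero_or_pos j with rfl | hpos
        · simp [nn_zero]
        · have h1 := nn_mono_left (k + 1) hj
          have h2 : j * (ν - j) ≤ j * ν := Nat.mul_le_mul_left _ (Nat.sub_le _ _)
          have h3 : NN r (k + 1) ≤ j * NN r (k + 1) := Nat.le_mul_of_pos_left _ hpos
          rw [mul_add]
          omega
      omega
    · rw [count_cons_self]
      have h1 : size ν (k + 1) (Sum.inr 1) = 1 := by simp [size]
      have h2 : pts (Sum.inr 1) = 0 := rfl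
      rw [h1, h2]
      omega

theorem pts_le {r : ℕ} (st : Multiset (ℕ ⊕ ℕ)) (h : Adm r st) :
    (st.map pts).sum ≤ r * ∑ i ∈ Finset.range r, st.count (Sum.inl (i + 1)) := by
  induction st using Multiset.induction_on with
  | empty => simp
  | cons a st ih =>
    have ih' := ih h.of_cons
    rw [map_cons, sum_cons]
    simp only [count_cons, Finset.sum_add_distrib, mul_add]
    have : pts a ≤ r * ∑ i ∈ Finset.range r, (if Sum.inl (i + 1) = a then 1 else 0) := by
      rcases h a (mem_cons_self _ _) with ⟨j, hj, rfl⟩ | rfl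
      · rcases j with _ | j
        · simp [pts]
        · have h1 : 1 ≤ ∑ i ∈ Finset.range r,
              (if (Sum.inl (i + 1) : ℕ ⊕ ℕ) = Sum.inl (j + 1) then 1 else 0) := by
            have := Finset.single_le_sum
              (f := fun i => if (Sum.inl (i + 1) : ℕ ⊕ ℕ) = Sum.inl (j + 1) then 1 else 0)
              (fun i _ => Nat.zero_le _) (Finset.mem_range.mpr (show j < r by omega))
            simpa using this
          simp only [pts]
          calc j + 1 ≤ r * 1 := by omega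
            _ ≤ _ := Nat.mul_le_mul_left _ h1
      · simp [pts]
    omega

theorem size_drop {r n k : ℕ} (hr : r ≤ n) (st : Multiset (ℕ ⊕ ℕ)) (h : Adm r st) :
    (st.map (size (n + 1) k)).sum = (st.map (size n k)).sum + (st.map pts).sum := by
  induction st using Multiset.induction_on with
  | empty => simp
  | cons a st ih =>
    have ih' := ih h.of_cons
    simp only [map_cons, sum_cons]
    have : size (n + 1) k a = size n k a + pts a := by
      rcases h a (mem_cons_self _ _) with ⟨j, hj, rfl⟩ | rfl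
      · simp only [pts, size]
        have : n + 1 - j = (n - j) + 1 := by omega
        rw [this]
        ring
      · simp [pts, size]
    omega

theorem arithA {ν k c c0 L Q P π N w : ℕ} (hL : k * c ^ 2 ≤ L) (hν : 5000 * L + 50 * c0 ≤ ν)
    (hν1 : 1 ≤ ν) (hQ : ν ^ 3 ≤ 6 * Q) (hN : k * N = Q * (ν + w)) (hπ : π ≤ (c * ν) ^ 2)
    (h2 : N ≤ P * (ν + c0) + π) : 9 * Q ≤ 10 * (k * P) := by
  have e1 : Q * ν ≤ k * P * (ν + c0) + k * π := by
    calc Q * ν ≤ Q * (ν + w) := Nat.mul_le_mul_left _ (by omega)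
      _ = k * N := hN.symm
      _ ≤ k * (P * (ν + c0) + π) := Nat.mul_le_mul_left _ h2
      _ = _ := by ring
  have e2 : 50 * (k * P * (ν + c0)) ≤ 51 * (k * P * ν) := by
    calc 50 * (k * P * (ν + c0)) = k * P * (50 * ν + 50 * c0) := by ring
      _ ≤ k * P * (51 * ν) := Nat.mul_le_mul_left _ (by omega)
      _ = _ := by ring
  have e3 : 5000 * (k * π) ≤ 6 * (Q * ν) := by
    calc 5000 * (k * π) ≤ 5000 * (k * (c * ν) ^ 2) := by gcongr
      _ = 5000 * (k * c ^ 2) * ν ^ 2 := by ring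
      _ ≤ ν * ν ^ 2 := Nat.mul_le_mul_right _ (by omega)
      _ = ν ^ 3 := by ring
      _ ≤ 6 * Q := hQ
      _ ≤ 6 * (Q * ν) := Nat.mul_le_mul_left _ (Nat.le_mul_of_pos_right _ hν1)
  have e4 : 9 * Q * ν ≤ 10 * (k * P) * ν := by
    have a1 : 9 * Q * ν = 9 * (Q * ν) := by ring
    have a2 : 10 * (k * P) * ν = 10 * (k * P * ν) := by ring
    omega
  exact Nat.le_of_mul_le_mul_right e4 hν1

theorem arithB {ν k r c Q P σ N w : ℕ} (hk : 4 ≤ k) (hr : 5000 * r ≤ ν) (hw : 5000 * w ≤ ν)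
    (hkc : 5000 * (k * c) ≤ ν) (hν1 : 4 ≤ ν) (hQ : ν ^ 3 ≤ 6 * Q) (hN : k * N = Q * (ν + w))
    (hσ : σ ≤ 2 * c * ν) (h1 : P * (ν - r) ≤ N + σ) : 100 * P ≤ 26 * Q := by
  have e0 : 2 * ν ≤ Q := by nlinarith [Nat.mul_le_mul hν1 hν1]
  have e1 : 4 * (P * (ν - r)) ≤ Q * (ν + w) + k * σ := by
    calc 4 * (P * (ν - r)) ≤ k * (N + σ) := Nat.mul_le_mul hk h1
      _ = _ := by rw [mul_add, hN]
  have e2 : 4999 * (P * ν) ≤ 5000 * (P * (ν - r)) := by
    calc 4999 * (P * ν) = P * (4999 * ν) := by ring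
      _ ≤ P * (5000 * (ν - r)) := Nat.mul_le_mul_left _ (by omega)
      _ = _ := by ring
  have e3 : 5000 * (Q * (ν + w)) ≤ 5001 * (Q * ν) := by
    calc 5000 * (Q * (ν + w)) = Q * (5000 * ν + 5000 * w) := by ring
      _ ≤ Q * (5001 * ν) := Nat.mul_le_mul_left _ (by omega)
      _ = _ := by ring
  have e4 : 5000 * (k * σ) ≤ Q * ν := by
    calc 5000 * (k * σ) ≤ 5000 * (k * (2 * c * ν)) := by gcongr
      _ = 5000 * (k * c) * (2 * ν) := by ring
      _ ≤ ν * Q := Nat.mul_le_mul hkc e0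
      _ = _ := by ring
  have e5 : 100 * P * ν ≤ 26 * Q * ν := by
    have a1 : 100 * P * ν = 100 * (P * ν) := by ring
    have a2 : 26 * Q * ν = 26 * (Q * ν) := by ring
    omega
  exact Nat.le_of_mul_le_mul_right e5 (by omega)

theorem arithD {ν k r i Q R P z e t : ℕ} (hν : 6000 ≤ ν) (hk : 5000 * k ≤ ν)
    (hkk : 10 * (k * (k + 24 + 2 * r)) ≤ 9 * ν) (hQ : ν ^ 3 ≤ 6 * Q) (hR : R * ν ≤ k * Q)
    (hA : 9 * Q ≤ 10 * (k * P)) (hB : 100 * P ≤ 26 * Q) (hz : z ≤ ν) (he1 : ν ≤ 2 * e)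
    (he2 : 50 * e ≤ 51 * ν) (hi : i ≤ r) (ht : 2 * Q ≤ t * ν) (hk1 : 1 ≤ k) :
    ∃ mo b : ℕ, mo + b ≤ t ∧ R / ν + 1 + (ν + 1) ≤ mo ∧ Q = P + (mo + b) * e + mo ∧
      ν ^ 2 ≤ 24 * b ∧ R + (ν + z) ^ 2 + (mo + b) * i ≤ P := by
  have hν0 : 0 < ν := by omega
  have he0 : 0 < e := by omega
  obtain ⟨μ, hμ⟩ : ∃ μ, μ = R / ν + 1 + (ν + 1) := ⟨_, rfl⟩
  rw [← hμ]
  have f1 : 1000 * ν ^ 2 ≤ Q := by
    have : 6000 * ν ^ 2 ≤ ν ^ 3 := by
      calc 6000 * ν ^ 2 ≤ ν * ν ^ 2 := Nat.mul_le_mul_right _ hν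
        _ = _ := by ring
    omega
  have f2 : 5000 * R ≤ Q := by
    have : 5000 * R * ν ≤ Q * ν := by
      calc 5000 * R * ν = 5000 * (R * ν) := by ring
        _ ≤ 5000 * (k * Q) := Nat.mul_le_mul_left _ hR
        _ = (5000 * k) * Q := by ring
        _ ≤ ν * Q := Nat.mul_le_mul_right _ hk
        _ = _ := by ring
    exact Nat.le_of_mul_le_mul_right this hν0
  have f3 : (μ + e) * ν ≤ R + 4 * ν ^ 2 := by
    have a1 : R / ν * ν ≤ R := Nat.div_mul_le_self _ _
    have a2 : (ν + 2 + e) * ν ≤ (4 * ν) * ν := Nat.mul_le_mul_right _ (by omega)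
    calc (μ + e) * ν = R / ν * ν + (ν + 2 + e) * ν := by rw [hμ]; ring
      _ ≤ R + (4 * ν) * ν := add_le_add a1 a2
      _ = _ := by ring
  have f4 : 200 * ((μ + e) * ν) ≤ Q := by omega
  have f5 : μ + e ≤ (μ + e) * ν := Nat.le_mul_of_pos_right _ hν0
  have f6 : P + μ ≤ Q := by omega
  obtain ⟨T, hT⟩ := Nat.exists_eq_add_of_le f6
  obtain ⟨m, g1, g2⟩ : ∃ m, m * e ≤ T ∧ T < m * e + e :=
    ⟨T / e, Nat.div_mul_le_self _ _, Nat.lt_div_mul_add he0⟩
  obtain ⟨mo, hmo⟩ : ∃ mo, μ + T = m * e + mo := Nat.exists_eq_add_of_le (by omega)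
  have g3 : μ ≤ mo := by omega
  have g4 : mo ≤ μ + e := by omega
  have g5 : 200 * (mo * ν) ≤ Q := le_trans (by gcongr) f4
  have g6 : 50 * (m * e) ≤ 51 * (m * ν) := by
    calc 50 * (m * e) = m * (50 * e) := by ring
      _ ≤ m * (51 * ν) := Nat.mul_le_mul_left _ he2
      _ = _ := by ring
  have g7 : 2 * (mo * ν) + Q ≤ 2 * (m * ν) := by
    have : mo ≤ mo * ν := Nat.le_mul_of_pos_right _ hν0
    omega
  have g8 : mo ≤ m := by
    have : mo * ν ≤ m * ν := by omega
    exact Nat.le_of_mul_le_mul_right this hν0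
  obtain ⟨b, hb⟩ := Nat.exists_eq_add_of_le g8
  have g9 : m * ν ≤ 2 * Q := by
    calc m * ν ≤ m * (2 * e) := Nat.mul_le_mul_left _ he1
      _ = 2 * (m * e) := by ring
      _ ≤ _ := by omega
  refine ⟨mo, b, ?_, g3, ?_, ?_, ?_⟩
  · rw [← hb]
    exact Nat.le_of_mul_le_mul_right (le_trans g9 ht) hν0
  · rw [← hb]
    omega
  · have a1 : m * ν = mo * ν + b * ν := by rw [hb]; ring
    have a2 : ν ^ 2 * ν ≤ 24 * b * ν := by
      have : ν ^ 2 * ν = ν ^ 3 := by ring
      have a3 : 24 * b * ν = 24 * (b * ν) := by ring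
      omega
    exact Nat.le_of_mul_le_mul_right a2 hν0
  · rw [← hb]
    have a1 : (ν + z) ^ 2 * ν ≤ 24 * Q := by
      calc (ν + z) ^ 2 * ν ≤ (2 * ν) ^ 2 * ν := by gcongr; omega
        _ = 4 * ν ^ 3 := by ring
        _ ≤ _ := by omega
    have a2 : m * i * ν ≤ 2 * r * Q := by
      calc m * i * ν = i * (m * ν) := by ring
        _ ≤ r * (2 * Q) := Nat.mul_le_mul hi g9
        _ = _ := by ring
    have a3 : (R + (ν + z) ^ 2 + m * i) * ν ≤ (k + 24 + 2 * r) * Q := by
      calc (R + (ν + z) ^ 2 + m * i) * ν = R * ν + (ν + z) ^ 2 * ν + m * i * ν := by ring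
        _ ≤ k * Q + 24 * Q + 2 * r * Q := by omega
        _ = _ := by ring
    have a4 : (R + (ν + z) ^ 2 + m * i) * (10 * k * ν) ≤ P * (10 * k * ν) := by
      calc (R + (ν + z) ^ 2 + m * i) * (10 * k * ν)
          = 10 * k * ((R + (ν + z) ^ 2 + m * i) * ν) := by ring
        _ ≤ 10 * k * ((k + 24 + 2 * r) * Q) := Nat.mul_le_mul_left _ a3
        _ = 10 * (k * (k + 24 + 2 * r)) * Q := by ring
        _ ≤ 9 * ν * Q := Nat.mul_le_mul_right _ hkk
        _ = 9 * Q * ν := by ring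
        _ ≤ 10 * (k * P) * ν := Nat.mul_le_mul_right _ hA
        _ = _ := by ring
    exact Nat.le_of_mul_le_mul_right a4 (by positivity)

theorem core (k r N σ : ℕ) (hk : 2 ≤ k) (hr : 1 ≤ r) (F : ℕ → Multiset (ℕ ⊕ ℕ) → Prop)
    (hfin : ∀ n st, FinCond n (k + 2) st → F n st)
    (hstep : ∀ (n j mo b : ℕ) (s0 : Multiset (ℕ ⊕ ℕ)),
      ResCond n (k + 1) j mo b (s0.map pts).sum →
      F n (s0 + replicate (mo + b) (Sum.inl j) + replicate b (Sum.inr 1)) →
      F (n + 1) (s0 + replicate (mo + b) (Sum.inl (j + 1))))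
    (hn : 10 ^ 4 * ((k + 2) * (r + 1)) ^ 3 + 100 * NN r (k + 2) ≤ N)
    (hσ : σ ≤ (r + 1) * N) (ν : ℕ) :
    ∀ st, Adm r st → (st.map (size ν (k + 2))).sum = NN ν (k + 2) + σ → N ≤ 2 * ν + 2 →
      N ^ 3 ≤ 72 * st.count (Sum.inr 1) + ν ^ 3 → F ν st := by
  obtain ⟨L, hL⟩ : ∃ L, L = ((k + 2) * (r + 1)) ^ 3 := ⟨_, rfl⟩
  obtain ⟨K, hK⟩ : ∃ K, K = (k + 2) * (r + 1) := ⟨_, rfl⟩
  have hK8 : 8 ≤ K := by rw [hK]; exact Nat.mul_le_mul (show 4 ≤ k + 2 by omega) (show 2 ≤ r + 1 by omega)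
  have hkK : k + 2 ≤ K := by rw [hK]; exact Nat.le_mul_of_pos_right _ (by omega)
  have hrK : r + 1 ≤ K := by rw [hK]; exact Nat.le_mul_of_pos_left _ (by omega)
  have hKK : 8 * (K * K) ≤ L := by
    rw [hL, ← hK]
    calc 8 * (K * K) ≤ K * (K * K) := Nat.mul_le_mul_right _ hK8
      _ = _ := by ring
  have hK1 : 8 * K ≤ K * K := Nat.mul_le_mul_right _ hK8
  have hkc : (k + 2) * (r + 1) ^ 2 ≤ K * K := by
    calc (k + 2) * (r + 1) ^ 2 = K * (r + 1) := by rw [hK]; ring
      _ ≤ K * K := Nat.mul_le_mul_left _ hrK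
  have hcc : (r + 1) ^ 2 ≤ K * K := by
    rw [pow_two]; exact Nat.mul_le_mul hrK hrK
  have hkk : (k + 2) * (k + 2 + 24 + 2 * r) ≤ K * (6 * K) := Nat.mul_le_mul hkK (by omega)
  have hkk' : K * (6 * K) = 6 * (K * K) := by ring
  rw [← hL] at hn
  norm_num at hn
  obtain ⟨c0, hc0⟩ : ∃ c0, c0 = NN r (k + 2) := ⟨_, rfl⟩
  rw [← hc0] at hn
  induction ν with
  | zero => intro st _ _ h _; omega
  | succ n ih =>
    intro st hadm hsz hN hπ
    by_cases hbig : ((r + 1) * (n + 1)) ^ 2 ≤ st.count (Sum.inr 1)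
    · refine hfin _ _ ⟨(r + 1) * (n + 1), ?_, ?_, by omega, by rwa [← pow_two]⟩
      · intro j hj
        rcases hadm _ hj with ⟨j', hj', h⟩ | h
        · obtain rfl : j = j' := Sum.inl.inj h
          have h1 := nn_mono_left (k + 2) hj'
          have h2 : j * (n + 1) ≤ r * (n + 1) := Nat.mul_le_mul_right _ hj'
          refine ⟨by omega, ?_⟩
          rw [add_mul]
          omega
        · cases h
      · intro g hg
        rcases hadm _ hg with ⟨j', _, h⟩ | h
        · cases h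
        · obtain rfl : g = 1 := Sum.inr.inj h
          refine ⟨by omega, ?_⟩
          have : 2 * 1 ≤ (r + 1) * (n + 1) := Nat.mul_le_mul (by omega) (by omega)
          omega
    · have hsmall := (not_le.mp hbig).le
      have hN2 : N ≤ 2 * (n + 1) := by
        by_contra hc
        have a1 : (2 * (n + 1)) ^ 3 ≤ N ^ 3 := Nat.pow_le_pow_left (by omega) _
        have a2 : 73 * ((r + 1) * (n + 1)) ^ 2 ≤ 7 * (n + 1) ^ 3 := by
          calc 73 * ((r + 1) * (n + 1)) ^ 2 = 73 * (r + 1) ^ 2 * (n + 1) ^ 2 := by ring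
            _ ≤ 7 * (n + 1) * (n + 1) ^ 2 := Nat.mul_le_mul_right _ (by omega)
            _ = _ := by ring
        have a3 : (2 * (n + 1)) ^ 3 = 8 * (n + 1) ^ 3 := by ring
        have a4 : 0 < ((r + 1) * (n + 1)) ^ 2 := by positivity
        omega
      obtain ⟨Q, hQ⟩ : ∃ Q, Q = NN (n + 1) (k + 1) := ⟨_, rfl⟩
      obtain ⟨R, hR⟩ : ∃ R, R = NN (n + 1) k := ⟨_, rfl⟩
      obtain ⟨P, hP⟩ : ∃ P, P = (st.map pts).sum := ⟨_, rfl⟩
      have hQ3 : (n + 1) ^ 3 ≤ 6 * Q := by
        have := nn_mono_right n (show 3 ≤ k + 1 by omega)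
        have := nn_three n
        omega
      have hQ0 : 0 < Q := hQ ▸ nn_pos _ _
      have hNQ : (k + 2) * NN (n + 1) (k + 2) = Q * (n + 1 + (k + 1)) := by
        rw [hQ, nn_mul]; congr 1; omega
      have hRQ : R * (n + 1) ≤ (k + 2) * Q := by
        have := nn_mul n k
        rw [← hQ, ← hR] at this
        calc R * (n + 1) ≤ R * (n + k + 1) := Nat.mul_le_mul_left _ (by omega)
          _ = (k + 1) * Q := this.symm
          _ ≤ _ := Nat.mul_le_mul_right _ (by omega)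
      have hlow := size_lower (ν := n + 1) (k := k + 2) st hadm
      have hup := size_upper (ν := n + 1) (k := k + 1) st hadm
      rw [hsz, ← hP] at hlow hup
      rw [← hc0] at hup
      have hA : 9 * Q ≤ 10 * ((k + 2) * P) :=
        arithA (L := L) (c := r + 1) (c0 := c0) (by omega) (by omega) (by omega) hQ3 hNQ hsmall
          (by omega)
      have hσ' : σ ≤ 2 * (r + 1) * (n + 1) := by
        calc σ ≤ (r + 1) * N := hσ
          _ ≤ (r + 1) * (2 * (n + 1)) := Nat.mul_le_mul_left _ hN2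
          _ = _ := by ring
      have hB : 100 * P ≤ 26 * Q :=
        arithB (c := r + 1) (by omega) (by omega) (by omega) (by omega) (by omega) hQ3 hNQ hσ' hlow
      obtain ⟨j, hj, hcnt⟩ : ∃ j, j < r ∧ 2 * Q ≤ st.count (Sum.inl (j + 1)) * (n + 1) := by
        by_contra hc
        push Not at hc
        have a1 := pts_le st hadm
        rw [← hP] at a1
        have a2 : (∑ i ∈ Finset.range r, st.count (Sum.inl (i + 1))) * (n + 1) ≤ r * (2 * Q) := by
          rw [Finset.sum_mul]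
          have := Finset.sum_le_card_nsmul (Finset.range r)
            (fun i => st.count (Sum.inl (i + 1) : ℕ ⊕ ℕ) * (n + 1)) (2 * Q)
            (fun i hi => (hc i (Finset.mem_range.mp hi)).le)
          simpa using this
        have a3 : P * (n + 1) ≤ r * (r * (2 * Q)) := by
          calc P * (n + 1) ≤ r * (∑ i ∈ Finset.range r, st.count (Sum.inl (i + 1))) * (n + 1) :=
                Nat.mul_le_mul_right _ a1
            _ = r * ((∑ i ∈ Finset.range r, st.count (Sum.inl (i + 1))) * (n + 1)) := by ring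
            _ ≤ _ := Nat.mul_le_mul_left _ a2
        have a4 : (k + 2) * r ^ 2 ≤ (k + 2) * (r + 1) ^ 2 := by gcongr; omega
        have a5 : 9 * (n + 1) * Q ≤ 20 * ((k + 2) * r ^ 2) * Q := by
          calc 9 * (n + 1) * Q = 9 * Q * (n + 1) := by ring
            _ ≤ 10 * ((k + 2) * P) * (n + 1) := Nat.mul_le_mul_right _ hA
            _ = 10 * (k + 2) * (P * (n + 1)) := by ring
            _ ≤ 10 * (k + 2) * (r * (r * (2 * Q))) := Nat.mul_le_mul_left _ a3
            _ = _ := by ring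
        have a6 := Nat.le_of_mul_le_mul_right a5 hQ0
        omega
      obtain ⟨z, hz⟩ : ∃ z, z = NN (j + 1) (k + 1) := ⟨_, rfl⟩
      have hz0 : 0 < z := hz ▸ nn_pos _ _
      have hzc : z ≤ c0 := by
        have a1 := nn_mono_right j (show k + 1 ≤ k + 2 by omega)
        have a2 := nn_mono_left (k + 2) (show j + 1 ≤ r by omega)
        omega
      obtain ⟨d, hd⟩ : ∃ d, n = 2 * j + 2 + d := Nat.exists_eq_add_of_le (by omega)
      obtain ⟨mo, b, h1, h2, h3, h4, h5⟩ := arithD (ν := n + 1) (k := k + 2) (r := r) (i := j + 1)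
        (z := z) (e := d + z) (by omega) (by omega) (by omega) hQ3 hRQ hA hB (by omega) (by omega)
        (by omega) (by omega) hcnt (by omega)
      obtain ⟨s0, rfl⟩ := Multiset.le_iff_exists_add.mp (Multiset.le_count_iff_replicate_le.mp h1)
      rw [add_comm (replicate _ _) s0]
      have hadm0 : Adm r s0 := fun x hx => hadm x (mem_add.mpr (Or.inr hx))
      have hP0 : P = (mo + b) * (j + 1) + (s0.map pts).sum := by
        rw [hP, map_add, sum_add, map_replicate, sum_replicate, smul_eq_mul]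
        rfl
      have hpas : Q = NN n (k + 1) + R := by rw [hQ, hR, nn_pascal]
      have e1 : n - j = j + 2 + d := by omega
      have e2 : n - (j + 1) = j + 1 + d := by omega
      have h3' : Q = mo * (j + 2 + d + z) + b * (j + 1 + d + z) + (s0.map pts).sum := by
        rw [h3, hP0]; ring
      refine hstep n j mo b s0 ⟨by omega, ⟨R / (n + 1) + 1, ?_, by omega⟩, ?_, ?_⟩ (ih _ ?_ ?_ ?_ ?_)
      · rw [Nat.add_sub_cancel, ← hR, add_mul, one_mul]
        exact Nat.lt_div_mul_add (by omega)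
      · rw [← hQ, ← hz, e1, e2]
        exact h3'.le
      · rw [← hQ, ← hz]
        omega
      · intro x hx
        rcases mem_add.mp hx with hx | hx
        · rcases mem_add.mp hx with hx | hx
          · exact hadm0 x hx
          · exact Or.inl ⟨j, by omega, eq_of_mem_replicate hx⟩
        · exact Or.inr (eq_of_mem_replicate hx)
      · have a1 := size_drop (k := k + 2) (show r ≤ n by omega) s0 hadm0
        have a2 : size (n + 1) (k + 2) (Sum.inl (j + 1)) =
            size n (k + 2) (Sum.inl j) + (j + 2 + d + z) := by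
          simp only [size]
          rw [nn_pascal, ← hz, Nat.add_sub_add_right, e1]
          ring
        have a3 : size n (k + 2) (Sum.inr 1) = 1 := by simp [size]
        have a4 : NN (n + 1) (k + 2) = NN n (k + 2) + Q := by rw [hQ, nn_pascal]
        simp only [map_add, sum_add, map_replicate, sum_replicate, smul_eq_mul] at hsz ⊢
        rw [a1, a2, a4, mul_add] at hsz
        rw [a3]
        have a5 : (mo + b) * (j + 2 + d + z) =
            mo * (j + 2 + d + z) + b * (j + 1 + d + z) + b := by ring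
        omega
      · omega
      · simp only [count_add, count_replicate] at hπ ⊢
        simp only [reduceCtorEq, if_false, if_true] at hπ ⊢
        have : (n + 1) ^ 3 ≤ 3 * (n + 1) ^ 2 + n ^ 3 := by nlinarith [Nat.zero_le n]
        omega

end N4

theorem num4 (k r : ℕ) (hk : 4 ≤ k) (hr : 1 ≤ r) (F : ℕ → Multiset (ℕ ⊕ ℕ) → Prop)
    (hfin : ∀ n st, FinCond n k st → F n st)
    (hstep : ∀ (n j mo b : ℕ) (s0 : Multiset (ℕ ⊕ ℕ)),
      ResCond n (k - 1) j mo b (s0.map pts).sum →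
      F n (s0 + replicate (mo + b) (Sum.inl j) + replicate b (Sum.inr 1)) →
      F (n + 1) (s0 + replicate (mo + b) (Sum.inl (j + 1))))
    (n S : ℕ) (hn : 10 ^ 4 * (k * (r + 1)) ^ 3 + 100 * NN r k ≤ n)
    (hS : NN n k ≤ S * (r * (n - r) + NN r k))
    (hS' : S * (r * (n - r) + NN r k) < NN n k + (r * (n - r) + NN r k)) :
    F n (replicate S (Sum.inl r)) := by
  obtain ⟨k, rfl⟩ : ∃ k', k = k' + 2 := ⟨k - 2, by omega⟩
  obtain ⟨σ, hσ⟩ := Nat.exists_eq_add_of_le hS
  have h1 : r * (n - r) ≤ r * n := Nat.mul_le_mul_left _ (Nat.sub_le _ _)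
  refine N4.core k r n σ (by omega) hr F hfin hstep hn ?_ n _ ?_ ?_ (by omega) (by omega)
  · rw [add_mul]
    omega
  · intro x hx
    exact Or.inl ⟨r, le_rfl, eq_of_mem_replicate hx⟩
  · rw [map_replicate, sum_replicate, smul_eq_mul, ← hσ]
    rfl

end Pool.Agent.P.MP_c64be1_ag.Asy
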