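import Pool.Agent.P.MP_c64be1_ag.Asy.Obj

/-! Multisets of objects versus indexed families. -/

namespace Pool.Agent.P.MP_c64be1_ag.Asy

open Module

variable {A : Type} [CommRing A] [Algebra ℂ A] {Kd : Type} (S : Sys A Kd)

lemma sum_map_eq_biSup {ι : Type} (T : Finset ι) (U : ι → Submodule ℂ A) :
    (T.val.map U).sum = ⨆ i ∈ T, U i := by
  classical
  induction T using Finset.induction_on with
  | empty => simp
  | insert a T ha ih =>
    rw [Finset.insert_val_of_notMem ha, Multiset.map_cons, Multiset.sum_cons, ih,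
      Finset.iSup_insert, Submodule.add_eq_sup]

lemma reach_of_finset {ι : Type} (κ : ι → Kd) (T : Finset ι) (c : ι → ℕ → A)
    (hc : ∀ i ∈ T, c i ∈ S.Q (κ i)) :
    Reach S (T.val.map κ) (⨆ i ∈ T, S.Obj (κ i) (c i)) := by
  refine ⟨T.val.map fun i => (κ i, c i), by simp [Multiset.map_map], ?_, ?_⟩
  · intro x hx
    obtain ⟨i, hi, rfl⟩ := Multiset.mem_map.mp hx
    exact hc i hi
  · rw [Multiset.map_map, ← sum_map_eq_biSup]
    rfl

lemma finset_of_reach {ι : Type} (κ : ι → Kd) (T : Finset ι) {U : Submodule ℂ A}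
    (h : Reach S (T.val.map κ) U) :
    ∃ c : ι → ℕ → A, (∀ i, c i ∈ S.Q (κ i)) ∧ U = ⨆ i ∈ T, S.Obj (κ i) (c i) := by
  classical
  obtain ⟨C, hC, hQ, rfl⟩ := h
  induction T using Finset.induction_on generalizing C with
  | empty =>
    have : C = 0 := by simpa using hC
    exact ⟨0, fun i => zero_mem _, by simp [this]⟩
  | insert a T ha ih =>
    rw [Finset.insert_val_of_notMem ha, Multiset.map_cons] at hC
    have h1 : κ a ∈ C.map Prod.fst := hC ▸ Multiset.mem_cons_self _ _
    obtain ⟨x, hx, hxa⟩ := Multiset.mem_map.mp h1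
    obtain ⟨C', rfl⟩ := Multiset.exists_cons_of_mem hx
    rw [Multiset.map_cons, hxa, Multiset.cons_inj_right] at hC
    obtain ⟨c, hc, hU⟩ := ih C' hC (fun y hy => hQ y (Multiset.mem_cons_of_mem hy))
    refine ⟨Function.update c a x.2, fun i => ?_, ?_⟩
    · by_cases hi : i = a
      · subst hi
        rw [Function.update_self, ← hxa]
        exact hQ x hx
      · rw [Function.update_of_ne hi]
        exact hc i
    · rw [Multiset.map_cons, Multiset.sum_cons, hU, Finset.iSup_insert, Function.update_self,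
        Submodule.add_eq_sup, hxa]
      congr 1
      refine iSup_congr fun i => iSup_congr fun hi => ?_
      rw [Function.update_of_ne (fun h : i = a => ha (h ▸ hi))]

/-- A multiset of objects is the same thing as a family indexed by any type carrying
the right kinds. -/
lemma reach_family {ι : Type} [Fintype ι] (κ : ι → Kd) {s : Multiset Kd}
    (hs : Finset.univ.val.map κ = s) (U : Submodule ℂ A) :
    Reach S s U ↔ ∃ c : ι → ℕ → A, (∀ i, c i ∈ S.Q (κ i)) ∧ U = ⨆ i, S.Obj (κ i) (c i) := by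
  subst hs
  refine ⟨fun h => ?_, ?_⟩
  · obtain ⟨c, hc, hU⟩ := finset_of_reach S κ Finset.univ h
    exact ⟨c, hc, by simpa using hU⟩
  · rintro ⟨c, hc, rfl⟩
    simpa using reach_of_finset S κ Finset.univ c (fun i _ => hc i)

lemma exists_family (s : Multiset Kd) :
    ∃ (m : ℕ) (κ : Fin m → Kd), Finset.univ.val.map κ = s := by
  induction s using Quotient.inductionOn with
  | h l => exact ⟨l.length, l.get, by rw [Fin.univ_val_map, List.ofFn_get]; rfl⟩

lemma reach_add {s s' : Multiset Kd} {U U' : Submodule ℂ A} (h : Reach S s U)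
    (h' : Reach S s' U') : Reach S (s + s') (U ⊔ U') := by
  obtain ⟨C, rfl, hQ, rfl⟩ := h
  obtain ⟨C', rfl, hQ', rfl⟩ := h'
  refine ⟨C + C', by simp, fun x hx => ?_, by simp⟩
  rcases Multiset.mem_add.mp hx with h | h
  · exact hQ x h
  · exact hQ' x h

lemma reach_zero : Reach S 0 ⊥ := ⟨0, by simp, by simp, by simp⟩

lemma reach_singleton {κ : Kd} {c : ℕ → A} (hc : c ∈ S.Q κ) : Reach S {κ} (S.Obj κ c) :=
  ⟨{(κ, c)}, by simp, by simpa using hc, by simp⟩

lemma exists_reach (s : Multiset Kd) : ∃ U, Reach S s U :=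
  ⟨_, s.map fun κ => (κ, 0), by simp [Multiset.map_map], by
    intro x hx
    obtain ⟨κ, -, rfl⟩ := Multiset.mem_map.mp hx
    exact zero_mem _, rfl⟩

lemma reach_of_add {s s' : Multiset Kd} {W : Submodule ℂ A} (h : Reach S (s + s') W) :
    ∃ U U', Reach S s U ∧ Reach S s' U' ∧ W = U ⊔ U' := by
  obtain ⟨C, hC, hQ, rfl⟩ := h
  induction s using Multiset.induction_on generalizing C with
  | empty => exact ⟨⊥, _, reach_zero S, ⟨C, by simpa using hC, hQ, rfl⟩, by simp⟩
  | cons a s ih =>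
    rw [Multiset.cons_add] at hC
    have h1 : a ∈ C.map Prod.fst := hC ▸ Multiset.mem_cons_self _ _
    obtain ⟨x, hx, hxa⟩ := Multiset.mem_map.mp h1
    obtain ⟨C', rfl⟩ := Multiset.exists_cons_of_mem hx
    rw [Multiset.map_cons, hxa, Multiset.cons_inj_right] at hC
    obtain ⟨U, U', hU, hU', he⟩ := ih C' hC (fun y hy => hQ y (Multiset.mem_cons_of_mem hy))
    refine ⟨S.Obj x.1 x.2 ⊔ U, U', ?_, hU', ?_⟩
    · rw [← Multiset.singleton_add, ← hxa]
      exact reach_add S (reach_singleton S (hQ x hx)) hU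
    · rw [Multiset.map_cons, Multiset.sum_cons, he, Submodule.add_eq_sup, sup_assoc]

lemma reach_le {s : Multiset Kd} {U T : Submodule ℂ A} (h : Reach S s U)
    (hT : ∀ κ ∈ s, ∀ c ∈ S.Q κ, S.Obj κ c ≤ T) : U ≤ T := by
  obtain ⟨m, κ, rfl⟩ := exists_family s
  obtain ⟨c, hc, rfl⟩ := (reach_family S κ rfl U).mp h
  exact iSup_le fun i => hT _ (Multiset.mem_map_of_mem _ (Finset.mem_univ i)) _ (hc i)

end Pool.Agent.P.MP_c64be1_ag.Asy
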