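import Pool.Agent.P.MP_c64be1_ag.Asy.Step3Aux
import Pool.Agent.P.MP_c64be1_ag.Asy.Reach

/-! The codimension two step for cubics, for a given configuration. -/

namespace Pool.Agent.P.MP_c64be1_ag.Asy

open Module

variable {A : Type} [CommRing A] [Algebra ℂ A]

/-- One component of the residual problem. -/
def compS (L : Submodule ℂ A) (j : ℕ) {ι0 Ga Gb Ta Tb : Type} (κ : ι0 → ℕ ⊕ ℕ) (sa : Ga → ℕ)
    (sb : Gb → ℕ) (c0 : ι0 → ℕ → A) (z : A) (ya : Ga → ℕ → A) (yb : Gb → ℕ → A)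
    (la : Ta → ℕ → A) (lb : Tb → ℕ → A) : Submodule ℂ A :=
  (((⨆ i : (Σ g, Fin (sa g)), (ℂ ∙ ya i.1 i.2) * L) ⊔ edges sb yb) ⊔ ⨆ t, sp (la t) j ^ 2) ⊔
    (((⨆ p : (Σ i, Fin (pts (κ i))), (ℂ ∙ c0 p.1 p.2) ^ 2) ⊔ (ℂ ∙ z) ^ 2) ⊔
      ⨆ p : Tb × Fin j, (ℂ ∙ lb p.1 p.2) ^ 2)

lemma edges_le {L : Submodule ℂ A} {G : Type} (sz : G → ℕ) {y : G → ℕ → A}
    (hy : ∀ g a, y g a ∈ L) : edges sz y ≤ L ^ 2 :=
  iSup_le fun _ => iSup_le fun _ => iSup_le fun _ => iSup_le fun _ => iSup_le fun _ =>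
    (Submodule.span_singleton_le_iff_mem _ _).mpr (by
      rw [pow_two]
      exact Submodule.mul_mem_mul (hy _ _) (hy _ _))

lemma span_sq_le {L : Submodule ℂ A} {q : A} (hq : q ∈ L) : (ℂ ∙ q) ^ 2 ≤ L ^ 2 :=
  span_pow_le_iff.mpr (Submodule.pow_mem_pow _ hq 2)

lemma span_mul_le_sq {L : Submodule ℂ A} {q : A} (hq : q ∈ L) : (ℂ ∙ q) * L ≤ L ^ 2 := by
  rw [pow_two]
  exact mul_le_mul_left ((Submodule.span_singleton_le_iff_mem _ _).mpr hq) _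

lemma sp_sq_le {L : Submodule ℂ A} {l : ℕ → A} (hl : ∀ a, l a ∈ L) (j : ℕ) : sp l j ^ 2 ≤ L ^ 2 :=
  pow_le_pow_left' (sp_le_iff.mpr fun a _ => hl a) 2

lemma sq_mul_span_le {q u : A} {C : Submodule ℂ A} (h : q ^ 2 * u ∈ C) :
    (ℂ ∙ q) ^ 2 * (ℂ ∙ u) ≤ C := by
  rw [span_pow_eq, Submodule.span_mul_span, Set.singleton_mul_singleton]
  exact (Submodule.span_singleton_le_iff_mem _ _).mpr h

theorem step3_core (L : Submodule ℂ A) (a b : A) (V : Submodule ℂ A)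
    (hV : V = L ⊔ ((ℂ ∙ a) ⊔ ℂ ∙ b)) [FiniteDimensional ℂ ↥(V ^ 3)] (j : ℕ)
    {ι0 G1 G2 : Type} (κ : ι0 → ℕ ⊕ ℕ) (s1 : G1 → ℕ) (s2 : G2 → ℕ) {μ1 : G1 → ℂ} {μ2 : G2 → ℂ}
    (hμ1 : Function.Injective μ1) (hμ2 : Function.Injective μ2)
    (c0 : ι0 → ℕ → A) (z : A) (y1 : G1 → ℕ → A) (y2 : G2 → ℕ → A)
    (l1 : (Σ g, Fin (s1 g)) ⊕ Bool → ℕ → A) (l2 : (Σ g, Fin (s2 g)) ⊕ Unit → ℕ → A)
    (h0 : ∀ i n, c0 i n ∈ L) (hz : z ∈ L) (hy1 : ∀ g n, y1 g n ∈ L) (hy2 : ∀ g n, y2 g n ∈ L)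
    (hl1 : ∀ i n, l1 i n ∈ L) (hl2 : ∀ i n, l2 i n ∈ L)
    (hT : L ^ 3 ≤ (((⨆ i, (msys L 3).Obj (κ i) (c0 i)) ⊔
      ((⨆ i, blk L 3 j (l1 i)) ⊔ ⨆ i, blk L 3 j (l2 i))) ⊔ ⨆ g, jj 3 (s1 g) (y1 g)) ⊔
      ⨆ g, jj 3 (s2 g) (y2 g))
    (c1 : L ^ 2 ≤ compS L j κ s1 s2 c0 z y1 y2 l1 l2)
    (c2 : L ^ 2 ≤ compS L j κ s2 s1 c0 z y2 y1 l2 l1) :
    ∃ (p1 : (Σ g, Fin (s1 g)) ⊕ Bool → A) (p2 : (Σ g, Fin (s2 g)) ⊕ Unit → A),
      (∀ i, p1 i ∈ V) ∧ (∀ i, p2 i ∈ V) ∧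
      V ^ 3 ≤ (⨆ i, (msys V 3).Obj (κ i) (c0 i)) ⊔
        ((⨆ i, blkAdd V j (l1 i) (p1 i)) ⊔ ⨆ i, blkAdd V j (l2 i) (p2 i)) := by
  set U : Submodule ℂ A := (ℂ ∙ a) ⊔ ℂ ∙ b with hU
  have ha : a ∈ U := Submodule.mem_sup_left (Submodule.mem_span_singleton_self a)
  have hb : b ∈ U := Submodule.mem_sup_right (Submodule.mem_span_singleton_self b)
  have hLV : L ≤ V := hV ▸ le_sup_left
  have hUV : U ≤ V := hV ▸ le_sup_right
  have hfd : FiniteDimensional ℂ ↥(L ^ 2 * U) := by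
    refine Submodule.finiteDimensional_of_le (S₂ := V ^ 3) ?_
    rw [pow_succ V 2]
    exact mul_le_mul' (pow_le_pow_left' hLV 2) hUV
  let Q0 : Submodule ℂ A :=
    (⨆ p : (Σ i, Fin (pts (κ i))), (ℂ ∙ c0 p.1 p.2) ^ 2) ⊔ (ℂ ∙ z) ^ 2
  have hQ0 : Q0 ≤ L ^ 2 := sup_le (iSup_le fun p => span_sq_le (h0 _ _)) (span_sq_le hz)
  obtain ⟨ε, hε, hslope⟩ := exists_slope a b (L ^ 2)
    (fun i : (Σ g, Fin (s1 g)) => (ℂ ∙ y1 i.1 i.2) * L ⊔ sp (l1 (Sum.inl i)) j ^ 2)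
    (fun i : (Σ g, Fin (s2 g)) => (ℂ ∙ y2 i.1 i.2) * L ⊔ sp (l2 (Sum.inl i)) j ^ 2)
    ((edges s2 y2 ⊔ sp (l1 (Sum.inr false)) j ^ 2) ⊔
      (Q0 ⊔ ⨆ p : ((Σ g, Fin (s2 g)) ⊕ Unit) × Fin j, (ℂ ∙ l2 p.1 p.2) ^ 2))
    ((edges s1 y1 ⊔ sp (l2 (Sum.inr ())) j ^ 2) ⊔
      (Q0 ⊔ ⨆ p : ((Σ g, Fin (s1 g)) ⊕ Bool) × Fin j, (ℂ ∙ l1 p.1 p.2) ^ 2))
    (sp (l1 (Sum.inr true)) j ^ 2)
    (fun i => sup_le (span_mul_le_sq (hy1 _ _)) (sp_sq_le (hl1 _) j))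
    (fun i => sup_le (span_mul_le_sq (hy2 _ _)) (sp_sq_le (hl2 _) j))
    (sup_le (sup_le (edges_le _ hy2) (sp_sq_le (hl1 _) j))
      (sup_le hQ0 (iSup_le fun p => span_sq_le (hl2 _ _))))
    (sup_le (sup_le (edges_le _ hy1) (sp_sq_le (hl2 _) j))
      (sup_le hQ0 (iSup_le fun p => span_sq_le (hl1 _ _))))
    (sp_sq_le (hl1 _) j) (fun i => μ1 i.1) (fun i => μ2 i.1)
    (c1.trans (sup_le (sup_le (sup_le
      (le_sup_of_le_left (le_sup_of_le_left (iSup_mono fun i => le_sup_left)))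
      (le_sup_of_le_left (le_sup_of_le_right (le_sup_of_le_left le_sup_left))))
      (iSup_le fun t => by
        rcases t with i | _ | _
        · exact le_sup_of_le_left (le_sup_of_le_left (le_iSup_of_le i le_sup_right))
        · exact le_sup_of_le_left (le_sup_of_le_right (le_sup_of_le_left le_sup_right))
        · exact le_sup_right))
      (le_sup_of_le_left (le_sup_of_le_right le_sup_right))))
    (c2.trans (sup_le (sup_le (sup_le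
      (le_sup_of_le_left (iSup_mono fun i => le_sup_left))
      (le_sup_of_le_right (le_sup_of_le_left le_sup_left)))
      (iSup_le fun t => by
        rcases t with i | _
        · exact le_sup_of_le_left (le_iSup_of_le i le_sup_right)
        · exact le_sup_of_le_right (le_sup_of_le_left le_sup_right)))
      (le_sup_of_le_right le_sup_right)))
  let p1 : ℂ → (Σ g, Fin (s1 g)) ⊕ Bool → A := fun t => Sum.elim
    (fun i => y1 i.1 i.2 + (a + ε • μ1 i.1 • b)) fun β => if β then a + b + t • z else a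
  let p2 : (Σ g, Fin (s2 g)) ⊕ Unit → A := Sum.elim
    (fun i => y2 i.1 i.2 + (b + ε • μ2 i.1 • a)) fun _ => b
  have hp1 : ∀ t i, p1 t i ∈ V := by
    rintro t (i | _ | _)
    · exact add_mem (hLV (hy1 _ _)) (hUV (add_mem ha (U.smul_mem _ (U.smul_mem _ hb))))
    · exact hUV ha
    · exact add_mem (hUV (add_mem ha hb)) (V.smul_mem _ (hLV hz))
  have hp2 : ∀ i, p2 i ∈ V := by
    rintro (i | _)
    · exact add_mem (hLV (hy2 _ _)) (hUV (add_mem hb (U.smul_mem _ (U.smul_mem _ ha))))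
    · exact hUV hb
  let M : ℂ → Submodule ℂ A := fun t => (⨆ i, (msys V 3).Obj (κ i) (c0 i)) ⊔
    ((⨆ i, blkAdd V j (l1 i) (p1 t i)) ⊔ ⨆ i, blkAdd V j (l2 i) (p2 i))
  have hM0 : ∀ t i, (msys V 3).Obj (κ i) (c0 i) ≤ M t := fun t i =>
    le_sup_of_le_left (le_iSup (fun i => (msys V 3).Obj (κ i) (c0 i)) i)
  have hM1 : ∀ t i, blkAdd V j (l1 i) (p1 t i) ≤ M t := fun t i =>
    le_sup_of_le_right (le_sup_of_le_left (le_iSup (fun i => blkAdd V j (l1 i) (p1 t i)) i))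
  have hM2 : ∀ t i, blkAdd V j (l2 i) (p2 i) ≤ M t := fun t i =>
    le_sup_of_le_right (le_sup_of_le_right (le_iSup (fun i => blkAdd V j (l2 i) (p2 i)) i))
  have hadd : ∀ {l : ℕ → A} {p : A}, (∀ n, l n ∈ L) → p ∈ V → blkAdd V j l p ≤ V ^ 3 := by
    intro l p hl hp
    refine blk_le (by norm_num) (fun n _ => ?_) le_rfl
    by_cases hn : n = j
    · rw [hn, Function.update_self]
      exact hp
    · rw [Function.update_of_ne hn]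
      exact hLV (hl n)
  have hMV : ∀ t, M t ≤ V ^ 3 := fun t => sup_le
    (iSup_le fun i => msys_le (by norm_num) le_rfl _ fun n => hLV (h0 i n))
    (sup_le (iSup_le fun i => hadd (hl1 i) (hp1 t i)) (iSup_le fun i => hadd (hl2 i) (hp2 i)))
  suffices hlim : V ^ 3 ≤ Lim M by
    obtain ⟨t, -, ht⟩ := exists_fill_of_lim _ hMV hlim
    exact ⟨p1 t, p2, hp1 t, hp2, ht⟩
  obtain ⟨hC, hza, hzb⟩ := base_lim (M := M) (hUV ha) (hUV hb) (hLV hz)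
    (fun t v hv => hM1 t (Sum.inr false) (sq_mem_blkAdd _ _ _ hv))
    (fun t v hv => hM2 t (Sum.inr ()) (sq_mem_blkAdd _ _ _ hv))
    (fun t v hv => hM1 t (Sum.inr true) (sq_mem_blkAdd _ _ _ hv))
  have hC' : ∀ u ∈ U, ∀ u' ∈ U, ∀ v ∈ L ⊔ U, u * u' * v ∈ Lim M := fun u hu u' hu' v hv =>
    hC u hu u' hu' v (hV ▸ hv)
  have hB1 : ∀ i : (Σ g, Fin (s1 g)), blkAdd (L ⊔ U) j (l1 (Sum.inl i))
      (y1 i.1 i.2 + (a + ε • μ1 i.1 • b)) ≤ Lim M := fun i =>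
    le_lim fun t _ => hV ▸ hM1 t (Sum.inl i)
  have hB2 : ∀ i : (Σ g, Fin (s2 g)), blkAdd (L ⊔ U) j (l2 (Sum.inl i))
      (y2 i.1 i.2 + (b + ε • μ2 i.1 • a)) ≤ Lim M := fun i =>
    le_lim fun t _ => hV ▸ hM2 t (Sum.inl i)
  have hb1 : ∀ i, blk V 3 j (l1 i) ≤ Lim M := fun i =>
    le_lim fun t _ => (blk_le_blkAdd _ _ _ _).trans (hM1 t i)
  have hb2 : ∀ i, blk V 3 j (l2 i) ≤ Lim M := fun i =>
    le_lim fun t _ => (blk_le_blkAdd _ _ _ _).trans (hM2 t i)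
  have hL : L ^ 3 ≤ Lim M := by
    refine hT.trans (sup_le (sup_le (sup_le (iSup_le fun i => ?_) (sup_le (iSup_le fun i => ?_)
      (iSup_le fun i => ?_))) (iSup_le fun g => ?_)) (iSup_le fun g => ?_))
    · exact le_lim fun t _ => (msys_mono hLV _ _ _).trans (hM0 t i)
    · exact (blk_mono hLV _ _ _).trans (hb1 i)
    · exact (blk_mono hLV _ _ _).trans (hb2 i)
    · exact moving_jj hC' (hy1 g) (add_mem ha (U.smul_mem ε (U.smul_mem (μ1 g) hb)))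
        fun i hi v hv => hB1 ⟨g, ⟨i, hi⟩⟩ (sq_mem_blkAdd _ _ _ hv)
    · exact moving_jj hC' (hy2 g) (add_mem hb (U.smul_mem ε (U.smul_mem (μ2 g) ha)))
        fun i hi v hv => hB2 ⟨g, ⟨i, hi⟩⟩ (sq_mem_blkAdd _ _ _ hv)
  obtain ⟨r1, e1⟩ := side_res hC' hL ha hb hy1 (l := fun i => l1 (Sum.inl i))
    (fun i => hl1 _) hμ1 hε hB1
  obtain ⟨r2, e2⟩ := side_res hC' hL hb ha hy2 (l := fun i => l2 (Sum.inl i))
    (fun i => hl2 _) hμ2 hε hB2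
  have hQ : ∀ u ∈ V, z ^ 2 * u ∈ Lim M → Q0 * (ℂ ∙ u) ≤ Lim M := by
    intro u hu hzu
    rw [Submodule.sup_mul, Submodule.iSup_mul]
    refine sup_le (iSup_le fun p => sq_mul_span_le ?_) (sq_mul_span_le hzu)
    exact mem_lim (crv_const _) fun t _ => hM0 t p.1 (pow_mul_mem_msys 3 _ _ p.2.2 hu)
  have hLU : L ^ 2 * U ≤ Lim M := by
    refine hslope _ r1 r2 ?_ ?_ (mul_span_le_iff.mpr fun w hw => ?_)
    · rw [Submodule.sup_mul, Submodule.sup_mul, Submodule.sup_mul, Submodule.iSup_mul]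
      refine sup_le (sup_le e2 (mul_span_le_iff.mpr fun w hw => ?_))
        (sup_le (hQ a (hUV ha) hza) (iSup_le fun p => sq_mul_span_le ?_))
      · exact mem_lim (crv_const _) fun t _ => hM1 t (Sum.inr false) (mul_mem_blkAdd _ _ _ _ hw)
      · exact hb2 p.1 (pow_mul_mem_blk 3 _ p.2.2 (hUV ha))
    · rw [Submodule.sup_mul, Submodule.sup_mul, Submodule.sup_mul, Submodule.iSup_mul]
      refine sup_le (sup_le e1 (mul_span_le_iff.mpr fun w hw => ?_))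
        (sup_le (hQ b (hUV hb) hzb) (iSup_le fun p => sq_mul_span_le ?_))
      · exact mem_lim (crv_const _) fun t _ => hM2 t (Sum.inr ()) (mul_mem_blkAdd _ _ _ _ hw)
      · exact hb1 p.1 (pow_mul_mem_blk 3 _ p.2.2 (hUV hb))
    · have := mem_lim (crv_mul (crv_const w) (crv_line (a + b) z)) (M := M) fun t _ =>
        hM1 t (Sum.inr true) (mul_mem_blkAdd _ _ _ _ hw)
      simpa using this
  rw [hV]
  refine (sup_pow_succ_le L U 2).trans (sup_le hL ?_)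
  refine (mul_le_mul_right (sup_pow_succ_le L U 1) U).trans ?_
  rw [Submodule.mul_sup, mul_comm U (L ^ (1 + 1)), pow_one, ← mul_assoc]
  refine sup_le hLU (Submodule.mul_le.mpr fun w hw v hv => ?_)
  induction hw using Submodule.mul_induction_on' with
  | mem_mul_mem u hu u' hu' => exact hC' u hu u' hu' v hv
  | add u _ u' _ h1 h2 =>
    rw [add_mul]
    exact add_mem h1 h2

end Pool.Agent.P.MP_c64be1_ag.Asy
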