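import Pool.Agent.P.MP_c64be1_ag.Asy.Comp3
import Pool.Agent.P.MP_c64be1_ag.Asy.Step3Core
import Pool.Agent.P.MP_c64be1_ag.Asy.Fam

/-! The codimension two step for cubics. -/

namespace Pool.Agent.P.MP_c64be1_ag.Asy

open MvPolynomial Module Multiset

lemma compS_le {A : Type} [CommRing A] [Algebra ℂ A] {L : Submodule ℂ A} (j : ℕ)
    {ι0 Ga Gb Ta Tb : Type} (κ : ι0 → ℕ ⊕ ℕ) (sa : Ga → ℕ) (sb : Gb → ℕ) {c0 : ι0 → ℕ → A} {z : A}
    {ya : Ga → ℕ → A} {yb : Gb → ℕ → A} {la : Ta → ℕ → A} {lb : Tb → ℕ → A}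
    (h0 : ∀ i n, c0 i n ∈ L) (hz : z ∈ L) (ha : ∀ i n, ya i n ∈ L) (hb : ∀ i n, yb i n ∈ L)
    (hla : ∀ i n, la i n ∈ L) (hlb : ∀ i n, lb i n ∈ L) :
    compS L j κ sa sb c0 z ya yb la lb ≤ L ^ 2 :=
  sup_le (sup_le (sup_le (iSup_le fun _ => span_mul_le_sq (ha _ _)) (edges_le _ hb))
    (iSup_le fun _ => sp_sq_le (hla _) j))
    (sup_le (sup_le (iSup_le fun _ => span_sq_le (h0 _ _)) (span_sq_le hz))
      (iSup_le fun _ => span_sq_le (hlb _ _)))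

lemma ext_compS {A P : Type} [CommRing A] [Algebra ℂ A] [AddCommGroup P] [Module ℂ P]
    (L : Submodule ℂ A) (j : ℕ) {ι0 Ga Gb Ta Tb : Type} (κ : ι0 → ℕ ⊕ ℕ) (sa : Ga → ℕ)
    (sb : Gb → ℕ) (c0 : ι0 → P →ₗ[ℂ] (ℕ → A)) (z : P →ₗ[ℂ] A) (ya : Ga → P →ₗ[ℂ] (ℕ → A))
    (yb : Gb → P →ₗ[ℂ] (ℕ → A)) (la : Ta → P →ₗ[ℂ] (ℕ → A)) (lb : Tb → P →ₗ[ℂ] (ℕ → A)) :
    Ext (fun c : P => compS L j κ sa sb (fun i => c0 i c) (z c) (fun i => ya i c)
      (fun i => yb i c) (fun i => la i c) (fun i => lb i c)) := by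
  have hp : ∀ (f : P →ₗ[ℂ] (ℕ → A)) (n : ℕ), PolyMap (fun c => f c n) := fun f n =>
    PolyMap.linear ((LinearMap.proj n : (ℕ → A) →ₗ[ℂ] A) ∘ₗ f)
  refine (((Ext.iSup fun i : (Σ g, Fin (sa g)) => (Ext.span (hp (ya i.1) i.2)).mul
    (Ext.const L)).sup ?_).sup (Ext.iSup fun t => ((ext_sp j).pow 2).comp_linear (la t))).sup
    (((Ext.iSup fun p : (Σ i, Fin (pts (κ i))) => (Ext.span (hp (c0 p.1) p.2)).pow 2).sup
      ((Ext.span (PolyMap.linear z)).pow 2)).sup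
      (Ext.iSup fun p : Tb × Fin j => (Ext.span (hp (lb p.1) p.2)).pow 2))
  exact Ext.iSup fun g => Ext.iSup fun a : Fin (sb g) => Ext.iSup fun g' =>
    Ext.iSup fun a' : Fin (sb g') => Ext.iSup fun _ =>
      Ext.span ((hp (yb g) a).mul (hp (yb g') a'))

lemma exists_compS {σ : Type} (s : Finset σ) (j : ℕ) {ι0 Ga Gb : Type} (Ta Tb : Type) [Fintype ι0]
    [Fintype Ga] [Fintype Gb] [Fintype Ta] [Fintype Tb] (κ : ι0 → ℕ ⊕ ℕ) (sa : Ga → ℕ)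
    (sb : Gb → ℕ)
    (h : CompCond s.card j (Finset.univ.val.map sa).sum (Finset.univ.val.map sb) (Fintype.card Ta)
      (((Finset.univ.val.map κ).map pts).sum + 1 + Fintype.card Tb * j)) :
    ∃ (c0 : ι0 → allIn (VX s)) (z : VX s) (ya : Ga → allIn (VX s)) (yb : Gb → allIn (VX s))
      (la : Ta → allIn (VX s)) (lb : Tb → allIn (VX s)),
      VX s ^ 2 ≤ compS (VX s) j κ sa sb (fun i => c0 i) z (fun i => ya i) (fun i => yb i)
        (fun i => la i) (fun i => lb i) := by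
  obtain ⟨y, z, l, q, hy, hz, hl, hq, hfill⟩ := comp3 s j (Σ g, Fin (sa g)) Gb Ta
    (((Σ i, Fin (pts (κ i))) ⊕ Unit) ⊕ Tb × Fin j) sb (by
      rw [card_sigma_fin, Fintype.card_sum, Fintype.card_sum, card_sigma_pts, Fintype.card_prod,
        Fintype.card_fin, Fintype.card_unit]
      exact h)
  refine ⟨fun i => ⟨fun a => if ha : a < pts (κ i) then q (Sum.inl (Sum.inl ⟨i, ⟨a, ha⟩⟩)) else 0,
      mem_allIn.mpr fun a => ?_⟩, ⟨q (Sum.inl (Sum.inr ())), hq _⟩,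
    fun g => ⟨fun a => if ha : a < sa g then y ⟨g, ⟨a, ha⟩⟩ else 0, mem_allIn.mpr fun a => ?_⟩,
    fun g => ⟨z g, mem_allIn.mpr (hz g)⟩, fun t => ⟨l t, mem_allIn.mpr (hl t)⟩,
    fun t => ⟨fun a => if ha : a < j then q (Sum.inr (t, ⟨a, ha⟩)) else 0,
      mem_allIn.mpr fun a => ?_⟩, hfill.trans (sup_le_sup (sup_le_sup_right
        (sup_le_sup_right (iSup_mono fun i => le_of_eq ?_) _) _) (iSup_le ?_))⟩
  · split_ifs
    · exact hq _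
    · exact Submodule.zero_mem _
  · split_ifs
    · exact hy _
    · exact Submodule.zero_mem _
  · split_ifs
    · exact hq _
    · exact Submodule.zero_mem _
  · simp only [dif_pos i.2.2]
  · rintro ((p | _) | p)
    · exact le_sup_of_le_left (le_sup_of_le_left (le_iSup_of_le p (by simp only [dif_pos p.2.2]; rfl)))
    · exact le_sup_of_le_left le_sup_right
    · exact le_sup_of_le_right (le_iSup_of_le p (by simp only [dif_pos p.2.2]; rfl))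

theorem step3 {σ : Type} [DecidableEq σ] (s : Finset σ) (x₁ x₂ : σ) (h₂ : x₂ ∉ s)
    (h₁ : x₁ ∉ insert x₂ s) (j : ℕ) (s0 : Multiset (ℕ ⊕ ℕ)) (g1 g2 : Multiset ℕ)
    (c1 : CompCond s.card j g1.sum g2 (g1.sum + 2) ((s0.map pts).sum + 1 + (g2.sum + 1) * j))
    (c2 : CompCond s.card j g2.sum g1 (g2.sum + 1) ((s0.map pts).sum + 1 + (g1.sum + 2) * j))
    (hF : Fill s 3 (s0 + replicate (3 + g1.sum + g2.sum) (Sum.inl j) + g1.map Sum.inr +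
      g2.map Sum.inr)) :
    Fill (insert x₁ (insert x₂ s)) 3
      (s0 + replicate (3 + g1.sum + g2.sum) (Sum.inl (j + 1))) := by
  obtain ⟨n0, κ, rfl⟩ := exists_family s0
  obtain ⟨n1, s1, rfl⟩ := exists_family g1
  obtain ⟨n2, s2, rfl⟩ := exists_family g2
  let T1 := (Σ g, Fin (s1 g)) ⊕ Bool
  let T2 := (Σ g, Fin (s2 g)) ⊕ Unit
  have hT1 : Fintype.card T1 = (Finset.univ.val.map s1).sum + 2 := by
    rw [Fintype.card_sum, card_sigma_fin, Fintype.card_bool]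
  have hT2 : Fintype.card T2 = (Finset.univ.val.map s2).sum + 1 := by
    rw [Fintype.card_sum, card_sigma_fin, Fintype.card_unit]
  have hT12 : Fintype.card (T1 ⊕ T2) =
      3 + (Finset.univ.val.map s1).sum + (Finset.univ.val.map s2).sum := by
    rw [Fintype.card_sum, hT1, hT2]
    ring
  let Q := allIn (VX s)
  let P := ((Fin n0 → Q) × VX s) × ((Fin n1 → Q) × (Fin n2 → Q)) × ((T1 → Q) × (T2 → Q))
  let L0 : Fin n0 → P →ₗ[ℂ] (ℕ → MvPolynomial σ ℂ) := fun i =>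
    Q.subtype ∘ₗ LinearMap.proj i ∘ₗ LinearMap.fst ℂ _ _ ∘ₗ LinearMap.fst ℂ _ _
  let Lz : P →ₗ[ℂ] MvPolynomial σ ℂ :=
    (VX s).subtype ∘ₗ LinearMap.snd ℂ _ _ ∘ₗ LinearMap.fst ℂ _ _
  let Y1 : Fin n1 → P →ₗ[ℂ] (ℕ → MvPolynomial σ ℂ) := fun i =>
    Q.subtype ∘ₗ LinearMap.proj i ∘ₗ LinearMap.fst ℂ _ _ ∘ₗ LinearMap.fst ℂ _ _ ∘ₗ
      LinearMap.snd ℂ _ _
  let Y2 : Fin n2 → P →ₗ[ℂ] (ℕ → MvPolynomial σ ℂ) := fun i =>
    Q.subtype ∘ₗ LinearMap.proj i ∘ₗ LinearMap.snd ℂ _ _ ∘ₗ LinearMap.fst ℂ _ _ ∘ₗ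
      LinearMap.snd ℂ _ _
  let L1 : T1 → P →ₗ[ℂ] (ℕ → MvPolynomial σ ℂ) := fun i =>
    Q.subtype ∘ₗ LinearMap.proj i ∘ₗ LinearMap.fst ℂ _ _ ∘ₗ LinearMap.snd ℂ _ _ ∘ₗ
      LinearMap.snd ℂ _ _
  let L2 : T2 → P →ₗ[ℂ] (ℕ → MvPolynomial σ ℂ) := fun i =>
    Q.subtype ∘ₗ LinearMap.proj i ∘ₗ LinearMap.snd ℂ _ _ ∘ₗ LinearMap.snd ℂ _ _ ∘ₗ
      LinearMap.snd ℂ _ _
  have h0 : ∀ (c : P) i n, L0 i c n ∈ VX s := fun c i => mem_allIn.mp (c.1.1 i).2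
  have hz : ∀ c : P, Lz c ∈ VX s := fun c => c.1.2.2
  have hy1 : ∀ (c : P) i n, Y1 i c n ∈ VX s := fun c i => mem_allIn.mp (c.2.1.1 i).2
  have hy2 : ∀ (c : P) i n, Y2 i c n ∈ VX s := fun c i => mem_allIn.mp (c.2.1.2 i).2
  have hl1 : ∀ (c : P) i n, L1 i c n ∈ VX s := fun c i => mem_allIn.mp (c.2.2.1 i).2
  have hl2 : ∀ (c : P) i n, L2 i c n ∈ VX s := fun c i => mem_allIn.mp (c.2.2.2 i).2
  have oT : Opn (fun c : P => VX s ^ 3 ≤ (((⨆ i, (msys (VX s) 3).Obj (κ i) (L0 i c)) ⊔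
      ((⨆ i, blk (VX s) 3 j (L1 i c)) ⊔ ⨆ i, blk (VX s) 3 j (L2 i c))) ⊔
      ⨆ g, jj 3 (s1 g) (Y1 g c)) ⊔ ⨆ g, jj 3 (s2 g) (Y2 g c)) := by
    refine Ext.opn_fill ((((Ext.iSup fun i => (ext_msys _ _ _).comp_linear (L0 i)).sup
      ((Ext.iSup fun i => (ext_blk _ _ _).comp_linear (L1 i)).sup
      (Ext.iSup fun i => (ext_blk _ _ _).comp_linear (L2 i)))).sup
      (Ext.iSup fun i => (ext_jj _ _).comp_linear (Y1 i))).sup
      (Ext.iSup fun i => (ext_jj _ _).comp_linear (Y2 i))) _ fun c => ?_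
    exact sup_le (sup_le (sup_le (iSup_le fun i => msys_le (by norm_num) le_rfl _ (h0 c i))
      (sup_le (iSup_le fun i => blk_le (by norm_num) (fun a _ => hl1 c i a) le_rfl)
        (iSup_le fun i => blk_le (by norm_num) (fun a _ => hl2 c i a) le_rfl)))
      (iSup_le fun i => jj_le (by norm_num) fun a _ => hy1 c i a))
      (iSup_le fun i => jj_le (by norm_num) fun a _ => hy2 c i a)
  have o1 := (ext_compS (VX s) j κ s1 s2 L0 Lz Y1 Y2 L1 L2).opn_fill (VX s ^ 2) fun c =>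
    compS_le j κ s1 s2 (h0 c) (hz c) (hy1 c) (hy2 c) (hl1 c) (hl2 c)
  have o2 := (ext_compS (VX s) j κ s2 s1 L0 Lz Y2 Y1 L2 L1).opn_fill (VX s ^ 2) fun c =>
    compS_le j κ s2 s1 (h0 c) (hz c) (hy2 c) (hy1 c) (hl2 c) (hl1 c)
  have eT : ∃ c : P, VX s ^ 3 ≤ (((⨆ i, (msys (VX s) 3).Obj (κ i) (L0 i c)) ⊔
      ((⨆ i, blk (VX s) 3 j (L1 i c)) ⊔ ⨆ i, blk (VX s) 3 j (L2 i c))) ⊔
      ⨆ g, jj 3 (s1 g) (Y1 g c)) ⊔ ⨆ g, jj 3 (s2 g) (Y2 g c) := by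
    obtain ⟨U, hU, hfill⟩ := hF
    obtain ⟨c, hc, rfl⟩ := (reach_family _ (Sum.elim (Sum.elim (Sum.elim κ
      (fun _ : T1 ⊕ T2 => Sum.inl j)) (fun g => Sum.inr (s1 g))) (fun g => Sum.inr (s2 g))) (by
        rw [univ_val_map_sum, univ_val_map_sum, univ_val_map_sum, univ_val_map_const, hT12,
          Multiset.map_map, Multiset.map_map]
        rfl) U).mp hU
    refine ⟨((fun i => ⟨c (Sum.inl (Sum.inl (Sum.inl i))), hc _⟩, 0),
      (fun i => ⟨c (Sum.inl (Sum.inr i)), hc _⟩, fun i => ⟨c (Sum.inr i), hc _⟩),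
      (fun i => ⟨c (Sum.inl (Sum.inl (Sum.inr (Sum.inl i)))), hc _⟩,
        fun i => ⟨c (Sum.inl (Sum.inl (Sum.inr (Sum.inr i)))), hc _⟩)),
      hfill.trans (iSup_le ?_)⟩
    rintro (((i | i | i) | i) | i)
    · exact le_sup_of_le_left (le_sup_of_le_left (le_sup_of_le_left (le_iSup_of_le i le_rfl)))
    · exact le_sup_of_le_left (le_sup_of_le_left (le_sup_of_le_right
        (le_sup_of_le_left (le_iSup_of_le i le_rfl))))
    · exact le_sup_of_le_left (le_sup_of_le_left (le_sup_of_le_right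
        (le_sup_of_le_right (le_iSup_of_le i le_rfl))))
    · exact le_sup_of_le_left (le_sup_of_le_right (le_iSup_of_le i le_rfl))
    · exact le_sup_of_le_right (le_iSup_of_le i le_rfl)
  have e1 : ∃ c : P, VX s ^ 2 ≤ compS (VX s) j κ s1 s2 (fun i => L0 i c) (Lz c) (fun i => Y1 i c)
      (fun i => Y2 i c) (fun i => L1 i c) (fun i => L2 i c) := by
    obtain ⟨c0, z, ya, yb, la, lb, h⟩ := exists_compS s j T1 T2 κ s1 s2 (by
      rw [hT1, hT2]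
      exact c1)
    exact ⟨((c0, z), (ya, yb), (la, lb)), h⟩
  have e2 : ∃ c : P, VX s ^ 2 ≤ compS (VX s) j κ s2 s1 (fun i => L0 i c) (Lz c) (fun i => Y2 i c)
      (fun i => Y1 i c) (fun i => L2 i c) (fun i => L1 i c) := by
    obtain ⟨c0, z, ya, yb, la, lb, h⟩ := exists_compS s j T2 T1 κ s2 s1 (by
      rw [hT1, hT2]
      exact c2)
    exact ⟨((c0, z), (yb, ya), (lb, la)), h⟩
  obtain ⟨c, ⟨hT, hc1⟩, hc2⟩ := (oT.and o1).exists_and o2 (oT.exists_and o1 eT e1) e2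
  have hV : VX (insert x₁ (insert x₂ s)) =
      VX s ⊔ ((ℂ ∙ (X x₁ : MvPolynomial σ ℂ)) ⊔ ℂ ∙ (X x₂ : MvPolynomial σ ℂ)) := by
    rw [VX_insert, VX_insert, sup_assoc, sup_comm (ℂ ∙ (X x₂ : MvPolynomial σ ℂ))]
  have hLV : VX s ≤ VX (insert x₁ (insert x₂ s)) := hV ▸ le_sup_left
  have hμ : ∀ n : ℕ, Function.Injective fun g : Fin n => ((g : ℕ) : ℂ) := fun n g g' h =>
    Fin.ext (Nat.cast_injective (R := ℂ) h)
  obtain ⟨p1, p2, hp1, hp2, hfill⟩ := step3_core (VX s) (X x₁) (X x₂) _ hV j κ s1 s2 (hμ n1)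
    (hμ n2) _ _ _ _ _ _ (h0 c) (hz c) (hy1 c) (hy2 c) (hl1 c) (hl2 c) hT hc1 hc2
  have hup : ∀ {l : ℕ → MvPolynomial σ ℂ} {p : MvPolynomial σ ℂ}, (∀ n, l n ∈ VX s) →
      p ∈ VX (insert x₁ (insert x₂ s)) →
      Function.update l j p ∈ allIn (VX (insert x₁ (insert x₂ s))) := by
    intro l p hl hp
    refine mem_allIn.mpr fun n => ?_
    by_cases hn : n = j
    · rw [hn, Function.update_self]
      exact hp
    · rw [Function.update_of_ne hn]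
      exact hLV (hl n)
  refine ⟨_, (reach_family _ (Sum.elim κ (fun _ : T1 ⊕ T2 => Sum.inl (j + 1))) ?_ _).mpr
    ⟨Sum.elim (fun i => L0 i c) (Sum.elim (fun i => Function.update (L1 i c) j (p1 i))
      (fun i => Function.update (L2 i c) j (p2 i))), ?_, rfl⟩, hfill.trans ?_⟩
  · rw [univ_val_map_sum, univ_val_map_const, hT12]
  · rintro (i | i | i)
    · exact mem_allIn.mpr fun n => hLV (h0 c i n)
    · exact hup (hl1 c i) (hp1 i)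
    · exact hup (hl2 c i) (hp2 i)
  · exact sup_le (iSup_le fun i => le_iSup_of_le (Sum.inl i) le_rfl)
      (sup_le (iSup_le fun i => le_iSup_of_le (Sum.inr (Sum.inl i)) le_rfl)
        (iSup_le fun i => le_iSup_of_le (Sum.inr (Sum.inr i)) le_rfl))

end Pool.Agent.P.MP_c64be1_ag.Asy
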