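import Pool.Agent.P.MP_c64be1_ag.Asy.Deriv

/-! Scaling, Taylor expansion and initial terms along a distinguished variable. -/

namespace Pool.Agent.P.MP_c64be1_ag.Asy

open MvPolynomial Module

lemma lim_of_scale {A : Type} [CommRing A] [Algebra ℂ A] (θ : ℂ → A →ₐ[ℂ] A)
    {O : Submodule ℂ A} {M : ℂ → Submodule ℂ A} (hM : ∀ t, O.map (θ t).toLinearMap ≤ M t)
    {a b e : A} {n p q : ℕ} (ha : ∀ t, θ t a = t ^ n • a) (hb : ∀ t, θ t b = t ^ (n + 1 + p) • b)
    (he : ∀ t, θ t e = t ^ (n + 1 + q) • e) (h : a + b + e ∈ O) : a ∈ Lim M := by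
  have hF : (fun t : ℂ => a + t ^ (1 + p) • b + t ^ (1 + q) • e) ∈ Crv A :=
    crv_add (crv_add (crv_const a) (crv_tpow_smul (crv_const b) _)) (crv_tpow_smul (crv_const e) _)
  have := mem_lim hF (M := M) fun t ht => by
    have h1 : θ t (a + b + e) ∈ M t := hM t ⟨_, h, rfl⟩
    rw [map_add, map_add, ha, hb, he, add_assoc n, add_assoc n, pow_add t n, pow_add t n,
      mul_smul, mul_smul, ← smul_add, ← smul_add] at h1
    exact ((M t).smul_mem_iff (pow_ne_zero n ht)).mp h1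
  simpa [add_comm 1] using this

lemma jj_one {A : Type} [CommRing A] [Algebra ℂ A] (k : ℕ) (c : ℕ → A) :
    jj k 1 c = (ℂ ∙ c 0) ^ k := by
  simp [jj, span_pow_eq]

variable {σ : Type} [DecidableEq σ] {s : Finset σ} {x : σ}

/-- The substitution multiplying `x` by `u` and the other variables by `t`. -/
noncomputable def scl (x : σ) (u t : ℂ) : MvPolynomial σ ℂ →ₐ[ℂ] MvPolynomial σ ℂ :=
  aeval fun i => if i = x then u • X x else t • X i

lemma scl_X (x : σ) (u t : ℂ) : scl x u t (X x) = u • X x := by simp [scl]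

lemma scl_apply (hx : x ∉ s) (u t : ℂ) {v : MvPolynomial σ ℂ} (hv : v ∈ VX s) :
    scl x u t v = t • v := by
  induction hv using Submodule.span_induction with
  | mem w hw =>
    obtain ⟨i, hi, rfl⟩ := hw
    have : i ≠ x := fun h => hx (h ▸ hi)
    simp [scl, this]
  | zero => simp
  | add a b _ _ ha hb => rw [map_add, ha, hb, smul_add]
  | smul r a _ ha => rw [map_smul, ha, smul_comm]

lemma scl_pow (hx : x ∉ s) (u t : ℂ) {k : ℕ} {w : MvPolynomial σ ℂ} (hw : w ∈ VX s ^ k) :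
    scl x u t w = t ^ k • w :=
  map_pow_scale (AlgHom.id ℂ _) (scl x u t) (VX s) t (fun _ hv => scl_apply hx u t hv) k hw

lemma X_mem_insert (s : Finset σ) (x : σ) : (X x : MvPolynomial σ ℂ) ∈ VX (insert x s) :=
  X_mem_VX (Finset.mem_insert_self x s)

lemma VX_le_insert (s : Finset σ) (x : σ) : VX s ≤ VX (insert x s) :=
  VX_mono (Finset.subset_insert x s)

lemma map_scl_le (hx : x ∉ s) (u t : ℂ) :
    (VX (insert x s)).map (scl x u t).toLinearMap ≤ VX (insert x s) := by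
  rintro _ ⟨v, hv, rfl⟩
  rw [VX_insert] at hv
  obtain ⟨y, hy, _, hz, rfl⟩ := Submodule.mem_sup.mp hv
  obtain ⟨a, rfl⟩ := Submodule.mem_span_singleton.mp hz
  change scl x u t _ ∈ _
  rw [map_add, map_smul, scl_X, scl_apply hx u t hy]
  exact add_mem (Submodule.smul_mem _ _ (VX_le_insert s x hy))
    (Submodule.smul_mem _ _ (Submodule.smul_mem _ _ (X_mem_insert s x)))

lemma le_map_kill (hx : x ∉ s) : VX s ≤ (VX (insert x s)).map (scl x 0 1).toLinearMap :=
  fun v hv => ⟨v, VX_le_insert s x hv, by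
    change scl x 0 1 v = v
    rw [scl_apply hx 0 1 hv, one_smul]⟩

lemma pow_succ_split (s : Finset σ) (x : σ) (m : ℕ) :
    VX (insert x s) ^ (m + 1) ≤ VX s ^ (m + 1) ⊔ (ℂ ∙ X x) * VX (insert x s) ^ m := by
  rw [VX_insert]
  exact sup_pow_succ_le _ _ m

lemma exists_of_mem_span_mul {A : Type} [CommRing A] [Algebra ℂ A] {a w : A} {W : Submodule ℂ A}
    (h : w ∈ (ℂ ∙ a) * W) : ∃ g ∈ W, w = a * g := by
  have : (ℂ ∙ a) * W ≤ W.map (LinearMap.mulLeft ℂ a) :=
    span_mul_le_iff.mpr fun v hv => ⟨v, hv, rfl⟩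
  obtain ⟨g, hg, rfl⟩ := this h
  exact ⟨g, hg, rfl⟩

lemma taylor_one (hx : x ∉ s) {m : ℕ} {o : MvPolynomial σ ℂ} (ho : o ∈ VX (insert x s) ^ (m + 1)) :
    ∃ g ∈ VX (insert x s) ^ m, o = scl x 0 1 o + X x * g ∧ scl x 0 1 o ∈ VX s ^ (m + 1) ∧
      scl x 0 1 (pderiv x o) = scl x 0 1 g := by
  obtain ⟨h, hh, w, hw, rfl⟩ := Submodule.mem_sup.mp (pow_succ_split s x m ho)
  obtain ⟨g, hg, rfl⟩ := exists_of_mem_span_mul hw
  have h1 : scl x 0 1 (h + X x * g) = h := by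
    rw [map_add, map_mul, scl_X, scl_pow hx 0 1 hh]
    simp
  refine ⟨g, hg, by rw [h1], by rw [h1]; exact hh, ?_⟩
  rw [map_add, pderiv_eq_zero_of_mem_pow hx hh, Derivation.leibniz, pderiv_X_self]
  simp [scl_X]

lemma taylor_two (hx : x ∉ s) {m : ℕ} {o : MvPolynomial σ ℂ} (ho : o ∈ VX (insert x s) ^ (m + 2))
    {C : Submodule ℂ (MvPolynomial σ ℂ)} (hC : (ℂ ∙ X x) ^ 2 * VX (insert x s) ^ m ≤ C)
    (hoC : o ∈ C) : scl x 0 1 o + X x * scl x 0 1 (pderiv x o) ∈ C := by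
  obtain ⟨g, hg, h1, -, h2⟩ := taylor_one hx ho
  obtain ⟨g', hg', h3, -, -⟩ := taylor_one hx hg
  have h4 : scl x 0 1 o + X x * scl x 0 1 (pderiv x o) = o - X x ^ 2 * g' := by
    rw [h2]
    linear_combination -h1 - X x * h3
  rw [h4]
  exact sub_mem hoC (hC (pow_mul_mem 2 hg'))

lemma sup_pow_le_map_pderiv {L : Submodule ℂ (MvPolynomial σ ℂ)} (hL : L ≤ VX (insert x s))
    {p : MvPolynomial σ ℂ} (hp : p ∈ L) (hne : coeff (Finsupp.single x 1) p ≠ 0) (m : ℕ) :
    L ^ m ≤ (L ^ (m + 1)).map (pderiv x).toLinearMap := by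
  refine polar L m _ fun q hq => ?_
  by_cases h0 : coeff (Finsupp.single x 1) q = 0
  · refine (Submodule.smul_mem_iff _ hne).mp ⟨q ^ m * p, ?_, ?_⟩
    · rw [pow_succ]
      exact Submodule.mul_mem_mul (Submodule.pow_mem_pow _ hq m) hp
    · change pderiv x (q ^ m * p) = _
      rw [Derivation.leibniz, Derivation.leibniz_pow, pderiv_VX x (hL hq), pderiv_VX x (hL hp), h0]
      simp [smul_eq_C_mul, mul_comm]
  · refine (Submodule.smul_mem_iff _ (mul_ne_zero (Nat.cast_ne_zero.mpr (Nat.succ_ne_zero m))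
      h0)).mp ⟨q ^ (m + 1), Submodule.pow_mem_pow _ hq _, ?_⟩
    change pderiv x (q ^ (m + 1)) = _
    rw [Derivation.leibniz_pow, pderiv_VX x (hL hq)]
    simp only [smul_eq_C_mul, smul_eq_mul, nsmul_eq_mul, map_mul, map_natCast,
      Nat.add_sub_cancel]
    ring

lemma res_le_map_pderiv (hx : x ∉ s) {m j : ℕ} {c : ℕ → MvPolynomial σ ℂ}
    (hc : ∀ i < j + 1, c i ∈ VX (insert x s)) (hne : coeff (Finsupp.single x 1) (c j) ≠ 0) :
    res (VX (insert x s)) (m + 1) j c ≤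
      (blk (VX (insert x s)) (m + 2) (j + 1) c).map (pderiv x).toLinearMap := by
  refine sup_le ?_ ?_
  · exact (sup_pow_le_map_pderiv (sp_le_iff.mpr hc) (mem_sp c (Nat.lt_succ_self j)) hne _).trans
      (Submodule.map_mono (sp_pow_le_blk _ _ _ _))
  · refine (double_le_map_pderiv (hc j (Nat.lt_succ_self j)) hx hne m).trans
      (Submodule.map_mono (le_sup_of_le_right ?_))
    exact le_iSup_of_le (f := fun i : Fin (j + 1) => (ℂ ∙ c i) ^ (m + 2 - 1) * VX (insert x s))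
      (Fin.last j) le_rfl

/-- The linear algebra of the hyperplane step. -/
theorem step4_core (hx : x ∉ s) {m : ℕ} (O O' E T R : Submodule ℂ (MvPolynomial σ ℂ))
    (M : ℂ → Submodule ℂ (MvPolynomial σ ℂ))
    (hM : ∀ t, O.map (scl x 1 t).toLinearMap ≤ M t)
    (hO : O ≤ VX (insert x s) ^ (m + 2)) (hO' : O' ≤ O.map (pderiv x).toLinearMap)
    (hR : R ≤ VX s ^ (m + 1)) (hres : VX (insert x s) ^ (m + 1) ≤ O' ⊔ R)
    (hE : ∀ t, E ≤ M t) (hT : VX s ^ (m + 2) ≤ T)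
    (hTC : ∀ C : Submodule ℂ (MvPolynomial σ ℂ), E ≤ C → O ⊓ VX s ^ (m + 2) ≤ C →
      (ℂ ∙ X x) ^ 2 * VX (insert x s) ^ m ≤ C → T ≤ C)
    (hRC : ∀ C : Submodule ℂ (MvPolynomial σ ℂ), E ≤ C → VX s ^ (m + 2) ≤ C →
      (ℂ ∙ X x) ^ 2 * VX (insert x s) ^ m ≤ C → (ℂ ∙ X x) * R ≤ C) :
    VX (insert x s) ^ (m + 2) ≤ Lim M := by
  have hxV := X_mem_insert s x
  have hpow : ∀ n, VX s ^ n ≤ VX (insert x s) ^ n := fun n => pow_le_pow_left' (VX_le_insert s x) n
  have hθ : ∀ (t : ℂ) (n i : ℕ) (a : MvPolynomial σ ℂ), a ∈ VX s ^ n →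
      scl x 1 t (X x ^ i * a) = t ^ n • (X x ^ i * a) := by
    intro t n i a ha
    rw [map_mul, map_pow, scl_X, scl_pow hx 1 t ha, one_smul, mul_smul_comm]
  have hint : ∀ o ∈ VX (insert x s) ^ (m + 2), ∀ h ∈ VX s ^ (m + 1), pderiv x o = h →
      o - X x * h ∈ VX s ^ (m + 2) := by
    intro o ho h hh he
    refine mem_pow_of_pderiv_eq_zero (x := x) (sub_mem ho ?_) ?_
    · rw [pow_succ' _ (m + 1)]
      exact Submodule.mul_mem_mul hxV (hpow _ hh)
    · rw [map_sub, he, Derivation.leibniz, pderiv_eq_zero_of_mem_pow hx hh, pderiv_X_self]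
      simp
  have h2 : ∀ n i, i + 2 + n = m + 2 → ∀ a ∈ VX s ^ n, X x ^ (i + 2) * a ∈ Lim M := by
    intro n i hi a ha
    have hw : X x ^ (i + 2) * a ∈ VX (insert x s) ^ (m + 2) := by
      rw [← hi, pow_add _ (i + 2) n]
      exact Submodule.mul_mem_mul (Submodule.pow_mem_pow _ hxV _) (hpow _ ha)
    obtain ⟨o', ho', h, hh, he⟩ := Submodule.mem_sup.mp (hres (pderiv_mem_pow x hw))
    obtain ⟨o, ho, rfl⟩ := hO' ho'
    have h3 := hint _ (sub_mem hw (hO ho)) h (hR hh) (by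
      rw [map_sub, ← he]
      exact add_sub_cancel_left _ _)
    refine lim_of_scale (scl x 1) hM (n := n) (p := i) (q := i + 1) (b := -(X x ^ 1 * h))
      (e := -(X x ^ 0 * (X x ^ (i + 2) * a - o - X x * h))) (fun t => hθ t n _ a ha)
      (fun t => ?_) (fun t => ?_) ?_
    · rw [map_neg, hθ t (m + 1) 1 h (hR hh), smul_neg, show n + 1 + i = m + 1 by omega]
    · rw [map_neg, hθ t (m + 2) 0 _ h3, smul_neg, show n + 1 + (i + 1) = m + 2 by omega]
    · have h5 : X x ^ (i + 2) * a + -(X x ^ 1 * h) +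
          -(X x ^ 0 * (X x ^ (i + 2) * a - o - X x * h)) = o := by ring
      rw [h5]
      exact ho
  have h3 : ∀ n i, i + 2 + n = m + 2 → (ℂ ∙ X x) ^ (i + 2) * VX (insert x s) ^ n ≤ Lim M := by
    intro n
    induction n with
    | zero =>
      intro i hi
      rw [span_pow_eq]
      exact span_mul_le_iff.mpr fun v hv => h2 0 i hi v (by simpa using hv)
    | succ n ih =>
      intro i hi
      refine (mul_le_mul_right (pow_succ_split s x n) _).trans ?_
      rw [Submodule.mul_sup, ← mul_assoc, ← pow_succ]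
      refine sup_le ?_ (ih (i + 1) (by omega))
      rw [span_pow_eq]
      exact span_mul_le_iff.mpr fun v hv => h2 _ i hi v hv
  have hF2 : (ℂ ∙ X x) ^ 2 * VX (insert x s) ^ m ≤ Lim M := h3 m 0 (by omega)
  have hEC : E ≤ Lim M := le_lim fun t _ => hE t
  have hF0 : VX s ^ (m + 2) ≤ Lim M := by
    refine hT.trans (hTC _ hEC (fun o ho => ?_) hF2)
    refine lim_of_scale (scl x 1) hM (n := m + 2) (p := 0) (q := 0) (b := 0) (e := 0)
      (fun t => scl_pow hx 1 t ho.2) (fun t => by simp) (fun t => by simp) (by simpa using ho.1)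
  have hF1 : (ℂ ∙ X x) * VX s ^ (m + 1) ≤ Lim M := by
    refine span_mul_le_iff.mpr fun h hh => ?_
    obtain ⟨o', ho', β, hβ, rfl⟩ := Submodule.mem_sup.mp (hres (hpow _ hh))
    have ho2 : o' ∈ VX s ^ (m + 1) := by simpa using sub_mem hh (hR hβ)
    obtain ⟨o, ho, he⟩ := hO' ho'
    have h4 := hint o (hO ho) o' ho2 he
    rw [mul_add]
    refine add_mem ?_ (span_mul_le_iff.mp (hRC _ hEC hF0 hF2) β hβ)
    refine lim_of_scale (scl x 1) hM (n := m + 1) (p := 0) (q := 0) (b := o - X x * o') (e := 0)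
      (fun t => by simpa using hθ t (m + 1) 1 o' ho2) (fun t => scl_pow hx 1 t h4)
      (fun t => by simp) (by simpa using ho)
  refine (pow_succ_split s x (m + 1)).trans (sup_le hF0 ?_)
  refine (mul_le_mul_right (pow_succ_split s x m) _).trans ?_
  rw [Submodule.mul_sup, ← mul_assoc, ← pow_two]
  exact sup_le hF1 hF2

/-- A moving point leaves a simple point in the hyperplane. -/
lemma pure_mem (hx : x ∉ s) {m : ℕ} {y : MvPolynomial σ ℂ} (hy : y ∈ VX s)
    {C : Submodule ℂ (MvPolynomial σ ℂ)} (hC : (ℂ ∙ X x) ^ 2 * VX (insert x s) ^ m ≤ C)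
    (h : ∀ v ∈ VX (insert x s), (y + X x) ^ (m + 1) * v ∈ C) : y ^ (m + 2) ∈ C := by
  have hyV := VX_le_insert s x hy
  have hxV := X_mem_insert s x
  have hmem : ∀ v ∈ VX (insert x s), (y + X x) ^ (m + 1) * v ∈ VX (insert x s) ^ (m + 2) :=
    fun v hv => by
      rw [pow_succ _ (m + 1)]
      exact Submodule.mul_mem_mul (Submodule.pow_mem_pow _ (add_mem hyV hxV) _) hv
  have h1 := taylor_two hx (hmem y hyV) hC (h y hyV)
  have h2 := taylor_two hx (hmem _ hxV) hC (h _ hxV)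
  have hd : pderiv x y = 0 := pderiv_eq_zero_of_mem hx hy
  have hk : scl x 0 1 y = y := by rw [scl_apply hx 0 1 hy, one_smul]
  simp only [Derivation.leibniz, Derivation.leibniz_pow, map_add, hd, pderiv_X_self, smul_eq_mul,
    map_mul, map_pow, hk, scl_X, zero_smul, add_zero, zero_add, mul_zero, mul_one, nsmul_eq_mul,
    map_natCast, Nat.add_sub_cancel, zero_mul] at h1 h2
  have h3 := sub_mem h1 (C.smul_mem ((m + 1 : ℕ) : ℂ) h2)
  convert h3 using 1
  simp only [smul_eq_C_mul, map_natCast]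
  ring

end Pool.Agent.P.MP_c64be1_ag.Asy
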