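import Pool.Agent.P.MP_c64be1_ag.Asy.ResFill
import Pool.Agent.P.MP_c64be1_ag.Asy.Step4Aux
import Pool.Agent.P.MP_c64be1_ag.Asy.Fam

/-! The hyperplane step in degree at least four. -/

namespace Pool.Agent.P.MP_c64be1_ag.Asy

open MvPolynomial Module Multiset

theorem step4_of_config {σ : Type} [DecidableEq σ] (s : Finset σ) (x : σ) (hx : x ∉ s) {m j : ℕ}
    {ι0 ιO ιB : Type} [Fintype ι0] [Fintype ιO] [Fintype ιB] (κ : ι0 → ℕ ⊕ ℕ)
    (c0 : ι0 → ℕ → MvPolynomial σ ℂ) (cO : ιO → ℕ → MvPolynomial σ ℂ)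
    (cB : ιB → ℕ → MvPolynomial σ ℂ) (h0 : ∀ i, c0 i ∈ allIn (VX s))
    (hO : ∀ i, cO i ∈ oneOut (VX (insert x s)) (VX s) j) (hB : ∀ i, cB i ∈ allIn (VX s))
    (hne : ∀ i, coeff (Finsupp.single x 1) (cO i j) ≠ 0)
    (hT : VX s ^ (m + 2) ≤ (((⨆ i, (msys (VX s) (m + 2)).Obj (κ i) (c0 i)) ⊔
      ⨆ i, blk (VX s) (m + 2) j (cO i)) ⊔ ⨆ i, blk (VX s) (m + 2) j (cB i)) ⊔
      ⨆ i, (ℂ ∙ cB i j) ^ (m + 2))
    (hR : VX (insert x s) ^ (m + 1) ≤ ((⨆ i, res (VX (insert x s)) (m + 1) j (cO i)) ⊔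
      ⨆ i, res (VX s) (m + 1) j (cB i)) ⊔
      ⨆ p : (Σ i : ι0, Fin (pts (κ i))), (ℂ ∙ c0 p.1 p.2) ^ (m + 1)) :
    Fill (insert x s) (m + 2) (Finset.univ.val.map κ +
      replicate (Fintype.card ιO + Fintype.card ιB) (Sum.inl (j + 1))) := by
  have hHV := VX_le_insert s x
  have hxV := X_mem_insert s x
  have hOV : ∀ i a, cO i a ∈ VX (insert x s) := fun i a => by
    by_cases ha : a = j
    · exact ha ▸ (mem_oneOut.mp (hO i)).1
    · exact hHV ((mem_oneOut.mp (hO i)).2 a ha)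
  let cB' : ιB → ℕ → MvPolynomial σ ℂ := fun i => Function.update (cB i) j (cB i j + X x)
  have hBj : ∀ i, cB' i j = cB i j + X x := fun i => Function.update_self _ _ _
  have hBlt : ∀ i, ∀ a, a ≠ j → cB' i a = cB i a := fun i a ha => Function.update_of_ne ha _ _
  have hBV : ∀ i a, cB' i a ∈ VX (insert x s) := fun i a => by
    by_cases ha : a = j
    · rw [ha, hBj]
      exact add_mem (hHV (mem_allIn.mp (hB i) j)) hxV
    · rw [hBlt i a ha]
      exact hHV (mem_allIn.mp (hB i) a)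
  let E : Submodule ℂ (MvPolynomial σ ℂ) :=
    (⨆ i, (msys (VX (insert x s)) (m + 2)).Obj (κ i) (c0 i)) ⊔
      ⨆ i, blk (VX (insert x s)) (m + 2) (j + 1) (cB' i)
  let O : Submodule ℂ (MvPolynomial σ ℂ) := ⨆ i, blk (VX (insert x s)) (m + 2) (j + 1) (cO i)
  let M : ℂ → Submodule ℂ (MvPolynomial σ ℂ) := fun t =>
    E ⊔ ⨆ i, blk (VX (insert x s)) (m + 2) (j + 1) (fun a => scl x 1 t (cO i a))
  have hθV : ∀ t i a, scl x 1 t (cO i a) ∈ VX (insert x s) := fun t i a =>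
    map_scl_le hx 1 t ⟨_, hOV i a, rfl⟩
  have hreach : ∀ t, Reach (msys (VX (insert x s)) (m + 2)) (Finset.univ.val.map κ +
      replicate (Fintype.card ιO + Fintype.card ιB) (Sum.inl (j + 1))) (M t) := by
    intro t
    refine (reach_family _ (Sum.elim κ (fun _ : ιO ⊕ ιB => Sum.inl (j + 1))) ?_ _).mpr
      ⟨Sum.elim c0 (Sum.elim (fun i a => scl x 1 t (cO i a)) cB'), ?_, ?_⟩
    · rw [univ_val_map_sum, univ_val_map_const, Fintype.card_sum]
    · rintro (i | i | i)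
      · exact mem_allIn.mpr fun a => hHV (mem_allIn.mp (h0 i) a)
      · exact mem_allIn.mpr (hθV t i)
      · exact mem_allIn.mpr (hBV i)
    · rw [iSup_sum, iSup_sum]
      change _ = (⨆ i, (msys (VX (insert x s)) (m + 2)).Obj (κ i) (c0 i)) ⊔
        ((⨆ i, blk (VX (insert x s)) (m + 2) (j + 1) (fun a => scl x 1 t (cO i a))) ⊔
        ⨆ i, blk (VX (insert x s)) (m + 2) (j + 1) (cB' i))
      simp only [M, E]
      ac_rfl
  have hEB : ∀ i, blk (VX (insert x s)) (m + 2) (j + 1) (cB' i) ≤ E := fun i =>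
    le_sup_of_le_right (le_iSup (fun i => blk (VX (insert x s)) (m + 2) (j + 1) (cB' i)) i)
  have hE0 : ∀ i, (msys (VX (insert x s)) (m + 2)).Obj (κ i) (c0 i) ≤ E := fun i =>
    le_sup_of_le_left (le_iSup (fun i => (msys (VX (insert x s)) (m + 2)).Obj (κ i) (c0 i)) i)
  have hlim : VX (insert x s) ^ (m + 2) ≤ Lim M := by
    refine step4_core hx O (⨆ i, res (VX (insert x s)) (m + 1) j (cO i)) E _
      ((⨆ i, res (VX s) (m + 1) j (cB i)) ⊔
        ⨆ p : (Σ i : ι0, Fin (pts (κ i))), (ℂ ∙ c0 p.1 p.2) ^ (m + 1)) M ?_ ?_ ?_ ?_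
      (by rwa [sup_assoc] at hR) (fun t => le_sup_left) hT ?_ ?_
    · intro t
      simp only [O, Submodule.map_iSup, map_blk]
      exact le_sup_of_le_right (iSup_mono fun i => blk_mono (map_scl_le hx 1 t) _ _ _)
    · exact iSup_le fun i => blk_le (by omega) (fun a _ => hOV i a) le_rfl
    · simp only [O, Submodule.map_iSup]
      exact iSup_mono fun i => res_le_map_pderiv hx (fun a _ => hOV i a) (hne i)
    · exact sup_le (iSup_le fun i => res_le (by omega) (fun a _ => mem_allIn.mp (hB i) a) le_rfl)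
        (iSup_le fun p => span_pow_le_iff.mpr
          (Submodule.pow_mem_pow _ (mem_allIn.mp (h0 p.1) _) _))
    · intro C hE hOC hF2
      refine sup_le (sup_le (sup_le (iSup_le fun i => ?_) (iSup_le fun i => ?_))
        (iSup_le fun i => ?_)) (iSup_le fun i => ?_)
      · exact (msys_mono hHV _ _ _).trans ((hE0 i).trans hE)
      · refine le_trans (le_inf ?_ ?_) hOC
        · exact ((blk_mono hHV _ _ _).trans (blk_le_succ _ _ _ _)).trans
            (le_iSup (fun i => blk (VX (insert x s)) (m + 2) (j + 1) (cO i)) i)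
        · exact blk_le (by omega) (fun a ha => (mem_oneOut.mp (hO i)).2 a ha.ne) le_rfl
      · rw [← blk_congr _ _ (fun a ha => hBlt i a ha.ne)]
        exact ((blk_mono hHV _ _ _).trans (blk_le_succ _ _ _ _)).trans ((hEB i).trans hE)
      · refine span_pow_le_iff.mpr (pure_mem hx (mem_allIn.mp (hB i) j) hF2 fun v hv => ?_)
        rw [← hBj]
        exact hE (hEB i (pow_mul_mem_blk (m + 2) (cB' i) (Nat.lt_succ_self j) hv))
    · intro C hE hF0 hF2
      rw [Submodule.mul_sup, Submodule.mul_iSup, Submodule.mul_iSup]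
      refine sup_le (iSup_le fun i => span_mul_le_iff.mpr fun w hw => ?_)
        (iSup_le fun p => ?_)
      · have h1 : res (VX s) (m + 1) j (cB i) ≤
            (res (VX (insert x s)) (m + 1) j (cB' i)).map (scl x 0 1).toLinearMap := by
          rw [map_res]
          have h2 : (fun a => scl x 0 1 (cB' i a)) = cB i := by
            funext a
            by_cases ha : a = j
            · rw [ha, hBj, _root_.map_add, scl_X, scl_apply hx 0 1 (mem_allIn.mp (hB i) j)]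
              simp
            · rw [hBlt i a ha, scl_apply hx 0 1 (mem_allIn.mp (hB i) a), one_smul]
          rw [h2]
          exact res_mono (le_map_kill hx) _ _ _
        obtain ⟨w', hw', rfl⟩ := h1 hw
        have hne' : coeff (Finsupp.single x 1) (cB' i j) ≠ 0 := by
          have h3 := pderiv_VX x (mem_allIn.mp (hB i) j)
          rw [pderiv_eq_zero_of_mem hx (mem_allIn.mp (hB i) j)] at h3
          rw [hBj, coeff_add, C_eq_zero.mp h3.symm]
          simp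
        obtain ⟨o, ho, rfl⟩ := res_le_map_pderiv hx (fun a _ => hBV i a) hne' hw'
        have hoV : o ∈ VX (insert x s) ^ (m + 2) :=
          blk_le (by omega) (fun a _ => hBV i a) le_rfl ho
        have h4 := taylor_two hx hoV hF2 (hE (hEB i ho))
        obtain ⟨-, -, -, h5, -⟩ := taylor_one hx hoV
        simpa using sub_mem h4 (hF0 h5)
      · rw [mul_comm, span_pow_eq]
        refine span_mul_le_iff.mpr fun v hv => ?_
        have hv' : v ∈ VX (insert x s) := (Submodule.span_singleton_le_iff_mem _ _).mpr hxV hv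
        exact hE (hE0 p.1 (pow_mul_mem_msys (m + 2) (κ p.1) (c0 p.1) p.2.2 hv'))
  obtain ⟨t, -, ht⟩ := exists_fill_of_lim _ (fun t => (good_msys _ (by omega)).reach_le (hreach t))
    hlim
  exact ⟨M t, hreach t, ht⟩

theorem step4_gen {σ : Type} [DecidableEq σ] (s : Finset σ) (x : σ) (hx : x ∉ s) {k : ℕ}
    (hk : 4 ≤ k) (j mo b : ℕ) (s0 : Multiset (ℕ ⊕ ℕ))
    (h : ∀ (ιF : Type) [Fintype ιF], Fintype.card ιF = (s0.map pts).sum →
      ∃ (cO : Fin mo → ℕ → MvPolynomial σ ℂ) (cB : Fin b → ℕ → MvPolynomial σ ℂ)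
        (q : ιF → MvPolynomial σ ℂ), (∀ i, cO i ∈ oneOut (VX (insert x s)) (VX s) j) ∧
        (∀ i, cB i ∈ allIn (VX s)) ∧ (∀ i, q i ∈ VX s) ∧
        VX (insert x s) ^ (k - 1) ≤ ((⨆ i, res (VX (insert x s)) (k - 1) j (cO i)) ⊔
          ⨆ i, res (VX s) (k - 1) j (cB i)) ⊔ ⨆ i, (ℂ ∙ q i) ^ (k - 1))
    (hF : Fill s k (s0 + replicate (mo + b) (Sum.inl j) + replicate b (Sum.inr 1))) :
    Fill (insert x s) k (s0 + replicate (mo + b) (Sum.inl (j + 1))) := by
  obtain ⟨m, rfl⟩ : ∃ m, k = m + 2 := ⟨k - 2, by omega⟩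
  obtain ⟨n0, κ, rfl⟩ := exists_family s0
  have hHV := VX_le_insert s x
  let P := (Fin n0 → allIn (VX s)) × (Fin mo → oneOut (VX (insert x s)) (VX s) j) ×
    (Fin b → allIn (VX s))
  let L0 : Fin n0 → P →ₗ[ℂ] (ℕ → MvPolynomial σ ℂ) := fun i =>
    (allIn (VX s)).subtype ∘ₗ LinearMap.proj i ∘ₗ LinearMap.fst ℂ _ _
  let LO : Fin mo → P →ₗ[ℂ] (ℕ → MvPolynomial σ ℂ) := fun i =>
    (oneOut (VX (insert x s)) (VX s) j).subtype ∘ₗ LinearMap.proj i ∘ₗ LinearMap.fst ℂ _ _ ∘ₗ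
      LinearMap.snd ℂ _ _
  let LB : Fin b → P →ₗ[ℂ] (ℕ → MvPolynomial σ ℂ) := fun i =>
    (allIn (VX s)).subtype ∘ₗ LinearMap.proj i ∘ₗ LinearMap.snd ℂ _ _ ∘ₗ LinearMap.snd ℂ _ _
  have h0 : ∀ (c : P) i, L0 i c ∈ allIn (VX s) := fun c i => (c.1 i).2
  have hO : ∀ (c : P) i, LO i c ∈ oneOut (VX (insert x s)) (VX s) j := fun c i => (c.2.1 i).2
  have hB : ∀ (c : P) i, LB i c ∈ allIn (VX s) := fun c i => (c.2.2 i).2
  have hOV : ∀ (c : P) i a, LO i c a ∈ VX (insert x s) := fun c i a => by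
    by_cases ha : a = j
    · exact ha ▸ (mem_oneOut.mp (hO c i)).1
    · exact hHV ((mem_oneOut.mp (hO c i)).2 a ha)
  have hpt : ∀ (L : P →ₗ[ℂ] (ℕ → MvPolynomial σ ℂ)) (a n : ℕ),
      Ext (fun c : P => (ℂ ∙ L c a) ^ n) := fun L a n =>
    ((Ext.span (polyMap_apply a)).pow n).comp_linear L
  have oT : Opn (fun c : P => VX s ^ (m + 2) ≤
      (((⨆ i, (msys (VX s) (m + 2)).Obj (κ i) (L0 i c)) ⊔
      ⨆ i, blk (VX s) (m + 2) j (LO i c)) ⊔ ⨆ i, blk (VX s) (m + 2) j (LB i c)) ⊔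
      ⨆ i, (ℂ ∙ LB i c j) ^ (m + 2)) := by
    refine Ext.opn_fill ((((Ext.iSup fun i => (ext_msys _ _ _).comp_linear (L0 i)).sup
      (Ext.iSup fun i => (ext_blk _ _ _).comp_linear (LO i))).sup
      (Ext.iSup fun i => (ext_blk _ _ _).comp_linear (LB i))).sup
      (Ext.iSup fun i => hpt (LB i) j _)) _ fun c => ?_
    refine sup_le (sup_le (sup_le (iSup_le fun i => ?_) (iSup_le fun i => ?_))
      (iSup_le fun i => ?_)) (iSup_le fun i => ?_)
    · exact msys_le (by omega) le_rfl _ (mem_allIn.mp (h0 c i))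
    · exact blk_le (by omega) (fun a ha => (mem_oneOut.mp (hO c i)).2 a ha.ne) le_rfl
    · exact blk_le (by omega) (fun a _ => mem_allIn.mp (hB c i) a) le_rfl
    · exact span_pow_le_iff.mpr (Submodule.pow_mem_pow _ (mem_allIn.mp (hB c i) _) _)
  have oR : Opn (fun c : P => VX (insert x s) ^ (m + 1) ≤
      ((⨆ i, res (VX (insert x s)) (m + 1) j (LO i c)) ⊔
      ⨆ i, res (VX s) (m + 1) j (LB i c)) ⊔
      ⨆ p : (Σ i : Fin n0, Fin (pts (κ i))), (ℂ ∙ L0 p.1 c p.2) ^ (m + 1)) := by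
    refine Ext.opn_fill (((Ext.iSup fun i => (ext_res _ _ _).comp_linear (LO i)).sup
      (Ext.iSup fun i => (ext_res _ _ _).comp_linear (LB i))).sup
      (Ext.iSup fun p : (Σ i : Fin n0, Fin (pts (κ i))) => hpt (L0 p.1) p.2 _)) _ fun c => ?_
    refine sup_le (sup_le (iSup_le fun i => ?_) (iSup_le fun i => ?_)) (iSup_le fun p => ?_)
    · exact res_le (by omega) (fun a _ => hOV c i a) le_rfl
    · exact res_le (by omega) (fun a _ => hHV (mem_allIn.mp (hB c i) a)) hHV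
    · exact span_pow_le_iff.mpr (Submodule.pow_mem_pow _ (hHV (mem_allIn.mp (h0 c p.1) _)) _)
  have oN : Opn (fun c : P => ∀ i, coeff (Finsupp.single x 1) (LO i c j) ≠ 0) :=
    Opn.forall fun i => opn_ne_zero (lcoeff ℂ (Finsupp.single x 1) ∘ₗ
      (LinearMap.proj j : (ℕ → MvPolynomial σ ℂ) →ₗ[ℂ] MvPolynomial σ ℂ) ∘ₗ LO i)
  have eT : ∃ c : P, VX s ^ (m + 2) ≤
      (((⨆ i, (msys (VX s) (m + 2)).Obj (κ i) (L0 i c)) ⊔
      ⨆ i, blk (VX s) (m + 2) j (LO i c)) ⊔ ⨆ i, blk (VX s) (m + 2) j (LB i c)) ⊔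
      ⨆ i, (ℂ ∙ LB i c j) ^ (m + 2) := by
    obtain ⟨U, hU, hfill⟩ := hF
    obtain ⟨c, hc, rfl⟩ := (reach_family _ (Sum.elim (Sum.elim κ
      (fun _ : Fin mo ⊕ Fin b => Sum.inl j)) (fun _ : Fin b => Sum.inr 1)) (by
        rw [univ_val_map_sum, univ_val_map_sum, univ_val_map_const, univ_val_map_const]
        simp) U).mp hU
    have hc' : ∀ i a, c i a ∈ VX s := fun i => mem_allIn.mp (hc i)
    refine ⟨(fun i => ⟨c (Sum.inl (Sum.inl i)), mem_allIn.mpr (hc' _)⟩,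
      fun i => ⟨c (Sum.inl (Sum.inr (Sum.inl i))),
        mem_oneOut.mpr ⟨hHV (hc' _ _), fun a _ => hc' _ a⟩⟩,
      fun i => ⟨Function.update (c (Sum.inl (Sum.inr (Sum.inr i)))) j (c (Sum.inr i) 0),
        mem_allIn.mpr fun a => ?_⟩), hfill.trans (iSup_le ?_)⟩
    · by_cases ha : a = j
      · rw [ha, Function.update_self]
        exact hc' _ _
      · rw [Function.update_of_ne ha]
        exact hc' _ _
    · rintro ((i | i | i) | i)
      · exact le_sup_of_le_left (le_sup_of_le_left (le_sup_of_le_left (le_iSup_of_le i le_rfl)))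
      · exact le_sup_of_le_left (le_sup_of_le_left (le_sup_of_le_right (le_iSup_of_le i le_rfl)))
      · exact le_sup_of_le_left (le_sup_of_le_right (le_iSup_of_le i
          (blk_congr _ _ fun a ha => (Function.update_of_ne ha.ne _ _).symm).le))
      · refine le_sup_of_le_right (le_iSup_of_le i (le_of_eq ?_))
        change jj (m + 2) 1 (c (Sum.inr i)) =
          (ℂ ∙ Function.update (c (Sum.inl (Sum.inr (Sum.inr i)))) j (c (Sum.inr i) 0) j) ^ (m + 2)
        rw [jj_one, Function.update_self]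
  have eR : ∃ c : P, VX (insert x s) ^ (m + 1) ≤
      ((⨆ i, res (VX (insert x s)) (m + 1) j (LO i c)) ⊔
      ⨆ i, res (VX s) (m + 1) j (LB i c)) ⊔
      ⨆ p : (Σ i : Fin n0, Fin (pts (κ i))), (ℂ ∙ L0 p.1 c p.2) ^ (m + 1) := by
    obtain ⟨cO, cB, q, h1, h2, h3, hfill⟩ := h (Σ i : Fin n0, Fin (pts (κ i))) (card_sigma_pts κ)
    refine ⟨(fun i => ⟨fun a => if ha : a < pts (κ i) then q ⟨i, ⟨a, ha⟩⟩ else 0,
      mem_allIn.mpr fun a => ?_⟩, fun i => ⟨cO i, h1 i⟩, fun i => ⟨cB i, h2 i⟩),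
      hfill.trans (sup_le_sup_left (iSup_mono fun p => le_of_eq ?_) _)⟩
    · split_ifs
      · exact h3 _
      · exact Submodule.zero_mem _
    · change _ = (ℂ ∙ (if ha : (p.2 : ℕ) < pts (κ p.1) then q ⟨p.1, ⟨p.2, ha⟩⟩ else 0)) ^ (m + 1)
      rw [dif_pos p.2.2]
      rfl
  have eN : ∃ c : P, ∀ i, coeff (Finsupp.single x 1) (LO i c j) ≠ 0 := by
    refine ⟨(0, fun _ => ⟨Function.update 0 j (X x), mem_oneOut.mpr ⟨?_, fun a ha => ?_⟩⟩, 0),
      fun i => ?_⟩
    · rw [Function.update_self]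
      exact X_mem_insert s x
    · rw [Function.update_of_ne ha]
      exact Submodule.zero_mem _
    · change coeff _ (Function.update (0 : ℕ → MvPolynomial σ ℂ) j (X x) j) ≠ 0
      simp
  obtain ⟨c, ⟨hT, hR⟩, hN⟩ := (oT.and oR).exists_and oN (oT.exists_and oR eT eR) eN
  have := step4_of_config s x hx κ (fun i => L0 i c) (fun i => LO i c) (fun i => LB i c)
    (h0 c) (hO c) (hB c) hN hT hR
  simpa using this

theorem step4 {σ : Type} [DecidableEq σ] (s : Finset σ) (x : σ) (hx : x ∉ s) {k : ℕ}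
    (hk : 4 ≤ k) (j mo b : ℕ) (s0 : Multiset (ℕ ⊕ ℕ))
    (h : ResCond s.card (k - 1) j mo b (s0.map pts).sum)
    (hF : Fill s k (s0 + replicate (mo + b) (Sum.inl j) + replicate b (Sum.inr 1))) :
    Fill (insert x s) k (s0 + replicate (mo + b) (Sum.inl (j + 1))) :=
  step4_gen s x hx hk j mo b s0 (fun ιF _ hc => resFill s x hx (by omega) (Fin mo) (Fin b) ιF (by
    rw [hc, Fintype.card_fin, Fintype.card_fin]
    exact h)) hF

end Pool.Agent.P.MP_c64be1_ag.Asy
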