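import Pool.Agent.P.MP_c64be1_ag.Asy.Finish
import Pool.Agent.P.MP_c64be1_ag.Asy.Step3
import Pool.Agent.P.MP_c64be1_ag.Asy.Step4
import Pool.Agent.P.MP_c64be1_ag.Asy.Num3
import Pool.Agent.P.MP_c64be1_ag.Asy.Num4
import Pool.Agent.P.MP_c64be1_ag.Asy.Link
import Pool.Agent.P.MP_c64be1_ag.Asy.Lower

/-! The generic rank for large `n`. -/

namespace Pool.Agent.P.MP_c64be1_ag.Asy

open Multiset

theorem fill_large {σ : Type} [DecidableEq σ] (n k r S : ℕ) (hk : 3 ≤ k) (hr : 1 ≤ r)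
    (hn : 10 ^ 5 * (k * (r + 1)) ^ 3 + 100 * NN r k ≤ n)
    (hS : NN n k ≤ S * (r * (n - r) + NN r k))
    (hS' : S * (r * (n - r) + NN r k) < NN n k + (r * (n - r) + NN r k)) :
    ∀ s : Finset σ, s.card = n → Fill s k (replicate S (Sum.inl r)) := by
  rcases Nat.eq_or_lt_of_le hk with rfl | hk4
  · refine num3 r hr (fun n st => ∀ s : Finset σ, s.card = n → Fill s 3 st)
      (fun n st h s hs => finish s le_rfl st (hs ▸ h)) ?_ n S (by nlinarith) hS hS'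
    intro n j s0 g1 g2 c1 c2 hF s hs
    obtain ⟨x₁, t, h₁, rfl, ht⟩ := Finset.card_eq_succ.mp hs
    obtain ⟨x₂, u, h₂, rfl, hu⟩ := Finset.card_eq_succ.mp ht
    exact step3 u x₁ x₂ h₂ h₁ j s0 g1 g2 (hu ▸ c1) (hu ▸ c2) (hF u hu)
  · refine num4 k r hk4 hr (fun n st => ∀ s : Finset σ, s.card = n → Fill s k st)
      (fun n st h s hs => finish s hk st (hs ▸ h)) ?_ n S (by omega) hS hS'
    intro n j mo b s0 c hF s hs
    obtain ⟨x, t, h₁, rfl, ht⟩ := Finset.card_eq_succ.mp hs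
    exact step4 t x h₁ hk4 j mo b s0 (ht ▸ c) (hF t ht)

theorem isLeast_asymptotic (n k r : ℕ) (hk : 3 ≤ k) (hr : 1 ≤ r)
    (hn : 10 ^ 5 * (k * (r + 1)) ^ 3 + 100 * (r + k - 1).choose k ≤ n) :
    IsLeast {s : ℕ | SecantFills (Fin n) k r s}
      ((n + k - 1).choose k ⌈/⌉ (r * (n - r) + (r + k - 1).choose k)) := by
  have hrn : r ≤ n := by
    have h1 : r + 1 ≤ k * (r + 1) := Nat.le_mul_of_pos_left _ (by omega)
    have h2 : k * (r + 1) ≤ (k * (r + 1)) ^ 3 := Nat.le_self_pow (by norm_num) _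
    omega
  have hδ : 0 < r * (n - r) + NN r k :=
    Nat.add_pos_right _ (Nat.choose_pos (by omega))
  change IsLeast _ (NN n k ⌈/⌉ (r * (n - r) + NN r k))
  set δ := r * (n - r) + NN r k with hδdef
  have hS : NN n k ≤ (NN n k ⌈/⌉ δ) * δ := by
    have := le_smul_ceilDiv (b := NN n k) hδ
    rwa [smul_eq_mul, mul_comm] at this
  have hS' : (NN n k ⌈/⌉ δ) * δ < NN n k + δ := by
    rw [Nat.ceilDiv_eq_add_pred_div]
    have := Nat.div_mul_le_self (NN n k + δ - 1) δ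
    omega
  refine ⟨secantFills_of_fill (by omega) hrn
    (fill_large n k r _ hk hr hn hS hS' _ (by simp)), fun s hs => ?_⟩
  by_contra hlt
  refine not_secantFills_of_lt hrn ?_ hs
  by_contra hge
  exact hlt ((ceilDiv_le_iff_le_mul hδ).mpr (by rw [mul_comm]; exact not_lt.mp hge))

end Pool.Agent.P.MP_c64be1_ag.Asy
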