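import Pool.Agent.P.MP_c64be1_ag.Asy.Defs2

/-! The arithmetic of the single step in degree at least five. -/

namespace Pool.Agent.P.MP_c64be1_ag.Asy

open Multiset

namespace NK

theorem ineqB (j u m z z' : ℤ) (hu : 2 ≤ u) (hm : 3 ≤ m) (hz' : 0 ≤ z')
    (hrel : (m + 1) * z = z' * (j + m + 1))
    (hc : (j = 0 ∧ z = 1 ∧ z' = 1) ∨ (j = 1 ∧ z = m + 2 ∧ z' = m + 1) ∨
      (2 ≤ j ∧ 3 * j + m + 5 ≤ z)) :
    u * (u + z - (j + 1)) * (u + z') ≤
      (((m + 2) * (j + 1) * u + z * (j + m + 2)) - (j + 1) * (u + j + m + 2)) * (u + j + m + 1) *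
        (u + z') - (m + 1) * ((m + 2) * (j + 1) * u + z * (j + m + 2)) * (u + z - (j + 1)) := by
  have key : (((m + 2) * (j + 1) * u + z * (j + m + 2)) - (j + 1) * (u + j + m + 2)) *
        (u + j + m + 1) * (u + z') -
        (m + 1) * ((m + 2) * (j + 1) * u + z * (j + m + 2)) * (u + z - (j + 1)) -
        u * (u + z - (j + 1)) * (u + z') =
      u * (((m + 1) * z * (z - 3 * j - m - 4) + (z - (j + 1)) * (j + m + 2) * (j + m + 1) +
          (m + 2) * (m + 1) * (j + 1) ^ 2) +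
        ((m + 1) * (j + 1) * (z' + j - 1) + (z - (j + 1)) * (j + m + 1) - z') * u +
        ((m + 1) * (j + 1) - 1) * u ^ 2) := by
    linear_combination (-((z - (j + 1)) * (j + m + 2) + u * ((m + 1) * (j + 1) + (z - (j + 1))))) *
      hrel
  have hpos : 0 ≤ ((m + 1) * z * (z - 3 * j - m - 4) + (z - (j + 1)) * (j + m + 2) * (j + m + 1) +
          (m + 2) * (m + 1) * (j + 1) ^ 2) +
        ((m + 1) * (j + 1) * (z' + j - 1) + (z - (j + 1)) * (j + m + 1) - z') * u +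
        ((m + 1) * (j + 1) - 1) * u ^ 2 := by
    obtain ⟨v, rfl⟩ : ∃ v, u = v + 2 := ⟨u - 2, by ring⟩
    obtain ⟨l, rfl⟩ : ∃ l, m = l + 3 := ⟨m - 3, by ring⟩
    have hv : 0 ≤ v := by linarith
    have hl : 0 ≤ l := by linarith
    rcases hc with ⟨rfl, rfl, rfl⟩ | ⟨rfl, rfl, rfl⟩ | ⟨hj, hz⟩
    · have : 0 ≤ 3 * l + 6 + (4 * l + 11) * v + (l + 3) * v ^ 2 := by positivity
      linarith
    · ring_nf
      positivity
    · obtain ⟨i, rfl⟩ : ∃ i, j = i + 2 := ⟨j - 2, by ring⟩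
      obtain ⟨y, rfl⟩ : ∃ y, z = y + (3 * (i + 2) + (l + 3) + 5) :=
        ⟨z - (3 * (i + 2) + (l + 3) + 5), by ring⟩
      have hi : 0 ≤ i := by linarith
      have hy : 0 ≤ y := by linarith
      ring_nf
      positivity
  have := mul_nonneg (by linarith : (0 : ℤ) ≤ u) hpos
  linarith

theorem le_W (j u c : ℤ) (hj : 0 ≤ j) (hu : 0 ≤ u) (hc : 0 ≤ c) :
    (j + 1) * u + c ≤ (j + 1) * (u + j + 1) + c ∧ j + 1 ≤ (j + 1) * (u + j + 1) + c := by
  have h1 : 0 ≤ (j + 1) * (j + 1) := by positivity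
  have h2 : 0 ≤ (j + 1) * (u + j) := by positivity
  constructor <;> linarith

theorem lowX (j u m z c0 Q N S W : ℤ) (hj : 0 ≤ j) (hu : 2 ≤ u) (hm : 3 ≤ m) (hz : 0 ≤ z)
    (hc0 : 0 ≤ c0) (hQ : 0 ≤ Q) (hW : W = (j + 1) * (u + j + 1) + c0)
    (h1 : (m + 2) * N = Q * (u + j + m + 2)) (h3 : (m + 2) * c0 = z * (j + m + 2))
    (hA : (m + 2) * j ≤ z) (hQu : 5 * (m + 2) * (u + j + m + 3) * W ^ 3 ≤ u * Q)
    (hS : N ≤ S * ((j + 1) * u + c0)) :
    Q + 5 * W ^ 2 * (u + z) ≤ S * (u + z) := by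
  obtain ⟨δ, hδ⟩ : ∃ δ, δ = (j + 1) * u + c0 := ⟨_, rfl⟩
  rw [← hδ] at hS
  have hδ0 : 0 < δ := by rw [hδ]; positivity
  have hδW : δ ≤ W := by rw [hδ, hW]; exact (le_W j u c0 hj (by linarith) hc0).1
  have hW0 : 0 < W := by linarith
  have hρ : 0 < u + z := by linarith
  have hk : 0 < m + 2 := by linarith
  have hY : u + z ≤ (m + 2) * (u + z - (m + 1) * j) := by
    have : 0 ≤ (m + 1) * (u + z - (m + 2) * j) := mul_nonneg (by linarith) (by linarith)
    linarith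
  have e1 : (u + j + m + 2) * (u + z) - (m + 2) * δ = u * (u + z - (m + 1) * j) := by
    rw [hδ]; linear_combination (-1 : ℤ) * h3
  have a1 : Q * (u * (u + z - (m + 1) * j)) ≤ (m + 2) * δ * (S * (u + z) - Q) := by
    have : (m + 2) * (u + z) * N ≤ (m + 2) * (u + z) * (S * δ) :=
      mul_le_mul_of_nonneg_left hS (by positivity)
    rw [← e1]
    linear_combination this - (u + z) * h1
  have a2 : u * Q * (u + z) ≤ (m + 2) * (Q * (u * (u + z - (m + 1) * j))) := by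
    have := mul_le_mul_of_nonneg_left hY (by positivity : 0 ≤ u * Q)
    linarith
  have a3 : 5 * (m + 2) * (m + 2) * (δ * W ^ 2) ≤ 5 * (m + 2) * (u + j + m + 3) * W ^ 3 := by
    have : δ * W ^ 2 ≤ W ^ 3 := by
      have := mul_le_mul_of_nonneg_right hδW (sq_nonneg W)
      linarith
    exact mul_le_mul (mul_le_mul_of_nonneg_left (by linarith) (by positivity)) this
      (by positivity) (by positivity)
  have a4 := mul_le_mul_of_nonneg_right (a3.trans hQu) hρ.le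
  have a5 := mul_le_mul_of_nonneg_left a1 hk.le
  have a6 : (m + 2) * (m + 2) * δ * (5 * W ^ 2 * (u + z)) ≤
      (m + 2) * (m + 2) * δ * (S * (u + z) - Q) := by linarith
  have := le_of_mul_le_mul_left a6 (by positivity)
  linarith

theorem lowT (j u m z z' c0 Q R N S W a μ : ℤ) (hj : 0 ≤ j) (hu : 2 ≤ u) (hm : 3 ≤ m)
    (hz : j + 1 ≤ z) (hz' : 0 ≤ z') (hc0 : 0 ≤ c0) (hQ : 0 ≤ Q)
    (hW : W = (j + 1) * (u + j + 1) + c0)
    (h1 : (m + 2) * N = Q * (u + j + m + 2)) (h2 : (m + 1) * Q = R * (u + j + m + 1))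
    (h3 : (m + 2) * c0 = z * (j + m + 2))
    (hB : u * (u + z - (j + 1)) * (u + z') ≤
      (((m + 2) * (j + 1) * u + z * (j + m + 2)) - (j + 1) * (u + j + m + 2)) * (u + j + m + 1) *
        (u + z') - (m + 1) * ((m + 2) * (j + 1) * u + z * (j + m + 2)) * (u + z - (j + 1)))
    (hQu : 5 * (m + 2) * (u + j + m + 3) * W ^ 3 ≤ u * Q)
    (hS : S * ((j + 1) * u + c0) ≤ N + ((j + 1) * u + c0))
    (ha : a * (u + z - (j + 1)) + Q ≤ S * (u + z)) (hμ : μ * (u + z') ≤ R) :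
    a + μ + W ^ 2 + 2 * W ≤ S := by
  obtain ⟨δ, hδ⟩ : ∃ δ, δ = (j + 1) * u + c0 := ⟨_, rfl⟩
  obtain ⟨e, he⟩ : ∃ e, e = u + z - (j + 1) := ⟨_, rfl⟩
  obtain ⟨ρ, hρ⟩ : ∃ ρ, ρ = u + z' := ⟨_, rfl⟩
  obtain ⟨p, hp⟩ : ∃ p, p = u + j + m + 1 := ⟨_, rfl⟩
  have hK : (m + 2) * (j + 1) * u + z * (j + m + 2) = (m + 2) * δ := by
    rw [hδ]; linear_combination (-1 : ℤ) * h3
  rw [← hδ] at hS
  rw [hK, ← he, ← hρ, ← hp] at hB
  rw [← he] at ha
  rw [← hρ] at hμ
  rw [← hp] at h2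
  have hδ0 : 0 < δ := by rw [hδ]; positivity
  have hδW : δ ≤ W := by rw [hδ, hW]; exact (le_W j u c0 hj (by linarith) hc0).1
  have hrW : j + 1 ≤ W := by rw [hW]; exact (le_W j u c0 hj (by linarith) hc0).2
  have hW0 : 0 < W := by linarith
  have he0 : 1 ≤ e := by linarith
  have hρ0 : 0 < ρ := by linarith
  have hp0 : 0 < p := by linarith
  have hk : 0 < m + 2 := by linarith
  have b1 : Q - (j + 1) * S ≤ (S - a) * e := by
    have : S * (u + z) = S * e + (j + 1) * S := by rw [he]; ring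
    linarith
  have b2 : Q * ((m + 2) * δ - (j + 1) * (u + j + m + 2)) - (m + 2) * (j + 1) * δ ≤
      (m + 2) * δ * ((S - a) * e) := by
    have t1 := mul_le_mul_of_nonneg_left b1 (by positivity : 0 ≤ (m + 2) * δ)
    have t2 := mul_le_mul_of_nonneg_left hS (by positivity : 0 ≤ (m + 2) * (j + 1))
    linear_combination t1 + t2 + (j + 1) * h1
  have b3 : μ * ρ * p ≤ (m + 1) * Q := by
    rw [h2]; exact mul_le_mul_of_nonneg_right hμ hp0.le
  have b4 : ρ * (u * Q * e - (m + 2) * (j + 1) * δ * p) ≤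
      ρ * ((m + 2) * δ * e * p * (S - a - μ)) := by
    have t1 := mul_le_mul_of_nonneg_left b2 (by positivity : 0 ≤ p * ρ)
    have t2 := mul_le_mul_of_nonneg_left b3 (by positivity : 0 ≤ (m + 2) * δ * e)
    have t3 := mul_le_mul_of_nonneg_left hB hQ
    linear_combination t1 + t2 + t3
  have b5 := le_of_mul_le_mul_left b4 hρ0
  have b6 : 5 * (m + 2) * p * (δ * W ^ 2) ≤ 5 * (m + 2) * (u + j + m + 3) * W ^ 3 := by
    have : δ * W ^ 2 ≤ W ^ 3 := by
      have := mul_le_mul_of_nonneg_right hδW (sq_nonneg W)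
      linarith
    exact mul_le_mul (mul_le_mul_of_nonneg_left (by linarith) (by positivity)) this
      (by positivity) (by positivity)
  have b7 := mul_le_mul_of_nonneg_right (b6.trans hQu) (by linarith : 0 ≤ e)
  have b8 : (m + 2) * δ * p * (5 * W ^ 2 * e - (j + 1)) ≤
      (m + 2) * δ * p * (e * (S - a - μ)) := by linarith
  have b9 := le_of_mul_le_mul_left b8 (by positivity)
  have b10 : W ≤ W * e := le_mul_of_one_le_right hW0.le he0
  have b11 : e * (5 * W ^ 2 - W) ≤ e * (S - a - μ) := by linarith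
  have b12 := le_of_mul_le_mul_left b11 (by linarith)
  have b13 : W ≤ W ^ 2 := by rw [pow_two]; exact le_mul_of_one_le_right hW0.le (by linarith)
  linarith

theorem quad1 (i l : ℕ) : 2 * (3 * (2 + i) + (3 + l) + 5) ≤ (2 + i + (3 + l) + 1) * (2 + i + (3 + l)) :=
  Nat.le.intro (k := 2 + 5 * i + 9 * l + i * i + 2 * (i * l) + l * l) (by ring)

theorem quad2 (i l : ℕ) : 2 * ((3 + l + 2) * (2 + i)) ≤ (2 + i + (3 + l) + 1) * (2 + i + (3 + l)) :=
  Nat.le.intro (k := 10 + i + 7 * l + i * i + l * l) (by ring)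

theorem core (j u m z z' c0 Q R N S W : ℕ) (hu : 2 ≤ u) (hm : 3 ≤ m)
    (hW : W = (j + 1) * (u + j + 1) + c0)
    (h1 : (m + 2) * N = Q * (u + j + m + 2)) (h2 : (m + 1) * Q = R * (u + j + m + 1))
    (h3 : (m + 2) * c0 = z * (j + m + 2)) (h4 : (m + 1) * z = z' * (j + m + 1))
    (hc : (j = 0 ∧ z = 1 ∧ z' = 1) ∨ (j = 1 ∧ z = m + 2 ∧ z' = m + 1) ∨
      (2 ≤ j ∧ (j + m + 1) * (j + m) ≤ 2 * z))
    (hstar : 5 * (u + j + m + 3) ^ 2 * W ^ 3 ≤ u * N)
    (hS : N ≤ S * ((j + 1) * u + c0)) (hS' : S * ((j + 1) * u + c0) < N + ((j + 1) * u + c0)) :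
    ∃ a mo b μ : ℕ, a + (mo + b) = S ∧ R < μ * (u + z') ∧ μ + (u + j + 1 + z') ≤ mo ∧
      Q + a * (u + z) + b = S * (u + z) + a * (j + 1) ∧ (u + j + 1 + z) ^ 2 ≤ a * (j + 1) ∧
      W * W ≤ b := by
  have hc' : (j = 0 ∧ z = 1 ∧ z' = 1) ∨ (j = 1 ∧ z = m + 2 ∧ z' = m + 1) ∨
      (2 ≤ j ∧ 3 * j + m + 5 ≤ z) := by
    rcases hc with h | h | ⟨hj, h⟩
    · exact Or.inl h
    · exact Or.inr (Or.inl h)
    · refine Or.inr (Or.inr ⟨hj, ?_⟩)
      obtain ⟨i, rfl⟩ := Nat.exists_eq_add_of_le hj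
      obtain ⟨l, rfl⟩ := Nat.exists_eq_add_of_le hm
      have := quad1 i l
      omega
  have hA : (m + 2) * j ≤ z := by
    rcases hc with ⟨rfl, -, -⟩ | ⟨rfl, rfl, -⟩ | ⟨hj, h⟩
    · omega
    · omega
    · obtain ⟨i, rfl⟩ := Nat.exists_eq_add_of_le hj
      obtain ⟨l, rfl⟩ := Nat.exists_eq_add_of_le hm
      have := quad2 i l
      omega
  have hzr : j + 1 ≤ z := by omega
  have hzc : z ≤ c0 := by
    have : (m + 2) * z ≤ (m + 2) * c0 := by
      rw [h3, mul_comm]; exact Nat.mul_le_mul_left _ (by omega)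
    exact Nat.le_of_mul_le_mul_left this (by omega)
  have hz'z : z' ≤ z := by
    have : (m + 1) * z' ≤ (m + 1) * z := by
      rw [h4, mul_comm]; exact Nat.mul_le_mul_left _ (by omega)
    exact Nat.le_of_mul_le_mul_left this (by omega)
  have hνW : u + j + 1 + c0 ≤ W := by
    rw [hW]
    exact Nat.add_le_add_right (Nat.le_mul_of_pos_left _ (by omega)) _
  have hQu : 5 * (m + 2) * (u + j + m + 3) * W ^ 3 ≤ u * Q := by
    have t1 := Nat.mul_le_mul_left (m + 2) hstar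
    have t2 : (m + 2) * (u * N) ≤ (u + j + m + 3) * (u * Q) := by
      calc (m + 2) * (u * N) = u * ((m + 2) * N) := by ring
        _ = (u + j + m + 2) * (u * Q) := by rw [h1]; ring
        _ ≤ _ := Nat.mul_le_mul_right _ (by omega)
    have t3 : (u + j + m + 3) * (5 * (m + 2) * (u + j + m + 3) * W ^ 3) ≤
        (u + j + m + 3) * (u * Q) := by
      refine le_trans (le_of_eq ?_) (t1.trans t2)
      ring
    exact Nat.le_of_mul_le_mul_left t3 (by omega)
  have hX : Q + 5 * W ^ 2 * (u + z) ≤ S * (u + z) := by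
    have := lowX j u m z c0 Q N S W (by positivity) (by exact_mod_cast hu) (by exact_mod_cast hm)
      (by positivity) (by positivity) (by positivity) (by exact_mod_cast hW)
      (by exact_mod_cast h1) (by exact_mod_cast h3) (by exact_mod_cast hA)
      (by exact_mod_cast hQu) (by exact_mod_cast hS)
    exact_mod_cast this
  obtain ⟨e, he⟩ : ∃ e, u + z = e + (j + 1) := ⟨u + z - (j + 1), by omega⟩
  have he0 : 0 < e := by omega
  have hX' : Q + W ^ 2 + W ^ 2 * e ≤ S * (u + z) := by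
    have : W ^ 2 * (e + 1) ≤ W ^ 2 * (5 * (u + z)) := Nat.mul_le_mul_left _ (by omega)
    calc Q + W ^ 2 + W ^ 2 * e = Q + W ^ 2 * (e + 1) := by ring
      _ ≤ Q + W ^ 2 * (5 * (u + z)) := by omega
      _ = Q + 5 * W ^ 2 * (u + z) := by ring
      _ ≤ _ := hX
  obtain ⟨X, hXd⟩ : ∃ X, S * (u + z) = Q + W ^ 2 + X := ⟨S * (u + z) - (Q + W ^ 2), by omega⟩
  have hXe : W ^ 2 * e ≤ X := by omega
  obtain ⟨a, had⟩ : ∃ a, a = X / e := ⟨_, rfl⟩
  obtain ⟨c, hcd⟩ : ∃ c, c = X % e := ⟨_, rfl⟩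
  obtain ⟨μ, hμd⟩ : ∃ μ, μ = R / (u + z') := ⟨_, rfl⟩
  have hac : a * e + c = X := by rw [had, hcd]; exact Nat.div_add_mod' X e
  have hce : c < e := by rw [hcd]; exact Nat.mod_lt _ he0
  have haW : W ^ 2 ≤ a := by rw [had]; exact (Nat.le_div_iff_mul_le he0).2 hXe
  have hμ1 : μ * (u + z') ≤ R := by rw [hμd]; exact Nat.div_mul_le_self _ _
  have hμ2 : R < (μ + 1) * (u + z') := by
    rw [hμd, mul_comm]; exact Nat.lt_mul_div_succ _ (by omega)
  have hT : a + μ + W ^ 2 + 2 * W ≤ S := by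
    have hB := ineqB j u m z z' (by exact_mod_cast hu) (by exact_mod_cast hm) (by positivity)
      (by exact_mod_cast h4) (by exact_mod_cast hc')
    have ha : (a : ℤ) * (u + z - (j + 1)) + Q ≤ S * (u + z) := by
      have t1 : a * e + Q ≤ S * (u + z) := by omega
      have t2 : (u : ℤ) + z - (j + 1) = e := by
        have : (u : ℤ) + z = e + (j + 1) := by exact_mod_cast he
        linarith
      rw [t2]
      exact_mod_cast t1
    have := lowT j u m z z' c0 Q R N S W a μ (by positivity) (by exact_mod_cast hu)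
      (by exact_mod_cast hm) (by exact_mod_cast hzr) (by positivity) (by positivity)
      (by positivity) (by exact_mod_cast hW) (by exact_mod_cast h1) (by exact_mod_cast h2)
      (by exact_mod_cast h3) hB (by exact_mod_cast hQu) (by exact_mod_cast hS'.le) ha
      (by exact_mod_cast hμ1)
    exact_mod_cast this
  refine ⟨a, S - a - (W ^ 2 + c), W ^ 2 + c, μ + 1, by omega, hμ2, by omega, ?_, ?_, ?_⟩
  · rw [hXd, he, mul_add]
    omega
  · calc (u + j + 1 + z) ^ 2 ≤ W ^ 2 := Nat.pow_le_pow_left (by omega) 2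
      _ ≤ a := haW
      _ ≤ a * (j + 1) := Nat.le_mul_of_pos_right _ (by omega)
  · rw [← pow_two]
    omega

theorem nn_rel (n k : ℕ) : (k + 1) * NN (n + 1) (k + 1) = NN (n + 1) k * (n + k + 1) := by
  have h1 : n + 1 + (k + 1) - 1 = n + k + 1 := by omega
  have h2 : n + 1 + k - 1 = n + k := by omega
  unfold NN
  rw [h1, h2, mul_comm, ← Nat.add_one_mul_choose_eq, mul_comm]

theorem nn_pascal (n k : ℕ) : NN (n + 1) (k + 1) = NN n (k + 1) + NN (n + 1) k := by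
  have h1 : n + 1 + (k + 1) - 1 = n + k + 1 := by omega
  have h2 : n + 1 + k - 1 = n + k := by omega
  have h3 : n + (k + 1) - 1 = n + k := by omega
  unfold NN
  rw [h1, h2, h3, Nat.choose_succ_succ', add_comm]

theorem nn_one (k : ℕ) : NN 1 k = 1 := by simp [NN]

theorem nn_two (k : ℕ) : NN 2 k = k + 1 := by
  have h1 : 2 + k - 1 = k + 1 := by omega
  unfold NN
  rw [h1, Nat.choose_succ_self_right]

theorem nn_pos (n k : ℕ) : 0 < NN (n + 1) k := Nat.choose_pos (by omega)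

theorem nn_lin (i k : ℕ) : i + k + 2 ≤ NN (i + 2) (k + 1) := by
  induction i with
  | zero => rw [nn_two]; omega
  | succ i ih =>
    have h1 := nn_pascal (i + 2) k
    have h2 := nn_pos (i + 2) k
    rw [show i + 1 + 2 = i + 2 + 1 by ring, h1]
    omega

theorem nn_quad (i k : ℕ) : (i + k + 4) * (i + k + 3) ≤ 2 * NN (i + 3) (k + 2) := by
  induction i with
  | zero =>
    have h1 : 0 + 3 + (k + 2) - 1 = k + 2 + 2 := by omega
    unfold NN
    rw [h1, Nat.choose_symm_add]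
    have := Nat.add_one_mul_choose_eq (k + 3) 1
    rw [Nat.choose_one_right] at this
    have h2 : k + 2 + 2 = k + 3 + 1 := by ring
    rw [h2, mul_comm 2, ← this]
    exact le_of_eq (by ring)
  | succ i ih =>
    have h1 : NN (i + 3 + 1) (k + 2) = NN (i + 3) (k + 2) + NN (i + 3 + 1) (k + 1) :=
      nn_pascal (i + 3) (k + 1)
    have h2 := nn_lin (i + 2) k
    rw [show i + 1 + 3 = i + 3 + 1 by ring, h1]
    rw [show i + 2 + 2 = i + 3 + 1 by ring] at h2
    have h3 : (i + 1 + k + 4) * (i + 1 + k + 3) = (i + k + 4) * (i + k + 3) + 2 * (i + 2 + k + 2) := by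
      ring
    omega

theorem fin1 (v z a mo b r Q : ℕ)
    (h : Q + a * (v + 1 + z) + b = (a + (mo + b)) * (v + 1 + z) + a * r) :
    Q ≤ mo * (v + 1 + z) + b * (v + z) + a * r := by
  have : (a + (mo + b)) * (v + 1 + z) = mo * (v + 1 + z) + b * (v + z) + a * (v + 1 + z) + b := by
    ring
  omega

theorem fin2 (v z a mo b j Q c M : ℕ)
    (h : Q + a * (v + 1 + z) + b = (a + (mo + b)) * (v + 1 + z) + a * (j + 1))
    (hS : M + Q ≤ (a + (mo + b)) * ((j + 1) * (v + 1) + (c + z))) :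
    M ≤ a * ((j + 1) * v + (c + z)) + (mo + b) * (j * (v + 1) + c) + b * 1 := by
  have : (a + (mo + b)) * ((j + 1) * (v + 1) + (c + z)) + a * (v + 1 + z) =
      a * ((j + 1) * v + (c + z)) + (mo + b) * (j * (v + 1) + c) +
        ((a + (mo + b)) * (v + 1 + z) + a * (j + 1)) := by ring
  omega

end NK

theorem numK (j k n S : ℕ) (hk : 5 ≤ k) (hn : j + 2 ≤ n)
    (hstar : 5 * (n + 1 + k) ^ 2 * ((j + 1) * (n + 1) + NN (j + 1) k) ^ 3 ≤ (n - j) * NN (n + 1) k)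
    (hS : NN (n + 1) k ≤ S * ((j + 1) * (n - j) + NN (j + 1) k))
    (hS' : S * ((j + 1) * (n - j) + NN (j + 1) k) <
      NN (n + 1) k + ((j + 1) * (n - j) + NN (j + 1) k)) :
    ∃ a mo b : ℕ, a + (mo + b) = S ∧ ResCond2 n (k - 1) j mo b (a * (j + 1)) ∧
      FinCond n k (replicate a (Sum.inl (j + 1)) + replicate (mo + b) (Sum.inl j) +
        replicate b (Sum.inr 1)) := by
  obtain ⟨m, rfl⟩ : ∃ m, k = m + 2 := ⟨k - 2, by omega⟩
  obtain ⟨v, rfl⟩ : ∃ v, n = v + 1 + j := ⟨n - j - 1, by omega⟩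
  have e1 : v + 1 + j - j = v + 1 := by omega
  have e2 : v + 1 + j - (j + 1) = v := by omega
  have e3 : m + 2 - 1 = m + 1 := rfl
  have e4 : m + 1 - 1 = m := rfl
  rw [e1] at hstar hS hS'
  have hc : (j = 0 ∧ NN (j + 1) (m + 1) = 1 ∧ NN (j + 1) m = 1) ∨
      (j = 1 ∧ NN (j + 1) (m + 1) = m + 2 ∧ NN (j + 1) m = m + 1) ∨
      (2 ≤ j ∧ (j + m + 1) * (j + m) ≤ 2 * NN (j + 1) (m + 1)) := by
    rcases j with _ | _ | i
    · exact Or.inl ⟨rfl, NK.nn_one _, NK.nn_one _⟩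
    · exact Or.inr (Or.inl ⟨rfl, NK.nn_two _, NK.nn_two _⟩)
    · refine Or.inr (Or.inr ⟨by omega, ?_⟩)
      obtain ⟨l, rfl⟩ : ∃ l, m = l + 1 := ⟨m - 1, by omega⟩
      exact le_trans (le_of_eq (by ring)) (NK.nn_quad i l)
  obtain ⟨a, mo, b, μ, hsum, hμ1, hμ2, heq, hsq, hb⟩ :=
    NK.core j (v + 1) m (NN (j + 1) (m + 1)) (NN (j + 1) m) (NN (j + 1) (m + 2))
      (NN (v + 1 + j + 1) (m + 1)) (NN (v + 1 + j + 1) m) (NN (v + 1 + j + 1) (m + 2)) S _
      (by omega) (by omega) rfl (NK.nn_rel _ _) (NK.nn_rel _ _) (NK.nn_rel _ _) (NK.nn_rel _ _) hc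
      (by rw [show v + 1 + j + m + 3 = v + 1 + j + 1 + (m + 2) by ring]; exact hstar) hS hS'
  have p1 := NK.nn_pascal j (m + 1)
  have p2 := NK.nn_pascal (v + 1 + j) (m + 1)
  subst hsum
  rw [show m + 1 + 1 = m + 2 from rfl] at p1 p2
  have w1 : (j + 1) * (v + 1 + j) ≤ (j + 1) * (v + 1 + j + 1) := Nat.mul_le_mul_left _ (by omega)
  have w2 : j * (v + 1 + j) ≤ (j + 1) * (v + 1 + j) := Nat.mul_le_mul_right _ (by omega)
  have w3 : v + 1 + j + 1 ≤ (j + 1) * (v + 1 + j + 1) := Nat.le_mul_of_pos_left _ (by omega)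
  refine ⟨a, mo, b, rfl, ⟨by omega, ⟨μ, ?_, ?_⟩, ?_, ?_⟩, _, ?_, ?_, ?_, le_trans hb ?_⟩
  · rw [e1, e3, e4]; exact hμ1
  · rw [e3, e4]; exact hμ2
  · rw [e1, e2, e3]
    exact NK.fin1 _ _ _ _ _ _ _ heq
  · rw [e3]; exact hsq
  · intro i hi
    simp only [mem_add, mem_replicate] at hi
    rcases hi with (⟨-, h⟩ | ⟨-, h⟩) | ⟨-, h⟩
    · obtain rfl := Sum.inl.inj h
      exact ⟨by omega, by omega⟩
    · obtain rfl := Sum.inl.inj h
      exact ⟨by omega, by omega⟩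
    · cases h
  · intro g hg
    simp only [mem_add, mem_replicate] at hg
    rcases hg with (⟨-, h⟩ | ⟨-, h⟩) | ⟨-, h⟩
    · cases h
    · cases h
    · obtain rfl := Sum.inr.inj h
      exact ⟨by omega, by omega⟩
  · simp only [Multiset.map_add, sum_add, map_replicate, sum_replicate, smul_eq_mul, size, e1, e2]
    rw [show Nat.choose (1 + 1) 2 = 1 from rfl]
    rw [p1, p2] at hS
    rw [p1]
    exact NK.fin2 _ _ _ _ _ _ _ _ _ heq hS
  · simp [count_add, count_replicate]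

end Pool.Agent.P.MP_c64be1_ag.Asy
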