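import Pool.Agent.P.MP_c64be1_ag.Asy.BCRel
import Pool.Agent.P.MP_c64be1_ag.Asy.Step4Aux
import Pool.Agent.P.MP_c64be1_ag.Asy.Defs2

/-! The residual problem of the hyperplane step, sharper form. -/

namespace Pool.Agent.P.MP_c64be1_ag.Asy

open MvPolynomial Module

variable {σ : Type} [DecidableEq σ] {s : Finset σ} {x : σ}

lemma res_le_map_pderiv_res (hx : x ∉ s) {m j : ℕ} {c : ℕ → MvPolynomial σ ℂ}
    (hc : ∀ i < j + 1, c i ∈ VX (insert x s)) (hne : coeff (Finsupp.single x 1) (c j) ≠ 0) :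
    res (VX (insert x s)) (m + 1) j c ≤
      (res (VX (insert x s)) (m + 2) j c).map (pderiv x).toLinearMap :=
  sup_le ((sup_pow_le_map_pderiv (sp_le_iff.mpr hc) (mem_sp c (Nat.lt_succ_self j)) hne _).trans
      (Submodule.map_mono le_sup_left))
    ((double_le_map_pderiv (hc j (Nat.lt_succ_self j)) hx hne m).trans
      (Submodule.map_mono le_sup_right))

lemma mem_VX_of_coeff {v : MvPolynomial σ ℂ} (hv : v ∈ VX (insert x s))
    (h : coeff (Finsupp.single x 1) v = 0) : v ∈ VX s := by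
  have := mem_pow_of_pderiv_eq_zero (k := 1) (x := x) (s := s) (w := v) (by simpa using hv)
    (by rw [pderiv_VX x hv, h, C_0])
  simpa using this

lemma exists_oneOut {j : ℕ} {c : ℕ → MvPolynomial σ ℂ} (hc : ∀ a, c a ∈ VX (insert x s))
    (hne : coeff (Finsupp.single x 1) (c j) ≠ 0) :
    ∃ c' ∈ oneOut (VX (insert x s)) (VX s) j,
      ∀ k, res (VX (insert x s)) k j c ≤ res (VX (insert x s)) k j c' := by
  let c' : ℕ → MvPolynomial σ ℂ := fun a => if a = j then c j else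
    c a - (coeff (Finsupp.single x 1) (c a) / coeff (Finsupp.single x 1) (c j)) • c j
  have hj : c' j = c j := if_pos rfl
  refine ⟨c', mem_oneOut.mpr ⟨hj ▸ hc j, fun a ha => ?_⟩, fun k => ?_⟩
  · simp only [c', if_neg ha]
    refine mem_VX_of_coeff (sub_mem (hc a) (Submodule.smul_mem _ _ (hc j))) ?_
    rw [coeff_sub, coeff_smul, smul_eq_mul, div_mul_cancel₀ _ hne, sub_self]
  · refine sup_le_sup (pow_le_pow_left' (sp_le_iff.mpr fun a ha => ?_) k) (by rw [hj])
    have h1 := mem_sp c' (Nat.lt_succ_self j)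
    rw [hj] at h1
    by_cases h : a = j
    · exact h ▸ h1
    · have h2 := mem_sp c' ha
      simp only [c', if_neg h] at h2
      simpa using add_mem h2 (Submodule.smul_mem _
        (coeff (Finsupp.single x 1) (c a) / coeff (Finsupp.single x 1) (c j)) h1)

omit [DecidableEq σ] in
lemma good_res (t : Finset σ) {k : ℕ} (hk : 1 ≤ k) (j : ℕ) :
    Good (⟨fun _ => allIn (VX t), fun _ => res (VX t) k j⟩ : Sys (MvPolynomial σ ℂ) Unit)
      (VX t) (VX t) k where
  ext := fun _ => ext_res _ _ _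
  le := fun _ _ hc => res_le hk (fun i _ => mem_allIn.mp hc i) le_rfl
  memV := fun _ _ hc => mem_allIn.mp hc
  memH := fun _ _ hc => mem_allIn.mpr hc
  eqv := fun _ c φ hV _ => (map_res φ _ _ _ c).le.trans (res_mono hV _ _ _)

/-- The objects off the hyperplane are general. -/
lemma outside_general (hx : x ∉ s) {m j : ℕ} (hj : j + 1 ≤ s.card) (ι : Type) [Fintype ι] (μ : ℕ)
    (h1 : NN (s.card + 1) (m + 2) < μ * (s.card - j + NN (j + 1) (m + 2)))
    (h2 : μ + (s.card + 1 + NN (j + 1) (m + 2)) ≤ Fintype.card ι) :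
    ∃ cO : ι → ℕ → MvPolynomial σ ℂ, (∀ i, cO i ∈ oneOut (VX (insert x s)) (VX s) j) ∧
      VX (insert x s) ^ (m + 3) ≤ (⨆ i, res (VX (insert x s)) (m + 3) j (cO i)) ⊔ VX s ^ (m + 3) ∧
      (Fintype.card ι * (s.card - j + NN (j + 1) (m + 3)) ≤
          finrank ℂ ↥(⨆ i, res (VX (insert x s)) (m + 3) j (cO i)) ∨
        NN (s.card + 1) (m + 3) ≤ finrank ℂ ↥(⨆ i, res (VX (insert x s)) (m + 3) j (cO i)) +
          (s.card + 1 + NN (j + 1) (m + 3)) * (s.card + 1 + NN (j + 1) (m + 3))) := by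
  have hcard : (insert x s).card = s.card + 1 := Finset.card_insert_of_notMem hx
  have hlow : ∀ k, 2 ≤ k → ∃ c ∈ allIn (VX (insert x s)),
      s.card - j + NN (j + 1) k ≤ finrank ℂ (res (VX (insert x s)) k j c) := by
    intro k hk
    obtain ⟨c, hc, hr⟩ := res_lower (Finset.Subset.refl (insert x s)) (k := k) (j := j) hk
      (by omega)
    refine ⟨c, hc, le_trans (le_of_eq ?_) hr⟩
    rw [hcard, Nat.add_sub_add_right]
  have hup : ∀ k c, finrank ℂ (res (VX (insert x s)) k j c) ≤ s.card + 1 + NN (j + 1) k :=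
    fun k c => hcard ▸ res_upper (insert x s) k j c
  let P := ι → allIn (VX (insert x s))
  let L : ι → P →ₗ[ℂ] (ℕ → MvPolynomial σ ℂ) := fun i =>
    (allIn (VX (insert x s))).subtype ∘ₗ LinearMap.proj i
  have hL : ∀ (c : P) i a, L i c a ∈ VX (insert x s) := fun c i => mem_allIn.mp (c i).2
  have hE : ∀ k, Ext (fun c : P => ⨆ i, res (VX (insert x s)) k j (L i c)) := fun k =>
    Ext.iSup fun i => (ext_res _ _ _).comp_linear (L i)
  have hle : ∀ k, 1 ≤ k → ∀ c : P, (⨆ i, res (VX (insert x s)) k j (L i c)) ≤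
      VX (insert x s) ^ k := fun k hk c => iSup_le fun i => res_le hk (fun a _ => hL c i a) le_rfl
  have e1 : ∃ c : P, VX (insert x s) ^ (m + 2) ≤ ⨆ i, res (VX (insert x s)) (m + 2) j (L i c) := by
    obtain ⟨U, hU, hfill⟩ := bc_fill (insert x s) _ le_rfl _ (m + 2)
      (good_res (insert x s) (by omega) j) () μ _ _ (hlow _ (by omega)) (fun c _ => hup _ c)
      (by rwa [hcard])
    obtain ⟨d, hd⟩ := Nat.exists_eq_add_of_le h2
    obtain ⟨U', hU'⟩ := exists_reach (⟨fun _ => allIn (VX (insert x s)),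
      fun _ => res (VX (insert x s)) (m + 2) j⟩ : Sys (MvPolynomial σ ℂ) Unit)
      (Multiset.replicate d ())
    have hR := reach_add _ hU hU'
    rw [← Multiset.replicate_add, ← hd] at hR
    obtain ⟨c, hc, he⟩ := (reach_family _ (fun _ : ι => ()) (by simp) _).mp hR
    exact ⟨fun i => ⟨c i, hc i⟩, hfill.trans (le_sup_left.trans he.le)⟩
  obtain ⟨U, hU, hrank⟩ := bc_rank (insert x s) _ le_rfl _ (m + 3)
    (good_res (insert x s) (by omega) j) (fun _ => s.card - j + NN (j + 1) (m + 3)) _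
    (Multiset.replicate (Fintype.card ι) ()) (fun _ _ => hlow _ (by omega))
    (fun _ _ c _ => hup _ c)
  obtain ⟨c2, hc2, rfl⟩ := (reach_family _ (fun _ : ι => ()) (by simp) _).mp hU
  have oN : Opn (fun c : P => ∀ i, coeff (Finsupp.single x 1) (L i c j) ≠ 0) :=
    Opn.forall fun i => opn_ne_zero (lcoeff ℂ (Finsupp.single x 1) ∘ₗ
      (LinearMap.proj j : (ℕ → MvPolynomial σ ℂ) →ₗ[ℂ] MvPolynomial σ ℂ) ∘ₗ L i)
  have o1 := (hE (m + 2)).opn_fill _ (hle _ (by omega))
  have o2 := (hE (m + 3)).opn_finrank _ (hle _ (by omega))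
    (finrank ℂ ↥(⨆ i, res (VX (insert x s)) (m + 3) j (c2 i)))
  obtain ⟨c, ⟨hc1, hc3⟩, hN⟩ := (o1.and o2).exists_and oN
    (o1.exists_and o2 e1 ⟨fun i => ⟨c2 i, hc2 i⟩, le_rfl⟩)
    ⟨fun _ => ⟨fun _ => X x, mem_allIn.mpr fun _ => X_mem_insert s x⟩, fun i => by
      change coeff _ (X x) ≠ 0
      simp⟩
  choose cO hO hres using fun i => exists_oneOut (hL c i) (hN i)
  have hmono : (⨆ i, res (VX (insert x s)) (m + 3) j (L i c)) ≤
      ⨆ i, res (VX (insert x s)) (m + 3) j (cO i) := iSup_mono fun i => hres i _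
  have hfd : FiniteDimensional ℂ ↥(⨆ i, res (VX (insert x s)) (m + 3) j (cO i)) := by
    refine Submodule.finiteDimensional_of_le (S₂ := VX (insert x s) ^ (m + 3))
      (iSup_le fun i => res_le (by omega) (fun a _ => ?_) le_rfl)
    by_cases ha : a = j
    · exact ha ▸ (mem_oneOut.mp (hO i)).1
    · exact VX_le_insert s x ((mem_oneOut.mp (hO i)).2 a ha)
  have hr := hc3.trans (Submodule.finrank_mono hmono)
  refine ⟨cO, hO, fun w hw => ?_, ?_⟩
  · have h3 : pderiv x w ∈ (⨆ i, res (VX (insert x s)) (m + 3) j (L i c)).map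
        (pderiv x).toLinearMap := by
      rw [Submodule.map_iSup]
      exact (hc1.trans (iSup_mono fun i => res_le_map_pderiv_res hx (fun a _ => hL c i a) (hN i)))
        (pderiv_mem_pow x hw)
    obtain ⟨u, hu, hd⟩ := h3
    have h4 : w - u ∈ VX s ^ (m + 3) := by
      refine mem_pow_of_pderiv_eq_zero (sub_mem hw (hle _ (by omega) c hu)) ?_
      rw [map_sub]
      exact sub_eq_zero.mpr hd.symm
    exact Submodule.mem_sup.mpr ⟨u, hmono hu, w - u, h4, by ring⟩
  · rw [finrank_VX_pow, hcard, Multiset.map_replicate, Multiset.sum_replicate, smul_eq_mul]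
      at hrank
    rcases hrank with h | h
    · exact Or.inl (h.trans hr)
    · exact Or.inr (h.trans (Nat.add_le_add_right hr _))

theorem resFill2 (s : Finset σ) (x : σ) (hx : x ∉ s) {k j : ℕ}
    (hk : 3 ≤ k) (ιO ιB ιF : Type) [Fintype ιO] [Fintype ιB] [Fintype ιF]
    (h : ResCond2 s.card k j (Fintype.card ιO) (Fintype.card ιB) (Fintype.card ιF)) :
    ∃ (cO : ιO → ℕ → MvPolynomial σ ℂ) (cB : ιB → ℕ → MvPolynomial σ ℂ)
      (q : ιF → MvPolynomial σ ℂ), (∀ i, cO i ∈ oneOut (VX (insert x s)) (VX s) j) ∧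
      (∀ i, cB i ∈ allIn (VX s)) ∧ (∀ i, q i ∈ VX s) ∧
      VX (insert x s) ^ k ≤ ((⨆ i, res (VX (insert x s)) k j (cO i)) ⊔
        ⨆ i, res (VX s) k j (cB i)) ⊔ ⨆ i, (ℂ ∙ q i) ^ k := by
  have hcard : (insert x s).card = s.card + 1 := Finset.card_insert_of_notMem hx
  have hH : VX s ≤ VX (insert x s) := VX_le_insert s x
  obtain ⟨hj, ⟨μ, h1, h2⟩, h3, h4⟩ := h
  obtain ⟨m, rfl⟩ : ∃ m, k = m + 3 := ⟨k - 3, by omega⟩
  obtain ⟨cO₀, hO₀, hα, hrank⟩ := outside_general hx hj ιO μ h1 h2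
  let S : Sys (MvPolynomial σ ℂ) Bool :=
    ⟨fun b => bif b then oneOut (VX (insert x s)) (VX s) j else allIn (VX s),
      fun b => bif b then res (VX (insert x s)) (m + 3) j else res (VX s) (m + 3) j⟩
  have hV : ∀ b, ∀ c ∈ S.Q b, ∀ a, c a ∈ VX (insert x s) := by
    rintro (_ | _) c hc a
    · exact hH (mem_allIn.mp hc a)
    · by_cases ha : a = j
      · exact ha ▸ (mem_oneOut.mp hc).1
      · exact hH ((mem_oneOut.mp hc).2 a ha)
  have G : Good S (VX (insert x s)) (VX s) (m + 3) :=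
    { ext := by
        rintro (_ | _)
        · exact ext_res _ _ _
        · exact ext_res _ _ _
      le := by
        rintro (_ | _) c hc
        · exact res_le (by omega) (fun i _ => hV _ c hc i) hH
        · exact res_le (by omega) (fun i _ => hV _ c hc i) le_rfl
      memV := hV
      memH := by
        rintro (_ | _) c hc
        · exact mem_allIn.mpr hc
        · exact mem_oneOut.mpr ⟨hH (hc j), fun a _ => hc a⟩
      eqv := by
        rintro (_ | _) c φ h1 h2
        · exact (map_res φ _ _ _ c).le.trans (res_mono h2 _ _ _)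
        · exact (map_res φ _ _ _ c).le.trans (res_mono h1 _ _ _) }
  have hR₀ : Reach S (Multiset.replicate (Fintype.card ιO) true)
      (⨆ i, res (VX (insert x s)) (m + 3) j (cO₀ i)) :=
    (reach_family S (fun _ : ιO => true) (by simp) _).mpr ⟨cO₀, hO₀, rfl⟩
  obtain ⟨U, hU, hr⟩ := bc_rank_rel (insert x s) (VX s) hH S (m + 3) G
    (fun _ => s.card - (j + 1) + NN (j + 1) (m + 3)) (s.card + 1 + NN (j + 1) (m + 3))
    (Fintype.card ιO * (s.card - j + NN (j + 1) (m + 3)))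
    (Multiset.replicate (Fintype.card ιO) true) (Multiset.replicate (Fintype.card ιB) false)
    (fun κ hκ => by
      rw [Multiset.eq_of_mem_replicate hκ]
      exact res_lower (Finset.Subset.refl s) (k := m + 3) (by omega) hj)
    (by
      rintro (_ | _) c -
      · exact (res_upper s _ j c).trans (by omega)
      · exact (res_upper (insert x s) _ j c).trans (by omega))
    ⟨_, hR₀, hα⟩ ⟨_, hR₀, by rw [hcard]; exact hrank⟩
  obtain ⟨U1, U2, hU1, hU2, rfl⟩ := reach_of_add S hU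
  obtain ⟨cO', hO', rfl⟩ := (reach_family S (fun _ : ιO => true) (by simp) _).mp hU1
  obtain ⟨cB', hB', rfl⟩ := (reach_family S (fun _ : ιB => false) (by simp) _).mp hU2
  have hβ : NN (s.card + 1) (m + 3) ≤ finrank ℂ ↥((⨆ i, S.Obj true (cO' i)) ⊔
      ⨆ i, S.Obj false (cB' i)) + Fintype.card ιF := by
    rw [Multiset.map_replicate, Multiset.sum_replicate, smul_eq_mul, hcard] at hr
    rw [sq] at h4
    omega
  let P := (ιO → ↥(oneOut (VX (insert x s)) (VX s) j)) × (ιB → ↥(allIn (VX s)))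
  let LO : ιO → (P →ₗ[ℂ] (ℕ → MvPolynomial σ ℂ)) := fun i =>
    (Submodule.subtype _).comp ((LinearMap.proj i).comp (LinearMap.fst ℂ _ _))
  let LB : ιB → (P →ₗ[ℂ] (ℕ → MvPolynomial σ ℂ)) := fun i =>
    (Submodule.subtype _).comp ((LinearMap.proj i).comp (LinearMap.snd ℂ _ _))
  have eO : Ext (fun c : P => ⨆ i, res (VX (insert x s)) (m + 3) j (c.1 i)) :=
    Ext.iSup fun i => (ext_res _ _ _).comp_linear (LO i)
  have eB : Ext (fun c : P => ⨆ i, res (VX s) (m + 3) j (c.2 i)) :=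
    Ext.iSup fun i => (ext_res _ _ _).comp_linear (LB i)
  have lO : ∀ c : P, (⨆ i, res (VX (insert x s)) (m + 3) j (c.1 i)) ≤
      VX (insert x s) ^ (m + 3) := fun c => iSup_le fun i =>
    res_le (by omega) (fun a _ => hV true _ (c.1 i).2 a) le_rfl
  have lB : ∀ c : P, (⨆ i, res (VX s) (m + 3) j (c.2 i)) ≤ VX (insert x s) ^ (m + 3) :=
    fun c => iSup_le fun i => res_le (by omega) (fun a _ => hH (mem_allIn.mp (c.2 i).2 a)) hH
  have lH : VX s ^ (m + 3) ≤ VX (insert x s) ^ (m + 3) := pow_le_pow_left' hH _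
  have o1 := (eO.sup (Ext.const (VX s ^ (m + 3)))).opn_fill (VX (insert x s) ^ (m + 3))
    fun c => sup_le (lO c) lH
  have o2 := (eO.sup eB).opn_finrank (VX (insert x s) ^ (m + 3)) (fun c => sup_le (lO c) (lB c))
    (NN (s.card + 1) (m + 3) - Fintype.card ιF)
  obtain ⟨c, hc1, hc2⟩ := o1.exists_and o2 ⟨(fun i => ⟨cO₀ i, hO₀ i⟩, 0), hα⟩
    ⟨(fun i => ⟨cO' i, hO' i⟩, fun i => ⟨cB' i, hB' i⟩), Nat.sub_le_iff_le_add.mpr hβ⟩
  have hle : ((⨆ i, res (VX (insert x s)) (m + 3) j (c.1 i)) ⊔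
      ⨆ i, res (VX s) (m + 3) j (c.2 i)) ⊔ VX s ^ (m + 3) ≤ VX (insert x s) ^ (m + 3) :=
    sup_le (sup_le (lO c) (lB c)) lH
  have hfd := Submodule.finiteDimensional_of_le hle
  obtain ⟨q, hq, hfill⟩ := pure_filler (VX s) _ (m + 3) (hfd := hfd) ιF (by
    have h5 := Submodule.finrank_mono hle
    rw [finrank_VX_pow, hcard] at h5
    exact h5.trans (Nat.sub_le_iff_le_add.mp hc2))
  exact ⟨fun i => c.1 i, fun i => c.2 i, q, fun i => (c.1 i).2, fun i => (c.2 i).2, hq,
    hc1.trans (sup_le (le_sup_left.trans le_sup_left) hfill)⟩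

end Pool.Agent.P.MP_c64be1_ag.Asy
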