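import Pool.Agent.P.MP_c64be1_ag.Asy.Defs

/-! The numerical criterion holds in large degree, uniformly in the dimension. -/

namespace Pool.Agent.P.MP_c64be1_ag.Asy

theorem star_step {r c k n : ℕ} (hk : 31 ≤ k) (hn : 1 ≤ n)
    (h : 5 * (n + k) ^ 2 * (r * n + c) ^ 3 ≤ NN n k) :
    5 * (n + 1 + k) ^ 2 * (r * (n + 1) + c) ^ 3 ≤ NN (n + 1) k := by
  have e : NN n k * (n + k) = NN (n + 1) k * n := by
    have := Nat.choose_mul_succ_eq (n + k - 1) k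
    rwa [show n + k - 1 + 1 = n + k by omega, Nat.add_sub_cancel,
      show n + k = n + 1 + k - 1 by omega, show n + 1 + k - 1 - 1 = n + k - 1 by omega,
      ← NN, ← NN, show n + 1 + k - 1 = n + k by omega] at this
  have h1 : n * (n + 1 + k) ≤ (n + 1) * (n + k) := by nlinarith
  have h2 : n * (r * (n + 1) + c) ≤ (n + 1) * (r * n + c) := by nlinarith
  have h3 : (n + 1) ^ 5 ≤ n ^ 4 * (n + k) := by
    have a1 : n ^ 3 ≤ n ^ 4 := Nat.pow_le_pow_right hn (by omega)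
    have a2 : n ^ 2 ≤ n ^ 4 := Nat.pow_le_pow_right hn (by omega)
    have a3 : n ^ 1 ≤ n ^ 4 := Nat.pow_le_pow_right hn (by omega)
    have a4 : n ^ 0 ≤ n ^ 4 := Nat.pow_le_pow_right hn (by omega)
    calc (n + 1) ^ 5 = n ^ 5 + 5 * n ^ 4 + 10 * n ^ 3 + 10 * n ^ 2 + 5 * n ^ 1 + n ^ 0 := by ring
      _ ≤ n ^ 5 + 31 * n ^ 4 := by omega
      _ = n ^ 4 * (n + 31) := by ring
      _ ≤ _ := by gcongr
  refine Nat.le_of_mul_le_mul_left (c := n ^ 5) ?_ (by positivity)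
  calc n ^ 5 * (5 * (n + 1 + k) ^ 2 * (r * (n + 1) + c) ^ 3)
      = 5 * (n * (n + 1 + k)) ^ 2 * (n * (r * (n + 1) + c)) ^ 3 := by ring
    _ ≤ 5 * ((n + 1) * (n + k)) ^ 2 * ((n + 1) * (r * n + c)) ^ 3 := by gcongr
    _ = (n + 1) ^ 5 * (5 * (n + k) ^ 2 * (r * n + c) ^ 3) := by ring
    _ ≤ n ^ 4 * (n + k) * NN n k := by gcongr
    _ = n ^ 4 * (NN n k * (n + k)) := by ring
    _ = _ := by rw [e]; ring

theorem star_base (j : ℕ) : ∃ K : ℕ, ∀ k, K ≤ k →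
    5 * (3 * (j + 1) + 1 + k) ^ 2 * ((j + 1) * (3 * (j + 1) + 1) + NN (j + 1) k) ^ 3 ≤
      NN (3 * (j + 1) + 1) k := by
  obtain ⟨C, hC⟩ : ∃ C, C = (j + 1) * (3 * (j + 1) + 1) + 2 ^ j := ⟨_, rfl⟩
  refine ⟨max (3 * (j + 1) + 1) (20 * (3 * (j + 1)).factorial * C ^ 3), fun k hk => ?_⟩
  rw [max_le_iff] at hk
  have k0 : 1 ≤ k := by omega
  have h1 : NN (j + 1) k ≤ 2 ^ j * k ^ j := by
    rw [NN, show j + 1 + k - 1 = j + k by omega, ← Nat.choose_symm_add, ← mul_pow]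
    exact (Nat.choose_le_pow _ _).trans (Nat.pow_le_pow_left (by omega) _)
  have h2 : (j + 1) * (3 * (j + 1) + 1) + NN (j + 1) k ≤ C * k ^ j := by
    rw [hC, add_mul _ (2 ^ j)]
    exact add_le_add (Nat.le_mul_of_pos_right _ (by positivity)) h1
  have h3 : k ^ (3 * (j + 1)) ≤ (3 * (j + 1)).factorial * NN (3 * (j + 1) + 1) k := by
    rw [NN, show 3 * (j + 1) + 1 + k - 1 = k + 3 * (j + 1) by omega, Nat.choose_symm_add,
      ← Nat.ascFactorial_eq_factorial_mul_choose]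
    exact (Nat.pow_le_pow_left (Nat.le_succ k) _).trans (Nat.pow_succ_le_ascFactorial _ _)
  refine Nat.le_of_mul_le_mul_left (le_trans ?_ h3) (Nat.factorial_pos _)
  calc (3 * (j + 1)).factorial *
        (5 * (3 * (j + 1) + 1 + k) ^ 2 * ((j + 1) * (3 * (j + 1) + 1) + NN (j + 1) k) ^ 3)
      ≤ (3 * (j + 1)).factorial * (5 * (2 * k) ^ 2 * (C * k ^ j) ^ 3) := by
        gcongr
        omega
    _ = 20 * (3 * (j + 1)).factorial * C ^ 3 * k ^ (3 * j + 2) := by ring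
    _ ≤ k * k ^ (3 * j + 2) := by gcongr; exact hk.2
    _ = _ := by ring

theorem star_of_large (r : ℕ) (hr : 1 ≤ r) : ∃ K : ℕ, ∀ k n : ℕ, K ≤ k → 3 * r < n →
    5 * (n + k) ^ 2 * (r * n + NN r k) ^ 3 ≤ (n - r) * NN n k := by
  obtain ⟨j, rfl⟩ : ∃ j, r = j + 1 := ⟨r - 1, by omega⟩
  obtain ⟨K, hK⟩ := star_base j
  refine ⟨max K 31, fun k n hk hn => ?_⟩
  rw [max_le_iff] at hk
  refine le_trans ?_ (Nat.le_mul_of_pos_left _ (by omega))
  induction n, hn using Nat.le_induction with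
  | base => exact hK k hk.1
  | succ n hn ih => exact star_step hk.2 (by omega) ih

end Pool.Agent.P.MP_c64be1_ag.Asy
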