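import Pool.Agent.P.MP_c64be1_ag.Asy.Main
import Pool.Agent.P.MP_c64be1_ag.Asy.ResFill2
import Pool.Agent.P.MP_c64be1_ag.Asy.NumK
import Pool.Agent.P.MP_c64be1_ag.Asy.Star

/-! A numerical criterion in degree at least five, and finiteness of the exceptions. -/

namespace Pool.Agent.P.MP_c64be1_ag.Asy

open Multiset

theorem isLeast_of_fill {n k r : ℕ} (hk : 2 ≤ k) (hr : 1 ≤ r) (hrn : r ≤ n)
    (h : ∀ S, NN n k ≤ S * (r * (n - r) + NN r k) →
      S * (r * (n - r) + NN r k) < NN n k + (r * (n - r) + NN r k) →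
      Fill (Finset.univ : Finset (Fin n)) k (replicate S (Sum.inl r))) :
    IsLeast {s : ℕ | SecantFills (Fin n) k r s}
      ((n + k - 1).choose k ⌈/⌉ (r * (n - r) + (r + k - 1).choose k)) := by
  have hδ : 0 < r * (n - r) + NN r k :=
    Nat.add_pos_right _ (Nat.choose_pos (by omega))
  change IsLeast _ (NN n k ⌈/⌉ (r * (n - r) + NN r k))
  set δ := r * (n - r) + NN r k with hδdef
  have hS : NN n k ≤ (NN n k ⌈/⌉ δ) * δ := by
    have := le_smul_ceilDiv (b := NN n k) hδ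
    rwa [smul_eq_mul, mul_comm] at this
  have hS' : (NN n k ⌈/⌉ δ) * δ < NN n k + δ := by
    rw [Nat.ceilDiv_eq_add_pred_div]
    have := Nat.div_mul_le_self (NN n k + δ - 1) δ
    omega
  refine ⟨secantFills_of_fill hk hrn (h _ hS hS'), fun s hs => ?_⟩
  by_contra hlt
  refine not_secantFills_of_lt hrn ?_ hs
  by_contra hge
  exact hlt ((ceilDiv_le_iff_le_mul hδ).mpr (by rw [mul_comm]; exact not_lt.mp hge))

theorem isLeast_of_criterion (n k r : ℕ) (hk : 5 ≤ k) (hr : 1 ≤ r) (hn : r + 2 ≤ n)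
    (h : 5 * (n + k) ^ 2 * (r * n + (r + k - 1).choose k) ^ 3 ≤ (n - r) * (n + k - 1).choose k) :
    IsLeast {s : ℕ | SecantFills (Fin n) k r s}
      ((n + k - 1).choose k ⌈/⌉ (r * (n - r) + (r + k - 1).choose k)) := by
  refine isLeast_of_fill (by omega) hr (by omega) fun S hS hS' => ?_
  obtain ⟨j, rfl⟩ : ∃ j, r = j + 1 := ⟨r - 1, by omega⟩
  obtain ⟨n, rfl⟩ : ∃ m, n = m + 1 := ⟨n - 1, by omega⟩
  rw [Nat.add_sub_add_right] at h hS hS'
  obtain ⟨a, mo, b, rfl, hres, hfin⟩ := numK j k n S hk (by omega) h hS hS'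
  obtain ⟨x, t, hx, ht, hc⟩ := Finset.card_eq_succ.mp
    (show (Finset.univ : Finset (Fin (n + 1))).card = n + 1 by simp)
  rw [← ht, replicate_add]
  refine step4_gen t x hx (by omega) j mo b _ (fun ιF _ hF => resFill2 t x hx (by omega)
    (Fin mo) (Fin b) ιF ?_) (finish t (by omega) _ (by rw [hc]; exact hfin))
  rw [hF, Fintype.card_fin, Fintype.card_fin, hc, map_replicate, sum_replicate, smul_eq_mul]
  exact hres

theorem isLeast_cofinite (r : ℕ) (hr : 1 ≤ r) : ∃ B : ℕ, ∀ n k : ℕ, 3 ≤ k → 3 * r < n →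
    B ≤ n + k → IsLeast {s : ℕ | SecantFills (Fin n) k r s}
      ((n + k - 1).choose k ⌈/⌉ (r * (n - r) + (r + k - 1).choose k)) := by
  obtain ⟨K, hK⟩ := star_of_large r hr
  refine ⟨(K + 5) + (10 ^ 5 * ((K + 5) * (r + 1)) ^ 3 + 100 * 2 ^ (r + (K + 5))),
    fun n k hk hn hB => ?_⟩
  by_cases h : K + 5 ≤ k
  · exact isLeast_of_criterion n k r (by omega) hr (by omega) (hK k n (by omega) hn)
  · refine isLeast_asymptotic n k r hk hr ?_
    have h1 : (k * (r + 1)) ^ 3 ≤ ((K + 5) * (r + 1)) ^ 3 :=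
      Nat.pow_le_pow_left (Nat.mul_le_mul_right _ (by omega)) 3
    have h2 : (r + k - 1).choose k ≤ 2 ^ (r + (K + 5)) :=
      (Nat.choose_le_two_pow _ _).trans (Nat.pow_le_pow_right (by norm_num) (by omega))
    omega

end Pool.Agent.P.MP_c64be1_ag.Asy
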