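import Pool.Agent.P.MP_c64be1_ag.Asy.Polar

/-! Formal properties of the objects. -/

namespace Pool.Agent.P.MP_c64be1_ag.Asy

open Module

variable {A : Type} [CommRing A] [Algebra ℂ A]

lemma mem_allIn {V : Submodule ℂ A} {c : ℕ → A} : c ∈ allIn V ↔ ∀ a, c a ∈ V := by
  simp [allIn]

lemma mem_oneOut {V H : Submodule ℂ A} {j : ℕ} {c : ℕ → A} :
    c ∈ oneOut V H j ↔ c j ∈ V ∧ ∀ a, a ≠ j → c a ∈ H := by
  simp only [oneOut, Submodule.mem_pi, Set.mem_univ, forall_const]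
  refine ⟨fun h => ⟨by simpa using h j, fun a ha => by simpa [ha] using h a⟩, fun h a => ?_⟩
  by_cases ha : a = j
  · subst ha
    simpa using h.1
  · simpa [ha] using h.2 a ha

lemma mem_sp (c : ℕ → A) {j i : ℕ} (hi : i < j) : c i ∈ sp c j :=
  Submodule.mem_iSup_of_mem (⟨i, hi⟩ : Fin j) (Submodule.mem_span_singleton_self _)

lemma sp_le_iff {c : ℕ → A} {j : ℕ} {V : Submodule ℂ A} : sp c j ≤ V ↔ ∀ i < j, c i ∈ V :=
  ⟨fun h _ hi => h (mem_sp c hi), fun h => iSup_le fun i =>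
    (Submodule.span_singleton_le_iff_mem _ _).mpr (h i i.2)⟩

lemma sp_congr {c c' : ℕ → A} {j : ℕ} (h : ∀ i < j, c i = c' i) : sp c j = sp c' j := by
  unfold sp
  exact iSup_congr fun i => by rw [h i i.2]

lemma sp_succ (c : ℕ → A) (j : ℕ) : sp c (j + 1) = sp c j ⊔ ℂ ∙ c j := by
  refine le_antisymm (sp_le_iff.mpr fun i hi => ?_) (sup_le (sp_le_iff.mpr fun i hi =>
    mem_sp c (by omega)) ((Submodule.span_singleton_le_iff_mem _ _).mpr (mem_sp c (by omega))))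
  rcases Nat.lt_succ_iff_lt_or_eq.mp hi with h | rfl
  · exact Submodule.mem_sup_left (mem_sp c h)
  · exact Submodule.mem_sup_right (Submodule.mem_span_singleton_self _)

lemma polyMap_apply (a : ℕ) : PolyMap (fun c : ℕ → A => c a) :=
  PolyMap.linear (LinearMap.proj a : (ℕ → A) →ₗ[ℂ] A)

lemma ext_sp (j : ℕ) : Ext (fun c : ℕ → A => sp c j) :=
  Ext.iSup fun i : Fin j => Ext.span (polyMap_apply i)

lemma ext_blk (V : Submodule ℂ A) (k j : ℕ) : Ext (blk V k j) :=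
  ((ext_sp j).pow k).sup (Ext.iSup fun i : Fin j =>
    ((Ext.span (polyMap_apply i)).pow (k - 1)).mul (Ext.const V))

lemma ext_res (V : Submodule ℂ A) (k j : ℕ) : Ext (res V k j) :=
  ((ext_sp (j + 1)).pow k).sup (((Ext.span (polyMap_apply j)).pow (k - 1)).mul (Ext.const V))

lemma ext_jj (k g : ℕ) : Ext (jj k g : (ℕ → A) → Submodule ℂ A) :=
  Ext.iSup fun i : Fin g => Ext.iSup fun l : Fin g =>
    (Ext.span ((polyMap_apply i).pow k)).sup (Ext.span
      ((((polyMap_apply i).pow (k - 2)).mul (polyMap_apply l)).mul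
        ((polyMap_apply i).sub (polyMap_apply l))))

lemma span_pow_mul_le {V W : Submodule ℂ A} {k : ℕ} (hk : 1 ≤ k) {p : A} (hp : p ∈ W)
    (hV : V ≤ W) : (ℂ ∙ p) ^ (k - 1) * V ≤ W ^ k := by
  obtain ⟨m, rfl⟩ : ∃ m, k = m + 1 := ⟨k - 1, by omega⟩
  rw [pow_succ, Nat.add_sub_cancel]
  exact mul_le_mul' (pow_le_pow_left' ((Submodule.span_singleton_le_iff_mem _ _).mpr hp) m) hV

lemma blk_le {V W : Submodule ℂ A} {k j : ℕ} (hk : 1 ≤ k) {c : ℕ → A} (hc : ∀ i < j, c i ∈ W)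
    (hV : V ≤ W) : blk V k j c ≤ W ^ k :=
  sup_le (pow_le_pow_left' (sp_le_iff.mpr hc) k)
    (iSup_le fun i => span_pow_mul_le hk (hc i i.2) hV)

lemma res_le {V W : Submodule ℂ A} {k j : ℕ} (hk : 1 ≤ k) {c : ℕ → A} (hc : ∀ i < j + 1, c i ∈ W)
    (hV : V ≤ W) : res V k j c ≤ W ^ k :=
  sup_le (pow_le_pow_left' (sp_le_iff.mpr hc) k) (span_pow_mul_le hk (hc j (by omega)) hV)

lemma jj_le {W : Submodule ℂ A} {k g : ℕ} (hk : 2 ≤ k) {c : ℕ → A} (hc : ∀ i < g, c i ∈ W) :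
    jj k g c ≤ W ^ k := by
  refine iSup_le fun i => iSup_le fun l => sup_le ?_ ?_
  · exact (Submodule.span_singleton_le_iff_mem _ _).mpr (Submodule.pow_mem_pow _ (hc i i.2) k)
  · obtain ⟨m, rfl⟩ : ∃ m, k = m + 2 := ⟨k - 2, by omega⟩
    refine (Submodule.span_singleton_le_iff_mem _ _).mpr ?_
    rw [pow_succ, pow_succ, Nat.add_sub_cancel]
    exact Submodule.mul_mem_mul (Submodule.mul_mem_mul (Submodule.pow_mem_pow _ (hc i i.2) m)
      (hc l l.2)) (sub_mem (hc i i.2) (hc l l.2))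

lemma blk_mono {V W : Submodule ℂ A} (h : V ≤ W) (k j : ℕ) (c : ℕ → A) :
    blk V k j c ≤ blk W k j c :=
  sup_le_sup_left (iSup_mono fun _ => mul_le_mul_right h _) _

lemma blk_congr (V : Submodule ℂ A) (k : ℕ) {j : ℕ} {c c' : ℕ → A} (h : ∀ i < j, c i = c' i) :
    blk V k j c = blk V k j c' := by
  unfold blk
  rw [sp_congr h]
  congr 1
  exact iSup_congr fun i => by rw [h i i.2]

lemma blk_le_succ (V : Submodule ℂ A) (k j : ℕ) (c : ℕ → A) : blk V k j c ≤ blk V k (j + 1) c :=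
  sup_le_sup (pow_le_pow_left' (by rw [sp_succ]; exact le_sup_left) k)
    (iSup_le fun i => le_iSup_of_le (f := fun i : Fin (j + 1) => (ℂ ∙ c i) ^ (k - 1) * V)
      i.castSucc le_rfl)

lemma pow_mul_mem_blk {V : Submodule ℂ A} (k : ℕ) {j i : ℕ} (c : ℕ → A) (hi : i < j) {v : A}
    (hv : v ∈ V) : c i ^ (k - 1) * v ∈ blk V k j c :=
  Submodule.mem_sup_right (Submodule.mem_iSup_of_mem (⟨i, hi⟩ : Fin j) (pow_mul_mem _ hv))

lemma sp_pow_le_blk (V : Submodule ℂ A) (k j : ℕ) (c : ℕ → A) : sp c j ^ k ≤ blk V k j c :=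
  le_sup_left

lemma span_pow_le_jj (k : ℕ) {g i : ℕ} (c : ℕ → A) (hi : i < g) : (ℂ ∙ c i) ^ k ≤ jj k g c := by
  rw [span_pow_eq]
  exact le_iSup_of_le (⟨i, hi⟩ : Fin g) (le_iSup_of_le (⟨i, hi⟩ : Fin g) le_sup_left)

section maps

variable {B : Type} [CommRing B] [Algebra ℂ B] (φ : A →ₐ[ℂ] B)

lemma map_span_singleton (a : A) : (ℂ ∙ a).map φ.toLinearMap = ℂ ∙ φ a := by
  rw [Submodule.map_span, Set.image_singleton]
  rfl

lemma map_sp (c : ℕ → A) (j : ℕ) : (sp c j).map φ.toLinearMap = sp (fun a => φ (c a)) j := by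
  simp only [sp, Submodule.map_iSup, map_span_singleton]

lemma map_blk (V : Submodule ℂ A) (k j : ℕ) (c : ℕ → A) :
    (blk V k j c).map φ.toLinearMap = blk (V.map φ.toLinearMap) k j (fun a => φ (c a)) := by
  simp only [blk, Submodule.map_sup, Submodule.map_iSup, Submodule.map_mul, Submodule.map_pow,
    map_sp, map_span_singleton]

lemma map_res (V : Submodule ℂ A) (k j : ℕ) (c : ℕ → A) :
    (res V k j c).map φ.toLinearMap = res (V.map φ.toLinearMap) k j (fun a => φ (c a)) := by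
  simp only [res, Submodule.map_sup, Submodule.map_mul, Submodule.map_pow,
    map_sp, map_span_singleton]

lemma map_jj (k g : ℕ) (c : ℕ → A) :
    (jj k g c).map φ.toLinearMap = jj k g (fun a => φ (c a)) := by
  simp only [jj, Submodule.map_sup, Submodule.map_iSup, map_span_singleton, map_pow, map_mul,
    map_sub]

end maps

lemma res_mono {V W : Submodule ℂ A} (h : V ≤ W) (k j : ℕ) (c : ℕ → A) :
    res V k j c ≤ res W k j c :=
  sup_le_sup_left (mul_le_mul_right h _) _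

lemma ext_msys (V : Submodule ℂ A) (k : ℕ) (κ : ℕ ⊕ ℕ) : Ext ((msys V k).Obj κ) := by
  rcases κ with j | g
  · exact ext_blk V k j
  · exact ext_jj k g

lemma msys_le {V W : Submodule ℂ A} {k : ℕ} (hk : 2 ≤ k) (hV : V ≤ W) (κ : ℕ ⊕ ℕ) {c : ℕ → A}
    (hc : ∀ a, c a ∈ W) : (msys V k).Obj κ c ≤ W ^ k := by
  rcases κ with j | g
  · exact blk_le (by omega) (fun i _ => hc i) hV
  · exact jj_le hk fun i _ => hc i

lemma msys_mono {V W : Submodule ℂ A} (h : V ≤ W) (k : ℕ) (κ : ℕ ⊕ ℕ) (c : ℕ → A) :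
    (msys V k).Obj κ c ≤ (msys W k).Obj κ c := by
  rcases κ with j | g
  · exact blk_mono h k j c
  · exact le_rfl

lemma pow_mul_mem_msys {V : Submodule ℂ A} (k : ℕ) (κ : ℕ ⊕ ℕ) (c : ℕ → A) {i : ℕ}
    (hi : i < pts κ) {v : A} (hv : v ∈ V) : c i ^ (k - 1) * v ∈ (msys V k).Obj κ c := by
  rcases κ with j | g
  · exact pow_mul_mem_blk k c hi hv
  · exact absurd hi (Nat.not_lt_zero _)

lemma good_msys (V : Submodule ℂ A) {k : ℕ} (hk : 2 ≤ k) : Good (msys V k) V V k where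
  ext := ext_msys V k
  le := fun κ _ hc => msys_le hk le_rfl κ (mem_allIn.mp hc)
  memV := fun _ _ hc => mem_allIn.mp hc
  memH := fun _ _ hc => mem_allIn.mpr hc
  eqv := fun κ c φ hV _ => by
    rcases κ with j | g
    · exact (map_blk φ V k j c).le.trans (blk_mono hV k j _)
    · exact (map_jj φ k g c).le

end Pool.Agent.P.MP_c64be1_ag.Asy
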