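import Pool.Agent.P.MP_c64be1_ag.Asy.Curve

/-! Polarisation, free simple points, and small facts on powers of subspaces. -/

namespace Pool.Agent.P.MP_c64be1_ag.Asy

open Module

variable {A : Type} [CommRing A] [Algebra ℂ A]

lemma map_pow_scale {B : Type} [CommRing B] [Algebra ℂ B] (φ ψ : A →ₐ[ℂ] B) (V : Submodule ℂ A)
    (τ : ℂ) (h : ∀ v ∈ V, ψ v = τ • φ v) (k : ℕ) {w : A} (hw : w ∈ V ^ k) :
    ψ w = τ ^ k • φ w := by
  induction hw using Submodule.pow_induction_on_left' with
  | algebraMap r => simp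
  | add x y i _ _ hx hy => simp [hx, hy]
  | mem_mul m hm i x _ hx =>
    rw [map_mul, map_mul, hx, h m hm, smul_mul_smul_comm, pow_succ']

lemma span_pow_le_iff {a : A} {k : ℕ} {M : Submodule ℂ A} : (ℂ ∙ a) ^ k ≤ M ↔ a ^ k ∈ M := by
  rw [Submodule.span_pow, Set.singleton_pow, Submodule.span_singleton_le_iff_mem]

lemma span_pow_eq (a : A) (k : ℕ) : (ℂ ∙ a) ^ k = ℂ ∙ a ^ k := by
  rw [Submodule.span_pow, Set.singleton_pow]

lemma span_mul_le_iff {a : A} {V M : Submodule ℂ A} : (ℂ ∙ a) * V ≤ M ↔ ∀ v ∈ V, a * v ∈ M := by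
  refine ⟨fun h v hv => h (Submodule.mul_mem_mul (Submodule.mem_span_singleton_self a) hv),
    fun h => Submodule.mul_le.mpr fun m hm v hv => ?_⟩
  obtain ⟨t, rfl⟩ := Submodule.mem_span_singleton.mp hm
  rw [smul_mul_assoc]
  exact M.smul_mem t (h v hv)

lemma pow_mul_mem {a v : A} {V : Submodule ℂ A} (k : ℕ) (hv : v ∈ V) :
    a ^ k * v ∈ (ℂ ∙ a) ^ k * V :=
  Submodule.mul_mem_mul (Submodule.pow_mem_pow _ (Submodule.mem_span_singleton_self a) k) hv

/-- Polarisation: the powers of elements of `H` span the power of `H`. -/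
lemma polar (H : Submodule ℂ A) (k : ℕ) (M : Submodule ℂ A) (h : ∀ p ∈ H, p ^ k ∈ M) :
    H ^ k ≤ M := by
  have key : ∀ i m : ℕ, i + m = k → ∀ p ∈ H, ∀ w ∈ H ^ i, p ^ m * w ∈ M := by
    intro i
    induction i with
    | zero =>
      intro m hm p hp w hw
      rw [pow_zero] at hw
      obtain ⟨a, rfl⟩ := Submodule.mem_one.mp hw
      rw [mul_comm, ← Algebra.smul_def]
      exact M.smul_mem a (by rw [← (by omega : m = k)] at h; exact h p hp)
    | succ i ih =>
      intro m hm p hp w hw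
      rw [pow_succ'] at hw
      induction hw using Submodule.mul_induction_on' with
      | add x _ y _ hx hy => rw [mul_add]; exact add_mem hx hy
      | mem_mul_mem q hq w hw =>
        have hF : (fun t : ℂ => (∑ l ∈ Finset.range (m + 1), (p + t • q) ^ l * p ^ (m - l)) *
            (q * w)) ∈ Crv A :=
          crv_mul (crv_sum _ fun l _ => crv_mul (crv_pow (crv_line p q) l) (crv_const _))
            (crv_const _)
        have h1 := mem_of_crv_ne_zero hF M (fun t ht => by
          have h2 := ih (m + 1) (by omega) (p + t • q) (add_mem hp (H.smul_mem t hq)) w hw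
          have h3 := ih (m + 1) (by omega) p hp w hw
          have h4 := (Commute.all (p + t • q) p).geom_sum₂_mul (m + 1)
          simp only [Nat.add_sub_cancel] at h4
          have h5 : t • ((∑ l ∈ Finset.range (m + 1), (p + t • q) ^ l * p ^ (m - l)) * (q * w))
              = (p + t • q) ^ (m + 1) * w - p ^ (m + 1) * w := by
            rw [← sub_mul, ← h4, add_sub_cancel_left]
            simp only [mul_smul_comm, smul_mul_assoc, mul_assoc]
          have h6 := sub_mem h2 h3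
          rw [← h5] at h6
          exact (M.smul_mem_iff ht).mp h6)
        simp only [zero_smul, add_zero] at h1
        have h7 : ∑ l ∈ Finset.range (m + 1), p ^ l * p ^ (m - l) = ((m + 1 : ℕ) : ℂ) • p ^ m := by
          rw [Finset.sum_congr rfl (g := fun _ => p ^ m) (fun l hl => by
            rw [← pow_add]
            congr 1
            have := Finset.mem_range.mp hl
            omega)]
          rw [Finset.sum_const, Finset.card_range, Nat.cast_smul_eq_nsmul]
        rw [h7, smul_mul_assoc] at h1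
        exact (M.smul_mem_iff (Nat.cast_ne_zero.mpr (Nat.succ_ne_zero m))).mp h1
  intro w hw
  simpa using key k 0 rfl 0 H.zero_mem w hw

private lemma pure_filler_fin (H : Submodule ℂ A) (k a : ℕ) :
    ∀ U : Submodule ℂ A, FiniteDimensional ℂ ↥(U ⊔ H ^ k) →
      finrank ℂ ↥(U ⊔ H ^ k) ≤ finrank ℂ U + a →
      ∃ q : Fin a → A, (∀ i, q i ∈ H) ∧ H ^ k ≤ U ⊔ ⨆ i, (ℂ ∙ q i) ^ k := by
  induction a with
  | zero =>
    intro U hfd h
    refine ⟨fun _ => 0, fun _ => H.zero_mem, ?_⟩
    have := Submodule.eq_of_le_of_finrank_le (le_sup_left : U ≤ U ⊔ H ^ k) h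
    exact le_sup_right.trans (this.ge.trans le_sup_left)
  | succ a ih =>
    intro U hfd h
    by_cases hU : H ^ k ≤ U
    · exact ⟨fun _ => 0, fun _ => H.zero_mem, hU.trans le_sup_left⟩
    obtain ⟨p, hp, hpU⟩ : ∃ p ∈ H, p ^ k ∉ U := by
      by_contra hn
      push Not at hn
      exact hU (polar H k U hn)
    have hle : (ℂ ∙ p) ^ k ≤ H ^ k := span_pow_le_iff.mpr (Submodule.pow_mem_pow _ hp k)
    have he : (U ⊔ (ℂ ∙ p) ^ k) ⊔ H ^ k = U ⊔ H ^ k := by
      rw [sup_assoc, sup_eq_right.mpr hle]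
    have hlt : U < U ⊔ (ℂ ∙ p) ^ k := by
      refine lt_of_le_of_ne le_sup_left fun h0 => hpU ?_
      rw [h0]
      exact Submodule.mem_sup_right (span_pow_le_iff.mp le_rfl)
    have hfd' : FiniteDimensional ℂ ↥(U ⊔ (ℂ ∙ p) ^ k) :=
      Submodule.finiteDimensional_of_le (sup_le_sup_left hle U)
    have hr := Submodule.finrank_lt_finrank_of_lt hlt
    obtain ⟨q, hq, hfill⟩ := ih (U ⊔ (ℂ ∙ p) ^ k) (he ▸ hfd) (by rw [he]; omega)
    refine ⟨Fin.cons p q, fun i => Fin.cases hp hq i, hfill.trans ?_⟩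
    refine sup_le (sup_le le_sup_left (le_sup_of_le_right ?_)) (le_sup_of_le_right ?_)
    · exact le_iSup_of_le (f := fun i => (ℂ ∙ (Fin.cons p q : Fin (a + 1) → A) i) ^ k) 0 le_rfl
    · exact iSup_le fun i => le_iSup_of_le
        (f := fun i => (ℂ ∙ (Fin.cons p q : Fin (a + 1) → A) i) ^ k) i.succ le_rfl

/-- Free simple points fill whatever is missing. -/
lemma pure_filler (H U : Submodule ℂ A) (k : ℕ) [hfd : FiniteDimensional ℂ ↥(U ⊔ H ^ k)]
    (ι : Type) [Fintype ι] (h : finrank ℂ ↥(U ⊔ H ^ k) ≤ finrank ℂ U + Fintype.card ι) :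
    ∃ q : ι → A, (∀ i, q i ∈ H) ∧ H ^ k ≤ U ⊔ ⨆ i, (ℂ ∙ q i) ^ k := by
  obtain ⟨q, hq, hfill⟩ := pure_filler_fin H k _ U hfd h
  let e := Fintype.equivFin ι
  refine ⟨fun i => q (e i), fun i => hq _, hfill.trans (sup_le_sup_left ?_ U)⟩
  exact iSup_le fun i => le_iSup_of_le (e.symm i) (by simp)

lemma sup_pow_succ_le (H X : Submodule ℂ A) (m : ℕ) :
    (H ⊔ X) ^ (m + 1) ≤ H ^ (m + 1) ⊔ X * (H ⊔ X) ^ m := by
  induction m with
  | zero => simp
  | succ m ih =>
    rw [pow_succ' (H ⊔ X) (m + 1), Submodule.sup_mul]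
    refine sup_le ?_ le_sup_right
    refine (mul_le_mul_right ih H).trans ?_
    rw [Submodule.mul_sup, ← pow_succ']
    refine sup_le_sup_left ?_ _
    rw [mul_left_comm, pow_succ' (H ⊔ X) m]
    exact mul_le_mul_right (mul_le_mul_left le_sup_left _) X

lemma finrank_iSup_le_sum {ι : Type} [Fintype ι] (U : ι → Submodule ℂ A)
    [∀ i, FiniteDimensional ℂ (U i)] :
    finrank ℂ ↥(⨆ i, U i) ≤ ∑ i, finrank ℂ (U i) := by
  classical
  have key : ∀ s : Finset ι, finrank ℂ ↥(⨆ i ∈ s, U i) ≤ ∑ i ∈ s, finrank ℂ (U i) := by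
    intro s
    induction s using Finset.induction_on with
    | empty => simp
    | insert a s ha ih =>
      rw [Finset.iSup_insert, Finset.sum_insert ha]
      have := Submodule.finrank_add_le_finrank_add_finrank (U a) (⨆ i ∈ s, U i)
      omega
  have := key Finset.univ
  rwa [show (⨆ i ∈ (Finset.univ : Finset ι), U i) = ⨆ i, U i by simp] at this

end Pool.Agent.P.MP_c64be1_ag.Asy
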