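import Pool.Agent.P.MP_c64be1_ag.Asy.BC
import Pool.Agent.P.MP_c64be1_ag.Asy.Deriv

/-! The residual problem of the hyperplane step. -/

namespace Pool.Agent.P.MP_c64be1_ag.Asy

open MvPolynomial Module

private lemma NN_one (m : ℕ) : NN 1 m = 1 := by
  simp [NN]

private lemma res_zero_le {A : Type} [CommRing A] [Algebra ℂ A] {V : Submodule ℂ A} (m : ℕ)
    {c : ℕ → A} (hc : c 0 ∈ V) : res V (m + 1) 0 c ≤ (ℂ ∙ c 0) ^ m * V := by
  refine sup_le ?_ le_rfl
  have h1 : sp c (0 + 1) ≤ ℂ ∙ c 0 := sp_le_iff.mpr fun i hi => by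
    obtain rfl : i = 0 := by omega
    exact Submodule.mem_span_singleton_self _
  refine (pow_le_pow_left' h1 _).trans ?_
  rw [pow_succ]
  exact mul_le_mul_right ((Submodule.span_singleton_le_iff_mem _ _).mpr hc) _

/-- Enough double points span all forms of degree `m + 2`. -/
private lemma double_fill {σ : Type} (t : Finset σ) (ht : 1 ≤ t.card) (m : ℕ) (ι : Type)
    [Fintype ι] (μ : ℕ) (h1 : NN t.card (m + 2) < μ * t.card)
    (h2 : μ + (t.card + 1) ≤ Fintype.card ι) :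
    ∃ p : ι → ↥(VX t), VX t ^ (m + 2) ≤
      ⨆ i, (ℂ ∙ (p i : MvPolynomial σ ℂ)) ^ (m + 1) * VX t := by
  let S : Sys (MvPolynomial σ ℂ) Unit := ⟨fun _ => allIn (VX t), fun _ => res (VX t) (m + 2) 0⟩
  have G : Good S (VX t) (VX t) (m + 2) :=
    { ext := fun _ => ext_res _ _ _
      le := fun _ c hc => res_le (by omega) (fun i _ => mem_allIn.mp hc i) le_rfl
      memV := fun _ _ hc => mem_allIn.mp hc
      memH := fun _ _ hc => mem_allIn.mpr hc
      eqv := fun _ c φ hV _ => (map_res φ _ _ _ c).le.trans (res_mono hV _ _ _) }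
  obtain ⟨U, hU, hfill⟩ := bc_fill t (VX t) le_rfl S (m + 2) G () μ t.card (t.card + 1)
    (by
      obtain ⟨c, hc, hr⟩ := res_lower (Finset.Subset.refl t) (k := m + 2) (j := 0) (by omega)
        (by omega)
      refine ⟨c, hc, le_trans ?_ hr⟩
      rw [zero_add, NN_one]
      omega)
    (fun c _ => by
      have := res_upper t (m + 2) 0 c
      rwa [zero_add, NN_one] at this) h1
  obtain ⟨d, hd⟩ := Nat.exists_eq_add_of_le h2
  obtain ⟨U', hU'⟩ := exists_reach S (Multiset.replicate d ())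
  have hR := reach_add S hU hU'
  rw [← Multiset.replicate_add, ← hd] at hR
  obtain ⟨c, hc, he⟩ := (reach_family S (fun _ : ι => ()) (by simp) _).mp hR
  refine ⟨fun i => ⟨c i 0, mem_allIn.mp (hc i) 0⟩, hfill.trans (le_sup_left.trans (he.le.trans ?_))⟩
  exact iSup_mono fun i => res_zero_le (m + 1) (mem_allIn.mp (hc i) 0)

/-- Double points off the hyperplane span everything modulo the forms on the hyperplane. -/
private lemma res_alpha {σ : Type} [DecidableEq σ] (s : Finset σ) (x : σ) (hx : x ∉ s) (m : ℕ)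
    (ι : Type) [Fintype ι] (μ : ℕ) (h1 : NN (s.card + 1) (m + 2) < μ * (s.card + 1))
    (h2 : μ + (s.card + 2) ≤ Fintype.card ι) :
    ∃ p : ι → MvPolynomial σ ℂ, (∀ i, p i ∈ VX (insert x s)) ∧ VX (insert x s) ^ (m + 3) ≤
      (⨆ i, (ℂ ∙ p i) ^ (m + 2) * VX (insert x s)) ⊔ VX s ^ (m + 3) := by
  have hcard : (insert x s).card = s.card + 1 := Finset.card_insert_of_notMem hx
  have e1 := double_fill (insert x s) (by omega) m ι μ (by rwa [hcard]) (by rwa [hcard])
  let L : ι → ((ι → ↥(VX (insert x s))) →ₗ[ℂ] MvPolynomial σ ℂ) := fun i =>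
    (VX (insert x s)).subtype.comp (LinearMap.proj i)
  have hE : Ext (fun p : ι → ↥(VX (insert x s)) =>
      ⨆ i, (ℂ ∙ (p i : MvPolynomial σ ℂ)) ^ (m + 1) * VX (insert x s)) :=
    Ext.iSup fun i => ((Ext.span (PolyMap.linear (L i))).pow (m + 1)).mul (Ext.const _)
  have o1 := hE.opn_fill (VX (insert x s) ^ (m + 2)) fun p => iSup_le fun i =>
    span_pow_mul_le (k := m + 2) (by omega) (p i).2 le_rfl
  have o2 : Opn (fun p : ι → ↥(VX (insert x s)) =>
      ∀ i, coeff (Finsupp.single x 1) (p i : MvPolynomial σ ℂ) ≠ 0) :=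
    Opn.forall fun i => opn_ne_zero ((lcoeff ℂ (Finsupp.single x 1)).comp (L i))
  obtain ⟨p, hp1, hp2⟩ := o1.exists_and o2 e1
    ⟨fun _ => ⟨X x, X_mem_VX (Finset.mem_insert_self x s)⟩, fun i => by simp⟩
  refine ⟨fun i => p i, fun i => (p i).2, fun w hw => ?_⟩
  have h3 : pderiv x w ∈ (⨆ i, (ℂ ∙ (p i : MvPolynomial σ ℂ)) ^ (m + 2) *
      VX (insert x s)).map (pderiv x).toLinearMap := by
    rw [Submodule.map_iSup]
    exact (hp1.trans (iSup_mono fun i => double_le_map_pderiv (p i).2 hx (hp2 i) (m + 1)))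
      (pderiv_mem_pow x hw)
  obtain ⟨u, hu, hd⟩ := h3
  have hu' : u ∈ VX (insert x s) ^ (m + 3) :=
    (iSup_le fun i => span_pow_mul_le (k := m + 3) (by omega) (p i).2 le_rfl :
      (⨆ i, (ℂ ∙ (p i : MvPolynomial σ ℂ)) ^ (m + 2) * VX (insert x s)) ≤ _) hu
  have h4 : w - u ∈ VX s ^ (m + 3) := by
    refine mem_pow_of_pderiv_eq_zero (sub_mem hw hu') ?_
    rw [map_sub]
    exact sub_eq_zero.mpr hd.symm
  exact Submodule.mem_sup.mpr ⟨u, hu, w - u, h4, by ring⟩

/-- The rank of the residual objects. -/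
private lemma res_beta {σ : Type} [DecidableEq σ] (s : Finset σ) (x : σ) (hx : x ∉ s) {k j : ℕ}
    (hk : 3 ≤ k) (ιO ιB : Type) [Fintype ιO] [Fintype ιB] (f : ℕ)
    (h : ResCond s.card k j (Fintype.card ιO) (Fintype.card ιB) f) :
    ∃ (cO : ιO → ℕ → MvPolynomial σ ℂ) (cB : ιB → ℕ → MvPolynomial σ ℂ),
      (∀ i, cO i ∈ oneOut (VX (insert x s)) (VX s) j) ∧ (∀ i, cB i ∈ allIn (VX s)) ∧
      NN (s.card + 1) k ≤ finrank ℂ ↥((⨆ i, res (VX (insert x s)) k j (cO i)) ⊔
        ⨆ i, res (VX s) k j (cB i)) + f := by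
  have hcard : (insert x s).card = s.card + 1 := Finset.card_insert_of_notMem hx
  obtain ⟨hj, -, h3, h4⟩ := h
  have hH : VX s ≤ VX (insert x s) := VX_mono (Finset.subset_insert x s)
  let S : Sys (MvPolynomial σ ℂ) Bool :=
    ⟨fun b => bif b then oneOut (VX (insert x s)) (VX s) j else allIn (VX s),
      fun b => bif b then res (VX (insert x s)) k j else res (VX s) k j⟩
  have hV : ∀ b, ∀ c ∈ S.Q b, ∀ a, c a ∈ VX (insert x s) := by
    rintro (_ | _) c hc a
    · exact hH (mem_allIn.mp hc a)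
    · by_cases ha : a = j
      · exact ha ▸ (mem_oneOut.mp hc).1
      · exact hH ((mem_oneOut.mp hc).2 a ha)
  have hQ : ∀ b c, (∀ a, c a ∈ VX s) → c ∈ S.Q b := by
    rintro (_ | _) c hc
    · exact mem_allIn.mpr hc
    · exact mem_oneOut.mpr ⟨hH (hc j), fun a _ => hc a⟩
  have G : Good S (VX (insert x s)) (VX s) k :=
    { ext := by
        rintro (_ | _)
        · exact ext_res _ _ _
        · exact ext_res _ _ _
      le := by
        rintro (_ | _) c hc
        · exact res_le (by omega) (fun i _ => hV _ c hc i) hH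
        · exact res_le (by omega) (fun i _ => hV _ c hc i) le_rfl
      memV := hV
      memH := hQ
      eqv := by
        rintro (_ | _) c φ h1 h2
        · exact (map_res φ _ _ _ c).le.trans (res_mono h2 _ _ _)
        · exact (map_res φ _ _ _ c).le.trans (res_mono h1 _ _ _) }
  obtain ⟨U, hU, hr⟩ := bc_rank (insert x s) (VX s) hH S k G
    (fun b => bif b then s.card - j + NN (j + 1) k else s.card - (j + 1) + NN (j + 1) k)
    (s.card + 1 + NN (j + 1) k)
    (Multiset.replicate (Fintype.card ιO) true + Multiset.replicate (Fintype.card ιB) false)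
    (by
      rintro (_ | _) -
      · obtain ⟨c, hc, hr⟩ := res_lower (Finset.Subset.refl s) (k := k) (by omega) hj
        exact ⟨c, hc, hr⟩
      · obtain ⟨c, hc, hr⟩ := res_lower (Finset.subset_insert x s) (k := k) (by omega) hj
        refine ⟨c, hQ _ c (mem_allIn.mp hc), le_trans (le_of_eq ?_) hr⟩
        rw [hcard, Nat.add_sub_add_right]
        rfl)
    (by
      rintro (_ | _) - c -
      · exact (res_upper s k j c).trans (by omega)
      · exact (res_upper (insert x s) k j c).trans (by omega))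
  obtain ⟨U1, U2, hU1, hU2, rfl⟩ := reach_of_add S hU
  obtain ⟨cO, hO, rfl⟩ := (reach_family S (fun _ : ιO => true) (by simp) _).mp hU1
  obtain ⟨cB, hB, rfl⟩ := (reach_family S (fun _ : ιB => false) (by simp) _).mp hU2
  refine ⟨cO, cB, hO, hB, ?_⟩
  change _ ≤ finrank ℂ ↥((⨆ i, S.Obj true (cO i)) ⊔ ⨆ i, S.Obj false (cB i)) + f
  rcases hr with hr | hr
  · simp only [Multiset.map_add, Multiset.map_replicate, Multiset.sum_add, Multiset.sum_replicate,
      smul_eq_mul, cond_true, cond_false] at hr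
    omega
  · rw [finrank_VX_pow] at hr
    rw [sq] at h4
    omega

theorem resFill {σ : Type} [DecidableEq σ] (s : Finset σ) (x : σ) (hx : x ∉ s) {k j : ℕ}
    (hk : 3 ≤ k) (ιO ιB ιF : Type) [Fintype ιO] [Fintype ιB] [Fintype ιF]
    (h : ResCond s.card k j (Fintype.card ιO) (Fintype.card ιB) (Fintype.card ιF)) :
    ∃ (cO : ιO → ℕ → MvPolynomial σ ℂ) (cB : ιB → ℕ → MvPolynomial σ ℂ)
      (q : ιF → MvPolynomial σ ℂ), (∀ i, cO i ∈ oneOut (VX (insert x s)) (VX s) j) ∧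
      (∀ i, cB i ∈ allIn (VX s)) ∧ (∀ i, q i ∈ VX s) ∧
      VX (insert x s) ^ k ≤ ((⨆ i, res (VX (insert x s)) k j (cO i)) ⊔
        ⨆ i, res (VX s) k j (cB i)) ⊔ ⨆ i, (ℂ ∙ q i) ^ k := by
  have hcard : (insert x s).card = s.card + 1 := Finset.card_insert_of_notMem hx
  have hH : VX s ≤ VX (insert x s) := VX_mono (Finset.subset_insert x s)
  obtain ⟨cO', cB', hO', hB', hβ⟩ := res_beta s x hx hk ιO ιB _ h
  obtain ⟨-, ⟨μ, h1, h2⟩, -, -⟩ := h
  obtain ⟨m, rfl⟩ : ∃ m, k = m + 3 := ⟨k - 3, by omega⟩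
  obtain ⟨p, hp, hα⟩ := res_alpha s x hx m ιO μ h1 h2
  let P := (ιO → ↥(oneOut (VX (insert x s)) (VX s) j)) × (ιB → ↥(allIn (VX s)))
  let LO : ιO → (P →ₗ[ℂ] (ℕ → MvPolynomial σ ℂ)) := fun i =>
    (Submodule.subtype _).comp ((LinearMap.proj i).comp (LinearMap.fst ℂ _ _))
  let LB : ιB → (P →ₗ[ℂ] (ℕ → MvPolynomial σ ℂ)) := fun i =>
    (Submodule.subtype _).comp ((LinearMap.proj i).comp (LinearMap.snd ℂ _ _))
  have eO : Ext (fun c : P => ⨆ i, res (VX (insert x s)) (m + 3) j (c.1 i)) :=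
    Ext.iSup fun i => (ext_res _ _ _).comp_linear (LO i)
  have eB : Ext (fun c : P => ⨆ i, res (VX s) (m + 3) j (c.2 i)) :=
    Ext.iSup fun i => (ext_res _ _ _).comp_linear (LB i)
  have lO : ∀ c : P, (⨆ i, res (VX (insert x s)) (m + 3) j (c.1 i)) ≤
      VX (insert x s) ^ (m + 3) := fun c => iSup_le fun i =>
    res_le (by omega) (fun a _ => by
      by_cases ha : a = j
      · exact ha ▸ (mem_oneOut.mp (c.1 i).2).1
      · exact hH ((mem_oneOut.mp (c.1 i).2).2 a ha)) le_rfl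
  have lB : ∀ c : P, (⨆ i, res (VX s) (m + 3) j (c.2 i)) ≤ VX (insert x s) ^ (m + 3) :=
    fun c => iSup_le fun i => res_le (by omega) (fun a _ => hH (mem_allIn.mp (c.2 i).2 a)) hH
  have lH : VX s ^ (m + 3) ≤ VX (insert x s) ^ (m + 3) := pow_le_pow_left' hH _
  have o1 := (eO.sup (Ext.const (VX s ^ (m + 3)))).opn_fill (VX (insert x s) ^ (m + 3))
    fun c => sup_le (lO c) lH
  have o2 := (eO.sup eB).opn_finrank (VX (insert x s) ^ (m + 3)) (fun c => sup_le (lO c) (lB c))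
    (NN (s.card + 1) (m + 3) - Fintype.card ιF)
  obtain ⟨c, hc1, hc2⟩ := o1.exists_and o2
    ⟨(fun i => ⟨Function.update 0 j (p i), mem_oneOut.mpr ⟨by simpa using hp i, fun a ha => by
        simp [Function.update_of_ne ha]⟩⟩, 0),
      hα.trans (sup_le_sup_right (iSup_mono fun i => le_sup_of_le_right (by simp)) _)⟩
    ⟨(fun i => ⟨cO' i, hO' i⟩, fun i => ⟨cB' i, hB' i⟩), Nat.sub_le_iff_le_add.mpr hβ⟩
  have hle : ((⨆ i, res (VX (insert x s)) (m + 3) j (c.1 i)) ⊔
      ⨆ i, res (VX s) (m + 3) j (c.2 i)) ⊔ VX s ^ (m + 3) ≤ VX (insert x s) ^ (m + 3) :=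
    sup_le (sup_le (lO c) (lB c)) lH
  have hfd := Submodule.finiteDimensional_of_le hle
  obtain ⟨q, hq, hfill⟩ := pure_filler (VX s) _ (m + 3) (hfd := hfd) ιF (by
    have h5 := Submodule.finrank_mono hle
    rw [finrank_VX_pow, hcard] at h5
    exact h5.trans (Nat.sub_le_iff_le_add.mp hc2))
  refine ⟨fun i => c.1 i, fun i => c.2 i, q, fun i => (c.1 i).2, fun i => (c.2 i).2, hq,
    hc1.trans (sup_le (le_sup_left.trans le_sup_left) hfill)⟩

end Pool.Agent.P.MP_c64be1_ag.Asy
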