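import Pool.Agent.P.MP_c64be1_ag.Asy.Obj

/-! The linear algebra of the codimension two step for cubics. -/

namespace Pool.Agent.P.MP_c64be1_ag.Asy

open Module

variable {A : Type} [CommRing A] [Algebra ℂ A]

lemma mul_span_le_iff {a : A} {V M : Submodule ℂ A} : V * (ℂ ∙ a) ≤ M ↔ ∀ v ∈ V, v * a ∈ M := by
  rw [mul_comm, span_mul_le_iff]
  simp only [mul_comm]

lemma two_mem {C : Submodule ℂ A} {w : A} (h : 2 * w ∈ C) : w ∈ C := by
  have : (2 : ℂ) • w = 2 * w := by rw [two_smul, two_mul]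
  rw [← this] at h
  exact (C.smul_mem_iff two_ne_zero).mp h

lemma three_mem {C : Submodule ℂ A} {w : A} (h : 3 * w ∈ C) : w ∈ C := by
  have : (3 : ℂ) • w = 3 * w := by
    rw [Algebra.smul_def, map_ofNat]
  rw [← this] at h
  exact (C.smul_mem_iff three_ne_zero).mp h

lemma two_mul_mem {C : Submodule ℂ A} {w : A} (h : w ∈ C) : 2 * w ∈ C := by
  rw [two_mul]
  exact add_mem h h

/-- Slightly tilted slopes still fill. -/
lemma exists_slope (a b : A) (W : Submodule ℂ A) [FiniteDimensional ℂ ↥(W * ((ℂ ∙ a) ⊔ ℂ ∙ b))]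
    {I J : Type} (A1 : I → Submodule ℂ A) (A2 : J → Submodule ℂ A) (F1 F2 T : Submodule ℂ A)
    (hA1 : ∀ i, A1 i ≤ W) (hA2 : ∀ i, A2 i ≤ W) (hF1 : F1 ≤ W) (hF2 : F2 ≤ W) (hT : T ≤ W)
    (l1 : I → ℂ) (l2 : J → ℂ) (h1 : W ≤ ((⨆ i, A1 i) ⊔ F1) ⊔ T) (h2 : W ≤ (⨆ i, A2 i) ⊔ F2) :
    ∃ ε : ℂ, ε ≠ 0 ∧ ∀ C : Submodule ℂ A, (∀ i, A1 i * (ℂ ∙ (a + ε • l1 i • b)) ≤ C) →
      (∀ i, A2 i * (ℂ ∙ (b + ε • l2 i • a)) ≤ C) → F1 * (ℂ ∙ a) ≤ C → F2 * (ℂ ∙ b) ≤ C →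
      T * (ℂ ∙ (a + b)) ≤ C → W * ((ℂ ∙ a) ⊔ ℂ ∙ b) ≤ C := by
  let R : ℂ → Submodule ℂ A := fun ε => ((⨆ i, A1 i * (ℂ ∙ (a + ε • l1 i • b))) ⊔
    ⨆ i, A2 i * (ℂ ∙ (b + ε • l2 i • a))) ⊔ ((F1 * (ℂ ∙ a) ⊔ F2 * (ℂ ∙ b)) ⊔ T * (ℂ ∙ (a + b)))
  have hpm : ∀ u v : A, PolyMap (fun ε : ℂ => u + ε • v) := fun u v =>
    PolyMap.of_line fun c d => ⟨d • v, fun t => by
      simp only [smul_eq_mul]
      module⟩
  have hext : Ext R := ((Ext.iSup fun i => (Ext.const _).mul (Ext.span (hpm _ _))).sup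
    (Ext.iSup fun i => (Ext.const _).mul (Ext.span (hpm _ _)))).sup (Ext.const _)
  have ha : a ∈ (ℂ ∙ a) ⊔ ℂ ∙ b := Submodule.mem_sup_left (Submodule.mem_span_singleton_self a)
  have hb : b ∈ (ℂ ∙ a) ⊔ ℂ ∙ b := Submodule.mem_sup_right (Submodule.mem_span_singleton_self b)
  have hle : ∀ {X : Submodule ℂ A} {u : A}, X ≤ W → u ∈ (ℂ ∙ a) ⊔ ℂ ∙ b →
      X * (ℂ ∙ u) ≤ W * ((ℂ ∙ a) ⊔ ℂ ∙ b) := fun hX hu =>
    mul_le_mul' hX ((Submodule.span_singleton_le_iff_mem _ _).mpr hu)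
  have hR : ∀ ε, R ε ≤ W * ((ℂ ∙ a) ⊔ ℂ ∙ b) := fun ε =>
    sup_le (sup_le (iSup_le fun i => hle (hA1 i)
      (add_mem ha (Submodule.smul_mem _ _ (Submodule.smul_mem _ _ hb))))
      (iSup_le fun i => hle (hA2 i)
      (add_mem hb (Submodule.smul_mem _ _ (Submodule.smul_mem _ _ ha)))))
      (sup_le (sup_le (hle hF1 ha) (hle hF2 hb)) (hle hT (add_mem ha hb)))
  have hb0 : W * (ℂ ∙ b) ≤ R 0 := by
    refine (mul_le_mul_left h2 _).trans ?_
    rw [Submodule.sup_mul, Submodule.iSup_mul]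
    refine sup_le (le_sup_of_le_left (le_sup_of_le_right (iSup_mono fun i => by simp)))
      (le_sup_of_le_right (le_sup_of_le_left le_sup_right))
  have ha0 : W * (ℂ ∙ a) ≤ R 0 := by
    refine (mul_le_mul_left h1 _).trans ?_
    rw [Submodule.sup_mul, Submodule.sup_mul, Submodule.iSup_mul]
    refine sup_le (sup_le (le_sup_of_le_left (le_sup_of_le_left (iSup_mono fun i => by simp)))
      (le_sup_of_le_right (le_sup_of_le_left le_sup_left))) (mul_span_le_iff.mpr fun w hw => ?_)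
    have h3 : w * (a + b) ∈ R 0 := Submodule.mem_sup_right (Submodule.mem_sup_right
      (Submodule.mul_mem_mul hw (Submodule.mem_span_singleton_self _)))
    have h4 : w * b ∈ R 0 := hb0 (Submodule.mul_mem_mul (hT hw)
      (Submodule.mem_span_singleton_self _))
    simpa [mul_add] using sub_mem h3 h4
  obtain ⟨ε, hε, hfill⟩ := (hext.opn_fill _ hR).exists_ne_zero (c := 0)
    (by rw [Submodule.mul_sup]; exact sup_le ha0 hb0) 1
  refine ⟨ε, hε, fun C c1 c2 c3 c4 c5 => hfill.trans ?_⟩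
  rw [zero_add, smul_eq_mul, mul_one]
  exact sup_le (sup_le (iSup_le c1) (iSup_le c2)) (sup_le (sup_le c3 c4) c5)

/-- The limit of three nearly collinear double points. -/
lemma base_lim {V : Submodule ℂ A} {a b z : A} (ha : a ∈ V) (hb : b ∈ V) (hz : z ∈ V)
    {M : ℂ → Submodule ℂ A} (h1 : ∀ t, ∀ v ∈ V, a ^ 2 * v ∈ M t)
    (h2 : ∀ t, ∀ v ∈ V, b ^ 2 * v ∈ M t) (h3 : ∀ t, ∀ v ∈ V, (a + b + t • z) ^ 2 * v ∈ M t) :
    (∀ u ∈ (ℂ ∙ a) ⊔ ℂ ∙ b, ∀ u' ∈ (ℂ ∙ a) ⊔ ℂ ∙ b, ∀ v ∈ V, u * u' * v ∈ Lim M) ∧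
      z ^ 2 * a ∈ Lim M ∧ z ^ 2 * b ∈ Lim M := by
  have hab : ∀ v ∈ V, a * b * v ∈ Lim M := by
    intro v hv
    have hF : (fun t : ℂ => (a + b + t • z) ^ 2 * v - a ^ 2 * v - b ^ 2 * v) ∈ Crv A :=
      crv_sub (crv_sub (crv_mul (crv_pow (crv_line _ _) 2) (crv_const _)) (crv_const _))
        (crv_const _)
    have := mem_lim hF (M := M) fun t _ => sub_mem (sub_mem (h3 t v hv) (h1 t v hv)) (h2 t v hv)
    refine two_mem ?_
    convert this using 1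
    rw [zero_smul]
    ring
  have key : ∀ {a b : A}, a ∈ V → b ∈ V → (∀ t, ∀ v ∈ V, a ^ 2 * v ∈ M t) →
      (∀ t, ∀ v ∈ V, b ^ 2 * v ∈ M t) → (∀ t, ∀ v ∈ V, (a + b + t • z) ^ 2 * v ∈ M t) →
      z ^ 2 * (a + 2 * b) ∈ Lim M := by
    intro a b ha hb h1 h2 h3
    have hF : (fun t : ℂ => z ^ 2 * (a + 2 * b) + t • z ^ 3) ∈ Crv A := crv_line _ _
    have := mem_lim hF (M := M) fun t ht => by
      have e1 := (M t).smul_mem t (sub_mem (sub_mem (h3 t z hz) (h1 t z hz)) (h2 t z hz))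
      have e2 := sub_mem (sub_mem (sub_mem (sub_mem (h3 t a ha) (h1 t a ha)) (h2 t a ha))
        (two_mul_mem (h1 t b hb))) ((M t).smul_mem t (two_mul_mem (h1 t z hz)))
      refine ((M t).smul_mem_iff (pow_ne_zero 2 ht)).mp ?_
      convert sub_mem e1 e2 using 1
      simp only [Algebra.smul_def, map_pow]
      ring
    simpa using this
  have k1 := key ha hb h1 h2 h3
  have k2 := key hb ha h2 h1 (fun t v hv => by rw [add_comm b a]; exact h3 t v hv)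
  refine ⟨fun u hu u' hu' v hv => ?_, three_mem ?_, three_mem ?_⟩
  · obtain ⟨_, h4, _, h5, rfl⟩ := Submodule.mem_sup.mp hu
    obtain ⟨α, rfl⟩ := Submodule.mem_span_singleton.mp h4
    obtain ⟨β, rfl⟩ := Submodule.mem_span_singleton.mp h5
    obtain ⟨_, h6, _, h7, rfl⟩ := Submodule.mem_sup.mp hu'
    obtain ⟨γ, rfl⟩ := Submodule.mem_span_singleton.mp h6
    obtain ⟨δ, rfl⟩ := Submodule.mem_span_singleton.mp h7
    have e1 : a ^ 2 * v ∈ Lim M := mem_lim (crv_const _) fun t _ => h1 t v hv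
    have e2 : b ^ 2 * v ∈ Lim M := mem_lim (crv_const _) fun t _ => h2 t v hv
    convert add_mem (add_mem ((Lim M).smul_mem (α * γ) e1) ((Lim M).smul_mem (β * δ) e2))
      ((Lim M).smul_mem (α * δ + β * γ) (hab v hv)) using 1
    simp only [Algebra.smul_def, map_mul, map_add]
    ring
  · convert sub_mem (two_mul_mem k2) k1 using 1
    ring
  · convert sub_mem (two_mul_mem k1) k2 using 1
    ring

section moving

variable {L U C : Submodule ℂ A}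
  (hC : ∀ u ∈ U, ∀ u' ∈ U, ∀ v ∈ L ⊔ U, u * u' * v ∈ C)

include hC

lemma moving_lin {y u : A} (hu : u ∈ U) (h : ∀ v ∈ L ⊔ U, (y + u) ^ 2 * v ∈ C) {v : A}
    (hv : v ∈ L) : y ^ 2 * v + 2 * (y * v * u) ∈ C := by
  convert sub_mem (h v (Submodule.mem_sup_left hv)) (hC u hu u hu v (Submodule.mem_sup_left hv))
    using 1
  ring

lemma moving_sq {y u : A} (hy : y ∈ L) (hu : u ∈ U) (h : ∀ v ∈ L ⊔ U, (y + u) ^ 2 * v ∈ C) {v : A}
    (hv : v ∈ U) : y ^ 2 * v ∈ C := by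
  convert sub_mem (sub_mem (h v (Submodule.mem_sup_right hv))
    (hC u hu u hu v (Submodule.mem_sup_right hv)))
    (two_mul_mem (hC u hu v hv y (Submodule.mem_sup_left hy))) using 1
  ring

lemma moving_jj {g : ℕ} {y : ℕ → A} {u : A} (hy : ∀ i, y i ∈ L) (hu : u ∈ U)
    (h : ∀ i < g, ∀ v ∈ L ⊔ U, (y i + u) ^ 2 * v ∈ C) : jj 3 g y ≤ C := by
  refine iSup_le fun i => iSup_le fun l => sup_le
    ((Submodule.span_singleton_le_iff_mem _ _).mpr ?_)
    ((Submodule.span_singleton_le_iff_mem _ _).mpr ?_)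
  · convert sub_mem (moving_lin hC hu (h i i.2) (hy i))
      (two_mul_mem (moving_sq hC (hy i) hu (h i i.2) hu)) using 1
    ring
  · convert sub_mem (moving_lin hC hu (h i i.2) (hy l)) (moving_lin hC hu (h l l.2) (hy i)) using 1
    ring

lemma moving_res (hL : L ^ 3 ≤ C) {y u : A} (hy : y ∈ L) (hu : u ∈ U)
    (h : ∀ v ∈ L ⊔ U, (y + u) ^ 2 * v ∈ C) {v : A} (hv : v ∈ L) : y * v * u ∈ C := by
  have h1 : y ^ 2 * v ∈ C := hL (by
    rw [pow_succ]
    exact Submodule.mul_mem_mul (Submodule.pow_mem_pow _ hy 2) hv)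
  refine two_mem ?_
  simpa using sub_mem (moving_lin hC hu h hv) h1

end moving

/-- Products of pairs of points in different groups, and squares. -/
def edges {G : Type} (sz : G → ℕ) (z : G → ℕ → A) : Submodule ℂ A :=
  ⨆ (g : G) (a : Fin (sz g)) (g' : G) (a' : Fin (sz g')) (_ : g ≠ g' ∨ (a : ℕ) = a'),
    ℂ ∙ (z g a * z g' a')

/-- The block obtained by adding the point `p` to the first `j` points of `l`. -/
def blkAdd (V : Submodule ℂ A) (j : ℕ) (l : ℕ → A) (p : A) : Submodule ℂ A :=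
  blk V 3 (j + 1) (Function.update l j p)

lemma blk_le_blkAdd (V : Submodule ℂ A) (j : ℕ) (l : ℕ → A) (p : A) :
    blk V 3 j l ≤ blkAdd V j l p := by
  rw [← blk_congr V 3 (c := Function.update l j p) fun a ha => Function.update_of_ne ha.ne _ _]
  exact blk_le_succ _ _ _ _

lemma sq_mem_blkAdd {V : Submodule ℂ A} (j : ℕ) (l : ℕ → A) (p : A) {v : A} (hv : v ∈ V) :
    p ^ 2 * v ∈ blkAdd V j l p := by
  have := pow_mul_mem_blk 3 (Function.update l j p) (Nat.lt_succ_self j) hv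
  rwa [Function.update_self] at this

lemma mul_mem_blkAdd (V : Submodule ℂ A) (j : ℕ) (l : ℕ → A) (p : A) {w : A}
    (hw : w ∈ sp l j ^ 2) : w * p ∈ blkAdd V j l p := by
  refine sp_pow_le_blk _ _ _ _ ?_
  rw [pow_succ, sp_succ, Function.update_self,
    sp_congr (c := Function.update l j p) fun a ha => Function.update_of_ne ha.ne _ _]
  exact Submodule.mul_mem_mul
    ((pow_le_pow_left' le_sup_left 2 : sp l j ^ 2 ≤ (sp l j ⊔ ℂ ∙ p) ^ 2) hw)
    (Submodule.mem_sup_right (Submodule.mem_span_singleton_self _))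

/-- What one side of moving points contributes once the trace is filled. -/
lemma side_res {L U C : Submodule ℂ A}
    (hC : ∀ u ∈ U, ∀ u' ∈ U, ∀ v ∈ L ⊔ U, u * u' * v ∈ C) (hL : L ^ 3 ≤ C) {a b : A}
    (ha : a ∈ U) (hb : b ∈ U) {G : Type} {sz : G → ℕ} {y : G → ℕ → A} (hy : ∀ g i, y g i ∈ L)
    {j : ℕ} {l : (Σ g, Fin (sz g)) → ℕ → A} (hl : ∀ i n, l i n ∈ L) {μ : G → ℂ}
    (hμ : Function.Injective μ) {ε : ℂ} (hε : ε ≠ 0)
    (h : ∀ i : (Σ g, Fin (sz g)), blkAdd (L ⊔ U) j (l i) (y i.1 i.2 + (a + ε • μ i.1 • b)) ≤ C) :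
    (∀ i : (Σ g, Fin (sz g)),
      ((ℂ ∙ y i.1 i.2) * L ⊔ sp (l i) j ^ 2) * (ℂ ∙ (a + ε • μ i.1 • b)) ≤ C) ∧
      edges sz y * (ℂ ∙ b) ≤ C := by
  have hu : ∀ g, a + ε • μ g • b ∈ U := fun g => add_mem ha (U.smul_mem _ (U.smul_mem _ hb))
  have hsq : ∀ i : (Σ g, Fin (sz g)), ∀ v ∈ L ⊔ U, (y i.1 i.2 + (a + ε • μ i.1 • b)) ^ 2 * v ∈ C :=
    fun i v hv => h i (sq_mem_blkAdd _ _ _ hv)
  refine ⟨fun i => ?_, ?_⟩
  · rw [Submodule.sup_mul, mul_assoc]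
    refine sup_le (span_mul_le_iff.mpr fun w hw => ?_) (mul_span_le_iff.mpr fun w hw => ?_)
    · have : L * (ℂ ∙ (a + ε • μ i.1 • b)) ≤ C.comap (LinearMap.mulLeft ℂ (y i.1 i.2)) :=
        mul_span_le_iff.mpr fun v hv => by
          have := moving_res hC hL (hy _ _) (hu i.1) (hsq i) hv
          rwa [mul_assoc] at this
      exact this hw
    · have h1 := h i (mul_mem_blkAdd _ _ _ _ hw)
      have h2 : w * y i.1 i.2 ∈ C := hL (by
        rw [pow_succ]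
        exact Submodule.mul_mem_mul
          ((pow_le_pow_left' (sp_le_iff.mpr fun n _ => hl i n) 2 : sp (l i) j ^ 2 ≤ L ^ 2) hw)
          (hy _ _))
      rw [mul_add] at h1
      simpa using sub_mem h1 h2
  · simp only [edges, Submodule.iSup_mul]
    refine iSup_le fun g => iSup_le fun n => iSup_le fun g' => iSup_le fun n' =>
      iSup_le fun hne => span_mul_le_iff.mpr fun w hw => ?_
    obtain ⟨t, rfl⟩ := Submodule.mem_span_singleton.mp hw
    rw [mul_smul_comm]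
    refine C.smul_mem t ?_
    by_cases hg : g = g'
    · subst hg
      have hn : (n : ℕ) = n' := hne.resolve_left (fun h => h rfl)
      rw [← hn, ← pow_two]
      exact moving_sq hC (hy _ _) (hu g) (hsq ⟨g, n⟩) hb
    · have h1 := moving_res hC hL (hy _ _) (hu g) (hsq ⟨g, n⟩) (hy g' n')
      have h2 := moving_res hC hL (hy _ _) (hu g') (hsq ⟨g', n'⟩) (hy g n)
      refine (C.smul_mem_iff (mul_ne_zero hε (sub_ne_zero.mpr fun h => hg (hμ h)))).mp ?_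
      convert sub_mem h1 h2 using 1
      simp only [Algebra.smul_def, map_mul, map_sub]
      ring

end Pool.Agent.P.MP_c64be1_ag.Asy
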